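import Mathlib

set_option autoImplicit false

open CategoryTheory CategoryTheory.Limits AlgebraicGeometry MvPolynomial

namespace Pool.Agent.Helper924.HS

/-- The homogeneous coordinate ring of projective 3-space over `R`. -/
abbrev S (R : Type) [CommRing R] := MvPolynomial (Fin 4) R

/-- The homogeneous coordinate ring of the projective line over `R`. -/
abbrev A2 (R : Type) [CommRing R] := MvPolynomial (Fin 2) R

/-- 2 by 2 matrices. -/
abbrev M2 (R : Type) := Matrix (Fin 2) (Fin 2) R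

/-- Homogeneous ideals of `R[x_0, ..., x_3]`. -/
def IsHom {R : Type} [CommRing R] (I : Ideal (S R)) : Prop :=
  ∀ F ∈ I, ∀ n, homogeneousComponent n F ∈ I

/-- The irrelevant ideal `(x_0, ..., x_3)`. -/
noncomputable def irr (R : Type) [CommRing R] : Ideal (S R) := Ideal.span (Set.range X)

/-- The degree `m` part of `R[x_0, ..., x_3] / I`. -/
noncomputable def grPart (R : Type) [CommRing R] (I : Ideal (S R)) (m : ℕ) :
    Submodule R (S R ⧸ I) :=
  (homogeneousSubmodule (Fin 4) R m).map (Ideal.Quotient.mkₐ R I).toLinearMap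

/-- The flat families over `Spec R` of closed subschemes of projective 3-space with Hilbert
polynomial `d t + 1 - g`. A closed subscheme is given by its saturated homogeneous ideal `I`, and
the condition is that the degree `m` part of `R[x_0, ..., x_3] / I` is locally free of rank
`d m + 1 - g` for all large `m`. -/
def HilbFam (d : ℕ) (g : ℤ) (R : Type) [CommRing R] : Set (Ideal (S R)) :=
  {I | IsHom I ∧ (∀ F : S R, (∀ i, X i * F ∈ I) → F ∈ I) ∧
    ∃ m0 : ℕ, ∀ m ≥ m0, Module.Projective R (grPart R I m) ∧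
      ∀ p : PrimeSpectrum R, (Module.rankAtStalk (R := R) (grPart R I m) p : ℤ) = d * m + 1 - g}

/-- The saturation of an ideal. -/
noncomputable def satur (R : Type) [CommRing R] (I : Ideal (S R)) : Ideal (S R) :=
  ⨆ N : ℕ, I.colon ((irr R ^ N : Ideal (S R)) : Set (S R))

/-- The `R`-valued points of a `ℚ`-scheme `s : H ⟶ Spec ℚ`. -/
def PointsOver (H : Scheme.{0}) (s : H ⟶ Spec (CommRingCat.of ℚ)) (R : Type) [CommRing R]
    [Algebra ℚ R] : Type :=
  {f : Spec (CommRingCat.of R) ⟶ H // f ≫ s = Spec.map (CommRingCat.ofHom (algebraMap ℚ R))}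

/-- The Hilbert scheme of closed subschemes of projective 3-space with Hilbert polynomial
`d t + 1 - g`: a `ℚ`-scheme `H` with bijections, natural in the `ℚ`-algebra `R`, between the
`R`-valued points of `H` and the flat families over `Spec R` of such subschemes. -/
structure HilbP3 (d : ℕ) (g : ℤ) where
  H : Scheme.{0}
  s : H ⟶ Spec (CommRingCat.of ℚ)
  Φ : ∀ (R : Type) [CommRing R] [Algebra ℚ R], PointsOver H s R ≃ HilbFam d g R
  natural : ∀ (R R' : Type) [CommRing R] [Algebra ℚ R] [CommRing R'] [Algebra ℚ R']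
    (φ : R →ₐ[ℚ] R') (f : PointsOver H s R) (f' : PointsOver H s R'),
      f'.1 = Spec.map (CommRingCat.ofHom φ.toRingHom) ≫ f.1 →
        (Φ R' f').1 = satur R' ((Φ R f).1.map (MvPolynomial.map (σ := Fin 4) φ.toRingHom))

/-- The base change `Hilb ×_{Spec ℚ} Spec K` to a field `K`. -/
noncomputable abbrev bcH {d : ℕ} {g : ℤ} (𝓗 : HilbP3 d g) (K : Type) [Field K] [Algebra ℚ K] :
    Scheme :=
  pullback 𝓗.s (Spec.map (CommRingCat.ofHom (algebraMap ℚ K)))

/-- The action of a field automorphism `σ` on `Hilb ×_{Spec ℚ} Spec K` through the second factor.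
(With the inverse of `σ` on the spectrum, so that a point with ideal `I` goes to the point
with ideal `σ(I)`.) -/
noncomputable def galAct {d : ℕ} {g : ℤ} (𝓗 : HilbP3 d g) {K : Type} [Field K] [Algebra ℚ K]
    (σ : K ≃ₐ[ℚ] K) : bcH 𝓗 K ⟶ bcH 𝓗 K :=
  pullback.map _ _ _ _ (𝟙 𝓗.H) (Spec.map (CommRingCat.ofHom (σ.symm : K →+* K))) (𝟙 _)
    (by simp) (by
      rw [Category.comp_id, ← Spec.map_comp, ← CommRingCat.ofHom_comp]
      congr 2
      ext x
      simp)

/-- The morphism `Spec K ⟶ Hilb ×_{Spec ℚ} Spec K` over `Spec K` given by a `K`-valued point `f`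
of the Hilbert scheme over `ℚ`. -/
noncomputable def secOf {d : ℕ} {g : ℤ} (𝓗 : HilbP3 d g) {K : Type} [Field K] [Algebra ℚ K]
    (f : PointsOver 𝓗.H 𝓗.s K) : Spec (CommRingCat.of K) ⟶ bcH 𝓗 K :=
  pullback.lift f.1 (𝟙 _) (by rw [Category.id_comp]; exact f.2)

/-- The point of the scheme `Hilb ×_{Spec ℚ} Spec K` given by a `K`-valued point `f`. -/
noncomputable def ptOf {d : ℕ} {g : ℤ} (𝓗 : HilbP3 d g) {K : Type} [Field K] [Algebra ℚ K]
    (f : PointsOver 𝓗.H 𝓗.s K) : bcH 𝓗 K :=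
  secOf 𝓗 f (⟨⊥, Ideal.isPrime_bot⟩ : PrimeSpectrum K)

section curve
variable {K : Type} [Field K]

/-- Restriction of forms to the line `{(x_0,x_1,x_2,x_3) | (x_2,x_3) = L (x_0,x_1)}`. -/
noncomputable def rho (L : M2 K) : S K →ₐ[K] A2 K :=
  aeval ![X 0, X 1, C (L 0 0) * X 0 + C (L 0 1) * X 1, C (L 1 0) * X 0 + C (L 1 1) * X 1]

/-- The ideal of the line `{(x_2,x_3) = L (x_0,x_1)}`. -/
noncomputable def lineI (L : M2 K) : Ideal (S K) := RingHom.ker (rho L)

/-- `F ↦ F(x_0, x_1, L (x_0,x_1) + ε (g, f))` with `ε ^ 2 = 0`. -/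
noncomputable def theta (L : M2 K) (g f : A2 K) : S K →ₐ[K] DualNumber (A2 K) :=
  aeval ![TrivSqZeroExt.inl (X 0), TrivSqZeroExt.inl (X 1),
    TrivSqZeroExt.inl (C (L 0 0) * X 0 + C (L 0 1) * X 1) + TrivSqZeroExt.inr g,
    TrivSqZeroExt.inl (C (L 1 0) * X 0 + C (L 1 1) * X 1) + TrivSqZeroExt.inr f]

/-- The ideal of the double structure on the line of `L` in the direction `(g, f)`. -/
noncomputable def ribI (L : M2 K) (g f : A2 K) : Ideal (S K) := RingHom.ker (theta L g f)

end curve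

/-- Data for a union of `r` double lines and `s` simple lines in projective 3-space: the lines
given by the matrices `A i` are doubled in the direction `(g i, f i)`, where `g i` and `f i` are
to be forms of degree `a i + 1`; the simple lines are given by the matrices `N j`. -/
structure Cfg (k : Type) [Field k] (r s : ℕ) where
  A : Fin r → M2 k
  N : Fin s → M2 k
  a : Fin r → ℕ
  g : Fin r → A2 k
  f : Fin r → A2 k

/-- The ideal of the union of the double lines and the simple lines. -/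
noncomputable def Cfg.J {k : Type} [Field k] {r s : ℕ} (c : Cfg k r s) : Ideal (S k) :=
  (⨅ i, ribI (c.A i) (c.g i) (c.f i)) ⊓ ⨅ j, lineI (c.N j)

section data
variable {F : Type} [Field F]

/-- The nine double lines `(x_2,x_3) = A_i (x_0,x_1)`; `w` is a primitive third root of unity. -/
noncomputable def AA (w : F) : Fin 9 → M2 F :=
  ![!![1, 0; 1, 0],
    (3 : F)⁻¹ • !![4, 2; -2, -1],
    !![1, 2; 0, 0],
    !![-1, -1; 2, 2],
    (2 : F)⁻¹ • !![1, -1; -1, 1],
    (7 : F)⁻¹ • !![-1 + 2 * w, 1 + 5 * w; 6 + 2 * w, 8 - 2 * w],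
    (13 : F)⁻¹ • !![1 - 3 * w, -7 - 5 * w; 2 + 7 * w, 12 + 3 * w],
    (3 : F)⁻¹ • !![1, 2 + 2 * w; -w, 2],
    !![0, 0; 0, 1]]

/-- The ten simple lines `(x_2,x_3) = N_k (x_0,x_1)`. -/
noncomputable def NN (w : F) : Fin 10 → M2 F :=
  ![!![-1, -1; -3, -2],
    (9 : F)⁻¹ • !![1, 6; -2, -3],
    (7 : F)⁻¹ • !![-1 + 2 * w, -3 - w; 6 + 2 * w, 11 + 6 * w],
    (19 : F)⁻¹ • !![3 + 5 * w, -4 + 6 * w; -2 + 3 * w, 9 - 4 * w],
    (14 : F)⁻¹ • !![3 + w, 7 + 7 * w; -4 + w, -7 * w],
    (5 : F)⁻¹ • !![1 + w, -1 - 2 * w; 2 - w, -w],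
    (15 : F)⁻¹ • !![1 - w, 7 + 5 * w; 1 + 5 * w, -2 - w],
    !![1, 2; 1, 3],
    !![0, 0; 0, 0],
    !![1, 0; 0, 1]]

/-- The curves used: nine double lines and ten simple lines, given by the matrices `AA w` and
`NN w`. The double structure on the line `A_i` is given by forms `g_i, f_i` of degree `102 + i`
without common zero. Whenever a simple line `N_j` meets `A_i`, the plane spanned at the
intersection point by the double structure is the plane of the two lines. -/
structure IsCurve (w : F) (c : Cfg F 9 10) : Prop where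
  hA : c.A = AA w
  hN : c.N = NN w
  ha : ∀ i, c.a i = 101 + (i : ℕ)
  hg : ∀ i, (c.g i).IsHomogeneous (c.a i + 1)
  hf : ∀ i, (c.f i).IsHomogeneous (c.a i + 1)
  cop : ∀ i, ∃ M, ∀ m ≥ M, ∀ p : A2 F, p.IsHomogeneous m → p ∈ Ideal.span {c.g i, c.f i}
  tan : ∀ i j, (c.A i - c.N j).det = 0 → ∃ δ l : Fin 2 → F,
      c.N j - c.A i = Matrix.vecMulVec δ l ∧
      C (l 0) * X 0 + C (l 1) * X 1 ∣ C (δ 0) * c.f i - C (δ 1) * c.g i

end data

end Pool.Agent.Helper924.HS
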