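import Mathlib
import Pool.Agent.Helper924.HS.Stmt

set_option autoImplicit false

open MvPolynomial

namespace Pool.Agent.Helper924.HS

section field
variable {K : Type} [Field K]

/-- The forms of degree `m` in the ideal `I`. -/
noncomputable def dg (I : Ideal (S K)) (m : ℕ) : Submodule K (S K) :=
  I.restrictScalars K ⊓ homogeneousSubmodule (Fin 4) K m

/-- The Hilbert function of `S / I`. -/
noncomputable def hf (I : Ideal (S K)) (m : ℕ) : ℕ :=
  Module.finrank K (homogeneousSubmodule (Fin 4) K m) - Module.finrank K (dg I m)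

/-- The inclusion `K[x_0,x_1] → K[x_0,...,x_3]`. -/
noncomputable def inc2 : A2 K →ₐ[K] S K := aeval ![X 0, X 1]

/-- `S / I` is torsion free over `K[x_0,x_1]`. -/
def TF (I : Ideal (S K)) : Prop := ∀ h : A2 K, h ≠ 0 → ∀ F : S K, inc2 h * F ∈ I → F ∈ I

/-- `S / I` is finite over `K[x_0,x_1]`. -/
def FIN (I : Ideal (S K)) : Prop :=
  ∃ N : ℕ, irr K ^ N ≤ I ⊔ Ideal.span {X 0, X 1}

end field

section sp
variable (V : Type) {K k : Type} [CommRing V] [Field K] [Field k] [Algebra V K] [Algebra V k]

/-- The specialisation of an ideal of `K[x_0,...,x_3]` to the residue field `k` of the valuation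
ring `V` of `K`: all reductions of the elements of the ideal with coefficients in `V`. -/
noncomputable def sp (k : Type) [Field k] [Algebra V k] (I : Ideal (S K)) : Ideal (S k) :=
  (I.comap (MvPolynomial.map (σ := Fin 4) (algebraMap V K))).map
    (MvPolynomial.map (σ := Fin 4) (algebraMap V k))

end sp

end Pool.Agent.Helper924.HS
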