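import Mathlib
import Pool.Agent.Helper924.HS.Defs

set_option autoImplicit false

open MvPolynomial

namespace Pool.Agent.Helper924.HS

section basic
variable {K : Type} [Field K]

instance finite_hom (m : ℕ) : Module.Finite K (homogeneousSubmodule (Fin 4) K m) :=
  Module.Finite.iff_fg.2 (homogeneousSubmodule_fg (σ := Fin 4) (R := K) m)

instance finite_dg (I : Ideal (S K)) (m : ℕ) : Module.Finite K (dg I m) :=
  Submodule.finiteDimensional_of_le (S₂ := homogeneousSubmodule (Fin 4) K m) inf_le_right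

lemma hf_add (I : Ideal (S K)) (m : ℕ) :
    Module.finrank K (dg I m) + hf I m = Module.finrank K (homogeneousSubmodule (Fin 4) K m) := by
  have h : Module.finrank K (dg I m) ≤ Module.finrank K (homogeneousSubmodule (Fin 4) K m) :=
    Submodule.finrank_mono inf_le_right
  unfold hf
  omega

lemma j12322_dg_mono {I J : Ideal (S K)} (h : I ≤ J) (m : ℕ) : dg I m ≤ dg J m :=
  inf_le_inf_right _ (fun x hx => h hx)

lemma hf_anti {I J : Ideal (S K)} (h : I ≤ J) (m : ℕ) : hf J m ≤ hf I m :=
  Nat.sub_le_sub_left (Submodule.finrank_mono (j12322_dg_mono h m)) _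

lemma hf_lt_of_mem {I J : Ideal (S K)} (h : I ≤ J) {m : ℕ} {F : S K} (hF : F.IsHomogeneous m)
    (h1 : F ∈ J) (h2 : F ∉ I) : hf J m < hf I m := by
  have hlt : dg I m < dg J m := by
    refine lt_of_le_of_ne (j12322_dg_mono h m) fun he => h2 ?_
    have h3 : F ∈ dg J m := ⟨h1, hF⟩
    rw [← he] at h3
    exact h3.1
  have h4 := Submodule.finrank_lt_finrank_of_lt hlt
  have h5 := hf_add I m
  have h6 := hf_add J m
  omega

lemma hf_congr_high {I J : Ideal (S K)} {m : ℕ}
    (h : ∀ F : S K, F.IsHomogeneous m → (F ∈ I ↔ F ∈ J)) : hf I m = hf J m := by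
  have he : dg I m = dg J m := by
    ext F
    constructor
    · rintro ⟨h1, h2⟩
      exact ⟨(h F h2).1 h1, h2⟩
    · rintro ⟨h1, h2⟩
      exact ⟨(h F h2).2 h1, h2⟩
  unfold hf
  rw [he]

lemma hf_ker {R : Type} [CommRing R] [Algebra K R] (φ : S K →ₐ[K] R) (m : ℕ) :
    hf (RingHom.ker φ) m =
      Module.finrank K ((homogeneousSubmodule (Fin 4) K m).map φ.toLinearMap) := by
  set f := φ.toLinearMap.domRestrict (homogeneousSubmodule (Fin 4) K m) with hf'
  have h1 := LinearMap.finrank_range_add_finrank_ker f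
  have h2 : (LinearMap.ker f).map (homogeneousSubmodule (Fin 4) K m).subtype =
      dg (RingHom.ker φ) m := by
    ext F
    constructor
    · rintro ⟨⟨x, hx⟩, hx', rfl⟩
      exact ⟨hx', hx⟩
    · rintro ⟨h3, h4⟩
      exact ⟨⟨F, h4⟩, h3, rfl⟩
  have h3 : Module.finrank K (LinearMap.ker f) = Module.finrank K (dg (RingHom.ker φ) m) := by
    rw [← h2, Submodule.finrank_map_subtype_eq]
  have h4 : LinearMap.range f = (homogeneousSubmodule (Fin 4) K m).map φ.toLinearMap :=
    LinearMap.range_domRestrict _ _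
  have h5 := hf_add (RingHom.ker φ) m
  have h6 := h1.trans h5.symm
  rw [h3, h4] at h6
  omega

lemma hf_eq_zero {I : Ideal (S K)} {N : ℕ} (h : irr K ^ N ≤ I) {m : ℕ} (hm : N ≤ m) :
    hf I m = 0 := by
  have he : dg I m = homogeneousSubmodule (Fin 4) K m := by
    refine le_antisymm inf_le_right fun F hF => ⟨?_, hF⟩
    apply h
    have h1 : irr K = idealOfVars (Fin 4) K := rfl
    rw [h1, mem_pow_idealOfVars_iff']
    intro x hx
    exact IsHomogeneous.coeff_eq_zero hF (by omega)
  unfold hf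
  rw [he, Nat.sub_self]

lemma hf_inf_sup {I J : Ideal (S K)} (hI : IsHom I) (hJ : IsHom J) (m : ℕ) :
    hf (I ⊓ J) m + hf (I ⊔ J) m = hf I m + hf J m := by
  have h1 : dg (I ⊓ J) m = dg I m ⊓ dg J m := by
    ext F
    simp only [dg, Submodule.mem_inf, Submodule.restrictScalars_mem]
    tauto
  have h2 : dg (I ⊔ J) m = dg I m ⊔ dg J m := by
    apply le_antisymm
    · intro F hF
      obtain ⟨hF1, hF2⟩ := hF
      rw [SetLike.mem_coe, Submodule.restrictScalars_mem] at hF1
      obtain ⟨a, ha, b, hb, hab⟩ := Submodule.mem_sup.1 hF1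
      have h3 : homogeneousComponent m F = F := by
        rw [homogeneousComponent_of_mem hF2, if_pos rfl]
      rw [← h3, ← hab, map_add]
      exact Submodule.add_mem_sup ⟨hI a ha m, homogeneousComponent_mem m a⟩
        ⟨hJ b hb m, homogeneousComponent_mem m b⟩
    · refine sup_le ?_ ?_
      · intro F hF
        exact ⟨(le_sup_left : I ≤ I ⊔ J) hF.1, hF.2⟩
      · intro F hF
        exact ⟨(le_sup_right : J ≤ I ⊔ J) hF.1, hF.2⟩
  have h3 := Submodule.finrank_sup_add_finrank_inf_eq (dg I m) (dg J m)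
  rw [← h1, ← h2] at h3
  have e1 := hf_add (I ⊓ J) m
  have e2 := hf_add (I ⊔ J) m
  have e3 := hf_add I m
  have e4 := hf_add J m
  omega

attribute [local instance] MvPolynomial.gradedAlgebra in
lemma j12327_isHom_iff833 {I : Ideal (S K)} :
    IsHom I ↔ I.IsHomogeneous (homogeneousSubmodule (Fin 4) K) := by
  constructor
  · intro h i F hF
    have h1 := h F hF i
    rw [← MvPolynomial.decomposition.decompose'_apply] at h1
    exact h1
  · intro h F hF n
    have h1 := h n hF
    rw [← MvPolynomial.decomposition.decompose'_apply]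
    exact h1

attribute [local instance] MvPolynomial.gradedAlgebra in
lemma j12327_comp_mul833 (G F : S K) (m n : ℕ) (hF : F.IsHomogeneous n) :
    homogeneousComponent (m + n) (G * F) = homogeneousComponent m G * F := by
  have h := DirectSum.coe_decompose_mul_add_of_right_mem (homogeneousSubmodule (Fin 4) K) (a := G)
    (i := m) ((mem_homogeneousSubmodule n F).2 hF)
  rw [← MvPolynomial.decomposition.decompose'_apply, ← MvPolynomial.decomposition.decompose'_apply]
  exact h

attribute [local instance] MvPolynomial.gradedAlgebra in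
lemma isHom_inf {I J : Ideal (S K)} (hI : IsHom I) (hJ : IsHom J) : IsHom (I ⊓ J) := by
  exact j12327_isHom_iff833.2 (Ideal.IsHomogeneous.inf (j12327_isHom_iff833.1 hI) (j12327_isHom_iff833.1 hJ))

attribute [local instance] MvPolynomial.gradedAlgebra in
lemma isHom_iInf {ι : Type} {I : ι → Ideal (S K)} (hI : ∀ i, IsHom (I i)) :
    IsHom (⨅ i, I i) := by
  exact j12327_isHom_iff833.2 (Ideal.IsHomogeneous.iInf (fun i => j12327_isHom_iff833.1 (hI i)))

attribute [local instance] MvPolynomial.gradedAlgebra in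
lemma isHom_sup {I J : Ideal (S K)} (hI : IsHom I) (hJ : IsHom J) : IsHom (I ⊔ J) := by
  exact j12327_isHom_iff833.2 (Ideal.IsHomogeneous.sup (j12327_isHom_iff833.1 hI) (j12327_isHom_iff833.1 hJ))

attribute [local instance] MvPolynomial.gradedAlgebra in
lemma isHom_mul {I J : Ideal (S K)} (hI : IsHom I) (hJ : IsHom J) : IsHom (I * J) := by
  exact j12327_isHom_iff833.2 (Ideal.IsHomogeneous.mul (j12327_isHom_iff833.1 hI) (j12327_isHom_iff833.1 hJ))

attribute [local instance] MvPolynomial.gradedAlgebra in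
lemma isHom_radical {I : Ideal (S K)} (hI : IsHom I) : IsHom I.radical := by
  exact j12327_isHom_iff833.2 (Ideal.IsHomogeneous.radical (j12327_isHom_iff833.1 hI))

lemma isHom_colon {I : Ideal (S K)} (hI : IsHom I) {J : Ideal (S K)} (hJ : IsHom J) :
    IsHom (I.colon (J : Set (S K))) := by
  intro G hG m
  rw [Submodule.mem_colon] at hG ⊢
  intro s hs
  rw [smul_eq_mul, ← sum_homogeneousComponent s, Finset.mul_sum]
  refine Ideal.sum_mem _ fun k _ => ?_
  have h1 : homogeneousComponent k s ∈ J := hJ s hs k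
  have h2 := hI _ (hG _ h1) (m + k)
  rw [smul_eq_mul, j12327_comp_mul833 _ _ m k (homogeneousComponent_isHomogeneous k s)] at h2
  exact h2

lemma isHom_colon_singleton {I : Ideal (S K)} (hI : IsHom I) {F : S K} {n : ℕ}
    (hF : F.IsHomogeneous n) : IsHom (I.colon {F}) := by
  intro G hG m
  rw [Submodule.mem_colon_singleton] at hG ⊢
  have h2 := hI _ hG (m + n)
  rw [smul_eq_mul, j12327_comp_mul833 _ _ m n hF] at h2
  rw [smul_eq_mul]
  exact h2

attribute [local instance] MvPolynomial.gradedAlgebra in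
lemma isHom_span {s : Set (S K)} (hs : ∀ F ∈ s, ∃ n, F.IsHomogeneous n) :
    IsHom (Ideal.span s) := by
  apply j12327_isHom_iff833.2
  apply Ideal.homogeneous_span
  intro F hF
  obtain ⟨n, hn⟩ := hs F hF
  exact ⟨n, (mem_homogeneousSubmodule n F).2 hn⟩

lemma isHom_ker {R : Type} [CommRing R] [Algebra K R] (φ : S K →ₐ[K] R)
    (gr : ℕ → Submodule K R)
    (hgr : ∀ s : Finset ℕ, ∀ v : ℕ → R, (∀ n, v n ∈ gr n) → ∑ n ∈ s, v n = 0 → ∀ n ∈ s, v n = 0)
    (h : ∀ n, ∀ F : S K, F.IsHomogeneous n → φ F ∈ gr n) : IsHom (RingHom.ker φ) := by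
  intro F hF n
  rw [RingHom.mem_ker] at hF ⊢
  have h1 : ∑ i ∈ Finset.range (F.totalDegree + 1), φ (homogeneousComponent i F) = 0 := by
    rw [← map_sum, sum_homogeneousComponent]
    exact hF
  have h2 := hgr (Finset.range (F.totalDegree + 1)) (fun i => φ (homogeneousComponent i F))
    (fun i => h i _ (homogeneousComponent_isHomogeneous i F)) h1
  by_cases hn : n ∈ Finset.range (F.totalDegree + 1)
  · exact h2 n hn
  · have h3 : homogeneousComponent n F = 0 := by
      apply homogeneousComponent_eq_zero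
      rw [Finset.mem_range] at hn
      omega
    rw [h3]
    exact map_zero _

lemma isHom_irr : IsHom (irr K) := by
  apply isHom_span
  rintro _ ⟨i, rfl⟩
  exact ⟨1, isHomogeneous_X K i⟩

/-- homogeneous ideals are determined by their homogeneous elements -/
lemma le_of_hom {I J : Ideal (S K)} (hI : IsHom I)
    (h : ∀ n, ∀ F : S K, F.IsHomogeneous n → F ∈ I → F ∈ J) : I ≤ J := by
  intro F hF
  rw [← sum_homogeneousComponent F]
  exact Ideal.sum_mem _ fun n _ => h n _ (homogeneousComponent_isHomogeneous n F) (hI F hF n)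

lemma j12333_isHom_top_aux : IsHom (⊤ : Ideal (S K)) := fun _ _ _ => trivial

lemma j12333_isHom_finset_inf {ι : Type} {I : ι → Ideal (S K)} (hI : ∀ i, IsHom (I i)) (s : Finset ι) :
    IsHom (s.inf I) := by
  classical
  induction s using Finset.induction_on with
  | empty => rw [Finset.inf_empty]; exact j12333_isHom_top_aux
  | insert a s _ ih => rw [Finset.inf_insert]; exact isHom_inf (hI a) ih

lemma j12333_hf_top_aux (m : ℕ) : hf (⊤ : Ideal (S K)) m = 0 :=
  hf_eq_zero (N := 0) le_top (Nat.zero_le m)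

lemma hf_iInf_le {ι : Type} [Fintype ι] {I : ι → Ideal (S K)} (hI : ∀ i, IsHom (I i)) (m : ℕ) :
    hf (⨅ i, I i) m ≤ ∑ i, hf (I i) m := by
  classical
  have key : ∀ s : Finset ι, hf (s.inf I) m ≤ ∑ i ∈ s, hf (I i) m := by
    intro s
    induction s using Finset.induction_on with
    | empty => rw [Finset.inf_empty, j12333_hf_top_aux]; simp
    | insert a s ha ih =>
      rw [Finset.inf_insert, Finset.sum_insert ha]
      have := hf_inf_sup (hI a) (j12333_isHom_finset_inf hI s) m
      omega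
  have h := key Finset.univ
  rwa [Finset.inf_univ_eq_iInf] at h

lemma j12333_comax_aux {R : Type*} [CommRing R] (A B P : Ideal R) :
    (A ⊔ B) * (A ⊔ P) ≤ A ⊔ B ⊓ P := by
  rw [Ideal.sup_mul, Ideal.mul_sup B]
  refine sup_le ?_ (sup_le ?_ ?_)
  · exact le_trans (Ideal.mul_le_left (I := A) (J := A ⊔ P)) le_sup_left
  · exact le_trans (Ideal.mul_le_right (I := B) (J := A)) le_sup_left
  · exact le_trans (Ideal.mul_le_inf (I := B) (J := P)) le_sup_right

lemma j12333_comax_finset_inf {ι : Type} {I : ι → Ideal (S K)} (a : ι) (s : Finset ι)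
    (h : ∀ j ∈ s, ∃ N : ℕ, irr K ^ N ≤ I a ⊔ I j) : ∃ N : ℕ, irr K ^ N ≤ I a ⊔ s.inf I := by
  classical
  induction s using Finset.induction_on with
  | empty => exact ⟨0, by rw [Finset.inf_empty, sup_top_eq]; exact le_top⟩
  | insert b s _ ih =>
    obtain ⟨N1, hN1⟩ := h b (Finset.mem_insert_self b s)
    obtain ⟨N2, hN2⟩ := ih (fun j hj => h j (Finset.mem_insert_of_mem hj))
    refine ⟨N1 + N2, ?_⟩
    rw [pow_add, Finset.inf_insert]
    refine (Ideal.mul_mono hN1 hN2).trans ?_
    exact j12333_comax_aux _ _ _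

/-- pairwise comaximal (outside the irrelevant ideal) families -/
lemma hf_iInf_eq {ι : Type} [Fintype ι] {I : ι → Ideal (S K)} (hI : ∀ i, IsHom (I i))
    (h : ∀ i j, i ≠ j → ∃ N : ℕ, irr K ^ N ≤ I i ⊔ I j) :
    ∃ m0, ∀ m ≥ m0, hf (⨅ i, I i) m = ∑ i, hf (I i) m := by
  classical
  have key : ∀ s : Finset ι, ∃ m0, ∀ m ≥ m0, hf (s.inf I) m = ∑ i ∈ s, hf (I i) m := by
    intro s
    induction s using Finset.induction_on with
    | empty => exact ⟨0, fun m _ => by rw [Finset.inf_empty, j12333_hf_top_aux]; simp⟩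
    | insert a s ha ih =>
      obtain ⟨m0, hm0⟩ := ih
      obtain ⟨N, hN⟩ := j12333_comax_finset_inf (I := I) a s
        (fun j hj => h a j (fun h => ha (h ▸ hj)))
      refine ⟨max m0 N, fun m hm => ?_⟩
      rw [Finset.inf_insert, Finset.sum_insert ha]
      have h1 := hf_inf_sup (hI a) (j12333_isHom_finset_inf hI s) m
      have h2 := hm0 m ((le_max_left _ _).trans hm)
      have h3 := hf_eq_zero hN ((le_max_right _ _).trans hm)
      omega
  obtain ⟨m0, h0⟩ := key Finset.univ
  refine ⟨m0, fun m hm => ?_⟩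
  have h1 := h0 m hm
  rwa [Finset.inf_univ_eq_iInf] at h1

lemma hf_inf_eq {I J : Ideal (S K)} (hI : IsHom I) (hJ : IsHom J) (m : ℕ) :
    hf (I ⊓ J) m = hf I m + hf J m - hf (I ⊔ J) m := by
  have := hf_inf_sup hI hJ m
  omega

end basic


end Pool.Agent.Helper924.HS
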