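import Mathlib
import Pool.Agent.Helper924.HS.Basic

set_option autoImplicit false

open MvPolynomial

namespace Pool.Agent.Helper924.HS

section line
variable {K : Type} [Field K]

lemma rho_inc2 (L : M2 K) (h : A2 K) : rho L (inc2 h) = h := by
  have : (rho L).comp inc2 = AlgHom.id K (A2 K) := by
    apply MvPolynomial.algHom_ext
    intro i
    rw [AlgHom.comp_apply, AlgHom.id_apply]
    unfold inc2 rho
    rw [aeval_X]
    fin_cases i
    · simp
    · simp
  exact DFunLike.congr_fun this h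

/-- the two linear forms of the line -/
noncomputable def lin2 (L : M2 K) : S K := X 2 - (C (L 0 0) * X 0 + C (L 0 1) * X 1)

noncomputable def lin3 (L : M2 K) : S K := X 3 - (C (L 1 0) * X 0 + C (L 1 1) * X 1)

lemma j12426_rho_X0 (L : M2 K) : rho L (X 0) = X 0 := by
  unfold rho
  rw [aeval_X]
  rfl

lemma j12426_rho_X1 (L : M2 K) : rho L (X 1) = X 1 := by
  unfold rho
  rw [aeval_X]
  rfl

lemma j12426_rho_X2 (L : M2 K) : rho L (X 2) = C (L 0 0) * X 0 + C (L 0 1) * X 1 := by
  unfold rho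
  rw [aeval_X]
  rfl

lemma j12426_rho_X3 (L : M2 K) : rho L (X 3) = C (L 1 0) * X 0 + C (L 1 1) * X 1 := by
  unfold rho
  rw [aeval_X]
  rfl

lemma j12426_rho_C (L : M2 K) (a : K) : rho L (C a) = C a := by
  unfold rho
  rw [algHom_C]
  rfl

lemma j12426_inc2_C (a : K) : inc2 (C a) = C a := by
  unfold inc2
  rw [algHom_C]
  rfl

lemma j12426_inc2_X0 : inc2 (K := K) (X 0) = X 0 := by
  unfold inc2
  rw [aeval_X]
  rfl

lemma j12426_inc2_X1 : inc2 (K := K) (X 1) = X 1 := by
  unfold inc2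
  rw [aeval_X]
  rfl

lemma j12426_rho_lin2 (L L' : M2 K) : rho L' (lin2 L) =
    C ((L' - L) 0 0) * X 0 + C ((L' - L) 0 1) * X 1 := by
  unfold lin2
  rw [map_sub, map_add, map_mul, map_mul, j12426_rho_X0, j12426_rho_X1, j12426_rho_X2, j12426_rho_C, j12426_rho_C,
    Matrix.sub_apply, Matrix.sub_apply, C_sub, C_sub]
  ring

lemma j12426_rho_lin3 (L L' : M2 K) : rho L' (lin3 L) =
    C ((L' - L) 1 0) * X 0 + C ((L' - L) 1 1) * X 1 := by
  unfold lin3
  rw [map_sub, map_add, map_mul, map_mul, j12426_rho_X0, j12426_rho_X1, j12426_rho_X3, j12426_rho_C, j12426_rho_C,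
    Matrix.sub_apply, Matrix.sub_apply, C_sub, C_sub]
  ring

lemma j12426_lin2_mem (L : M2 K) : lin2 L ∈ lineI L := by
  change rho L (lin2 L) = 0
  rw [j12426_rho_lin2, sub_self]
  simp

lemma j12426_lin3_mem (L : M2 K) : lin3 L ∈ lineI L := by
  change rho L (lin3 L) = 0
  rw [j12426_rho_lin3, sub_self]
  simp

lemma lineI_eq_span (L : M2 K) : lineI L = Ideal.span {lin2 L, lin3 L} := by
  apply le_antisymm
  · intro F hF
    have hF' : rho L F = 0 := hF
    have h2 : lin2 L ∈ Ideal.span {lin2 L, lin3 L} := Ideal.subset_span (by simp)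
    have h3 : lin3 L ∈ Ideal.span {lin2 L, lin3 L} := Ideal.subset_span (by simp)
    have key : (Ideal.Quotient.mkₐ K (Ideal.span {lin2 L, lin3 L})) =
        ((Ideal.Quotient.mkₐ K (Ideal.span {lin2 L, lin3 L})).comp inc2).comp (rho L) := by
      apply MvPolynomial.algHom_ext
      intro i
      rw [AlgHom.comp_apply, AlgHom.comp_apply, Ideal.Quotient.mkₐ_eq_mk, Ideal.Quotient.eq]
      fin_cases i
      · change X 0 - inc2 (rho L (X 0)) ∈ _
        rw [j12426_rho_X0, j12426_inc2_X0, sub_self]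
        exact Ideal.zero_mem _
      · change X 1 - inc2 (rho L (X 1)) ∈ _
        rw [j12426_rho_X1, j12426_inc2_X1, sub_self]
        exact Ideal.zero_mem _
      · change X 2 - inc2 (rho L (X 2)) ∈ _
        rw [j12426_rho_X2, map_add, map_mul, map_mul, j12426_inc2_C, j12426_inc2_C, j12426_inc2_X0, j12426_inc2_X1]
        exact h2
      · change X 3 - inc2 (rho L (X 3)) ∈ _
        rw [j12426_rho_X3, map_add, map_mul, map_mul, j12426_inc2_C, j12426_inc2_C, j12426_inc2_X0, j12426_inc2_X1]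
        exact h3
    have h := DFunLike.congr_fun key F
    rw [AlgHom.comp_apply, AlgHom.comp_apply, hF', map_zero, map_zero,
      Ideal.Quotient.mkₐ_eq_mk, Ideal.Quotient.eq_zero_iff_mem] at h
    exact h
  · rw [Ideal.span_le]
    rintro x (rfl | rfl)
    · exact j12426_lin2_mem L
    · exact j12426_lin3_mem L

lemma lineI_isPrime (L : M2 K) : (lineI L).IsPrime := by
  unfold lineI
  exact RingHom.ker_isPrime _

lemma rho_isHomogeneous (L : M2 K) {F : S K} {m : ℕ} (hF : F.IsHomogeneous m) :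
    (rho L F).IsHomogeneous m := by
  have h := hF.aeval (n := 1) (S := K)
    ![(X 0 : A2 K), X 1, C (L 0 0) * X 0 + C (L 0 1) * X 1, C (L 1 0) * X 0 + C (L 1 1) * X 1]
    (by
      intro i
      have h0 : ∀ a b : K, (C a * X 0 + C b * X 1 : A2 K).IsHomogeneous 1 := fun a b =>
        (isHomogeneous_C_mul_X a 0).add (isHomogeneous_C_mul_X b 1)
      fin_cases i
      · exact isHomogeneous_X _ _
      · exact isHomogeneous_X _ _
      · exact h0 _ _
      · exact h0 _ _)
  rw [one_mul] at h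
  exact h

lemma inc2_isHomogeneous {h : A2 K} {m : ℕ} (hF : h.IsHomogeneous m) :
    (inc2 h).IsHomogeneous m := by
  have h := hF.aeval (n := 1) (S := K) ![(X 0 : S K), X 1]
    (by
      intro i
      fin_cases i
      · exact isHomogeneous_X _ _
      · exact isHomogeneous_X _ _)
  rw [one_mul] at h
  exact h

lemma j12426_lin2_isHomogeneous (L : M2 K) : (lin2 L).IsHomogeneous 1 :=
  (isHomogeneous_X _ _).sub
    ((isHomogeneous_C_mul_X (L 0 0) 0).add (isHomogeneous_C_mul_X (L 0 1) 1))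

lemma j12426_lin3_isHomogeneous (L : M2 K) : (lin3 L).IsHomogeneous 1 :=
  (isHomogeneous_X _ _).sub
    ((isHomogeneous_C_mul_X (L 1 0) 0).add (isHomogeneous_C_mul_X (L 1 1) 1))

lemma lineI_isHom (L : M2 K) : IsHom (lineI L) := by
  rw [lineI_eq_span]
  apply isHom_span
  rintro F (rfl | rfl)
  · exact ⟨1, j12426_lin2_isHomogeneous L⟩
  · exact ⟨1, j12426_lin3_isHomogeneous L⟩

/-- monomials of degree `m` in two variables -/
noncomputable def j12426_degEquiv (m : ℕ) : {d : Fin 2 →₀ ℕ // d.degree = m} ≃ Fin (m + 1) where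
  toFun d := ⟨d.1 0, by
    have h := d.2
    rw [Finsupp.degree_eq_sum, Fin.sum_univ_two] at h
    omega⟩
  invFun i := ⟨Finsupp.single 0 i.1 + Finsupp.single 1 (m - i.1), by
    rw [map_add, Finsupp.degree_single, Finsupp.degree_single]
    have := i.2
    omega⟩
  left_inv := by
    rintro ⟨d, hd⟩
    apply Subtype.ext
    have h := hd
    rw [Finsupp.degree_eq_sum, Fin.sum_univ_two] at h
    ext j
    fin_cases j
    · simp
    · simp
      omega
  right_inv := by
    intro i
    apply Fin.ext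
    simp

lemma j12426_finrank_hom2 (m : ℕ) : Module.finrank K (homogeneousSubmodule (Fin 2) K m) = m + 1 := by
  rw [homogeneousSubmodule_eq_finsupp_supported]
  rw [(AddMonoidAlgebra.supportedEquivFinsupp (R := K) (S := K)
    {d : Fin 2 →₀ ℕ | d.degree = m}).finrank_eq]
  refine (Finsupp.domLCongr (M := K) (R := K) (j12426_degEquiv m)).finrank_eq.trans ?_
  rw [Module.finrank_finsupp_self, Fintype.card_fin]

lemma hf_lineI (L : M2 K) (m : ℕ) : hf (lineI L) m = m + 1 := by
  unfold lineI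
  have hk := hf_ker (rho L) m
  rw [← j12426_finrank_hom2 (K := K) m]
  refine hk.trans ?_
  have : (homogeneousSubmodule (Fin 4) K m).map (rho L).toLinearMap =
      homogeneousSubmodule (Fin 2) K m := by
    apply le_antisymm
    · rintro _ ⟨F, hF, rfl⟩
      exact rho_isHomogeneous L hF
    · intro h hh
      exact ⟨inc2 h, inc2_isHomogeneous hh, rho_inc2 L h⟩
  rw [this]

lemma j12426_linform_eq_zero {a b : K} (h : (C a * X 0 + C b * X 1 : A2 K) = 0) : a = 0 ∧ b = 0 := by
  have h0 := congrArg (coeff (Finsupp.single 0 1)) h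
  have h1 := congrArg (coeff (Finsupp.single 1 1)) h
  simp only [coeff_add, coeff_C_mul, coeff_X, coeff_zero] at h0 h1
  have e : ¬ (Finsupp.single (0 : Fin 2) 1 : Fin 2 →₀ ℕ) = Finsupp.single 1 1 := by
    intro h
    have := DFunLike.congr_fun h 0
    simp at this
  have e' : ¬ (Finsupp.single (1 : Fin 2) 1 : Fin 2 →₀ ℕ) = Finsupp.single 0 1 := fun h => e h.symm
  rw [if_pos trivial, if_neg e', mul_zero, mul_one, add_zero] at h0
  rw [if_pos trivial, if_neg e, mul_zero, mul_one, zero_add] at h1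
  exact ⟨h0, h1⟩

lemma lineI_le_iff (L L' : M2 K) : lineI L ≤ lineI L' ↔ L = L' := by
  constructor
  · intro h
    have h2 : rho L' (lin2 L) = 0 := h (j12426_lin2_mem L)
    have h3 : rho L' (lin3 L) = 0 := h (j12426_lin3_mem L)
    rw [j12426_rho_lin2] at h2
    rw [j12426_rho_lin3] at h3
    obtain ⟨h00, h01⟩ := j12426_linform_eq_zero h2
    obtain ⟨h10, h11⟩ := j12426_linform_eq_zero h3
    rw [Matrix.sub_apply, sub_eq_zero] at h00 h01 h10 h11
    ext i j
    fin_cases i <;> fin_cases j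
    · exact h00.symm
    · exact h01.symm
    · exact h10.symm
    · exact h11.symm
  · rintro rfl
    exact le_rfl

lemma TF_lineI (L : M2 K) : TF (lineI L) := by
  intro h hh F hF
  have hF' : rho L (inc2 h * F) = 0 := hF
  rw [map_mul, rho_inc2] at hF'
  exact (mul_eq_zero.1 hF').resolve_left hh

lemma FIN_lineI (L : M2 K) : FIN (lineI L) := by
  refine ⟨1, ?_⟩
  rw [pow_one]
  unfold irr
  rw [Ideal.span_le]
  have h0 : (X 0 : S K) ∈ lineI L ⊔ Ideal.span {X 0, X 1} :=
    Ideal.mem_sup_right (Ideal.subset_span (by simp))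
  have h1 : (X 1 : S K) ∈ lineI L ⊔ Ideal.span {X 0, X 1} :=
    Ideal.mem_sup_right (Ideal.subset_span (by simp))
  have h2 : (X 2 : S K) ∈ lineI L ⊔ Ideal.span {X 0, X 1} := by
    have e : (X 2 : S K) = lin2 L + (C (L 0 0) * X 0 + C (L 0 1) * X 1) := by
      unfold lin2
      ring
    rw [e]
    exact Ideal.add_mem _ (Ideal.mem_sup_left (j12426_lin2_mem L))
      (Ideal.add_mem _ (Ideal.mul_mem_left _ _ h0) (Ideal.mul_mem_left _ _ h1))
  have h3 : (X 3 : S K) ∈ lineI L ⊔ Ideal.span {X 0, X 1} := by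
    have e : (X 3 : S K) = lin3 L + (C (L 1 0) * X 0 + C (L 1 1) * X 1) := by
      unfold lin3
      ring
    rw [e]
    exact Ideal.add_mem _ (Ideal.mem_sup_left (j12426_lin3_mem L))
      (Ideal.add_mem _ (Ideal.mul_mem_left _ _ h0) (Ideal.mul_mem_left _ _ h1))
  rintro _ ⟨i, rfl⟩
  fin_cases i
  · exact h0
  · exact h1
  · exact h2
  · exact h3

lemma irr_le_sup_lineI {L L' : M2 K} (h : (L - L').det ≠ 0) : irr K ≤ lineI L ⊔ lineI L' := by
  rw [Matrix.det_fin_two] at h
  simp only [Matrix.sub_apply] at h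
  set d := (L 0 0 - L' 0 0) * (L 1 1 - L' 1 1) - (L 0 1 - L' 0 1) * (L 1 0 - L' 1 0) with hd
  have m2 : lin2 L ∈ lineI L ⊔ lineI L' := Ideal.mem_sup_left (j12426_lin2_mem L)
  have m3 : lin3 L ∈ lineI L ⊔ lineI L' := Ideal.mem_sup_left (j12426_lin3_mem L)
  have m2' : lin2 L' ∈ lineI L ⊔ lineI L' := Ideal.mem_sup_right (j12426_lin2_mem L')
  have m3' : lin3 L' ∈ lineI L ⊔ lineI L' := Ideal.mem_sup_right (j12426_lin3_mem L')
  have e2 : lin2 L' - lin2 L = C (L 0 0 - L' 0 0) * X 0 + C (L 0 1 - L' 0 1) * X 1 := by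
    unfold lin2
    rw [C_sub, C_sub]
    ring
  have e3 : lin3 L' - lin3 L = C (L 1 0 - L' 1 0) * X 0 + C (L 1 1 - L' 1 1) * X 1 := by
    unfold lin3
    rw [C_sub, C_sub]
    ring
  have n2 := Ideal.sub_mem _ m2' m2
  have n3 := Ideal.sub_mem _ m3' m3
  rw [e2] at n2
  rw [e3] at n3
  have hdC : (C d⁻¹ * C d : S K) = 1 := by
    rw [← C_mul, inv_mul_cancel₀ h, C_1]
  have h0 : (X 0 : S K) ∈ lineI L ⊔ lineI L' := by
    have e : (X 0 : S K) = C d⁻¹ * (C (L 1 1 - L' 1 1) *
        (C (L 0 0 - L' 0 0) * X 0 + C (L 0 1 - L' 0 1) * X 1) - C (L 0 1 - L' 0 1) *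
        (C (L 1 0 - L' 1 0) * X 0 + C (L 1 1 - L' 1 1) * X 1)) := by
      have : (C d : S K) = C (L 0 0 - L' 0 0) * C (L 1 1 - L' 1 1) -
          C (L 0 1 - L' 0 1) * C (L 1 0 - L' 1 0) := by
        rw [hd, C_sub, C_mul, C_mul]
      rw [this] at hdC
      linear_combination -(X 0 : S K) * hdC
    rw [e]
    exact Ideal.mul_mem_left _ _ (Ideal.sub_mem _ (Ideal.mul_mem_left _ _ n2)
      (Ideal.mul_mem_left _ _ n3))
  have h1 : (X 1 : S K) ∈ lineI L ⊔ lineI L' := by
    have e : (X 1 : S K) = C d⁻¹ * (C (L 0 0 - L' 0 0) *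
        (C (L 1 0 - L' 1 0) * X 0 + C (L 1 1 - L' 1 1) * X 1) - C (L 1 0 - L' 1 0) *
        (C (L 0 0 - L' 0 0) * X 0 + C (L 0 1 - L' 0 1) * X 1)) := by
      have : (C d : S K) = C (L 0 0 - L' 0 0) * C (L 1 1 - L' 1 1) -
          C (L 0 1 - L' 0 1) * C (L 1 0 - L' 1 0) := by
        rw [hd, C_sub, C_mul, C_mul]
      rw [this] at hdC
      linear_combination -(X 1 : S K) * hdC
    rw [e]
    exact Ideal.mul_mem_left _ _ (Ideal.sub_mem _ (Ideal.mul_mem_left _ _ n3)
      (Ideal.mul_mem_left _ _ n2))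
  have h2 : (X 2 : S K) ∈ lineI L ⊔ lineI L' := by
    have e : (X 2 : S K) = lin2 L + (C (L 0 0) * X 0 + C (L 0 1) * X 1) := by
      unfold lin2
      ring
    rw [e]
    exact Ideal.add_mem _ m2
      (Ideal.add_mem _ (Ideal.mul_mem_left _ _ h0) (Ideal.mul_mem_left _ _ h1))
  have h3 : (X 3 : S K) ∈ lineI L ⊔ lineI L' := by
    have e : (X 3 : S K) = lin3 L + (C (L 1 0) * X 0 + C (L 1 1) * X 1) := by
      unfold lin3
      ring
    rw [e]
    exact Ideal.add_mem _ m3
      (Ideal.add_mem _ (Ideal.mul_mem_left _ _ h0) (Ideal.mul_mem_left _ _ h1))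
  unfold irr
  rw [Ideal.span_le]
  rintro _ ⟨i, rfl⟩
  fin_cases i
  · exact h0
  · exact h1
  · exact h2
  · exact h3

/-- the linear form on a line cut out by another line meeting it -/
lemma rho_map_lineI_of_det_eq_zero {L L' : M2 K} (h : (L - L').det = 0) (hne : L ≠ L') :
    ∃ l : Fin 2 → K, l ≠ 0 ∧
      (lineI L).map (rho L' : S K →+* A2 K) = Ideal.span {C (l 0) * X 0 + C (l 1) * X 1} ∧
      ∃ δ : Fin 2 → K, δ ≠ 0 ∧ L' - L = Matrix.vecMulVec δ l := by
  have hD : ∃ l δ : Fin 2 → K, l ≠ 0 ∧ δ ≠ 0 ∧ L' - L = Matrix.vecMulVec δ l := by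
    have hdet : (L' - L) 0 0 * (L' - L) 1 1 - (L' - L) 0 1 * (L' - L) 1 0 = 0 := by
      rw [← Matrix.det_fin_two]
      have : L' - L = -(L - L') := by abel
      rw [this, Matrix.det_neg, h, mul_zero]
    have hne' : L' - L ≠ 0 := fun h => hne (sub_eq_zero.1 h).symm
    set D := L' - L with hDdef
    by_cases h00 : D 0 0 = 0
    · by_cases h01 : D 0 1 = 0
      · refine ⟨![D 1 0, D 1 1], ![0, 1], ?_, ?_, ?_⟩
        · intro hl
          apply hne'
          have a0 := congrFun hl 0
          have a1 := congrFun hl 1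
          simp at a0 a1
          ext i j
          fin_cases i <;> fin_cases j
          · exact h00
          · exact h01
          · exact a0
          · exact a1
        · intro hδ
          have := congrFun hδ 1
          simp at this
        · ext i j
          fin_cases i <;> fin_cases j
          · simp [Matrix.vecMulVec_apply, h00]
          · simp [Matrix.vecMulVec_apply, h01]
          · simp [Matrix.vecMulVec_apply]
          · simp [Matrix.vecMulVec_apply]
      · refine ⟨![D 0 0, D 0 1], ![1, D 1 1 / D 0 1], ?_, ?_, ?_⟩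
        · intro hl
          have := congrFun hl 1
          exact h01 this
        · intro hδ
          have := congrFun hδ 0
          simp at this
        · ext i j
          fin_cases i <;> fin_cases j
          · simp [Matrix.vecMulVec_apply]
          · simp [Matrix.vecMulVec_apply]
          · simp [Matrix.vecMulVec_apply, h00]
            rw [h00, zero_mul, zero_sub, neg_eq_zero] at hdet
            exact (mul_eq_zero.1 hdet).resolve_left h01
          · simp [Matrix.vecMulVec_apply]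
            field_simp
    · refine ⟨![D 0 0, D 0 1], ![1, D 1 0 / D 0 0], ?_, ?_, ?_⟩
      · intro hl
        have := congrFun hl 0
        exact h00 this
      · intro hδ
        have := congrFun hδ 0
        simp at this
      · ext i j
        fin_cases i <;> fin_cases j
        · simp [Matrix.vecMulVec_apply]
        · simp [Matrix.vecMulVec_apply]
        · simp [Matrix.vecMulVec_apply]
          field_simp
        · simp [Matrix.vecMulVec_apply]
          field_simp
          linear_combination hdet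
  obtain ⟨l, δ, hl, hδ, hD⟩ := hD
  refine ⟨l, hl, ?_, δ, hδ, hD⟩
  have r2 : rho L' (lin2 L) = C (δ 0) * (C (l 0) * X 0 + C (l 1) * X 1) := by
    rw [j12426_rho_lin2, hD, Matrix.vecMulVec_apply, Matrix.vecMulVec_apply, C_mul, C_mul]
    ring
  have r3 : rho L' (lin3 L) = C (δ 1) * (C (l 0) * X 0 + C (l 1) * X 1) := by
    rw [j12426_rho_lin3, hD, Matrix.vecMulVec_apply, Matrix.vecMulVec_apply, C_mul, C_mul]
    ring
  rw [lineI_eq_span, Ideal.map_span, Set.image_pair]
  change Ideal.span {rho L' (lin2 L), rho L' (lin3 L)} = _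
  rw [r2, r3]
  apply le_antisymm
  · rw [Ideal.span_le]
    rintro x (rfl | rfl)
    · exact Ideal.mul_mem_left _ _ (Ideal.subset_span rfl)
    · exact Ideal.mul_mem_left _ _ (Ideal.subset_span rfl)
  · rw [Ideal.span_le]
    rintro x rfl
    have hδ' : δ 0 ≠ 0 ∨ δ 1 ≠ 0 := by
      by_contra hcon
      push Not at hcon
      apply hδ
      ext i
      fin_cases i
      · exact hcon.1
      · exact hcon.2
    rcases hδ' with h0 | h0
    · have e : (C (l 0) * X 0 + C (l 1) * X 1 : A2 K) =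
          C (δ 0)⁻¹ * (C (δ 0) * (C (l 0) * X 0 + C (l 1) * X 1)) := by
        rw [← mul_assoc, ← C_mul, inv_mul_cancel₀ h0, C_1, one_mul]
      have hm := Ideal.mul_mem_left (Ideal.span {C (δ 0) * (C (l 0) * X 0 + C (l 1) * X 1),
        C (δ 1) * (C (l 0) * X 0 + C (l 1) * X 1)}) (C (δ 0)⁻¹ : A2 K)
        (Ideal.subset_span (Set.mem_insert _ _))
      rw [← e] at hm
      exact hm
    · have e : (C (l 0) * X 0 + C (l 1) * X 1 : A2 K) =
          C (δ 1)⁻¹ * (C (δ 1) * (C (l 0) * X 0 + C (l 1) * X 1)) := by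
        rw [← mul_assoc, ← C_mul, inv_mul_cancel₀ h0, C_1, one_mul]
      have hm := Ideal.mul_mem_left (Ideal.span {C (δ 0) * (C (l 0) * X 0 + C (l 1) * X 1),
        C (δ 1) * (C (l 0) * X 0 + C (l 1) * X 1)}) (C (δ 1)⁻¹ : A2 K)
        (Ideal.subset_span (Set.mem_insert_of_mem _ rfl))
      rw [← e] at hm
      exact hm

/-- number of incident pairs -/
noncomputable def incN {r s : ℕ} (L : Fin r → M2 K) (M : Fin s → M2 K) : ℕ :=
  Nat.card {x : Fin r × Fin s // (L x.1 - M x.2).det = 0}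

lemma j12430_ub_hom_mem_pow {σ : Type} {n e : ℕ} {F : MvPolynomial σ K} (hF : F.IsHomogeneous n)
    (he : e ≤ n) : F ∈ (Ideal.span (Set.range X) : Ideal (MvPolynomial σ K)) ^ e := by
  rw [show (Ideal.span (Set.range X) : Ideal (MvPolynomial σ K)) = idealOfVars σ K from rfl,
    mem_pow_idealOfVars_iff]
  intro x hx
  have h1 : Finsupp.weight 1 x = n := hF (mem_support_iff.1 hx)
  have h2 : Finsupp.degree x = Finsupp.weight 1 x := by
    rw [Finsupp.degree_eq_weight_one]
    rfl
  rw [h2, h1]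
  exact he

lemma j12430_ub_hc_mul {σ : Type} {a t : MvPolynomial σ K} {n m : ℕ} (ht : t.IsHomogeneous n)
    (hm : n ≤ m) : homogeneousComponent m (a * t) = homogeneousComponent (m - n) a * t := by
  classical
  have h1 : homogeneousComponent m (a * t) =
      ∑ i ∈ Finset.range (a.totalDegree + 1),
        homogeneousComponent m (homogeneousComponent i a * t) := by
    conv_lhs => rw [← sum_homogeneousComponent (φ := a)]
    rw [Finset.sum_mul, map_sum]
  have h2 : ∀ i, homogeneousComponent m (homogeneousComponent i a * t) =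
      if m - n = i then homogeneousComponent (m - n) a * t else 0 := by
    intro i
    have h3 : (homogeneousComponent i a * t).IsHomogeneous (i + n) :=
      (homogeneousComponent_isHomogeneous i a).mul ht
    rw [homogeneousComponent_of_mem h3]
    by_cases h : m = i + n
    · have h' : m - n = i := by omega
      rw [if_pos h, if_pos h', h']
    · have h' : ¬ m - n = i := by omega
      rw [if_neg h, if_neg h']
  rw [h1, Finset.sum_congr rfl (fun i _ => h2 i), Finset.sum_ite_eq]
  split_ifs with h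
  · rfl
  · rw [Finset.mem_range, not_lt] at h
    rw [homogeneousComponent_eq_zero _ _ (by omega), zero_mul]

lemma j12430_ub_high_mem {I : Ideal (S K)} (hI : IsHom I) (N : ℕ) :
    ∃ m0, ∀ m ≥ m0, ∀ F : S K, F.IsHomogeneous m → F ∈ I → F ∈ irr K ^ N * I := by
  classical
  obtain ⟨G, hG⟩ := (IsNoetherian.noetherian I : I.FG)
  let D := G.sup (fun g => g.totalDegree)
  let T : Set (S K) := {F | F ∈ I ∧ ∃ n ≤ D, F.IsHomogeneous n}
  have hGT : ∀ g ∈ G, g ∈ Ideal.span T := by
    intro g hg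
    have hgI : g ∈ I := by
      rw [← hG]
      exact Submodule.subset_span hg
    rw [← sum_homogeneousComponent (φ := g)]
    apply Submodule.sum_mem
    intro i hi
    apply Submodule.subset_span
    refine ⟨hI g hgI i, i, ?_, homogeneousComponent_isHomogeneous i g⟩
    have h1 : g.totalDegree ≤ D := Finset.le_sup (f := fun g : S K => g.totalDegree) hg
    have h2 := Finset.mem_range.1 hi
    omega
  have hIT : ∀ F ∈ I, F ∈ Ideal.span T := by
    intro F hF
    rw [← hG] at hF
    exact (Submodule.span_le.2 hGT : Submodule.span (S K) (G : Set (S K)) ≤ Ideal.span T) hF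
  have key : ∀ F ∈ Ideal.span T, ∀ a : S K, ∀ m ≥ D + N,
      homogeneousComponent m (a * F) ∈ irr K ^ N * I := by
    intro F hF
    induction hF using Submodule.span_induction with
    | mem t ht =>
      intro a m hm
      obtain ⟨htI, n, hn, htn⟩ := ht
      rw [j12430_ub_hc_mul htn (by omega)]
      exact Ideal.mul_mem_mul (j12430_ub_hom_mem_pow (homogeneousComponent_isHomogeneous _ _) (by omega)) htI
    | zero => intro a m _; simp
    | add x y _ _ hx hy =>
      intro a m hm
      rw [mul_add, map_add]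
      exact Ideal.add_mem _ (hx a m hm) (hy a m hm)
    | smul b x _ hx =>
      intro a m hm
      rw [smul_eq_mul, ← mul_assoc]
      exact hx (a * b) m hm
  refine ⟨D + N, fun m hm F hF hFI => ?_⟩
  have h1 := key F (hIT F hFI) 1 m hm
  rw [one_mul, homogeneousComponent_eq_self hF] at h1
  exact h1

lemma j12430_ub_mul_sup_le (A B C : Ideal (S K)) : (A ⊔ B) * (A ⊔ C) ≤ A ⊔ (B ⊓ C) := by
  rw [Ideal.sup_mul, Ideal.mul_sup, Ideal.mul_sup]
  refine sup_le (sup_le ?_ ?_) (sup_le ?_ ?_)
  · exact Ideal.mul_le_left.trans le_sup_left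
  · exact Ideal.mul_le_left.trans le_sup_left
  · exact Ideal.mul_le_right.trans le_sup_left
  · exact Ideal.mul_le_inf.trans le_sup_right

lemma j12430_ub_inf_step {Q I J : Ideal (S K)} (hQ : IsHom Q) (hI : IsHom I) (hJ : IsHom J)
    (h : ∃ N : ℕ, irr K ^ N ≤ I ⊔ J) :
    ∃ m0, ∀ m ≥ m0, hf (Q ⊔ (I ⊓ J)) m ≤ hf (Q ⊔ I) m + hf (Q ⊔ J) m := by
  obtain ⟨N, hN⟩ := h
  have hX : IsHom ((Q ⊔ I) ⊓ (Q ⊔ J)) := isHom_inf (isHom_sup hQ hI) (isHom_sup hQ hJ)
  obtain ⟨m0, hm0⟩ := j12430_ub_high_mem hX N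
  refine ⟨m0, fun m hm => ?_⟩
  have h1 : irr K ^ N * ((Q ⊔ I) ⊓ (Q ⊔ J)) ≤ Q ⊔ (I ⊓ J) := by
    refine (Ideal.mul_mono_left hN).trans ?_
    rw [Ideal.sup_mul]
    refine sup_le ?_ ?_
    · refine (Ideal.mul_mono_right inf_le_right).trans ?_
      rw [Ideal.mul_sup]
      exact sup_le (Ideal.mul_le_right.trans le_sup_left) (Ideal.mul_le_inf.trans le_sup_right)
    · refine (Ideal.mul_mono_right inf_le_left).trans ?_
      rw [Ideal.mul_sup]
      refine sup_le (Ideal.mul_le_right.trans le_sup_left) (Ideal.mul_le_inf.trans ?_)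
      rw [inf_comm]
      exact le_sup_right
  have h2 : hf (Q ⊔ (I ⊓ J)) m = hf ((Q ⊔ I) ⊓ (Q ⊔ J)) m := by
    apply hf_congr_high
    intro F hF
    constructor
    · intro hF1
      exact (le_inf (sup_le_sup_left inf_le_left Q) (sup_le_sup_left inf_le_right Q)) hF1
    · intro hF1
      exact h1 (hm0 m hm F hF hF1)
  have h3 := hf_inf_sup (isHom_sup hQ hI) (isHom_sup hQ hJ) m
  omega

lemma j12430_ub_irr_biInf {ι : Type} (A : Ideal (S K)) (I : ι → Ideal (S K)) (T : Finset ι)
    (h : ∀ k ∈ T, ∃ N : ℕ, irr K ^ N ≤ A ⊔ I k) : ∃ N : ℕ, irr K ^ N ≤ A ⊔ ⨅ k ∈ T, I k := by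
  classical
  induction T using Finset.induction_on with
  | empty => exact ⟨0, by simp⟩
  | insert a T _ ih =>
    obtain ⟨N1, h1⟩ := h a (Finset.mem_insert_self a T)
    obtain ⟨N2, h2⟩ := ih fun k hk => h k (Finset.mem_insert_of_mem hk)
    refine ⟨N1 + N2, ?_⟩
    rw [Finset.iInf_insert, pow_add]
    exact (Ideal.mul_mono h1 h2).trans (j12430_ub_mul_sup_le _ _ _)

lemma j12430_ub_isHom_biInf {ι : Type} {I : ι → Ideal (S K)} (hI : ∀ i, IsHom (I i)) (T : Finset ι) :
    IsHom (⨅ k ∈ T, I k) := by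
  intro F hF n
  simp only [Submodule.mem_iInf] at hF ⊢
  exact fun k hk => hI k F (hF k hk) n

lemma j12430_ub_hf_biInf {ι : Type} {Q : Ideal (S K)} (hQ : IsHom Q) {I : ι → Ideal (S K)}
    (hI : ∀ i, IsHom (I i)) (h : ∀ i j, i ≠ j → ∃ N : ℕ, irr K ^ N ≤ I i ⊔ I j) (T : Finset ι) :
    ∃ m0, ∀ m ≥ m0, hf (Q ⊔ ⨅ k ∈ T, I k) m ≤ ∑ k ∈ T, hf (Q ⊔ I k) m := by
  classical
  induction T using Finset.induction_on with
  | empty =>
    refine ⟨0, fun m _ => ?_⟩
    rw [hf_eq_zero (N := 0) (by simp) (Nat.zero_le m)]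
    exact Nat.zero_le _
  | insert a T ha ih =>
    obtain ⟨m1, h1⟩ := ih
    obtain ⟨m2, h2⟩ := j12430_ub_inf_step hQ (hI a) (j12430_ub_isHom_biInf hI T)
      (j12430_ub_irr_biInf (I a) I T fun k hk => h a k (fun hak => ha (hak ▸ hk)))
    refine ⟨max m1 m2, fun m hm => ?_⟩
    rw [Finset.iInf_insert, Finset.sum_insert ha]
    have h3 := h1 m ((le_max_left _ _).trans hm)
    have h4 := h2 m ((le_max_right _ _).trans hm)
    omega

lemma j12430_ub_map_rho (M : M2 K) (m : ℕ) :
    (homogeneousSubmodule (Fin 4) K m).map (rho M).toLinearMap = homogeneousSubmodule (Fin 2) K m := by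
  apply le_antisymm
  · rintro _ ⟨F, hF, rfl⟩
    exact rho_isHomogeneous M hF
  · intro h hh
    exact ⟨inc2 h, inc2_isHomogeneous hh, rho_inc2 M h⟩

lemma j12430_ub_finrank (m : ℕ) : Module.finrank K (homogeneousSubmodule (Fin 2) K m) = m + 1 := by
  rw [← j12430_ub_map_rho (0 : M2 K) m, ← hf_ker]
  exact hf_lineI 0 m

lemma j12430_ub_linalg {E E' : Type} [AddCommGroup E] [Module K E] [AddCommGroup E'] [Module K E']
    (q : E →ₗ[K] E') (W U : Submodule K E) [Module.Finite K W] (hUW : U ≤ W)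
    (hU : U ≤ LinearMap.ker q) :
    Module.finrank K (W.map q) + Module.finrank K U ≤ Module.finrank K W := by
  have h1 := LinearMap.finrank_range_add_finrank_ker (q.domRestrict W)
  rw [LinearMap.range_domRestrict] at h1
  have h2 : Module.finrank K (U.comap W.subtype) = Module.finrank K U :=
    (Submodule.comapSubtypeEquivOfLe hUW).finrank_eq
  have h3 : Module.finrank K (U.comap W.subtype) ≤
      Module.finrank K (LinearMap.ker (q.domRestrict W)) := by
    apply Submodule.finrank_mono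
    intro x hx
    exact hU hx
  omega

lemma j12430_ub_pow_le_prod {R : Type} [CommRing R] {ι : Type} (A : Ideal R) (B : ι → Ideal R)
    (T : Finset ι) (h : ∀ i ∈ T, A ≤ B i) : A ^ T.card ≤ ∏ i ∈ T, B i := by
  classical
  induction T using Finset.induction_on with
  | empty => simp
  | insert a T ha ih =>
    rw [Finset.card_insert_of_notMem ha, Finset.prod_insert ha, pow_succ']
    exact Ideal.mul_mono (h a (Finset.mem_insert_self a T))
      (ih fun i hi => h i (Finset.mem_insert_of_mem hi))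

lemma j12430_ub_ker (M : M2 K) (Q : Ideal (S K)) :
    RingHom.ker ((Ideal.Quotient.mkₐ K (Q.map (rho M : S K →+* A2 K))).comp (rho M)) =
      Q ⊔ lineI M := by
  have hs : Function.Surjective (rho M : S K →+* A2 K) := fun h => ⟨inc2 h, rho_inc2 M h⟩
  have h1 := Ideal.comap_map_of_surjective (rho M : S K →+* A2 K) hs Q
  have h2 : Ideal.comap (rho M : S K →+* A2 K) ⊥ = lineI M := rfl
  rw [h2] at h1
  rw [← h1]
  ext F
  rw [RingHom.mem_ker, Ideal.mem_comap]
  exact Ideal.Quotient.eq_zero_iff_mem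

lemma j12430_ub_skew {L M : M2 K} (h : (L - M).det ≠ 0) :
    (Ideal.span (Set.range X) : Ideal (A2 K)) ≤ (lineI L).map (rho M : S K →+* A2 K) := by
  have h0 := irr_le_sup_lineI h
  have key : ∀ (j : Fin 2) (j' : Fin 4), rho M (X j') = X j →
      (X j : A2 K) ∈ (lineI L).map (rho M : S K →+* A2 K) := by
    intro j j' hj
    have h1 : (X j' : S K) ∈ lineI L ⊔ lineI M := h0 (Ideal.subset_span ⟨j', rfl⟩)
    obtain ⟨a, ha, b, hb, hab⟩ := Submodule.mem_sup.1 h1
    rw [← hj, ← hab, map_add]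
    have hb' : rho M b = 0 := hb
    rw [hb', add_zero]
    exact Ideal.mem_map_of_mem (rho M : S K →+* A2 K) ha
  rw [Ideal.span_le]
  rintro _ ⟨j, rfl⟩
  fin_cases j
  · exact key 0 0 (by simp [rho])
  · exact key 1 1 (by simp [rho])

lemma j12430_ub_step1 {r : ℕ} (L : Fin r → M2 K) (M : M2 K) (hLM : ∀ i, L i ≠ M) :
    ∃ m0, ∀ m ≥ m0, hf ((∏ i, lineI (L i) ^ 2) ⊔ lineI M) m ≤
      2 * Nat.card {i : Fin r // (L i - M).det = 0} := by
  classical
  let A : Finset (Fin r) := Finset.univ.filter fun i => (L i - M).det = 0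
  let A' : Finset (Fin r) := Finset.univ.filter fun i => ¬ (L i - M).det = 0
  have hAc : Nat.card {i : Fin r // (L i - M).det = 0} = A.card := by
    rw [Nat.card_eq_fintype_card, Fintype.card_subtype]
  have hex : ∀ i, ∃ l : Fin 2 → K, (L i - M).det = 0 → l ≠ 0 ∧
      (lineI (L i)).map (rho M : S K →+* A2 K) = Ideal.span {C (l 0) * X 0 + C (l 1) * X 1} := by
    intro i
    by_cases h : (L i - M).det = 0
    · obtain ⟨l, h1, h2, -⟩ := rho_map_lineI_of_det_eq_zero h (hLM i)
      exact ⟨l, fun _ => ⟨h1, h2⟩⟩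
    · exact ⟨0, fun h' => absurd h' h⟩
  choose l hl using hex
  let f : Fin r → A2 K := fun i => C (l i 0) * X 0 + C (l i 1) * X 1
  have hf1 : ∀ i, (f i).IsHomogeneous 1 := by
    intro i
    have h1 : ∀ (a : K) (j : Fin 2), (C a * X j : A2 K).IsHomogeneous 1 := by
      intro a j
      have := (isHomogeneous_C (Fin 2) a).mul (isHomogeneous_X K j)
      rwa [zero_add] at this
    exact (h1 _ _).add (h1 _ _)
  have hf0 : ∀ i, (L i - M).det = 0 → f i ≠ 0 := by
    intro i hi h0
    apply (hl i hi).1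
    have e0 := congrArg (coeff (Finsupp.single 0 1)) h0
    have e1 := congrArg (coeff (Finsupp.single 1 1)) h0
    have n1 : ¬ (Finsupp.single 1 1 : Fin 2 →₀ ℕ) = Finsupp.single 0 1 := by
      intro h
      have := DFunLike.congr_fun h 0
      simp at this
    have n2 : ¬ (Finsupp.single 0 1 : Fin 2 →₀ ℕ) = Finsupp.single 1 1 := fun h => n1 h.symm
    simp only [f, coeff_add, coeff_C_mul, coeff_X, coeff_zero, if_neg n1, if_neg n2, if_true,
      mul_one, mul_zero, add_zero, zero_add] at e0 e1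
    funext j
    fin_cases j
    · exact e0
    · exact e1
  let P : A2 K := ∏ i ∈ A, f i ^ 2
  have hP0 : P ≠ 0 := by
    apply Finset.prod_ne_zero_iff.2
    intro i hi
    exact pow_ne_zero 2 (hf0 i (Finset.mem_filter.1 hi).2)
  have hPh : P.IsHomogeneous (2 * A.card) := by
    have h1 : P.IsHomogeneous (∑ i ∈ A, 2) := by
      apply IsHomogeneous.prod
      intro i _
      have := (hf1 i).pow 2
      rwa [one_mul] at this
    rw [Finset.sum_const, smul_eq_mul, mul_comm] at h1
    exact h1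
  have hJ : (∏ i, lineI (L i) ^ 2).map (rho M : S K →+* A2 K) =
      (∏ i ∈ A, ((lineI (L i)).map (rho M : S K →+* A2 K)) ^ 2) *
        ∏ i ∈ A', ((lineI (L i)).map (rho M : S K →+* A2 K)) ^ 2 := by
    rw [Finset.prod_filter_mul_prod_filter_not]
    have h1 := map_prod (Ideal.mapHom (rho M : S K →+* A2 K)) (fun i => lineI (L i) ^ 2)
      (Finset.univ : Finset (Fin r))
    simp only [Ideal.mapHom_apply, Ideal.map_pow] at h1
    exact h1
  refine ⟨2 * A.card + 2 * A'.card, fun m hm => ?_⟩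
  rw [← j12430_ub_ker, hf_ker]
  have h1 : (homogeneousSubmodule (Fin 4) K m).map
      (((Ideal.Quotient.mkₐ K ((∏ i, lineI (L i) ^ 2).map (rho M : S K →+* A2 K))).comp
        (rho M)).toLinearMap) = (homogeneousSubmodule (Fin 2) K m).map
      (Ideal.Quotient.mkₐ K ((∏ i, lineI (L i) ^ 2).map (rho M : S K →+* A2 K))).toLinearMap := by
    rw [← j12430_ub_map_rho M m, ← Submodule.map_comp]
    rfl
  rw [h1, hAc]
  have hfin : Module.Finite K (homogeneousSubmodule (Fin 2) K m) := by
    apply Module.finite_of_finrank_pos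
    rw [j12430_ub_finrank]
    omega
  have h2 := j12430_ub_linalg
    (Ideal.Quotient.mkₐ K ((∏ i, lineI (L i) ^ 2).map (rho M : S K →+* A2 K))).toLinearMap
    (homogeneousSubmodule (Fin 2) K m)
    ((homogeneousSubmodule (Fin 2) K (m - 2 * A.card)).map (LinearMap.mulLeft K P)) (by
      rintro _ ⟨h, hh, rfl⟩
      have h3 : (P * h).IsHomogeneous (2 * A.card + (m - 2 * A.card)) := hPh.mul hh
      rw [show 2 * A.card + (m - 2 * A.card) = m by omega] at h3
      exact h3) (by
      rintro _ ⟨h, hh, rfl⟩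
      rw [LinearMap.mem_ker]
      show Ideal.Quotient.mk _ (P * h) = 0
      rw [Ideal.Quotient.eq_zero_iff_mem, hJ]
      apply Ideal.mul_mem_mul
      · apply Ideal.prod_mem_prod
        intro i hi
        apply Ideal.pow_mem_pow
        rw [(hl i (Finset.mem_filter.1 hi).2).2]
        exact Ideal.mem_span_singleton_self _
      · have h4 := j12430_ub_pow_le_prod ((Ideal.span (Set.range X) : Ideal (A2 K)) ^ 2)
          (fun i => ((lineI (L i)).map (rho M : S K →+* A2 K)) ^ 2) A' (by
            intro i hi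
            exact Ideal.pow_right_mono (j12430_ub_skew (Finset.mem_filter.1 hi).2) 2)
        apply h4
        rw [← pow_mul]
        exact j12430_ub_hom_mem_pow hh (by omega))
  have h5 : Module.finrank K ((homogeneousSubmodule (Fin 2) K (m - 2 * A.card)).map
      (LinearMap.mulLeft K P)) = m - 2 * A.card + 1 := by
    have hinj : Function.Injective (LinearMap.mulLeft K P) := by
      intro a b hab
      exact mul_left_cancel₀ hP0 hab
    rw [← (Submodule.equivMapOfInjective _ hinj _).finrank_eq, j12430_ub_finrank]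
  rw [h5, j12430_ub_finrank] at h2
  omega

/-- Incidence count, upper bound. -/
lemma hf_sup_le_inc {r s : ℕ} (L : Fin r → M2 K) (M : Fin s → M2 K)
    (hL : ∀ i j, i ≠ j → (L i - L j).det ≠ 0) (hM : ∀ i j, i ≠ j → (M i - M j).det ≠ 0)
    (hLM : ∀ i k, L i ≠ M k) (Q : Ideal (S K)) (hQ : ∏ i, lineI (L i) ^ 2 ≤ Q) :
    ∃ m0, ∀ m ≥ m0, hf (Q ⊔ ⨅ k, lineI (M k)) m ≤
      2 * incN L M := by
  classical
  have hIM : ∀ k, IsHom (lineI (M k)) := fun k => lineI_isHom (M k)
  have hpow : ∀ i, IsHom (lineI (L i) ^ 2) := by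
    intro i
    rw [pow_two]
    exact isHom_mul (lineI_isHom _) (lineI_isHom _)
  have hQ0 : IsHom (∏ i, lineI (L i) ^ 2) := by
    have h1 : ∀ T : Finset (Fin r), IsHom (∏ i ∈ T, lineI (L i) ^ 2) := by
      intro T
      induction T using Finset.induction_on with
      | empty =>
        rw [Finset.prod_empty, Ideal.one_eq_top]
        intro F _ n
        trivial
      | insert a T ha ih =>
        rw [Finset.prod_insert ha]
        exact isHom_mul (hpow a) ih
    exact h1 _
  obtain ⟨m1, h1⟩ := j12430_ub_hf_biInf hQ0 hIM (fun i j hij => ⟨1, by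
    rw [pow_one]
    exact irr_le_sup_lineI (hM i j hij)⟩) Finset.univ
  have h2 : ∀ k, ∃ m0, ∀ m ≥ m0, hf ((∏ i, lineI (L i) ^ 2) ⊔ lineI (M k)) m ≤
      2 * Nat.card {i : Fin r // (L i - M k).det = 0} := fun k =>
    j12430_ub_step1 L (M k) (fun i => hLM i k)
  choose m2 h2 using h2
  have hinc : incN L M = ∑ k, Nat.card {i : Fin r // (L i - M k).det = 0} := by
    unfold incN
    simp only [Nat.card_eq_fintype_card, Fintype.card_subtype, Finset.card_filter]
    rw [Fintype.sum_prod_type_right]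
  refine ⟨max m1 (Finset.univ.sup m2), fun m hm => ?_⟩
  have h3 := h1 m ((le_max_left _ _).trans hm)
  have h4 : ∑ k ∈ Finset.univ, hf ((∏ i, lineI (L i) ^ 2) ⊔ lineI (M k)) m ≤
      ∑ k, 2 * Nat.card {i : Fin r // (L i - M k).det = 0} := by
    apply Finset.sum_le_sum
    intro k _
    exact h2 k m ((Finset.le_sup (Finset.mem_univ k)).trans ((le_max_right _ _).trans hm))
  have h5 : hf (Q ⊔ ⨅ k, lineI (M k)) m ≤ hf ((∏ i, lineI (L i) ^ 2) ⊔ ⨅ k ∈ Finset.univ, lineI (M k)) m := by
    apply hf_anti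
    simp only [Finset.mem_univ, iInf_pos]
    exact sup_le_sup_right hQ _
  rw [hinc, Finset.mul_sum]
  exact h5.trans (h3.trans h4)

/-- skew lines: the Hilbert function of the union -/
lemma hf_iInf_lineI {r : ℕ} (L : Fin r → M2 K) (hL : ∀ i j, i ≠ j → (L i - L j).det ≠ 0) :
    ∃ m0, ∀ m ≥ m0, hf (⨅ i, lineI (L i)) m = r * (m + 1) := by
  obtain ⟨m0, h0⟩ := hf_iInf_eq (I := fun i => lineI (L i)) (fun i => lineI_isHom (L i))
    (fun i j hij => ⟨1, by
      rw [pow_one]
      exact irr_le_sup_lineI (hL i j hij)⟩)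
  refine ⟨m0, fun m hm => ?_⟩
  rw [h0 m hm]
  simp only [hf_lineI, Finset.sum_const, Finset.card_univ, Fintype.card_fin, smul_eq_mul]

end line

section rib
variable {K : Type} [Field K]

lemma theta_fst (L : M2 K) (g f : A2 K) (F : S K) :
    TrivSqZeroExt.fst (theta L g f F) = rho L F := by
  have h : (TrivSqZeroExt.fstHom K (A2 K) (A2 K)).comp (theta L g f) = rho L := by
    apply MvPolynomial.algHom_ext
    intro i
    fin_cases i <;> simp [theta, rho]
  exact DFunLike.congr_fun h F

/-- the epsilon coordinate -/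
noncomputable def eps (L : M2 K) (g f : A2 K) (F : S K) : A2 K :=
  TrivSqZeroExt.snd (theta L g f F)

lemma eps_add (L : M2 K) (g f : A2 K) (F G : S K) : eps L g f (F + G) = eps L g f F + eps L g f G := by
  unfold eps
  rw [map_add, TrivSqZeroExt.snd_add]

lemma eps_mul (L : M2 K) (g f : A2 K) (F G : S K) :
    eps L g f (F * G) = rho L F * eps L g f G + eps L g f F * rho L G := by
  unfold eps
  rw [map_mul, TrivSqZeroExt.snd_mul, theta_fst, theta_fst, smul_eq_mul, MulOpposite.smul_eq_mul_unop,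
    MulOpposite.unop_op]

lemma mem_ribI {L : M2 K} {g f : A2 K} {F : S K} :
    F ∈ ribI L g f ↔ F ∈ lineI L ∧ eps L g f F = 0 := by
  unfold ribI lineI eps
  rw [RingHom.mem_ker, RingHom.mem_ker]
  constructor
  · intro h
    have h1 := theta_fst L g f F
    rw [h] at h1
    rw [h]
    exact ⟨h1.symm, rfl⟩
  · rintro ⟨h1, h2⟩
    apply TrivSqZeroExt.ext
    · rw [theta_fst]; exact h1
    · exact h2

lemma j12434_eps_C (L : M2 K) (g f : A2 K) (c : K) : eps L g f (C c) = 0 := by
  unfold eps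
  have : (C c : S K) = algebraMap K (S K) c := rfl
  rw [this, AlgHom.commutes]
  rfl

lemma j12434_eps_X (L : M2 K) {g f : A2 K} {a : ℕ} (hg : g.IsHomogeneous (a + 1))
    (hf : f.IsHomogeneous (a + 1)) (i : Fin 4) : (eps L g f (X i)).IsHomogeneous (1 + a) := by
  rw [add_comm 1 a]
  unfold eps
  fin_cases i
  · simp [theta, isHomogeneous_zero]
  · simp [theta, isHomogeneous_zero]
  · simpa [theta] using hg
  · simpa [theta] using hf

lemma j12434_eps_monomial (L : M2 K) {g f : A2 K} {a : ℕ} (hg : g.IsHomogeneous (a + 1))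
    (hf : f.IsHomogeneous (a + 1)) (u : Fin 4 →₀ ℕ) :
    ∀ c : K, (eps L g f (monomial u c)).IsHomogeneous (u.degree + a) := by
  have hadd : ∀ u v : Fin 4 →₀ ℕ, (∀ c : K, (eps L g f (monomial u c)).IsHomogeneous (u.degree + a)) →
      (∀ c : K, (eps L g f (monomial v c)).IsHomogeneous (v.degree + a)) →
      ∀ c : K, (eps L g f (monomial (u + v) c)).IsHomogeneous ((u + v).degree + a) := by
    intro u v hu hv c
    have h1 : (monomial (u + v) c : S K) = monomial u c * monomial v 1 := by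
      rw [monomial_mul, mul_one]
    rw [h1, eps_mul]
    have hr1 : (rho L (monomial u c)).IsHomogeneous u.degree :=
      rho_isHomogeneous L (isHomogeneous_monomial _ rfl)
    have hr2 : (rho L (monomial v 1)).IsHomogeneous v.degree :=
      rho_isHomogeneous L (isHomogeneous_monomial _ rfl)
    have hd : (u + v).degree = u.degree + v.degree := map_add _ _ _
    rw [hd]
    apply IsHomogeneous.add
    · have := hr1.mul (hv 1)
      rwa [← add_assoc] at this
    · have := (hu c).mul hr2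
      have e : u.degree + a + v.degree = u.degree + v.degree + a := by ring
      rwa [e] at this
  have hone : ∀ i : Fin 4, ∀ c : K, (eps L g f (monomial (Finsupp.single i 1) c)).IsHomogeneous
      ((Finsupp.single i 1).degree + a) := by
    intro i c
    have h1 : (monomial (Finsupp.single i 1) c : S K) = C c * X i := by
      rw [C_mul_X_eq_monomial]
    rw [h1, eps_mul, j12434_eps_C, zero_mul, add_zero, Finsupp.degree_single]
    have h2 : (rho L (C c)).IsHomogeneous 0 := rho_isHomogeneous L (isHomogeneous_C _ _)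
    have := h2.mul (j12434_eps_X L hg hf i)
    rwa [zero_add] at this
  have hzero : ∀ c : K, (eps L g f (monomial 0 c)).IsHomogeneous ((0 : Fin 4 →₀ ℕ).degree + a) := by
    intro c
    have : (monomial 0 c : S K) = C c := rfl
    rw [this, j12434_eps_C]
    exact isHomogeneous_zero _ _ _
  induction u using Finsupp.induction_linear with
  | zero => exact hzero
  | add u v hu hv => exact hadd u v hu hv
  | single i n =>
    induction n with
    | zero => rw [Finsupp.single_zero]; exact hzero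
    | succ n ih =>
      rw [Finsupp.single_add]
      exact hadd _ _ ih (hone i)

lemma j12434_eps_zero (L : M2 K) (g f : A2 K) : eps L g f 0 = 0 := by
  unfold eps
  rw [map_zero, TrivSqZeroExt.snd_zero]

/-- the epsilon coordinate as an additive homomorphism -/
noncomputable def j12434_epsH (L : M2 K) (g f : A2 K) : S K →+ A2 K where
  toFun := eps L g f
  map_zero' := j12434_eps_zero L g f
  map_add' := eps_add L g f

lemma j12434_eps_sum (L : M2 K) (g f : A2 K) {ι : Type} (s : Finset ι) (v : ι → S K) :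
    eps L g f (∑ i ∈ s, v i) = ∑ i ∈ s, eps L g f (v i) :=
  map_sum (j12434_epsH L g f) v s

lemma eps_isHomogeneous (L : M2 K) {g f : A2 K} {a : ℕ} (hg : g.IsHomogeneous (a + 1))
    (hf : f.IsHomogeneous (a + 1)) {F : S K} {m : ℕ} (hF : F.IsHomogeneous m) :
    (eps L g f F).IsHomogeneous (m + a) := by
  rw [F.as_sum, j12434_eps_sum]
  apply IsHomogeneous.sum
  intro u hu
  have hd : u.degree = m := by
    have h2 := hF (mem_support_iff.1 hu)
    have h3 := DFunLike.congr_fun (Finsupp.degree_eq_weight_one (R := ℕ) (σ := Fin 4)) u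
    rw [h3]
    exact h2
  have := j12434_eps_monomial L hg hf u (coeff u F)
  rwa [hd] at this

lemma ribI_le_lineI (L : M2 K) (g f : A2 K) : ribI L g f ≤ lineI L := by
  intro F hF
  exact (mem_ribI.mp hF).1

lemma lineI_sq_le_ribI (L : M2 K) (g f : A2 K) : lineI L ^ 2 ≤ ribI L g f := by
  rw [pow_two, Ideal.mul_le]
  intro r hr s hs
  rw [mem_ribI]
  refine ⟨(lineI L).mul_mem_left _ hs, ?_⟩
  have hr' : rho L r = 0 := hr
  have hs' : rho L s = 0 := hs
  rw [eps_mul, hr', hs', zero_mul, mul_zero, add_zero]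

lemma ribI_isHom (L : M2 K) {g f : A2 K} {a : ℕ} (hg : g.IsHomogeneous (a + 1))
    (hf : f.IsHomogeneous (a + 1)) : IsHom (ribI L g f) := by
  intro F hF n
  rw [mem_ribI] at hF ⊢
  refine ⟨lineI_isHom L F hF.1 n, ?_⟩
  by_cases hn : n ∈ Finset.range (F.totalDegree + 1)
  · have h1 : eps L g f F = ∑ i ∈ Finset.range (F.totalDegree + 1), eps L g f (homogeneousComponent i F) := by
      rw [← j12434_eps_sum, sum_homogeneousComponent]
    have h2 : homogeneousComponent (n + a) (eps L g f F) = eps L g f (homogeneousComponent n F) := by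
      rw [h1, map_sum, Finset.sum_eq_single n]
      · have h3 : eps L g f (homogeneousComponent n F) ∈ homogeneousSubmodule (Fin 2) K (n + a) :=
          (mem_homogeneousSubmodule _ _).mpr (eps_isHomogeneous L hg hf (homogeneousComponent_isHomogeneous n F))
        rw [homogeneousComponent_of_mem h3, if_pos rfl]
      · intro i _ hi
        have h3 : eps L g f (homogeneousComponent i F) ∈ homogeneousSubmodule (Fin 2) K (i + a) :=
          (mem_homogeneousSubmodule _ _).mpr (eps_isHomogeneous L hg hf (homogeneousComponent_isHomogeneous i F))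
        rw [homogeneousComponent_of_mem h3, if_neg (by omega)]
      · intro h; exact absurd hn h
    rw [← h2, hF.2, map_zero]
  · rw [Finset.mem_range, not_lt] at hn
    rw [homogeneousComponent_eq_zero _ _ (by omega), j12434_eps_zero]

lemma ribI_primary {L : M2 K} {g f : A2 K} {h q : S K} (hq : h * q ∈ ribI L g f)
    (hh : h ∉ lineI L) : q ∈ ribI L g f := by
  rw [mem_ribI] at hq ⊢
  obtain ⟨h1, h2⟩ := hq
  have hh' : rho L h ≠ 0 := hh
  have h3 : rho L (h * q) = 0 := h1
  rw [map_mul] at h3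
  have h4 : rho L q = 0 := (mul_eq_zero.mp h3).resolve_left hh'
  rw [eps_mul, h4, mul_zero, add_zero] at h2
  exact ⟨h4, (mul_eq_zero.mp h2).resolve_left hh'⟩

lemma j12436_hf_ribI_finrank2 (n : ℕ) :
    Module.finrank K (homogeneousSubmodule (Fin 2) K n) = n + 1 := by
  have h := hf_ker (rho (K := K) 0) n
  have h1 : hf (RingHom.ker (rho (K := K) 0)) n = n + 1 := hf_lineI 0 n
  rw [h1] at h
  have h2 : (homogeneousSubmodule (Fin 4) K n).map (rho (K := K) 0).toLinearMap =
      homogeneousSubmodule (Fin 2) K n := by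
    apply le_antisymm
    · rintro _ ⟨F, hF, rfl⟩
      exact rho_isHomogeneous 0 hF
    · intro p hp
      exact ⟨inc2 p, inc2_isHomogeneous hp, rho_inc2 0 p⟩
  rw [h2] at h
  exact h.symm

lemma j12436_hf_ribI_comp {g u : A2 K} {a m : ℕ} (hg : g.IsHomogeneous a) :
    homogeneousComponent (m + a) (u * g) = homogeneousComponent m u * g := by
  letI := MvPolynomial.gradedAlgebra (σ := Fin 2) (R := K)
  have h := DirectSum.coe_decompose_mul_add_of_right_mem (homogeneousSubmodule (Fin 2) K)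
    (a := u) (i := m) (b := g) (j := a) hg
  exact (decomposition.decompose'_apply (u * g) (m + a)).symm.trans
    (h.trans (congrArg (· * g) (decomposition.decompose'_apply u m)))

lemma j12436_hf_ribI_eps2 (L : M2 K) (g f : A2 K) : eps L g f (lin2 L) = g := by
  unfold eps lin2 theta
  simp [TrivSqZeroExt.snd_mul, TrivSqZeroExt.algebraMap_eq_inl']

lemma j12436_hf_ribI_eps3 (L : M2 K) (g f : A2 K) : eps L g f (lin3 L) = f := by
  unfold eps lin3 theta
  simp [TrivSqZeroExt.snd_mul, TrivSqZeroExt.algebraMap_eq_inl']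

lemma j12436_hf_ribI_lin2 (L : M2 K) : lin2 L ∈ lineI L := by
  rw [lineI_eq_span]; exact Ideal.subset_span (by simp)

lemma j12436_hf_ribI_lin3 (L : M2 K) : lin3 L ∈ lineI L := by
  rw [lineI_eq_span]; exact Ideal.subset_span (by simp)

lemma j12436_hf_ribI_hom2 (L : M2 K) : (lin2 L).IsHomogeneous 1 := by
  unfold lin2
  refine (isHomogeneous_X K 2).sub (IsHomogeneous.add ?_ ?_)
  · simpa using (isHomogeneous_C (Fin 4) (L 0 0)).mul (isHomogeneous_X K 0)
  · simpa using (isHomogeneous_C (Fin 4) (L 0 1)).mul (isHomogeneous_X K 1)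

lemma j12436_hf_ribI_hom3 (L : M2 K) : (lin3 L).IsHomogeneous 1 := by
  unfold lin3
  refine (isHomogeneous_X K 3).sub (IsHomogeneous.add ?_ ?_)
  · simpa using (isHomogeneous_C (Fin 4) (L 1 0)).mul (isHomogeneous_X K 0)
  · simpa using (isHomogeneous_C (Fin 4) (L 1 1)).mul (isHomogeneous_X K 1)

/-- the epsilon coordinate as a linear map -/
noncomputable def j12436_hf_ribI_E (L : M2 K) (g f : A2 K) : S K →ₗ[K] A2 K where
  toFun := eps L g f
  map_add' := eps_add L g f
  map_smul' c F := by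
    unfold eps
    rw [map_smul, TrivSqZeroExt.snd_smul]
    rfl

lemma hf_ribI (L : M2 K) {g f : A2 K} {a : ℕ} (hg : g.IsHomogeneous (a + 1))
    (hf' : f.IsHomogeneous (a + 1))
    (cop : ∃ M, ∀ m ≥ M, ∀ p : A2 K, p.IsHomogeneous m → p ∈ Ideal.span {g, f}) :
    ∃ m0, ∀ m ≥ m0, hf (ribI L g f) m = 2 * m + a + 2 := by
  obtain ⟨M, hM⟩ := cop
  refine ⟨M + 1, fun m hm => ?_⟩
  have hE := LinearMap.finrank_range_add_finrank_ker ((j12436_hf_ribI_E L g f).domRestrict (dg (lineI L) m))
  have h1 : LinearMap.range ((j12436_hf_ribI_E L g f).domRestrict (dg (lineI L) m)) =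
      homogeneousSubmodule (Fin 2) K (m + a) := by
    rw [LinearMap.range_domRestrict]
    apply le_antisymm
    · rintro _ ⟨F, hF, rfl⟩
      exact eps_isHomogeneous L hg hf' hF.2
    · intro p hp
      have hp' : p.IsHomogeneous (m + a) := hp
      obtain ⟨u, v, huv⟩ := Ideal.mem_span_pair.mp (hM (m + a) (by omega) p hp')
      obtain ⟨k, rfl⟩ : ∃ k, m = k + 1 := ⟨m - 1, by omega⟩
      have e1 : k + 1 + a = k + (a + 1) := by ring
      have h2 : homogeneousComponent k u * g + homogeneousComponent k v * f = p := by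
        have := congrArg (homogeneousComponent (k + (a + 1))) huv
        rw [map_add, j12436_hf_ribI_comp hg, j12436_hf_ribI_comp hf', ← e1,
          homogeneousComponent_of_mem hp', if_pos rfl] at this
        exact this
      refine ⟨inc2 (homogeneousComponent k u) * lin2 L + inc2 (homogeneousComponent k v) * lin3 L,
        ⟨?_, ?_⟩, ?_⟩
      · exact Ideal.add_mem _ (Ideal.mul_mem_left _ _ (j12436_hf_ribI_lin2 L))
          (Ideal.mul_mem_left _ _ (j12436_hf_ribI_lin3 L))
      · exact IsHomogeneous.add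
          ((inc2_isHomogeneous (homogeneousComponent_isHomogeneous k u)).mul (j12436_hf_ribI_hom2 L))
          ((inc2_isHomogeneous (homogeneousComponent_isHomogeneous k v)).mul (j12436_hf_ribI_hom3 L))
      · show eps L g f _ = p
        have r2 : rho L (lin2 L) = 0 := j12436_hf_ribI_lin2 L
        have r3 : rho L (lin3 L) = 0 := j12436_hf_ribI_lin3 L
        rw [eps_add, eps_mul, eps_mul, rho_inc2, rho_inc2, j12436_hf_ribI_eps2, j12436_hf_ribI_eps3, r2, r3,
          mul_zero, mul_zero, add_zero, add_zero]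
        exact h2
  have h3 : (LinearMap.ker ((j12436_hf_ribI_E L g f).domRestrict (dg (lineI L) m))).map
      (dg (lineI L) m).subtype = dg (ribI L g f) m := by
    apply le_antisymm
    · rintro _ ⟨⟨F, hF⟩, hF2, rfl⟩
      exact ⟨mem_ribI.mpr ⟨hF.1, hF2⟩, hF.2⟩
    · intro F hF
      have hF1 := mem_ribI.mp hF.1
      exact ⟨⟨F, hF1.1, hF.2⟩, hF1.2, rfl⟩
  have h4 := Submodule.finrank_map_subtype_eq (dg (lineI L) m)
    (LinearMap.ker ((j12436_hf_ribI_E L g f).domRestrict (dg (lineI L) m)))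
  rw [h3] at h4
  rw [h1, j12436_hf_ribI_finrank2, ← h4] at hE
  have h5 := hf_add (lineI L) m
  have h6 := hf_add (ribI L g f) m
  rw [hf_lineI] at h5
  omega

/-- The Hilbert function of a union of ribbons on skew lines. -/
lemma hf_iInf_ribI {r : ℕ} (L : Fin r → M2 K) (g f : Fin r → A2 K) (a : Fin r → ℕ)
    (hL : ∀ i j, i ≠ j → (L i - L j).det ≠ 0)
    (hg : ∀ i, (g i).IsHomogeneous (a i + 1)) (hf' : ∀ i, (f i).IsHomogeneous (a i + 1))
    (cop : ∀ i, ∃ M, ∀ m ≥ M, ∀ p : A2 K, p.IsHomogeneous m → p ∈ Ideal.span {g i, f i}) :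
    ∃ m0, ∀ m ≥ m0, hf (⨅ i, ribI (L i) (g i) (f i)) m = ∑ i, (2 * m + a i + 2) := by
  have h1 : ∀ i, IsHom (ribI (L i) (g i) (f i)) := fun i => ribI_isHom (L i) (hg i) (hf' i)
  have h2 : ∀ i j, i ≠ j → ∃ N : ℕ, irr K ^ N ≤ ribI (L i) (g i) (f i) ⊔ ribI (L j) (g j) (f j) := by
    intro i j hij
    refine ⟨2 + 2, ?_⟩
    calc irr K ^ (2 + 2) ≤ (lineI (L i) ⊔ lineI (L j)) ^ (2 + 2) :=
          Ideal.pow_right_mono (irr_le_sup_lineI (hL i j hij)) _
      _ ≤ lineI (L i) ^ 2 ⊔ lineI (L j) ^ 2 := Ideal.sup_pow_add_le_pow_sup_pow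
      _ ≤ ribI (L i) (g i) (f i) ⊔ ribI (L j) (g j) (f j) :=
          sup_le_sup (lineI_sq_le_ribI _ _ _) (lineI_sq_le_ribI _ _ _)
  obtain ⟨m0, hm0⟩ := hf_iInf_eq h1 h2
  choose m1 hm1 using fun i => hf_ribI (L i) (hg i) (hf' i) (cop i)
  refine ⟨max m0 (∑ i, m1 i), fun m hm => ?_⟩
  rw [hm0 m ((le_max_left _ _).trans hm)]
  refine Finset.sum_congr rfl fun i _ => hm1 i m ?_
  exact ((Finset.single_le_sum (f := m1) (fun _ _ => Nat.zero_le _) (Finset.mem_univ i)).trans
    (le_max_right _ _)).trans hm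

/-- `rho M - rho L` is divisible by the linear form -/
lemma j12443_rtan_congr {L M : M2 K} {δ l : Fin 2 → K} (hM : M - L = Matrix.vecMulVec δ l) (F : S K) :
    C (l 0) * X 0 + C (l 1) * X 1 ∣ rho M F - rho L F := by
  have h00 : M 0 0 = L 0 0 + δ 0 * l 0 := by
    have := congrFun (congrFun hM 0) 0
    rw [Matrix.sub_apply, Matrix.vecMulVec_apply] at this
    linear_combination this
  have h01 : M 0 1 = L 0 1 + δ 0 * l 1 := by
    have := congrFun (congrFun hM 0) 1
    rw [Matrix.sub_apply, Matrix.vecMulVec_apply] at this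
    linear_combination this
  have h10 : M 1 0 = L 1 0 + δ 1 * l 0 := by
    have := congrFun (congrFun hM 1) 0
    rw [Matrix.sub_apply, Matrix.vecMulVec_apply] at this
    linear_combination this
  have h11 : M 1 1 = L 1 1 + δ 1 * l 1 := by
    have := congrFun (congrFun hM 1) 1
    rw [Matrix.sub_apply, Matrix.vecMulVec_apply] at this
    linear_combination this
  have hX : ∀ i : Fin 4, (C (l 0) * X 0 + C (l 1) * X 1 : A2 K) ∣
      rho M (X i) - rho L (X i) := by
    intro i
    unfold rho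
    rw [aeval_X, aeval_X]
    fin_cases i
    · simp
    · simp
    · show (C (l 0) * X 0 + C (l 1) * X 1 : A2 K) ∣
        (C (M 0 0) * X 0 + C (M 0 1) * X 1) - (C (L 0 0) * X 0 + C (L 0 1) * X 1)
      refine ⟨C (δ 0), ?_⟩
      rw [h00, h01]
      simp only [map_add, map_mul]
      ring
    · show (C (l 0) * X 0 + C (l 1) * X 1 : A2 K) ∣
        (C (M 1 0) * X 0 + C (M 1 1) * X 1) - (C (L 1 0) * X 0 + C (L 1 1) * X 1)
      refine ⟨C (δ 1), ?_⟩
      rw [h10, h11]
      simp only [map_add, map_mul]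
      ring
  induction F using MvPolynomial.induction_on with
  | C a =>
    have h : rho M (C a) - rho L (C a) = 0 := by
      unfold rho
      rw [aeval_C, aeval_C, sub_self]
    rw [h]
    exact dvd_zero _
  | add p q hp hq =>
    have h : rho M (p + q) - rho L (p + q) = (rho M p - rho L p) + (rho M q - rho L q) := by
      rw [map_add, map_add]; ring
    rw [h]
    exact dvd_add hp hq
  | mul_X p i hp =>
    have h : rho M (p * X i) - rho L (p * X i) =
        rho M p * (rho M (X i) - rho L (X i)) + (rho M p - rho L p) * rho L (X i) := by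
      rw [map_mul, map_mul]; ring
    rw [h]
    exact dvd_add (Dvd.dvd.mul_left (hX i) _) (Dvd.dvd.mul_right hp _)

lemma j12443_rtan_rho_lin {L M : M2 K} {δ l : Fin 2 → K} (hM : M - L = Matrix.vecMulVec δ l) :
    rho M (lin2 L) = C (δ 0) * (C (l 0) * X 0 + C (l 1) * X 1) ∧
    rho M (lin3 L) = C (δ 1) * (C (l 0) * X 0 + C (l 1) * X 1) := by
  have h00 : M 0 0 = L 0 0 + δ 0 * l 0 := by
    have := congrFun (congrFun hM 0) 0
    rw [Matrix.sub_apply, Matrix.vecMulVec_apply] at this
    linear_combination this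
  have h01 : M 0 1 = L 0 1 + δ 0 * l 1 := by
    have := congrFun (congrFun hM 0) 1
    rw [Matrix.sub_apply, Matrix.vecMulVec_apply] at this
    linear_combination this
  have h10 : M 1 0 = L 1 0 + δ 1 * l 0 := by
    have := congrFun (congrFun hM 1) 0
    rw [Matrix.sub_apply, Matrix.vecMulVec_apply] at this
    linear_combination this
  have h11 : M 1 1 = L 1 1 + δ 1 * l 1 := by
    have := congrFun (congrFun hM 1) 1
    rw [Matrix.sub_apply, Matrix.vecMulVec_apply] at this
    linear_combination this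
  have e0 : rho M (X 0) = X 0 := by simp [rho]
  have e1 : rho M (X 1) = X 1 := by simp [rho]
  have e2 : rho M (X 2) = C (M 0 0) * X 0 + C (M 0 1) * X 1 := by simp [rho]
  have e3 : rho M (X 3) = C (M 1 0) * X 0 + C (M 1 1) * X 1 := by simp [rho]
  have eC : ∀ a : K, rho M (C a) = C a := fun a => by simp [rho]
  constructor
  · rw [lin2, map_sub, map_add, map_mul, map_mul, e0, e1, e2, eC, eC, h00, h01]
    simp only [map_add, map_mul]
    ring
  · rw [lin3, map_sub, map_add, map_mul, map_mul, e0, e1, e3, eC, eC, h10, h11]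
    simp only [map_add, map_mul]
    ring

lemma j12443_rtan_rho_self (L : M2 K) : rho L (lin2 L) = 0 ∧ rho L (lin3 L) = 0 := by
  have h : L - L = Matrix.vecMulVec (0 : Fin 2 → K) (0 : Fin 2 → K) := by
    rw [sub_self]
    ext i j
    simp [Matrix.vecMulVec_apply]
  have := j12443_rtan_rho_lin h
  simpa using this

lemma j12443_rtan_eps_lin (L : M2 K) (g f : A2 K) :
    eps L g f (lin2 L) = g ∧ eps L g f (lin3 L) = f := by
  have e0 : theta L g f (X 0) = TrivSqZeroExt.inl (X 0) := by simp [theta]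
  have e1 : theta L g f (X 1) = TrivSqZeroExt.inl (X 1) := by simp [theta]
  have e2 : theta L g f (X 2) =
      TrivSqZeroExt.inl (C (L 0 0) * X 0 + C (L 0 1) * X 1) + TrivSqZeroExt.inr g := by
    simp [theta]
  have e3 : theta L g f (X 3) =
      TrivSqZeroExt.inl (C (L 1 0) * X 0 + C (L 1 1) * X 1) + TrivSqZeroExt.inr f := by
    simp [theta]
  have eC : ∀ a : K, theta L g f (C a) = TrivSqZeroExt.inl (C a) := fun a => by
    rw [theta, aeval_C]; rfl
  constructor
  · rw [eps, lin2, map_sub, map_add, map_mul, map_mul, e0, e1, e2, eC, eC]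
    simp
  · rw [eps, lin3, map_sub, map_add, map_mul, map_mul, e0, e1, e3, eC, eC]
    simp

/-- cancellation of a power of a variable -/
lemma j12443_rtan_cancel {i : Fin 2} {p w : A2 K} {m : ℕ} (hp : ¬ (X i : A2 K) ∣ p)
    (h : p ∣ X i ^ m * w) : p ∣ w := by
  obtain ⟨k, hk⟩ := h
  have hprime : Prime (X i : A2 K) := MvPolynomial.X_prime
  have h1 : (X i : A2 K) ^ m ∣ p * k := ⟨w, hk.symm⟩
  obtain ⟨k', hk'⟩ := hprime.pow_dvd_of_dvd_mul_left m hp h1
  refine ⟨k', ?_⟩
  have h2 : (X i : A2 K) ^ m * w = X i ^ m * (p * k') := by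
    rw [hk, hk']; ring
  exact mul_left_cancel₀ (pow_ne_zero m hprime.ne_zero) h2

/-- tangency: the ribbon in `lineI L` meets the line `M` in length two -/
lemma rho_ribI_le {L M : M2 K} {g f : A2 K} {a : ℕ} (hg : g.IsHomogeneous (a + 1))
    (hf' : f.IsHomogeneous (a + 1))
    (cop : ∃ M, ∀ m ≥ M, ∀ p : A2 K, p.IsHomogeneous m → p ∈ Ideal.span {g, f})
    {δ l : Fin 2 → K} (hM : M - L = Matrix.vecMulVec δ l)
    (htan : C (l 0) * X 0 + C (l 1) * X 1 ∣ C (δ 0) * f - C (δ 1) * g)
    {F : S K} (hF : F ∈ ribI L g f) :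
    (C (l 0) * X 0 + C (l 1) * X 1) ^ 2 ∣ rho M F := by
  rw [mem_ribI] at hF
  obtain ⟨hFL, heps⟩ := hF
  rw [lineI_eq_span, Ideal.mem_span_pair] at hFL
  obtain ⟨A, B, rfl⟩ := hFL
  obtain ⟨hs2, hs3⟩ := j12443_rtan_rho_self L
  obtain ⟨he2, he3⟩ := j12443_rtan_eps_lin L g f
  obtain ⟨hm2, hm3⟩ := j12443_rtan_rho_lin hM
  rw [eps_add, eps_mul, eps_mul, hs2, hs3, he2, he3, mul_zero, mul_zero, add_zero, add_zero] at heps
  rw [map_add, map_mul, map_mul, hm2, hm3]
  have hcA := j12443_rtan_congr hM A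
  have hcB := j12443_rtan_congr hM B
  -- the main divisibility
  have hw : (C (l 0) * X 0 + C (l 1) * X 1 : A2 K) ∣ C (δ 0) * rho L A + C (δ 1) * rho L B ∨
      (C (l 0) * X 0 + C (l 1) * X 1 : A2 K) = 0 := by
    obtain ⟨m, hm⟩ := cop
    obtain ⟨a0, b0, h0⟩ := Ideal.mem_span_pair.1 (hm m le_rfl (X 0 ^ m) (isHomogeneous_X_pow 0 m))
    obtain ⟨a1, b1, h1⟩ := Ideal.mem_span_pair.1 (hm m le_rfl (X 1 ^ m) (isHomogeneous_X_pow 1 m))
    have k0 : (C (l 0) * X 0 + C (l 1) * X 1 : A2 K) ∣
        X 0 ^ m * (C (δ 0) * rho L A + C (δ 1) * rho L B) := by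
      have : X 0 ^ m * (C (δ 0) * rho L A + C (δ 1) * rho L B) =
          (C (δ 0) * f - C (δ 1) * g) * (b0 * rho L A - a0 * rho L B) := by
        rw [← h0]
        linear_combination (a0 * C (δ 0) + b0 * C (δ 1)) * heps
      rw [this]
      exact Dvd.dvd.mul_right htan _
    have k1 : (C (l 0) * X 0 + C (l 1) * X 1 : A2 K) ∣
        X 1 ^ m * (C (δ 0) * rho L A + C (δ 1) * rho L B) := by
      have : X 1 ^ m * (C (δ 0) * rho L A + C (δ 1) * rho L B) =
          (C (δ 0) * f - C (δ 1) * g) * (b1 * rho L A - a1 * rho L B) := by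
        rw [← h1]
        linear_combination (a1 * C (δ 0) + b1 * C (δ 1)) * heps
      rw [this]
      exact Dvd.dvd.mul_right htan _
    by_cases hl0 : l 0 = 0
    · by_cases hl1 : l 1 = 0
      · right
        rw [hl0, hl1]; simp
      · left
        refine j12443_rtan_cancel ?_ k0
        intro hd
        have := map_dvd (eval (![0, 1] : Fin 2 → K)) hd
        simp at this
        exact hl1 this
    · left
      refine j12443_rtan_cancel ?_ k1
      intro hd
      have := map_dvd (eval (![1, 0] : Fin 2 → K)) hd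
      simp at this
      exact hl0 this
  rcases hw with hw | hw
  · have h5 : rho M A * (C (δ 0) * (C (l 0) * X 0 + C (l 1) * X 1)) +
        rho M B * (C (δ 1) * (C (l 0) * X 0 + C (l 1) * X 1)) =
        (C (l 0) * X 0 + C (l 1) * X 1) * ((C (δ 0) * rho L A + C (δ 1) * rho L B) +
          (C (δ 0) * (rho M A - rho L A) + C (δ 1) * (rho M B - rho L B))) := by ring
    rw [h5, sq]
    exact mul_dvd_mul_left _ (dvd_add hw (dvd_add (Dvd.dvd.mul_left hcA _)
      (Dvd.dvd.mul_left hcB _)))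
  · rw [hw]
    simp


/-- a linear form -/
noncomputable def j12445_incl_form (l : Fin 2 → K) : A2 K := C (l 0) * X 0 + C (l 1) * X 1

lemma j12445_incl_form_hom (l : Fin 2 → K) : (j12445_incl_form l).IsHomogeneous 1 :=
  (isHomogeneous_C_mul_X (l 0) 0).add (isHomogeneous_C_mul_X (l 1) 1)

lemma j12445_incl_eval (l : Fin 2 → K) (v : Fin 2 → K) :
    MvPolynomial.eval v (j12445_incl_form l) = l 0 * v 0 + l 1 * v 1 := by
  unfold j12445_incl_form
  simp

lemma j12445_incl_form_ne (l : Fin 2 → K) (hl : l ≠ 0) : j12445_incl_form l ≠ 0 := by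
  intro h
  apply hl
  have h0 := j12445_incl_eval l ![1, 0]
  have h1 := j12445_incl_eval l ![0, 1]
  rw [h] at h0 h1
  simp at h0 h1
  funext i
  fin_cases i
  · exact h0.symm
  · exact h1.symm

lemma j12445_incl_form_irr (l : Fin 2 → K) (hl : l ≠ 0) : Irreducible (j12445_incl_form l) := by
  apply irreducible_of_totalDegree_eq_one
  · exact (j12445_incl_form_hom l).totalDegree (j12445_incl_form_ne l hl)
  · intro x hx
    rw [isUnit_iff_ne_zero]
    rintro rfl
    apply j12445_incl_form_ne l hl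
    ext i
    have := hx i
    rw [zero_dvd_iff] at this
    rw [this, coeff_zero]

lemma j12445_incl_form_ndvd (l l' : Fin 2 → K) (h : l 0 * l' 1 - l 1 * l' 0 ≠ 0) :
    ¬ j12445_incl_form l ∣ j12445_incl_form l' := by
  rintro ⟨q, hq⟩
  apply h
  have h1 := j12445_incl_eval l' ![- l 1, l 0]
  rw [hq, map_mul, j12445_incl_eval] at h1
  simp at h1
  have h2 : l 0 * l 1 = l 1 * l 0 := mul_comm _ _
  have h3 : (-(l 0 * l 1) + l 1 * l 0) = 0 := by rw [h2]; ring
  rw [h3, zero_mul] at h1
  linear_combination -h1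

lemma j12445_incl_det {M L L' : M2 K} {δ l δ' l' : Fin 2 → K} (h : M - L = Matrix.vecMulVec δ l)
    (h' : M - L' = Matrix.vecMulVec δ' l') (hd : (L - L').det ≠ 0) :
    l 0 * l' 1 - l 1 * l' 0 ≠ 0 := by
  intro h0
  apply hd
  have e : L - L' = Matrix.vecMulVec δ' l' - Matrix.vecMulVec δ l := by
    rw [← h, ← h']; abel
  rw [e, Matrix.det_fin_two]
  simp only [Matrix.sub_apply, Matrix.vecMulVec_apply]
  linear_combination (δ' 0 * δ 1 - δ 0 * δ' 1) * h0

lemma j12445_incl_hc_mul {ℓ : A2 K} {d : ℕ} (hℓ : ℓ.IsHomogeneous d) (q : A2 K) {m : ℕ} (hm : d ≤ m) :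
    homogeneousComponent m (ℓ * q) = ℓ * homogeneousComponent (m - d) q := by
  have hmem : ∀ i, ℓ * homogeneousComponent i q ∈ homogeneousSubmodule (Fin 2) K (d + i) :=
    fun i => hℓ.mul (homogeneousComponent_isHomogeneous i q)
  conv_lhs => rw [← sum_homogeneousComponent q, Finset.mul_sum, map_sum]
  rw [Finset.sum_eq_single (m - d)]
  · rw [homogeneousComponent_of_mem (hmem _), if_pos (by omega)]
  · intro i _ hi
    rw [homogeneousComponent_of_mem (hmem _), if_neg (by omega)]
  · intro h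
    rw [Finset.mem_range, not_lt] at h
    have hz : homogeneousComponent (m - d) q = 0 := homogeneousComponent_eq_zero _ _ (by omega)
    rw [hz, mul_zero, map_zero]

lemma j12445_incl_map (m : ℕ) : (homogeneousSubmodule (Fin 4) K m).map (rho (0 : M2 K)).toLinearMap =
    homogeneousSubmodule (Fin 2) K m := by
  apply le_antisymm
  · rintro _ ⟨F, hF, rfl⟩
    exact rho_isHomogeneous 0 hF
  · intro h hh
    exact ⟨inc2 h, inc2_isHomogeneous hh, rho_inc2 0 h⟩

lemma j12445_incl_finite (m : ℕ) : Module.Finite K (homogeneousSubmodule (Fin 2) K m) := by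
  rw [← j12445_incl_map m]
  have := finite_hom (K := K) m
  infer_instance

lemma j12445_incl_finrank (m : ℕ) : Module.finrank K (homogeneousSubmodule (Fin 2) K m) = m + 1 := by
  rw [← j12445_incl_map m, ← hf_ker]
  exact hf_lineI 0 m

lemma j12445_incl_upper {s : ℕ} (M : Fin s → M2 K) (I : Ideal (S K)) (ℓ : Fin s → A2 K) (d : Fin s → ℕ)
    (hℓ : ∀ k, (ℓ k).IsHomogeneous (d k)) (hI : ∀ k, ∀ F ∈ I, ℓ k ∣ rho (M k) F)
    (m : ℕ) (hm : ∀ k, d k ≤ m) :
    Module.finrank K (dg I m) ≤ ∑ k, (m - d k + 1) +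
      Module.finrank K (dg (⨅ k, lineI (M k)) m) := by
  classical
  have := finite_dg I m
  have := finite_dg (⨅ k, lineI (M k)) m
  have := fun n => j12445_incl_finite (K := K) n
  let Ψ : S K →ₗ[K] (Fin s → A2 K) := LinearMap.pi fun k => (rho (M k)).toLinearMap
  let Θ : ((k : Fin s) → homogeneousSubmodule (Fin 2) K (m - d k)) →ₗ[K] (Fin s → A2 K) :=
    LinearMap.pi fun k => (LinearMap.mulLeft K (ℓ k)).comp
      ((homogeneousSubmodule (Fin 2) K (m - d k)).subtype.comp (LinearMap.proj k))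
  have h1 := LinearMap.finrank_range_add_finrank_ker (Ψ.domRestrict (dg I m))
  have h2 : LinearMap.range (Ψ.domRestrict (dg I m)) ≤ LinearMap.range Θ := by
    rintro _ ⟨⟨F, hF⟩, rfl⟩
    have hFI : F ∈ I := hF.1
    have hFm : F.IsHomogeneous m := hF.2
    have hq : ∀ k, ∃ q : homogeneousSubmodule (Fin 2) K (m - d k), ℓ k * q.1 = rho (M k) F := by
      intro k
      obtain ⟨q, hq⟩ := hI k F hFI
      refine ⟨⟨homogeneousComponent (m - d k) q, homogeneousComponent_isHomogeneous _ _⟩, ?_⟩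
      show ℓ k * homogeneousComponent (m - d k) q = rho (M k) F
      rw [← j12445_incl_hc_mul (hℓ k) q (hm k), ← hq,
        homogeneousComponent_eq_self (rho_isHomogeneous (M k) hFm)]
    choose q hq using hq
    refine ⟨q, ?_⟩
    funext k
    exact hq k
  have h3 : Module.finrank K (LinearMap.range (Ψ.domRestrict (dg I m))) ≤ ∑ k, (m - d k + 1) := by
    refine (Submodule.finrank_mono h2).trans ?_
    refine (LinearMap.finrank_range_le Θ).trans ?_
    rw [Module.finrank_pi_fintype]
    refine Finset.sum_le_sum fun k _ => ?_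
    rw [j12445_incl_finrank]
  have h4 : Module.finrank K (LinearMap.ker (Ψ.domRestrict (dg I m))) ≤
      Module.finrank K (dg (⨅ k, lineI (M k)) m) := by
    let g : LinearMap.ker (Ψ.domRestrict (dg I m)) →ₗ[K] dg (⨅ k, lineI (M k)) m :=
      LinearMap.codRestrict (dg (⨅ k, lineI (M k)) m)
        ((dg I m).subtype.comp (LinearMap.ker (Ψ.domRestrict (dg I m))).subtype) (by
          rintro ⟨⟨F, hF⟩, hk⟩
          refine ⟨?_, hF.2⟩
          show F ∈ (⨅ k, lineI (M k))
          rw [Ideal.mem_iInf]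
          intro k
          rw [LinearMap.mem_ker] at hk
          have := congrFun hk k
          exact this)
    refine LinearMap.finrank_le_finrank_of_injective (f := g) ?_
    intro x y hxy
    apply Subtype.ext
    apply Subtype.ext
    have h5 : (g x).1 = (g y).1 := by rw [hxy]
    exact h5
  omega

/-- Incidence count, lower bound. -/
lemma inc_le_hf_sup {r s : ℕ} (L : Fin r → M2 K) (M : Fin s → M2 K)
    (hL : ∀ i j, i ≠ j → (L i - L j).det ≠ 0) (hM : ∀ i j, i ≠ j → (M i - M j).det ≠ 0)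
    (hLM : ∀ i k, L i ≠ M k) (g f : Fin r → A2 K) (a : Fin r → ℕ)
    (hg : ∀ i, (g i).IsHomogeneous (a i + 1)) (hf' : ∀ i, (f i).IsHomogeneous (a i + 1))
    (cop : ∀ i, ∃ M, ∀ m ≥ M, ∀ p : A2 K, p.IsHomogeneous m → p ∈ Ideal.span {g i, f i})
    (htan : ∀ i k, (L i - M k).det = 0 → ∃ δ l : Fin 2 → K,
      M k - L i = Matrix.vecMulVec δ l ∧
      C (l 0) * X 0 + C (l 1) * X 1 ∣ C (δ 0) * f i - C (δ 1) * g i) :
    ∃ m0, ∀ m ≥ m0, 2 * incN L M ≤
      hf ((⨅ i, ribI (L i) (g i) (f i)) ⊔ ⨅ k, lineI (M k)) m := by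
  classical
  choose! δ l h1 h2 using htan
  -- the incident lines
  let I : Fin s → Finset (Fin r) := fun k => Finset.univ.filter fun i => (L i - M k).det = 0
  have hlne : ∀ i k, (L i - M k).det = 0 → l i k ≠ 0 := by
    intro i k h hl
    apply hLM i k
    have := h1 i k h
    rw [hl] at this
    have e : Matrix.vecMulVec (δ i k) (0 : Fin 2 → K) = 0 := by
      ext a b
      simp [Matrix.vecMulVec_apply]
    rw [e] at this
    exact (sub_eq_zero.1 this).symm
  let ℓ : Fin s → A2 K := fun k => ∏ i ∈ I k, (j12445_incl_form (l i k)) ^ 2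
  have hℓ : ∀ k, (ℓ k).IsHomogeneous (2 * (I k).card) := by
    intro k
    have := IsHomogeneous.prod (I k) (fun i => (j12445_incl_form (l i k)) ^ 2) (fun _ => 2)
      (fun i _ => by simpa using (j12445_incl_form_hom (l i k)).pow 2)
    have e : ∑ i ∈ I k, 2 = 2 * (I k).card := by
      rw [Finset.sum_const, smul_eq_mul, mul_comm]
    rw [e] at this
    exact this
  have hdiv : ∀ k, ∀ F ∈ (⨅ i, ribI (L i) (g i) (f i)), ℓ k ∣ rho (M k) F := by
    intro k F hF
    rw [Ideal.mem_iInf] at hF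
    apply Finset.prod_dvd_of_isRelPrime
    · intro i hi j hj hij
      have hi' : (L i - M k).det = 0 := (Finset.mem_filter.1 hi).2
      have hj' : (L j - M k).det = 0 := (Finset.mem_filter.1 hj).2
      show IsRelPrime ((j12445_incl_form (l i k)) ^ 2) ((j12445_incl_form (l j k)) ^ 2)
      apply IsRelPrime.pow
      rw [(j12445_incl_form_irr (l i k) (hlne i k hi')).isRelPrime_iff_not_dvd]
      exact j12445_incl_form_ndvd _ _ (j12445_incl_det (h1 i k hi') (h1 j k hj') (hL i j hij))
    · intro i hi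
      have hi' : (L i - M k).det = 0 := (Finset.mem_filter.1 hi).2
      exact rho_ribI_le (hg i) (hf' i) (cop i) (h1 i k hi') (h2 i k hi') (hF i)
  have hIdiv : ∀ k, ∀ F ∈ ((⨅ i, ribI (L i) (g i) (f i)) ⊔ ⨅ k, lineI (M k)),
      ℓ k ∣ rho (M k) F := by
    intro k F hF
    obtain ⟨F1, hF1, F2, hF2, rfl⟩ := Submodule.mem_sup.1 hF
    rw [map_add]
    have hz : rho (M k) F2 = 0 := by
      have := (Ideal.mem_iInf.1 hF2) k
      exact this
    rw [hz, add_zero]
    exact hdiv k F1 hF1
  obtain ⟨m0, hm0⟩ := hf_iInf_lineI M hM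
  refine ⟨max m0 (2 * r), fun m hm => ?_⟩
  have hmm0 : m0 ≤ m := (le_max_left _ _).trans hm
  have hmr : 2 * r ≤ m := (le_max_right _ _).trans hm
  have hcard : ∀ k, (I k).card ≤ r := by
    intro k
    have := Finset.card_le_univ (I k)
    rwa [Fintype.card_fin] at this
  have hd : ∀ k, 2 * (I k).card ≤ m := fun k => by have := hcard k; omega
  have hup := j12445_incl_upper M ((⨅ i, ribI (L i) (g i) (f i)) ⊔ ⨅ k, lineI (M k)) ℓ
    (fun k => 2 * (I k).card) hℓ hIdiv m hd
  have a1 := hf_add ((⨅ i, ribI (L i) (g i) (f i)) ⊔ ⨅ k, lineI (M k)) m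
  have a2 := hf_add (⨅ k, lineI (M k)) m
  have a3 := hm0 m hmm0
  have hsum : ∑ k, (m - 2 * (I k).card + 1) + ∑ k, 2 * (I k).card = s * (m + 1) := by
    rw [← Finset.sum_add_distrib]
    rw [Finset.sum_congr rfl (fun k _ => (by have := hd k; omega :
      m - 2 * (I k).card + 1 + 2 * (I k).card = m + 1))]
    simp
  have hinc : 2 * incN L M = ∑ k, 2 * (I k).card := by
    rw [← Finset.mul_sum]
    congr 1
    unfold incN
    rw [Nat.card_eq_fintype_card, Fintype.card_subtype]
    rw [Finset.card_filter, Fintype.sum_prod_type_right]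
    refine Finset.sum_congr rfl fun k _ => ?_
    rw [Finset.card_filter]
  rw [hinc]
  omega

end rib


end Pool.Agent.Helper924.HS
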