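import Mathlib
import Pool.Agent.Helper924.HS.Line

set_option autoImplicit false

open MvPolynomial

namespace Pool.Agent.Helper924.HS

section cfg
variable {k : Type} [Field k] {r s : ℕ}

/-- The conditions on the data. -/
structure Cfg.Good (c : Cfg k r s) : Prop where
  hA : ∀ i j, i ≠ j → (c.A i - c.A j).det ≠ 0
  hN : ∀ i j, i ≠ j → (c.N i - c.N j).det ≠ 0
  hAN : ∀ i j, c.A i ≠ c.N j
  hg : ∀ i, (c.g i).IsHomogeneous (c.a i + 1)
  hf : ∀ i, (c.f i).IsHomogeneous (c.a i + 1)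
  cop : ∀ i, ∃ M, ∀ m ≥ M, ∀ p : A2 k, p.IsHomogeneous m → p ∈ Ideal.span {c.g i, c.f i}
  tan : ∀ i j, (c.A i - c.N j).det = 0 → ∃ δ l : Fin 2 → k,
      c.N j - c.A i = Matrix.vecMulVec δ l ∧
      C (l 0) * X 0 + C (l 1) * X 1 ∣ C (δ 0) * c.f i - C (δ 1) * c.g i
  big : ∀ i, 2 * incN c.A c.N < c.a i

lemma Cfg.J_isHom (c : Cfg k r s) (hc : c.Good) : IsHom c.J :=
  isHom_inf (isHom_iInf fun i => ribI_isHom (c.A i) (hc.hg i) (hc.hf i))
    (isHom_iInf fun j => lineI_isHom (c.N j))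

lemma Cfg.hf_J (c : Cfg k r s) (hc : c.Good) : ∃ m0, ∀ m ≥ m0,
    hf c.J m + 2 * incN c.A c.N = (∑ i, (2 * m + c.a i + 2)) + s * (m + 1) := by
  have hI : IsHom (⨅ i, ribI (c.A i) (c.g i) (c.f i)) :=
    isHom_iInf fun i => ribI_isHom (c.A i) (hc.hg i) (hc.hf i)
  have hJ : IsHom (⨅ j, lineI (c.N j)) := isHom_iInf fun j => lineI_isHom (c.N j)
  obtain ⟨m1, h1⟩ := hf_iInf_ribI c.A c.g c.f c.a hc.hA hc.hg hc.hf hc.cop
  obtain ⟨m2, h2⟩ := hf_iInf_lineI c.N hc.hN
  have hQ : ∏ i, lineI (c.A i) ^ 2 ≤ ⨅ i, ribI (c.A i) (c.g i) (c.f i) := by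
    refine le_iInf fun i => ?_
    refine le_trans ?_ (lineI_sq_le_ribI (c.A i) (c.g i) (c.f i))
    exact (Ideal.prod_le_inf (s := Finset.univ) (f := fun i => lineI (c.A i) ^ 2)).trans
      (Finset.inf_le (Finset.mem_univ i))
  obtain ⟨m3, h3⟩ := hf_sup_le_inc c.A c.N hc.hA hc.hN hc.hAN _ hQ
  obtain ⟨m4, h4⟩ := inc_le_hf_sup c.A c.N hc.hA hc.hN hc.hAN c.g c.f c.a hc.hg hc.hf hc.cop hc.tan
  refine ⟨max (max m1 m2) (max m3 m4), fun m hm => ?_⟩
  have e1 := h1 m (by omega)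
  have e2 := h2 m (by omega)
  have e3 := h3 m (by omega)
  have e4 := h4 m (by omega)
  have e5 := hf_inf_sup hI hJ m
  rw [e1, e2] at e5
  unfold Cfg.J
  omega

lemma Cfg.TF_J (c : Cfg k r s) : TF c.J := by
  intro h hh F hF
  rw [Cfg.J, Ideal.mem_inf] at hF ⊢
  rw [Ideal.mem_iInf, Ideal.mem_iInf] at hF ⊢
  refine ⟨fun i => ?_, fun j => ?_⟩
  · refine ribI_primary (hF.1 i) fun hmem => hh ?_
    have h1 : rho (c.A i) (inc2 h) = 0 := hmem
    rw [rho_inc2] at h1
    exact h1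
  · exact TF_lineI (c.N j) h hh F (hF.2 j)

lemma j12926_fin_mul235 {I I' : Ideal (S k)} (h : FIN I) (h' : FIN I') : FIN (I * I') := by
  obtain ⟨N, hN⟩ := h
  obtain ⟨N', hN'⟩ := h'
  refine ⟨N + N', ?_⟩
  rw [pow_add]
  refine (Ideal.mul_mono hN hN').trans ?_
  rw [Ideal.sup_mul, Ideal.mul_sup]
  refine sup_le (sup_le le_sup_left ?_) ?_
  · exact Ideal.mul_le_right.trans le_sup_right
  · exact Ideal.mul_le_left.trans le_sup_right

lemma j12926_fin_mono235 {I I' : Ideal (S k)} (hI : I ≤ I') (h : FIN I) : FIN I' := by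
  obtain ⟨N, hN⟩ := h
  exact ⟨N, hN.trans (sup_le_sup_right hI _)⟩

lemma j12926_fin_prod235 {ι : Type} (t : Finset ι) (I : ι → Ideal (S k)) (h : ∀ i, FIN (I i)) :
    FIN (∏ i ∈ t, I i) := by
  classical
  induction t using Finset.induction_on with
  | empty =>
    refine ⟨0, ?_⟩
    rw [Finset.prod_empty, pow_zero]
    exact le_sup_left
  | insert a t ha ih =>
    rw [Finset.prod_insert ha]
    exact j12926_fin_mul235 (h a) ih

lemma Cfg.FIN_J (c : Cfg k r s) : FIN c.J := by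
  have h1 : FIN ((∏ i, lineI (c.A i) ^ 2) * ∏ j, lineI (c.N j)) := by
    refine j12926_fin_mul235 (j12926_fin_prod235 _ _ fun i => ?_) (j12926_fin_prod235 _ _ fun j => FIN_lineI (c.N j))
    rw [pow_two]
    exact j12926_fin_mul235 (FIN_lineI _) (FIN_lineI _)
  refine j12926_fin_mono235 ?_ h1
  refine le_inf (Ideal.mul_le_left.trans ?_) (Ideal.mul_le_right.trans ?_)
  · refine le_iInf fun i => ?_
    exact Ideal.prod_le_inf.trans ((Finset.inf_le (Finset.mem_univ i)).trans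
      (lineI_sq_le_ribI _ _ _))
  · refine le_iInf fun j => ?_
    exact Ideal.prod_le_inf.trans (Finset.inf_le (Finset.mem_univ j))


/-- eps as a linear map -/
noncomputable def j12932_epsL (L : M2 k) (g f : A2 k) : S k →ₗ[k] A2 k where
  toFun := eps L g f
  map_add' := eps_add L g f
  map_smul' := fun t F => by
    unfold eps
    rw [map_smul, TrivSqZeroExt.snd_smul]
    rfl

lemma j12932_epsL_apply (L : M2 k) (g f : A2 k) (F : S k) : j12932_epsL L g f F = eps L g f F := rfl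

lemma j12932_map_rho_hom (L : M2 k) (m : ℕ) :
    (homogeneousSubmodule (Fin 4) k m).map (rho L).toLinearMap = homogeneousSubmodule (Fin 2) k m := by
  apply le_antisymm
  · rintro _ ⟨F, hF, rfl⟩
    exact rho_isHomogeneous L hF
  · intro h hh
    exact ⟨inc2 h, inc2_isHomogeneous hh, rho_inc2 L h⟩

lemma j12932_finrank_hom2 (m : ℕ) : Module.finrank k (homogeneousSubmodule (Fin 2) k m) = m + 1 := by
  have h1 := hf_lineI (0 : M2 k) m
  have h2 := hf_ker (rho (0 : M2 k)) m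
  rw [j12932_map_rho_hom] at h2
  rw [← h2]
  exact h1

instance j12932_finite_hom2 (m : ℕ) : Module.Finite k (homogeneousSubmodule (Fin 2) k m) := by
  rw [← j12932_map_rho_hom (0 : M2 k) m]
  infer_instance

/-- The coordinates of the nilradical modulo `J`. -/
lemma Cfg.exists_T (c : Cfg k r s) (hc : c.Good) (W : Ideal (S k)) (hW : IsHom W)
    (hJW : ∃ m0, ∀ m ≥ m0, ∀ F : S k, F.IsHomogeneous m → F ∈ c.J → F ∈ W)
    (hWA : W ≤ ⨅ i, lineI (c.A i)) (hWN : W ≤ ⨅ j, lineI (c.N j)) :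
    ∃ T : Finset (Fin r),
      (∃ m1, ∀ m ≥ m1, hf c.J m ≤ hf W m + ∑ i ∈ T, (m + c.a i + 1)) ∧
      (∃ C, ∀ m, T.card * m + hf W m ≤ hf c.J m + C) ∧
      ∀ i ∈ T, ∃ F ∈ W, eps (c.A i) (c.g i) (c.f i) F ≠ 0 := by
  classical
  let ε : Fin r → S k →ₗ[k] A2 k := fun i => j12932_epsL (c.A i) (c.g i) (c.f i)
  let P : Finset (Fin r) → Prop := fun T => ∃ m1, ∀ m ≥ m1, ∀ F : S k, F.IsHomogeneous m → F ∈ W →
    (∀ i ∈ T, ε i F = 0) → F ∈ c.J
  have hPu : P Finset.univ := by
    refine ⟨0, fun m _ F _ hFW hF => ?_⟩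
    have h1 := hWA hFW
    have h2 := hWN hFW
    unfold Cfg.J
    refine ⟨?_, h2⟩
    simp only [SetLike.mem_coe, Submodule.mem_iInf] at h1 ⊢
    intro i
    exact mem_ribI.2 ⟨h1 i, hF i (Finset.mem_univ i)⟩
  obtain ⟨T, hT, hmin⟩ := (Finset.univ.filter P).exists_min_image Finset.card
    ⟨Finset.univ, Finset.mem_filter.2 ⟨Finset.mem_univ _, hPu⟩⟩
  have hPT : P T := (Finset.mem_filter.1 hT).2
  have hnP : ∀ i ∈ T, ¬ P (T.erase i) := by
    intro i hi hP
    have h1 := hmin (T.erase i) (Finset.mem_filter.2 ⟨Finset.mem_univ _, hP⟩)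
    have h2 := Finset.card_erase_lt_of_mem hi
    omega
  obtain ⟨m1, hm1⟩ := hPT
  obtain ⟨m0, hm0⟩ := hJW
  -- the forms w_i
  have hw : ∀ i : T, ∃ (n : ℕ) (F : S k), F.IsHomogeneous n ∧ F ∈ W ∧
      (∀ j ∈ T, j ≠ i.1 → ε j F = 0) ∧ ε i.1 F ≠ 0 := by
    intro i
    have h := hnP i.1 i.2
    by_contra hcon
    apply h
    refine ⟨m1, fun m hm F hFm hFW hF => ?_⟩
    by_contra hFJ
    apply hcon
    refine ⟨m, F, hFm, hFW, fun j hj hji => hF j (Finset.mem_erase.2 ⟨hji, hj⟩), ?_⟩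
    intro h0
    apply hFJ
    apply hm1 m hm F hFm hFW
    intro j hj
    by_cases hji : j = i.1
    · rw [hji]; exact h0
    · exact hF j (Finset.mem_erase.2 ⟨hji, hj⟩)
  choose d w hwd hwW hw0 hw1 using hw
  have hWrho : ∀ F ∈ W, ∀ j, rho (c.A j) F = 0 := by
    intro F hF j
    have h1 := hWA hF
    rw [Submodule.mem_iInf] at h1
    exact h1 j
  have hJeps : ∀ F ∈ c.J, ∀ j, ε j F = 0 := by
    intro F hF j
    have h1 : F ∈ ⨅ i, ribI (c.A i) (c.g i) (c.f i) := hF.1
    rw [Submodule.mem_iInf] at h1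
    exact (mem_ribI.1 (h1 j)).2
  refine ⟨T, ⟨m1, fun m hm => ?_⟩, ?_, fun i hi => ⟨w ⟨i, hi⟩, hwW ⟨i, hi⟩, hw1 ⟨i, hi⟩⟩⟩
  · -- upper bound
    let Φ : dg W m →ₗ[k] (∀ i : T, homogeneousSubmodule (Fin 2) k (m + c.a i.1)) :=
      LinearMap.pi fun i => ((ε i.1).comp (dg W m).subtype).codRestrict _ (fun F =>
        eps_isHomogeneous (c.A i.1) (hc.hg i.1) (hc.hf i.1) F.2.2)
    have h1 := LinearMap.finrank_range_add_finrank_ker Φ
    have h2 : Module.finrank k (LinearMap.range Φ) ≤ ∑ i ∈ T, (m + c.a i + 1) := by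
      refine (Submodule.finrank_le _).trans ?_
      rw [Module.finrank_pi_fintype]
      simp only [j12932_finrank_hom2]
      rw [Finset.sum_coe_sort T (fun i => m + c.a i + 1)]
    have h3 : Module.finrank k (LinearMap.ker Φ) ≤ Module.finrank k (dg c.J m) := by
      let ι : LinearMap.ker Φ →ₗ[k] dg c.J m :=
        ((dg W m).subtype.comp (LinearMap.ker Φ).subtype).codRestrict _ (fun F => by
          refine ⟨?_, F.1.2.2⟩
          show (F.1.1 : S k) ∈ c.J
          apply hm1 m hm F.1.1 F.1.2.2 F.1.2.1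
          intro i hi
          have h4 : Φ F.1 = 0 := F.2
          have h5 := congrFun h4 ⟨i, hi⟩
          exact congrArg Subtype.val h5)
      apply LinearMap.finrank_le_finrank_of_injective (f := ι)
      intro x y hxy
      have h6 : ((ι x).1 : S k) = (ι y).1 := congrArg Subtype.val hxy
      exact Subtype.ext (Subtype.ext h6)
    have h4 := hf_add c.J m
    have h5 := hf_add W m
    omega
  · -- lower bound
    have key : ∀ m, m0 ≤ m → (∀ i, d i ≤ m) →
        T.card * m + hf W m ≤ hf c.J m + ∑ i, d i := by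
      intro m hm hd
      let Ψ : (dg c.J m × (∀ i : T, homogeneousSubmodule (Fin 2) k (m - d i))) →ₗ[k] dg W m :=
        LinearMap.codRestrict _ ((dg c.J m).subtype.coprod
          (LinearMap.lsum k (fun i : T => homogeneousSubmodule (Fin 2) k (m - d i)) k
            (fun i : T => (LinearMap.mulRight k (w i)).comp
              (inc2.toLinearMap.comp (homogeneousSubmodule (Fin 2) k (m - d i)).subtype)))) (by
          rintro ⟨G, h⟩
          rw [LinearMap.coprod_apply]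
          apply Submodule.add_mem
          · exact ⟨hm0 m hm G.1 G.2.2 G.2.1, G.2.2⟩
          · rw [LinearMap.lsum_apply, LinearMap.sum_apply]
            apply Submodule.sum_mem
            intro i _
            refine ⟨?_, ?_⟩
            · exact W.mul_mem_left _ (hwW i)
            · have h7 : (inc2 (h i).1 * w i).IsHomogeneous ((m - d i) + d i) :=
                (inc2_isHomogeneous (h i).2).mul (hwd i)
              rw [Nat.sub_add_cancel (hd i)] at h7
              exact h7)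
      have hΨ : Function.Injective Ψ := by
        rw [← LinearMap.ker_eq_bot, LinearMap.ker_eq_bot']
        rintro ⟨G, h⟩ h0
        have h1 : (G.1 : S k) + ∑ i : T, inc2 (h i).1 * w i = 0 := by
          have h2 := congrArg Subtype.val h0
          have h3 : ((Ψ (G, h)).1 : S k) = G.1 + ∑ i : T, inc2 (h i).1 * w i := by
            simp [Ψ, LinearMap.lsum_apply]
          rw [← h3]; exact h2
        have h4 : ∀ j : T, h j = 0 := by
          intro j
          have h5 := congrArg (ε j.1) h1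
          rw [map_add, map_sum, hJeps _ G.2.1, zero_add, map_zero,
            Finset.sum_eq_single j] at h5
          · have h6 : ε j.1 (inc2 (h j).1 * w j) = (h j).1 * ε j.1 (w j) := by
              show eps _ _ _ _ = _ * eps _ _ _ _
              rw [eps_mul, rho_inc2, hWrho _ (hwW j), mul_zero, add_zero]
            rw [h6] at h5
            rcases mul_eq_zero.1 h5 with h7 | h7
            · exact Subtype.ext h7
            · exact absurd h7 (hw1 j)
          · intro i _ hij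
            show eps _ _ _ _ = _
            rw [eps_mul, hWrho _ (hwW i), mul_zero, add_zero]
            have h8 : eps (c.A j.1) (c.g j.1) (c.f j.1) (w i) = 0 :=
              hw0 i j.1 j.2 (fun h => hij (Subtype.ext h).symm)
            rw [h8, mul_zero]
          · intro h; exact absurd (Finset.mem_univ _) h
        have h9 : h = 0 := funext h4
        subst h9
        have h10 : (G.1 : S k) = 0 := by simpa using h1
        rw [Prod.mk_eq_zero]
        exact ⟨Subtype.ext h10, rfl⟩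
      have h1 := LinearMap.finrank_le_finrank_of_injective hΨ
      rw [Module.finrank_prod, Module.finrank_pi_fintype] at h1
      simp only [j12932_finrank_hom2] at h1
      have h2 : T.card * m ≤ ∑ i : T, (m - d i + 1) + ∑ i, d i := by
        rw [← Finset.sum_add_distrib]
        have h3 : ∑ i : T, m ≤ ∑ i : T, (m - d i + 1 + d i) := by
          apply Finset.sum_le_sum
          intro i _
          omega
        simpa using h3
      have h4 := hf_add c.J m
      have h5 := hf_add W m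
      omega
    refine ⟨∑ i, d i + ∑ n ∈ Finset.range (m0 + ∑ i, d i), (T.card * n + hf W n), fun m => ?_⟩
    by_cases hm : m < m0 + ∑ i, d i
    · have h1 := Finset.single_le_sum (f := fun n => T.card * n + hf W n)
        (fun _ _ => Nat.zero_le _) (Finset.mem_range.2 hm)
      have h1' : T.card * m + hf W m ≤ ∑ n ∈ Finset.range (m0 + ∑ i, d i), (T.card * n + hf W n) := h1
      omega
    · have h1 := key m (by omega) (fun i => by
        have h2 := Finset.single_le_sum (f := d) (fun _ _ => Nat.zero_le _) (Finset.mem_univ i)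
        omega)
      omega

lemma count_num {r s inc d' : ℕ} (a : Fin r → ℕ) (T : Finset (Fin r)) (hJ hR : ℕ → ℕ)
    (h1 : ∃ m0, ∀ m ≥ m0, hJ m + 2 * inc = (∑ i, (2 * m + a i + 2)) + s * (m + 1))
    (h2 : ∀ m, hR m ≤ d' * (m + 1)) (h3 : ∃ C, ∀ m, d' * m ≤ hR m + C)
    (h4 : ∃ m1, ∀ m ≥ m1, hJ m ≤ hR m + ∑ i ∈ T, (m + a i + 1))
    (h5 : ∃ C, ∀ m, T.card * m + hR m ≤ hJ m + C)
    (hbig : ∀ i, 2 * inc < a i) : T = Finset.univ ∧ d' = r + s := by
  obtain ⟨m0, h1⟩ := h1
  obtain ⟨C3, h3⟩ := h3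
  obtain ⟨m1, h4⟩ := h4
  obtain ⟨C5, h5⟩ := h5
  obtain ⟨A, hA⟩ : ∃ A, A = ∑ i, a i := ⟨_, rfl⟩
  obtain ⟨AT, hAT⟩ : ∃ AT, AT = ∑ i ∈ T, a i := ⟨_, rfl⟩
  have e1 : ∀ m, (∑ i : Fin r, (2 * m + a i + 2)) = 2 * r * (m + 1) + A := by
    intro m
    rw [hA]
    simp only [Finset.sum_add_distrib, Finset.sum_const, Finset.card_univ, Fintype.card_fin,
      smul_eq_mul]
    ring
  have e4 : ∀ m, (∑ i ∈ T, (m + a i + 1)) = T.card * (m + 1) + AT := by
    intro m
    rw [hAT]
    simp only [Finset.sum_add_distrib, Finset.sum_const, smul_eq_mul]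
    ring
  have f1 : ∀ m ≥ m0, hJ m + 2 * inc = (2 * r + s) * (m + 1) + A := by
    intro m hm
    rw [h1 m hm, e1]
    ring
  have f4 : ∀ m ≥ m1, hJ m ≤ (d' + T.card) * (m + 1) + AT := by
    intro m hm
    have g4 := h4 m hm
    rw [e4] at g4
    have g2 := h2 m
    calc hJ m ≤ hR m + (T.card * (m + 1) + AT) := g4
      _ ≤ d' * (m + 1) + (T.card * (m + 1) + AT) := by omega
      _ = _ := by ring
  have f5 : ∀ m, (d' + T.card) * m ≤ hJ m + (C3 + C5) := by
    intro m
    have g3 := h3 m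
    have g5 := h5 m
    have g6 : (d' + T.card) * m = d' * m + T.card * m := by ring
    omega
  obtain ⟨D, hD⟩ : ∃ D, D = 2 * r + s := ⟨_, rfl⟩
  obtain ⟨E, hE⟩ : ∃ E, E = d' + T.card := ⟨_, rfl⟩
  rw [← hD] at f1
  rw [← hE] at f4 f5
  have hDE : D ≤ E := by
    by_contra hlt
    have hlt' : E + 1 ≤ D := by omega
    have g1 := f1 (m0 + m1 + AT + 2 * inc) (by omega)
    have g4 := f4 (m0 + m1 + AT + 2 * inc) (by omega)
    have g7 := Nat.mul_le_mul_right (m0 + m1 + AT + 2 * inc + 1) hlt'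
    have g8 : (E + 1) * (m0 + m1 + AT + 2 * inc + 1) =
        E * (m0 + m1 + AT + 2 * inc + 1) + (m0 + m1 + AT + 2 * inc + 1) := by ring
    omega
  have hED : E ≤ D := by
    by_contra hlt
    have hlt' : D + 1 ≤ E := by omega
    have g1 := f1 (m0 + D + A + C3 + C5 + 1) (by omega)
    have g5 := f5 (m0 + D + A + C3 + C5 + 1)
    have g7 := Nat.mul_le_mul_right (m0 + D + A + C3 + C5 + 1) hlt'
    have g8 : (D + 1) * (m0 + D + A + C3 + C5 + 1) =
        D * (m0 + D + A + C3 + C5 + 1) + (m0 + D + A + C3 + C5 + 1) := by ring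
    have g9 : D * (m0 + D + A + C3 + C5 + 1 + 1) =
        D * (m0 + D + A + C3 + C5 + 1) + D := by ring
    omega
  have hEq : D = E := le_antisymm hDE hED
  have hAle : A ≤ AT + 2 * inc := by
    have g1 := f1 (m0 + m1) (by omega)
    have g4 := f4 (m0 + m1) (by omega)
    rw [hEq] at g1
    omega
  have hT : T = Finset.univ := by
    by_contra hne
    obtain ⟨i, hi⟩ : ∃ i, i ∉ T := by
      by_contra hcon
      push Not at hcon
      exact hne (Finset.eq_univ_iff_forall.2 hcon)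
    have hsub : ∑ j ∈ insert i T, a j ≤ ∑ j, a j :=
      Finset.sum_le_sum_of_subset (Finset.subset_univ _)
    rw [Finset.sum_insert hi, ← hA, ← hAT] at hsub
    have := hbig i
    omega
  refine ⟨hT, ?_⟩
  have hcard : T.card = r := by rw [hT, Finset.card_univ, Fintype.card_fin]
  omega

lemma all_lines {n r : ℕ} {K : Type} [Field K] (p : Fin n → Ideal (S K)) (e : Fin n → ℕ)
    (hh : ∀ c, IsHom (p c))
    (hb : ∀ c m, hf (p c) m ≤ e c * (m + 1))
    (heq : ∀ c m, hf (p c) m = e c * (m + 1) → ∃ L, p c = lineI L) (hpos : ∀ c, 0 < e c)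
    (hsum : ∑ c, e c ≤ r) (hlow : ∃ m0, ∀ m ≥ m0, r * (m + 1) ≤ hf (⨅ c, p c) m) :
    n = r ∧ (∀ c, e c = 1) ∧ ∀ c, ∃ L, p c = lineI L := by
  obtain ⟨m0, hm0⟩ := hlow
  have h1 : r * (m0 + 1) ≤ hf (⨅ c, p c) m0 := hm0 m0 le_rfl
  have h2 : hf (⨅ c, p c) m0 ≤ ∑ c, hf (p c) m0 := hf_iInf_le hh m0
  have h3 : ∑ c, hf (p c) m0 ≤ ∑ c, e c * (m0 + 1) := Finset.sum_le_sum fun c _ => hb c m0
  have h4 : ∑ c, e c * (m0 + 1) = (∑ c, e c) * (m0 + 1) := by rw [Finset.sum_mul]
  have h5 : (∑ c, e c) * (m0 + 1) ≤ r * (m0 + 1) := Nat.mul_le_mul_right _ hsum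
  have h6 : (∑ c, e c) = r := by
    have : r * (m0 + 1) ≤ (∑ c, e c) * (m0 + 1) := by
      rw [← h4]; exact (h1.trans h2).trans h3
    exact le_antisymm hsum (Nat.le_of_mul_le_mul_right this (Nat.succ_pos _))
  have h7 : ∑ c, hf (p c) m0 = ∑ c, e c * (m0 + 1) := by
    refine le_antisymm h3 ?_
    rw [h4]
    exact h5.trans (h1.trans h2)
  have h8 : ∀ c, hf (p c) m0 = e c * (m0 + 1) := by
    have := (Finset.sum_eq_sum_iff_of_le (s := Finset.univ)
      (f := fun c => hf (p c) m0) (g := fun c => e c * (m0 + 1))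
      (fun c _ => hb c m0)).mp h7
    intro c
    exact this c (Finset.mem_univ c)
  have h9 : ∀ c, ∃ L, p c = lineI L := fun c => heq c m0 (h8 c)
  have h10 : ∀ c, e c = 1 := by
    intro c
    obtain ⟨L, hL⟩ := h9 c
    have h := h8 c
    rw [hL, hf_lineI] at h
    have h' : 1 * (m0 + 1) = e c * (m0 + 1) := by rw [one_mul]; exact h
    exact (Nat.eq_of_mul_eq_mul_right (Nat.succ_pos _) h').symm
  refine ⟨?_, h10, h9⟩
  have h11 : ∑ c, e c = n := by
    simp [h10]
  omega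

end cfg


end Pool.Agent.Helper924.HS
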