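import Mathlib
import Pool.Agent.Helper924.HS.Defs

set_option autoImplicit false

open MvPolynomial

namespace Pool.Agent.Helper924.HS

section maclane
variable {R : Type} [CommRing R]

/-- For a line `L` meeting the lines `X` and `Y`: the coordinates of (a multiple of) the
corresponding idempotent. -/
def pt3 (X Y L : M2 R) : Fin 3 → R :=
  ![((X - L) * (X - Y).adjugate) 0 0, ((X - L) * (X - Y).adjugate) 0 1,
    ((X - L) * (X - Y).adjugate) 1 0]

/-- the determinant of three points seen from the point of `L 8` -/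
def br (X Y : M2 R) (L : Fin 9 → M2 R) (i j k : Fin 9) : R :=
  Matrix.det (Matrix.of ![pt3 X Y (L i) - pt3 X Y (L 8), pt3 X Y (L j) - pt3 X Y (L 8),
    pt3 X Y (L k) - pt3 X Y (L 8)])

def tnum (X Y : M2 R) (L : Fin 9 → M2 R) : R :=
  br X Y L 0 1 7 * br X Y L 0 4 2 * br X Y L 3 1 2

def tden (X Y : M2 R) (L : Fin 9 → M2 R) : R :=
  br X Y L 0 3 2 * br X Y L 0 1 4 * br X Y L 7 1 2

lemma j13638_ml1_pt3 (X Y L L' : M2 R) : pt3 Y X L - pt3 Y X L' = -(pt3 X Y L - pt3 X Y L') := by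
  funext i
  fin_cases i <;>
    simp [pt3, Matrix.adjugate_fin_two, Matrix.mul_apply, Fin.sum_univ_two] <;> ring

lemma j13638_ml1_br (X Y : M2 R) (L : Fin 9 → M2 R) (i j k : Fin 9) :
    br Y X L i j k = - br X Y L i j k := by
  unfold br
  rw [j13638_ml1_pt3 X Y (L i) (L 8), j13638_ml1_pt3 X Y (L j) (L 8), j13638_ml1_pt3 X Y (L k) (L 8)]
  simp only [Matrix.det_fin_three, Matrix.of_apply, Matrix.cons_val_zero, Matrix.cons_val_one,
    Matrix.cons_val_two, Matrix.head_cons, Matrix.tail_cons, Pi.neg_apply, Matrix.cons_val]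
  ring

lemma tnum_swap (X Y : M2 R) (L : Fin 9 → M2 R) : tnum Y X L = - tnum X Y L := by
  unfold tnum
  rw [j13638_ml1_br X Y, j13638_ml1_br X Y, j13638_ml1_br X Y]
  ring

lemma tden_swap (X Y : M2 R) (L : Fin 9 → M2 R) : tden Y X L = - tden X Y L := by
  unfold tden
  rw [j13638_ml1_br X Y, j13638_ml1_br X Y, j13638_ml1_br X Y]
  ring

lemma br_map {R' : Type} [CommRing R'] (φ : R →+* R') (X Y : M2 R) (L : Fin 9 → M2 R)
    (i j k : Fin 9) : br (X.map φ) (Y.map φ) (fun i => (L i).map φ) i j k = φ (br X Y L i j k) := by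
  unfold br
  simp [pt3, Matrix.det_fin_three, Matrix.adjugate_fin_two, Matrix.mul_apply, Fin.sum_univ_two]

/-- the incidence relation between the nine double lines and the ten simple lines -/
def Einc (i : Fin 9) (k : Fin 10) : Prop :=
  8 ≤ (k : ℕ) ∨ (i : ℕ) = 8 ∨ (i : ℕ) = k ∨ (i : ℕ) = (k + 1) % 8 ∨ (i : ℕ) = (k + 3) % 8

instance (i : Fin 9) (k : Fin 10) : Decidable (Einc i k) := by
  unfold Einc; infer_instance

/-- the lines of the MacLane configuration -/
def isLine (i j l : Fin 9) : Prop :=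
  ∃ k : Fin 10, (k : ℕ) < 8 ∧ Einc i k ∧ Einc j k ∧ Einc l k

instance (i j l : Fin 9) : Decidable (isLine i j l) := by
  unfold isLine; infer_instance

end maclane

section field
variable {K : Type} [Field K]

/-- the determinant of three vectors -/
def j13618_d3 (x y z : Fin 3 → K) : K := Matrix.det (Matrix.of ![x, y, z])

lemma j13618_d3_eq (x y z : Fin 3 → K) : j13618_d3 x y z =
    x 0 * y 1 * z 2 - x 0 * y 2 * z 1 - x 1 * y 0 * z 2 + x 1 * y 2 * z 0 + x 2 * y 0 * z 1 -
      x 2 * y 1 * z 0 := by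
  simp [j13618_d3, Matrix.det_fin_three]

lemma j13618_d3_plucker (a b c x y z : Fin 3 → K) :
    j13618_d3 ![j13618_d3 x b c, j13618_d3 a x c, j13618_d3 a b x] ![j13618_d3 y b c, j13618_d3 a y c, j13618_d3 a b y]
      ![j13618_d3 z b c, j13618_d3 a z c, j13618_d3 a b z] = j13618_d3 a b c ^ 2 * j13618_d3 x y z := by
  have h : ∀ t : Fin 3 → K, ![j13618_d3 t b c, j13618_d3 a t c, j13618_d3 a b t] =
      Matrix.vecMul t (Matrix.of ![a, b, c]).adjugate := by
    intro t
    rw [Matrix.adjugate_fin_three]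
    funext i
    fin_cases i <;> simp [j13618_d3_eq, Matrix.vecMul, dotProduct, Fin.sum_univ_three] <;> ring
  rw [h x, h y, h z]
  have h2 : Matrix.of ![Matrix.vecMul x (Matrix.of ![a, b, c]).adjugate,
      Matrix.vecMul y (Matrix.of ![a, b, c]).adjugate,
      Matrix.vecMul z (Matrix.of ![a, b, c]).adjugate] =
      Matrix.of ![x, y, z] * (Matrix.of ![a, b, c]).adjugate := by
    ext i j
    fin_cases i <;> rfl
  unfold j13618_d3
  rw [h2, Matrix.det_mul, Matrix.det_adjugate]
  simp [mul_comm]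

lemma j13618_maclane_abs (w : Fin 9 → Fin 3 → K)
    (h013 : j13618_d3 (w 0) (w 1) (w 3) = 0) (h124 : j13618_d3 (w 4) (w 1) (w 2) = 0)
    (h235 : j13618_d3 (w 2) (w 3) (w 5) = 0) (h346 : j13618_d3 (w 3) (w 4) (w 6) = 0)
    (h457 : j13618_d3 (w 4) (w 5) (w 7) = 0) (h560 : j13618_d3 (w 5) (w 6) (w 0) = 0)
    (h671 : j13618_d3 (w 6) (w 7) (w 1) = 0) (h702 : j13618_d3 (w 0) (w 7) (w 2) = 0)
    (n012 : j13618_d3 (w 0) (w 1) (w 2) ≠ 0) (n052 : j13618_d3 (w 0) (w 5) (w 2) ≠ 0)
    (n016 : j13618_d3 (w 0) (w 1) (w 6) ≠ 0) :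
    (j13618_d3 (w 0) (w 1) (w 7) * j13618_d3 (w 0) (w 4) (w 2) * j13618_d3 (w 3) (w 1) (w 2)) ^ 2 +
    (j13618_d3 (w 0) (w 1) (w 7) * j13618_d3 (w 0) (w 4) (w 2) * j13618_d3 (w 3) (w 1) (w 2)) *
    (j13618_d3 (w 0) (w 3) (w 2) * j13618_d3 (w 0) (w 1) (w 4) * j13618_d3 (w 7) (w 1) (w 2)) +
    (j13618_d3 (w 0) (w 3) (w 2) * j13618_d3 (w 0) (w 1) (w 4) * j13618_d3 (w 7) (w 1) (w 2)) ^ 2 = 0 := by
  have e235 := j13618_d3_plucker (w 0) (w 1) (w 2) (w 2) (w 3) (w 5)
  have e346 := j13618_d3_plucker (w 0) (w 1) (w 2) (w 3) (w 4) (w 6)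
  have e457 := j13618_d3_plucker (w 0) (w 1) (w 2) (w 4) (w 5) (w 7)
  have e560 := j13618_d3_plucker (w 0) (w 1) (w 2) (w 5) (w 6) (w 0)
  have e671 := j13618_d3_plucker (w 0) (w 1) (w 2) (w 6) (w 7) (w 1)
  rw [h235, mul_zero] at e235
  rw [h346, mul_zero] at e346
  rw [h457, mul_zero] at e457
  rw [h560, mul_zero] at e560
  rw [h671, mul_zero] at e671
  have z1 : ∀ x y : Fin 3 → K, j13618_d3 x y y = 0 := by intro x y; rw [j13618_d3_eq]; ring
  have z2 : ∀ x y : Fin 3 → K, j13618_d3 x y x = 0 := by intro x y; rw [j13618_d3_eq]; ring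
  have z3 : ∀ x y : Fin 3 → K, j13618_d3 x x y = 0 := by intro x y; rw [j13618_d3_eq]; ring
  rw [z1, z2, h013] at e235
  rw [h013, h124] at e346
  rw [h124, h702] at e457
  rw [z3, z2] at e560
  rw [h702, z3, z1] at e671
  set D := j13618_d3 (w 0) (w 1) (w 2)
  set a := j13618_d3 (w 3) (w 1) (w 2)
  set b := j13618_d3 (w 0) (w 3) (w 2)
  set c := j13618_d3 (w 0) (w 4) (w 2)
  set d := j13618_d3 (w 0) (w 1) (w 4)
  set e := j13618_d3 (w 7) (w 1) (w 2)
  set z := j13618_d3 (w 0) (w 1) (w 7)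
  set p := j13618_d3 (w 5) (w 1) (w 2)
  set q := j13618_d3 (w 0) (w 5) (w 2)
  set r := j13618_d3 (w 0) (w 1) (w 5)
  set s := j13618_d3 (w 6) (w 1) (w 2)
  set t := j13618_d3 (w 0) (w 6) (w 2)
  set u := j13618_d3 (w 0) (w 1) (w 6)
  rw [j13618_d3_eq] at e235 e346 e457 e560 e671
  simp at e235 e346 e457 e560 e671
  have e235' : a * q - b * p = 0 := by
    have : D * (a * q - b * p) = 0 := by linear_combination e235
    exact (mul_eq_zero.1 this).resolve_left n012
  have e560' : q * u - r * t = 0 := by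
    have : D * (q * u - r * t) = 0 := by linear_combination e560
    exact (mul_eq_zero.1 this).resolve_left n012
  have e671' : -(s * z) + u * e = 0 := by
    have : D * (-(s * z) + u * e) = 0 := by linear_combination e671
    exact (mul_eq_zero.1 this).resolve_left n012
  have h1 : (z * c * a + b * d * e) * q = c * e * r * b := by
    linear_combination (c * z) * e235' - b * e457
  have h2 : (z * c * a + b * d * e) * u = a * d * t * z := by
    linear_combination z * e346 + b * d * e671'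
  have h3 : (q * u) * ((z * c * a) ^ 2 + z * c * a * (b * d * e) + (b * d * e) ^ 2) = 0 := by
    linear_combination ((z * c * a + b * d * e) * u) * h1 + (c * e * r * b) * h2 -
      (z * c * a) * (b * d * e) * e560'
  exact (mul_eq_zero.1 h3).resolve_left (mul_ne_zero n052 n016)

/-- the MacLane configuration forces a primitive third root of unity -/
lemma maclane (X Y : M2 K) (L : Fin 9 → M2 K)
    (hline : ∀ i j l : Fin 9, i ≠ 8 → j ≠ 8 → l ≠ 8 → isLine i j l → br X Y L i j l = 0)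
    (hne : ∀ i j l : Fin 9, i ≠ 8 → j ≠ 8 → l ≠ 8 → i ≠ j → j ≠ l → i ≠ l → ¬ isLine i j l →
      br X Y L i j l ≠ 0) :
    tnum X Y L ^ 2 + tnum X Y L * tden X Y L + tden X Y L ^ 2 = 0 := by
  exact j13618_maclane_abs (fun i => pt3 X Y (L i) - pt3 X Y (L 8))
    (hline 0 1 3 (by decide) (by decide) (by decide) (by decide))
    (hline 4 1 2 (by decide) (by decide) (by decide) (by decide))
    (hline 2 3 5 (by decide) (by decide) (by decide) (by decide))
    (hline 3 4 6 (by decide) (by decide) (by decide) (by decide))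
    (hline 4 5 7 (by decide) (by decide) (by decide) (by decide))
    (hline 5 6 0 (by decide) (by decide) (by decide) (by decide))
    (hline 6 7 1 (by decide) (by decide) (by decide) (by decide))
    (hline 0 7 2 (by decide) (by decide) (by decide) (by decide))
    (hne 0 1 2 (by decide) (by decide) (by decide) (by decide) (by decide) (by decide) (by decide))
    (hne 0 5 2 (by decide) (by decide) (by decide) (by decide) (by decide) (by decide) (by decide))
    (hne 0 1 6 (by decide) (by decide) (by decide) (by decide) (by decide) (by decide) (by decide))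

lemma j13664_coplanar_key {R : Type} [CommRing R] (X Y Z l : M2 R) (h1 : (l - X).det = 0)
    (h2 : (l - Y).det = 0) (h3 : (l - Z).det = 0) :
    (((X - Z) * (X - Y).adjugate) 1 1 - ((X - Z) * (X - Y).adjugate) 0 0)
        * ((X - l) * (X - Y).adjugate) 0 0
      - ((X - Z) * (X - Y).adjugate) 1 0 * ((X - l) * (X - Y).adjugate) 0 1
      - ((X - Z) * (X - Y).adjugate) 0 1 * ((X - l) * (X - Y).adjugate) 1 0
      = ((X - Z) * (X - Y).adjugate).det - ((X - Z) * (X - Y).adjugate) 0 0 * (X - Y).det := by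
  rw [Matrix.det_fin_two] at h1 h2 h3
  rw [Matrix.det_mul, Matrix.det_adjugate]
  simp only [Matrix.det_fin_two, Matrix.adjugate_fin_two, Matrix.mul_apply, Fin.sum_univ_two,
    Matrix.sub_apply, Matrix.of_apply, Matrix.cons_val', Matrix.cons_val_zero, Matrix.cons_val_one,
    Matrix.cons_val_fin_one, Fintype.card_fin] at h1 h2 h3 ⊢
  linear_combination ((X 0 0 - Y 0 0) * (X 1 1 - Y 1 1) - (X 0 1 - Y 0 1) * (X 1 0 - Y 1 0)) * h1
    - ((X 0 0 - Y 0 0) * (X 1 1 - Y 1 1) - (X 0 1 - Y 0 1) * (X 1 0 - Y 1 0)) * h3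
    - ((X 0 0 - Z 0 0) * (X 1 1 - Y 1 1) - (X 0 1 - Z 0 1) * (X 1 0 - Y 1 0)) * (h1 - h2)

/-- lines meeting `X`, `Y` and `Z` are coplanar points of the quadric -/
lemma coplanar (X Y Z : M2 K) (L : Fin 9 → M2 K) (hXY : (X - Y).det ≠ 0) (hZX : Z ≠ X)
    (hZY : Z ≠ Y) (i j l : Fin 9)
    (h : ∀ a ∈ ({i, j, l, 8} : Finset (Fin 9)),
      (L a - X).det = 0 ∧ (L a - Y).det = 0 ∧ (L a - Z).det = 0) :
    br X Y L i j l = 0 := by
  obtain ⟨F, hF⟩ : ∃ F : M2 K, F = (X - Z) * (X - Y).adjugate := ⟨_, rfl⟩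
  have key : ∀ a ∈ ({i, j, l, 8} : Finset (Fin 9)),
      (F 1 1 - F 0 0) * ((X - L a) * (X - Y).adjugate) 0 0
        - F 1 0 * ((X - L a) * (X - Y).adjugate) 0 1
        - F 0 1 * ((X - L a) * (X - Y).adjugate) 1 0
        = F.det - F 0 0 * (X - Y).det := by
    intro a ha
    obtain ⟨h1, h2, h3⟩ := h a ha
    rw [hF]
    exact j13664_coplanar_key X Y Z (L a) h1 h2 h3
  have hw : (![F 1 1 - F 0 0, - F 1 0, - F 0 1] : Fin 3 → K) ≠ 0 := by
    intro hw0
    have e0 : F 1 1 - F 0 0 = 0 := by simpa using congrFun hw0 0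
    have e1 : F 1 0 = 0 := by simpa using congrFun hw0 1
    have e2 : F 0 1 = 0 := by simpa using congrFun hw0 2
    have k8 := key 8 (by simp)
    rw [e0, e1, e2, Matrix.det_fin_two, e1, e2] at k8
    have e3 : F 1 1 = F 0 0 := sub_eq_zero.mp e0
    rw [e3] at k8
    have k9 : F 0 0 * (F 0 0 - (X - Y).det) = 0 := by linear_combination -k8
    have hFs : F = Matrix.scalar (Fin 2) (F 0 0) := by
      ext a b
      fin_cases a <;> fin_cases b <;> simp [e1, e2, e3]
    have hmul : F * (X - Y) = (X - Y).det • (X - Z) := by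
      rw [hF, Matrix.mul_assoc, Matrix.adjugate_mul]
      simp
    rcases mul_eq_zero.mp k9 with hc | hc
    · have : (X - Y).det • (X - Z) = 0 := by
        rw [← hmul, hFs, hc]; simp
      rcases smul_eq_zero.mp this with h5 | h5
      · exact hXY h5
      · exact hZX (sub_eq_zero.mp h5).symm
    · have hc' : F 0 0 = (X - Y).det := sub_eq_zero.mp hc
      have h6 : (X - Y).det • (X - Y) = (X - Y).det • (X - Z) := by
        rw [← hmul]
        conv_rhs => rw [hFs, hc']
        ext a b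
        simp [Matrix.smul_apply]
      have h7 : X - Y = X - Z := by
        have := congrArg (fun M => ((X - Y).det)⁻¹ • M) h6
        simpa [smul_smul, inv_mul_cancel₀ hXY] using this
      exact hZY (sub_right_injective h7).symm
  have horth : ∀ a ∈ ({i, j, l, 8} : Finset (Fin 9)),
      (pt3 X Y (L a) - pt3 X Y (L 8)) ⬝ᵥ ![F 1 1 - F 0 0, - F 1 0, - F 0 1] = 0 := by
    intro a ha
    have ka := key a ha
    have k8 := key 8 (by simp)
    simp only [pt3, dotProduct, Fin.sum_univ_three, Pi.sub_apply, Matrix.cons_val_zero,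
      Matrix.cons_val_one, Matrix.cons_val]
    linear_combination ka - k8
  unfold br
  rw [← Matrix.exists_mulVec_eq_zero_iff]
  refine ⟨_, hw, ?_⟩
  ext a
  fin_cases a
  · exact horth i (by simp)
  · exact horth j (by simp)
  · exact horth l (by simp)

end field


end Pool.Agent.Helper924.HS
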