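import Mathlib
import Pool.Agent.Helper924.HS.Cfg
import Pool.Agent.Helper924.HS.ML

set_option autoImplicit false

open MvPolynomial

namespace Pool.Agent.Helper924.HS

section conf
variable {F : Type} [Field F]

variable [CharZero F] {w : F} (hw : w ^ 2 + w + 1 = 0)
include hw

lemma j13800_conf_nezero (p q : ℤ) (h : p ^ 2 - p * q + q ^ 2 ≠ 0) : (p : F) + q * w ≠ 0 := by
  intro h0
  apply h
  have h1 : ((p ^ 2 - p * q + q ^ 2 : ℤ) : F) = 0 := by
    push_cast
    linear_combination ((p : F) + q * (-1 - w)) * h0 + (q : F) ^ 2 * hw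
  exact_mod_cast h1

omit [CharZero F] hw in
/-- integer data for the determinant -/
lemma j13800_conf_det (a b : F) (ha : a ≠ 0) (hb : b ≠ 0) (x y : Fin 4 → F) :
    ((a⁻¹ • !![x 0, x 1; x 2, x 3] : M2 F) - (b⁻¹ • !![y 0, y 1; y 2, y 3] : M2 F)).det *
      (a * b) ^ 2 = (b * x 0 - a * y 0) * (b * x 3 - a * y 3) -
        (b * x 1 - a * y 1) * (b * x 2 - a * y 2) := by
  rw [Matrix.det_fin_two]
  simp only [Matrix.sub_apply, Matrix.smul_apply, smul_eq_mul, Matrix.of_apply,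
    Matrix.cons_val', Matrix.cons_val_zero, Matrix.cons_val_one, Matrix.cons_val_fin_one]
  field_simp

/-- real part -/
def j13800_confP (a b : ℤ) (p q p' q' : Fin 4 → ℤ) : ℤ :=
  (b * p 0 - a * p' 0) * (b * p 3 - a * p' 3) - (b * q 0 - a * q' 0) * (b * q 3 - a * q' 3) -
    ((b * p 1 - a * p' 1) * (b * p 2 - a * p' 2) - (b * q 1 - a * q' 1) * (b * q 2 - a * q' 2))

/-- coefficient of `w` -/
def j13800_confQ (a b : ℤ) (p q p' q' : Fin 4 → ℤ) : ℤ :=
  (b * p 0 - a * p' 0) * (b * q 3 - a * q' 3) + (b * q 0 - a * q' 0) * (b * p 3 - a * p' 3) -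
    (b * q 0 - a * q' 0) * (b * q 3 - a * q' 3) -
    ((b * p 1 - a * p' 1) * (b * q 2 - a * q' 2) + (b * q 1 - a * q' 1) * (b * p 2 - a * p' 2) -
    (b * q 1 - a * q' 1) * (b * q 2 - a * q' 2))

lemma j13800_conf_gen (a b : ℤ) (p q p' q' : Fin 4 → ℤ) (ha : a ≠ 0) (hb : b ≠ 0)
    (M M' : M2 F)
    (hM : M = ((a : ℤ) : F)⁻¹ • !![(p 0 : F) + q 0 * w, (p 1 : F) + q 1 * w;
      (p 2 : F) + q 2 * w, (p 3 : F) + q 3 * w])
    (hM' : M' = ((b : ℤ) : F)⁻¹ • !![(p' 0 : F) + q' 0 * w, (p' 1 : F) + q' 1 * w;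
      (p' 2 : F) + q' 2 * w, (p' 3 : F) + q' 3 * w])
    (h : j13800_confP a b p q p' q' ^ 2 - j13800_confP a b p q p' q' * j13800_confQ a b p q p' q' +
      j13800_confQ a b p q p' q' ^ 2 ≠ 0) : (M - M').det ≠ 0 := by
  intro h0
  have ha' : (a : F) ≠ 0 := by exact_mod_cast ha
  have hb' : (b : F) ≠ 0 := by exact_mod_cast hb
  have h1 := j13800_conf_det (a : F) (b : F) ha' hb' (fun k => (p k : F) + q k * w)
    (fun k => (p' k : F) + q' k * w)
  rw [← hM, ← hM', h0, zero_mul] at h1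
  apply j13800_conf_nezero hw _ _ h
  unfold j13800_confP j13800_confQ
  push_cast
  linear_combination -h1 - (((b : F) * q 0 - a * q' 0) * (b * q 3 - a * q' 3) -
    (b * q 1 - a * q' 1) * (b * q 2 - a * q' 2)) * hw

/-- denominators -/
def j13800_confAD : Fin 9 → ℤ := ![1, 3, 1, 1, 2, 7, 13, 3, 1]
/-- real parts -/
def j13800_confAp : Fin 9 → Fin 4 → ℤ :=
  ![![1, 0, 1, 0], ![4, 2, -2, -1], ![1, 2, 0, 0], ![-1, -1, 2, 2], ![1, -1, -1, 1],
    ![-1, 1, 6, 8], ![1, -7, 2, 12], ![1, 2, 0, 2], ![0, 0, 0, 1]]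
/-- coefficients of `w` -/
def j13800_confAq : Fin 9 → Fin 4 → ℤ :=
  ![![0, 0, 0, 0], ![0, 0, 0, 0], ![0, 0, 0, 0], ![0, 0, 0, 0], ![0, 0, 0, 0],
    ![2, 5, 2, -2], ![-3, -5, 7, 3], ![0, 2, -1, 0], ![0, 0, 0, 0]]

omit [CharZero F] hw in
lemma j13800_conf_AA_eq (i : Fin 9) : AA w i = ((j13800_confAD i : ℤ) : F)⁻¹ •
    !![(j13800_confAp i 0 : F) + j13800_confAq i 0 * w, (j13800_confAp i 1 : F) + j13800_confAq i 1 * w;
      (j13800_confAp i 2 : F) + j13800_confAq i 2 * w, (j13800_confAp i 3 : F) + j13800_confAq i 3 * w] := by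
  fin_cases i <;>
    (ext a b; fin_cases a <;> fin_cases b <;> simp [AA, j13800_confAD, j13800_confAp, j13800_confAq, -mul_eq_mul_left_iff] <;> ring)

lemma conf_A (i j : Fin 9) (h : i ≠ j) : (AA w i - AA w j).det ≠ 0 := by
  have h1 : ∀ i : Fin 9, j13800_confAD i ≠ 0 := by decide
  have h2 : ∀ i j : Fin 9, i ≠ j →
      j13800_confP (j13800_confAD i) (j13800_confAD j) (j13800_confAp i) (j13800_confAq i) (j13800_confAp j) (j13800_confAq j) ^ 2 -
      j13800_confP (j13800_confAD i) (j13800_confAD j) (j13800_confAp i) (j13800_confAq i) (j13800_confAp j) (j13800_confAq j) *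
      j13800_confQ (j13800_confAD i) (j13800_confAD j) (j13800_confAp i) (j13800_confAq i) (j13800_confAp j) (j13800_confAq j) +
      j13800_confQ (j13800_confAD i) (j13800_confAD j) (j13800_confAp i) (j13800_confAq i) (j13800_confAp j) (j13800_confAq j) ^ 2 ≠ 0 := by
    decide +kernel
  exact j13800_conf_gen hw _ _ _ _ _ _ (h1 i) (h1 j) _ _ (j13800_conf_AA_eq i) (j13800_conf_AA_eq j) (h2 i j h)

/-- denominators -/
def j13800_confND : Fin 10 → ℤ := ![1, 9, 7, 19, 14, 5, 15, 1, 1, 1]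
/-- real parts -/
def j13800_confNp : Fin 10 → Fin 4 → ℤ :=
  ![![-1, -1, -3, -2], ![1, 6, -2, -3], ![-1, -3, 6, 11], ![3, -4, -2, 9], ![3, 7, -4, 0],
    ![1, -1, 2, 0], ![1, 7, 1, -2], ![1, 2, 1, 3], ![0, 0, 0, 0], ![1, 0, 0, 1]]
/-- coefficients of `w` -/
def j13800_confNq : Fin 10 → Fin 4 → ℤ :=
  ![![0, 0, 0, 0], ![0, 0, 0, 0], ![2, -1, 2, 6], ![5, 6, 3, -4], ![1, 7, 1, -7],
    ![1, -2, -1, -1], ![-1, 5, 5, -1], ![0, 0, 0, 0], ![0, 0, 0, 0], ![0, 0, 0, 0]]

omit [CharZero F] hw in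
lemma j13800_conf_NN_eq (i : Fin 10) : NN w i = ((j13800_confND i : ℤ) : F)⁻¹ •
    !![(j13800_confNp i 0 : F) + j13800_confNq i 0 * w, (j13800_confNp i 1 : F) + j13800_confNq i 1 * w;
      (j13800_confNp i 2 : F) + j13800_confNq i 2 * w, (j13800_confNp i 3 : F) + j13800_confNq i 3 * w] := by
  fin_cases i <;>
    (ext a b; fin_cases a <;> fin_cases b <;> simp [NN, j13800_confND, j13800_confNp, j13800_confNq, -mul_eq_mul_left_iff] <;> ring)

lemma conf_N (i j : Fin 10) (h : i ≠ j) : (NN w i - NN w j).det ≠ 0 := by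
  have h1 : ∀ i : Fin 10, j13800_confND i ≠ 0 := by decide
  have h2 : ∀ i j : Fin 10, i ≠ j →
      j13800_confP (j13800_confND i) (j13800_confND j) (j13800_confNp i) (j13800_confNq i) (j13800_confNp j) (j13800_confNq j) ^ 2 -
      j13800_confP (j13800_confND i) (j13800_confND j) (j13800_confNp i) (j13800_confNq i) (j13800_confNp j) (j13800_confNq j) *
      j13800_confQ (j13800_confND i) (j13800_confND j) (j13800_confNp i) (j13800_confNq i) (j13800_confNp j) (j13800_confNq j) +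
      j13800_confQ (j13800_confND i) (j13800_confND j) (j13800_confNp i) (j13800_confNq i) (j13800_confNp j) (j13800_confNq j) ^ 2 ≠ 0 := by
    decide +kernel
  exact j13800_conf_gen hw _ _ _ _ _ _ (h1 i) (h1 j) _ _ (j13800_conf_NN_eq i) (j13800_conf_NN_eq j) (h2 i j h)

/-- `p + q w` -/
def j13803_conf_ph (w : F) (a : ℤ × ℤ) : F := (a.1 : F) + (a.2 : F) * w

/-- multiplication of pairs -/
def j13803_conf_mul (a b : ℤ × ℤ) : ℤ × ℤ := (a.1 * b.1 - a.2 * b.2, a.1 * b.2 + a.2 * b.1 - a.2 * b.2)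

/-- scaled difference of pairs -/
def j13803_conf_sub (c : ℤ) (a : ℤ × ℤ) (d : ℤ) (b : ℤ × ℤ) : ℤ × ℤ := (c * a.1 - d * b.1, c * a.2 - d * b.2)

/-- data of the double lines -/
def j13803_conf_dA : Fin 9 → ℤ := ![1, 3, 1, 1, 2, 7, 13, 3, 1]
def j13803_conf_A0 : Fin 9 → ℤ × ℤ := ![(1, 0), (4, 0), (1, 0), (-1, 0), (1, 0), (-1, 2), (1, -3), (1, 0), (0, 0)]
def j13803_conf_A1 : Fin 9 → ℤ × ℤ := ![(0, 0), (2, 0), (2, 0), (-1, 0), (-1, 0), (1, 5), (-7, -5), (2, 2), (0, 0)]
def j13803_conf_A2 : Fin 9 → ℤ × ℤ := ![(1, 0), (-2, 0), (0, 0), (2, 0), (-1, 0), (6, 2), (2, 7), (0, -1), (0, 0)]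
def j13803_conf_A3 : Fin 9 → ℤ × ℤ := ![(0, 0), (-1, 0), (0, 0), (2, 0), (1, 0), (8, -2), (12, 3), (2, 0), (1, 0)]

/-- data of the simple lines -/
def j13803_conf_dN : Fin 10 → ℤ := ![1, 9, 7, 19, 14, 5, 15, 1, 1, 1]
def j13803_conf_N0 : Fin 10 → ℤ × ℤ :=
  ![(-1, 0), (1, 0), (-1, 2), (3, 5), (3, 1), (1, 1), (1, -1), (1, 0), (0, 0), (1, 0)]
def j13803_conf_N1 : Fin 10 → ℤ × ℤ :=
  ![(-1, 0), (6, 0), (-3, -1), (-4, 6), (7, 7), (-1, -2), (7, 5), (2, 0), (0, 0), (0, 0)]
def j13803_conf_N2 : Fin 10 → ℤ × ℤ :=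
  ![(-3, 0), (-2, 0), (6, 2), (-2, 3), (-4, 1), (2, -1), (1, 5), (1, 0), (0, 0), (0, 0)]
def j13803_conf_N3 : Fin 10 → ℤ × ℤ :=
  ![(-2, 0), (-3, 0), (11, 6), (9, -4), (0, -7), (0, -1), (-2, -1), (3, 0), (0, 0), (1, 0)]

def j13803_conf_e0 (i : Fin 9) (j : Fin 10) : ℤ × ℤ :=
  j13803_conf_sub (j13803_conf_dN j) (j13803_conf_A0 i) (j13803_conf_dA i) (j13803_conf_N0 j)
def j13803_conf_e1 (i : Fin 9) (j : Fin 10) : ℤ × ℤ :=
  j13803_conf_sub (j13803_conf_dN j) (j13803_conf_A1 i) (j13803_conf_dA i) (j13803_conf_N1 j)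
def j13803_conf_e2 (i : Fin 9) (j : Fin 10) : ℤ × ℤ :=
  j13803_conf_sub (j13803_conf_dN j) (j13803_conf_A2 i) (j13803_conf_dA i) (j13803_conf_N2 j)
def j13803_conf_e3 (i : Fin 9) (j : Fin 10) : ℤ × ℤ :=
  j13803_conf_sub (j13803_conf_dN j) (j13803_conf_A3 i) (j13803_conf_dA i) (j13803_conf_N3 j)

def j13803_conf_D (i : Fin 9) (j : Fin 10) : ℤ × ℤ :=
  j13803_conf_sub 1 (j13803_conf_mul (j13803_conf_e0 i j) (j13803_conf_e3 i j)) 1 (j13803_conf_mul (j13803_conf_e1 i j) (j13803_conf_e2 i j))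

omit [CharZero F] hw in
lemma j13803_conf_dA_ne (i : Fin 9) : j13803_conf_dA i ≠ 0 := by
  revert i; decide

omit [CharZero F] hw in
lemma j13803_conf_dN_ne (i : Fin 10) : j13803_conf_dN i ≠ 0 := by
  revert i; decide

omit [CharZero F] in
lemma j13803_conf_ph_mul (a b : ℤ × ℤ) : j13803_conf_ph w (j13803_conf_mul a b) = j13803_conf_ph w a * j13803_conf_ph w b := by
  unfold j13803_conf_ph j13803_conf_mul
  push_cast
  linear_combination (-(a.2 : F) * b.2) * hw

omit [CharZero F] hw in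
lemma j13803_conf_ph_sub (c d : ℤ) (a b : ℤ × ℤ) :
    j13803_conf_ph w (j13803_conf_sub c a d b) = (c : F) * j13803_conf_ph w a - (d : F) * j13803_conf_ph w b := by
  unfold j13803_conf_ph j13803_conf_sub
  push_cast
  ring

lemma j13803_conf_ph_zero (a : ℤ × ℤ) : j13803_conf_ph w a = 0 ↔ a = (0, 0) := by
  constructor
  · intro h
    unfold j13803_conf_ph at h
    have h1 : ((a.1 ^ 2 - a.1 * a.2 + a.2 ^ 2 : ℤ) : F) = 0 := by
      push_cast
      linear_combination ((a.1 : F) - a.2 - a.2 * w) * h + (a.2 : F) ^ 2 * hw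
    have h2 : a.1 ^ 2 - a.1 * a.2 + a.2 ^ 2 = 0 := by exact_mod_cast h1
    have h3 : a.2 = 0 := by nlinarith [sq_nonneg (2 * a.1 - a.2), sq_nonneg a.2]
    have h4 : a.1 = 0 := by
      rw [h3] at h2
      have : a.1 ^ 2 = 0 := by linarith
      exact pow_eq_zero_iff (two_ne_zero) |>.mp this
    exact Prod.ext h4 h3
  · rintro rfl
    simp [j13803_conf_ph]

omit [CharZero F] hw in
lemma j13803_conf_AA_eq (i : Fin 9) : AA w i = ((j13803_conf_dA i : ℤ) : F)⁻¹ •
    !![j13803_conf_ph w (j13803_conf_A0 i), j13803_conf_ph w (j13803_conf_A1 i); j13803_conf_ph w (j13803_conf_A2 i), j13803_conf_ph w (j13803_conf_A3 i)] := by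
  fin_cases i <;>
  · ext a b
    fin_cases a <;> fin_cases b <;>
    simp [AA, j13803_conf_dA, j13803_conf_A0, j13803_conf_A1, j13803_conf_A2, j13803_conf_A3, j13803_conf_ph] <;> first | ring1 | (left; ring1)

omit [CharZero F] hw in
lemma j13803_conf_NN_eq (i : Fin 10) : NN w i = ((j13803_conf_dN i : ℤ) : F)⁻¹ •
    !![j13803_conf_ph w (j13803_conf_N0 i), j13803_conf_ph w (j13803_conf_N1 i); j13803_conf_ph w (j13803_conf_N2 i), j13803_conf_ph w (j13803_conf_N3 i)] := by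
  fin_cases i <;>
  · ext a b
    fin_cases a <;> fin_cases b <;>
    simp [NN, j13803_conf_dN, j13803_conf_N0, j13803_conf_N1, j13803_conf_N2, j13803_conf_N3, j13803_conf_ph] <;> first | ring1 | (left; ring1)

omit hw in
lemma j13803_conf_entry (d e : ℤ) (hd : d ≠ 0) (he : e ≠ 0) (a b : ℤ × ℤ) :
    (d : F)⁻¹ * j13803_conf_ph w a - (e : F)⁻¹ * j13803_conf_ph w b =
      ((d : F) * e)⁻¹ * j13803_conf_ph w (j13803_conf_sub e a d b) := by
  have h1 : (d : F) ≠ 0 := by exact_mod_cast hd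
  have h2 : (e : F) ≠ 0 := by exact_mod_cast he
  rw [j13803_conf_ph_sub]
  field_simp

lemma j13803_conf_det (i : Fin 9) (j : Fin 10) : (AA w i - NN w j).det =
    (((j13803_conf_dA i : F) * j13803_conf_dN j)⁻¹) ^ 2 * j13803_conf_ph w (j13803_conf_D i j) := by
  rw [j13803_conf_AA_eq, j13803_conf_NN_eq, Matrix.det_fin_two]
  simp only [Matrix.sub_apply, Matrix.smul_apply, smul_eq_mul, Matrix.of_apply, Matrix.cons_val',
    Matrix.cons_val_zero, Matrix.cons_val_one, Matrix.cons_val_fin_one]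
  rw [j13803_conf_entry _ _ (j13803_conf_dA_ne i) (j13803_conf_dN_ne j), j13803_conf_entry _ _ (j13803_conf_dA_ne i) (j13803_conf_dN_ne j),
    j13803_conf_entry _ _ (j13803_conf_dA_ne i) (j13803_conf_dN_ne j), j13803_conf_entry _ _ (j13803_conf_dA_ne i) (j13803_conf_dN_ne j)]
  have hD : j13803_conf_ph w (j13803_conf_D i j) = j13803_conf_ph w (j13803_conf_e0 i j) * j13803_conf_ph w (j13803_conf_e3 i j) -
      j13803_conf_ph w (j13803_conf_e1 i j) * j13803_conf_ph w (j13803_conf_e2 i j) := by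
    rw [j13803_conf_D, j13803_conf_ph_sub, j13803_conf_ph_mul hw, j13803_conf_ph_mul hw]
    push_cast
    ring
  rw [hD]
  unfold j13803_conf_e0 j13803_conf_e1 j13803_conf_e2 j13803_conf_e3
  ring

omit [CharZero F] hw in
lemma j13803_conf_dec (i : Fin 9) (j : Fin 10) : j13803_conf_D i j = (0, 0) ↔ Einc i j := by
  revert i j; decide

lemma conf_AN (i : Fin 9) (j : Fin 10) : (AA w i - NN w j).det = 0 ↔ Einc i j := by
  have h1 : (j13803_conf_dA i : F) ≠ 0 := by exact_mod_cast j13803_conf_dA_ne i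
  have h2 : (j13803_conf_dN j : F) ≠ 0 := by exact_mod_cast j13803_conf_dN_ne j
  rw [j13803_conf_det hw, ← j13803_conf_dec, ← j13803_conf_ph_zero hw, mul_eq_zero]
  constructor
  · rintro (h | h)
    · exfalso
      have : (((j13803_conf_dA i : F) * j13803_conf_dN j)⁻¹) ^ 2 ≠ 0 := pow_ne_zero 2 (inv_ne_zero (mul_ne_zero h1 h2))
      exact this h
    · exact h
  · exact Or.inr

omit [CharZero F] hw in
lemma j13803_conf_dec2 (i : Fin 9) (j : Fin 10) : ¬ (j13803_conf_e0 i j = (0, 0) ∧ j13803_conf_e1 i j = (0, 0) ∧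
    j13803_conf_e2 i j = (0, 0) ∧ j13803_conf_e3 i j = (0, 0)) := by
  revert i j; decide

lemma conf_ne (i : Fin 9) (j : Fin 10) : AA w i ≠ NN w j := by
  intro h
  have h1 : (j13803_conf_dA i : F) ≠ 0 := by exact_mod_cast j13803_conf_dA_ne i
  have h2 : (j13803_conf_dN j : F) ≠ 0 := by exact_mod_cast j13803_conf_dN_ne j
  have h3 : ((j13803_conf_dA i : F) * j13803_conf_dN j)⁻¹ ≠ 0 := inv_ne_zero (mul_ne_zero h1 h2)
  have key : ∀ a b : Fin 2, AA w i a b - NN w j a b = 0 := by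
    intro a b; rw [h, sub_self]
  have k00 := key 0 0
  have k01 := key 0 1
  have k10 := key 1 0
  have k11 := key 1 1
  rw [j13803_conf_AA_eq, j13803_conf_NN_eq] at k00 k01 k10 k11
  simp only [Matrix.smul_apply, smul_eq_mul, Matrix.of_apply, Matrix.cons_val',
    Matrix.cons_val_zero, Matrix.cons_val_one, Matrix.cons_val_fin_one] at k00 k01 k10 k11
  rw [j13803_conf_entry _ _ (j13803_conf_dA_ne i) (j13803_conf_dN_ne j), mul_eq_zero, or_iff_right h3,
    j13803_conf_ph_zero hw] at k00 k01 k10 k11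
  exact j13803_conf_dec2 i j ⟨k00, k01, k10, k11⟩

/-- denominators of the double lines -/
def j13812_conf_den : Fin 9 → ℤ := ![1, 3, 1, 1, 2, 7, 13, 3, 1]

/-- numerators of the double lines -/
def j13812_conf_num : Fin 9 → Fin 3 → ℤ × ℤ :=
  ![![(1, 0), (0, 0), (1, 0)],
    ![(4, 0), (2, 0), (-2, 0)],
    ![(1, 0), (2, 0), (0, 0)],
    ![(-1, 0), (-1, 0), (2, 0)],
    ![(1, 0), (-1, 0), (-1, 0)],
    ![(-1, 2), (1, 5), (6, 2)],
    ![(1, -3), (-7, -5), (2, 7)],
    ![(1, 0), (2, 2), (0, -1)],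
    ![(0, 0), (0, 0), (0, 0)]]

/-- product in the ring of Eisenstein integers -/
def j13812_conf_mul (x y : ℤ × ℤ) : ℤ × ℤ := (x.1 * y.1 - x.2 * y.2, x.1 * y.2 + x.2 * y.1 - x.2 * y.2)

/-- determinant in the ring of Eisenstein integers -/
def j13812_conf_det (i j l : Fin 9) : ℤ × ℤ :=
  let a := j13812_conf_num i
  let b := j13812_conf_num j
  let c := j13812_conf_num l
  j13812_conf_mul (a 0) (j13812_conf_mul (b 1) (c 2)) - j13812_conf_mul (a 0) (j13812_conf_mul (b 2) (c 1)) -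
    j13812_conf_mul (a 1) (j13812_conf_mul (b 0) (c 2)) + j13812_conf_mul (a 1) (j13812_conf_mul (b 2) (c 0)) +
    j13812_conf_mul (a 2) (j13812_conf_mul (b 0) (c 1)) - j13812_conf_mul (a 2) (j13812_conf_mul (b 1) (c 0))

/-- evaluation of Eisenstein integers -/
noncomputable def j13812_conf_ev (w : F) (x : ℤ × ℤ) : F := (x.1 : F) + (x.2 : F) * w

lemma j13812_conf_ev_mul (x y : ℤ × ℤ) : j13812_conf_ev w (j13812_conf_mul x y) = j13812_conf_ev w x * j13812_conf_ev w y := by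
  unfold j13812_conf_ev j13812_conf_mul
  push_cast
  linear_combination (-(x.2 : F) * (y.2 : F)) * hw

omit [CharZero F] hw in
lemma j13812_conf_ev_add (x y : ℤ × ℤ) : j13812_conf_ev w (x + y) = j13812_conf_ev w x + j13812_conf_ev w y := by
  unfold j13812_conf_ev
  simp only [Prod.fst_add, Prod.snd_add]
  push_cast
  ring

omit [CharZero F] hw in
lemma j13812_conf_ev_sub (x y : ℤ × ℤ) : j13812_conf_ev w (x - y) = j13812_conf_ev w x - j13812_conf_ev w y := by
  unfold j13812_conf_ev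
  simp only [Prod.fst_sub, Prod.snd_sub]
  push_cast
  ring

lemma j13812_conf_ev_ne (x : ℤ × ℤ) (hx : x ≠ 0) : j13812_conf_ev w x ≠ 0 := by
  intro h
  apply hx
  unfold j13812_conf_ev at h
  have h1 : ((x.1 ^ 2 - x.1 * x.2 + x.2 ^ 2 : ℤ) : F) = 0 := by
    push_cast
    linear_combination ((x.1 : F) - (x.2 : F) - (x.2 : F) * w) * h + (x.2 : F) ^ 2 * hw
  have h2 : x.1 ^ 2 - x.1 * x.2 + x.2 ^ 2 = 0 := by exact_mod_cast h1
  have h3 : x.1 = 0 := by nlinarith [sq_nonneg (x.1 - 2 * x.2), sq_nonneg x.1]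
  have h4 : x.2 = 0 := by
    rw [h3] at h2
    nlinarith
  exact Prod.ext h3 h4

omit [CharZero F] hw in
lemma j13812_conf_pt (X : M2 F) : pt3 (NN w 8) (NN w 9) X = ![X 0 0, X 0 1, X 1 0] := by
  have h8 : NN w 8 = !![0, 0; 0, 0] := rfl
  have h9 : NN w 9 = !![1, 0; 0, 1] := rfl
  rw [h8, h9]
  unfold pt3
  ext c
  fin_cases c <;> simp [Matrix.adjugate_fin_two, Matrix.mul_apply, Fin.sum_univ_two]

lemma j13812_conf_entry (i : Fin 9) (c : Fin 3) :
    pt3 (NN w 8) (NN w 9) (AA w i) c = ((j13812_conf_den i : ℤ) : F)⁻¹ * j13812_conf_ev w (j13812_conf_num i c) := by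
  rw [j13812_conf_pt]
  fin_cases i <;> fin_cases c <;> simp [AA, j13812_conf_den, j13812_conf_num, j13812_conf_ev] <;> ring

omit [Field F] [CharZero F] hw in
lemma j13812_conf_den_ne (i : Fin 9) : j13812_conf_den i ≠ 0 := by
  revert i
  decide

lemma j13812_conf_br_eq (i j l : Fin 9) : br (NN w 8) (NN w 9) (AA w) i j l =
    ((j13812_conf_den i * j13812_conf_den j * j13812_conf_den l : ℤ) : F)⁻¹ * j13812_conf_ev w (j13812_conf_det i j l) := by
  have h8 : ∀ c, pt3 (NN w 8) (NN w 9) (AA w 8) c = 0 := by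
    intro c
    rw [j13812_conf_entry hw]
    have : j13812_conf_num 8 c = (0, 0) := by fin_cases c <;> rfl
    rw [this]
    simp [j13812_conf_ev]
  unfold br j13812_conf_det
  rw [Matrix.det_fin_three]
  simp only [j13812_conf_ev_add, j13812_conf_ev_sub, j13812_conf_ev_mul hw, Matrix.of_apply, Matrix.cons_val', Matrix.cons_val_zero,
    Matrix.cons_val_one, Matrix.cons_val, Pi.sub_apply, h8, sub_zero, j13812_conf_entry hw]
  push_cast
  rw [mul_inv, mul_inv]
  ring

lemma conf_br (i j l : Fin 9) (hi : i ≠ 8) (hj : j ≠ 8) (hl : l ≠ 8) (hij : i ≠ j) (hjl : j ≠ l)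
    (hil : i ≠ l) (h : ¬ isLine i j l) : br (NN w 8) (NN w 9) (AA w) i j l ≠ 0 := by
  rw [j13812_conf_br_eq hw]
  apply mul_ne_zero
  · apply inv_ne_zero
    have : j13812_conf_den i * j13812_conf_den j * j13812_conf_den l ≠ 0 :=
      mul_ne_zero (mul_ne_zero (j13812_conf_den_ne i) (j13812_conf_den_ne j)) (j13812_conf_den_ne l)
    exact_mod_cast this
  · apply j13812_conf_ev_ne hw
    clear hw
    have key : ∀ i j l : Fin 9, j13812_conf_det i j l = 0 →
        (i = 8 ∨ j = 8 ∨ l = 8 ∨ i = j ∨ j = l ∨ i = l) ∨ isLine i j l := by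
      decide +kernel
    intro h0
    have := key i j l h0
    tauto

lemma conf_t : tnum (NN w 8) (NN w 9) (AA w) = w * tden (NN w 8) (NN w 9) (AA w) ∧
    tden (NN w 8) (NN w 9) (AA w) ≠ 0 := by
  constructor
  · unfold tnum tden
    simp only [j13812_conf_br_eq hw]
    have h1 : j13812_conf_ev w (j13812_conf_det 0 1 7) * j13812_conf_ev w (j13812_conf_det 0 4 2) * j13812_conf_ev w (j13812_conf_det 3 1 2) =
        w * (j13812_conf_ev w (j13812_conf_det 0 3 2) * j13812_conf_ev w (j13812_conf_det 0 1 4) * j13812_conf_ev w (j13812_conf_det 7 1 2)) := by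
      have h2 : w = j13812_conf_ev w (0, 1) := by simp [j13812_conf_ev]
      rw [← j13812_conf_ev_mul hw, ← j13812_conf_ev_mul hw, ← j13812_conf_ev_mul hw, ← j13812_conf_ev_mul hw]
      nth_rewrite 2 [h2]
      rw [← j13812_conf_ev_mul hw]
      congr 1
    have h3 : ((j13812_conf_den 0 * j13812_conf_den 1 * j13812_conf_den 7 : ℤ) : F)⁻¹ * ((j13812_conf_den 0 * j13812_conf_den 4 * j13812_conf_den 2 : ℤ) : F)⁻¹ *
        ((j13812_conf_den 3 * j13812_conf_den 1 * j13812_conf_den 2 : ℤ) : F)⁻¹ = ((j13812_conf_den 0 * j13812_conf_den 3 * j13812_conf_den 2 : ℤ) : F)⁻¹ *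
        ((j13812_conf_den 0 * j13812_conf_den 1 * j13812_conf_den 4 : ℤ) : F)⁻¹ * ((j13812_conf_den 7 * j13812_conf_den 1 * j13812_conf_den 2 : ℤ) : F)⁻¹ := by
      rw [← mul_inv, ← mul_inv, ← mul_inv, ← mul_inv, ← Int.cast_mul, ← Int.cast_mul, ← Int.cast_mul, ← Int.cast_mul]
      congr 2
    linear_combination (((j13812_conf_den 0 * j13812_conf_den 1 * j13812_conf_den 7 : ℤ) : F)⁻¹ * ((j13812_conf_den 0 * j13812_conf_den 4 * j13812_conf_den 2 : ℤ) : F)⁻¹ *
        ((j13812_conf_den 3 * j13812_conf_den 1 * j13812_conf_den 2 : ℤ) : F)⁻¹) * h1 + w * (j13812_conf_ev w (j13812_conf_det 0 3 2) * j13812_conf_ev w (j13812_conf_det 0 1 4) * j13812_conf_ev w (j13812_conf_det 7 1 2)) * h3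
  · unfold tden
    apply mul_ne_zero
    · apply mul_ne_zero
      · apply conf_br hw <;> decide
      · apply conf_br hw <;> decide
    · apply conf_br hw <;> decide

lemma conf_inc : incN (AA w) (NN w) = 50 := by
  unfold incN
  have e : {x : Fin 9 × Fin 10 // (AA w x.1 - NN w x.2).det = 0} ≃
      {x : Fin 9 × Fin 10 // Einc x.1 x.2} :=
    Equiv.subtypeEquivRight fun x => conf_AN hw x.1 x.2
  rw [Nat.card_congr e, Nat.card_eq_fintype_card]
  decide

end conf

section rib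

lemma j13834_exists_ribbon_deg {F : Type} [Field F] (P : A2 F) (d : ℕ) (hP : P.IsHomogeneous d)
    (s : Fin 2 →₀ ℕ) (hs : s ∈ P.support) : s 0 + s 1 = d := by
  have h1 := hP (MvPolynomial.mem_support_iff.mp hs)
  rw [Finsupp.weight_apply, Finsupp.sum_fintype _ _ (by simp)] at h1
  simpa [Fin.sum_univ_two] using h1

lemma j13834_exists_ribbon_aeval {F B : Type} [Field F] [CommRing B] [Algebra F B] (P : A2 F) (d : ℕ)
    (hP : P.IsHomogeneous d) (a : Fin 2 → F) (t : B) :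
    aeval (fun i => algebraMap F B (a i) * t) P = algebraMap F B (eval a P) * t ^ d := by
  rw [aeval_def, eval₂_eq', eval_eq', map_sum, Finset.sum_mul]
  apply Finset.sum_congr rfl
  intro s hs
  have h := j13834_exists_ribbon_deg P d hP s hs
  rw [Fin.prod_univ_two, Fin.prod_univ_two, ← h]
  simp only [map_mul, map_pow, mul_pow, pow_add]
  ring

lemma j13834_exists_ribbon_mod {F : Type} [Field F] (l v : Fin 2 → F) (hv : v 0 * l 1 - v 1 * l 0 = 1)
    (P : A2 F) (d : ℕ) (hP : P.IsHomogeneous d) :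
    C (l 0) * X 0 + C (l 1) * X 1 ∣
      P - C (eval ![l 1, -l 0] P) * (C (v 0) * X 0 + C (v 1) * X 1) ^ d := by
  rw [← Ideal.mem_span_singleton, ← Ideal.Quotient.mk_eq_mk_iff_sub_mem]
  obtain ⟨I, hI⟩ : ∃ I : Ideal (A2 F), I = Ideal.span {C (l 0) * X 0 + C (l 1) * X 1} := ⟨_, rfl⟩
  rw [← hI]
  obtain ⟨V, hV⟩ : ∃ V : A2 F, V = C (v 0) * X 0 + C (v 1) * X 1 := ⟨_, rfl⟩
  rw [← hV]
  have hlam : (C (l 0) * X 0 + C (l 1) * X 1 : A2 F) ∈ I := by
    rw [hI]
    exact Ideal.mem_span_singleton_self _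
  have hX : ∀ i, Ideal.Quotient.mk I (X i) =
      algebraMap F (A2 F ⧸ I) ((![l 1, -l 0] : Fin 2 → F) i) * Ideal.Quotient.mk I V := by
    intro i
    have hal : ∀ r : F, algebraMap F (A2 F ⧸ I) r = Ideal.Quotient.mk I (C r) := fun r => rfl
    rw [hal, ← map_mul, Ideal.Quotient.mk_eq_mk_iff_sub_mem]
    fin_cases i
    · have e : (X 0 - C (l 1) * V : A2 F) = -C (v 1) * (C (l 0) * X 0 + C (l 1) * X 1) := by
        have h1 : (C (v 0) * C (l 1) - C (v 1) * C (l 0) : A2 F) = 1 := by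
          rw [← map_mul, ← map_mul, ← map_sub, hv, map_one]
        rw [hV]
        linear_combination (-X 0 : A2 F) * h1
      show (X 0 - C (l 1) * V : A2 F) ∈ I
      rw [e]
      exact I.mul_mem_left _ hlam
    · have e : (X 1 - C (-l 0) * V : A2 F) = C (v 0) * (C (l 0) * X 0 + C (l 1) * X 1) := by
        have h1 : (C (v 0) * C (l 1) - C (v 1) * C (l 0) : A2 F) = 1 := by
          rw [← map_mul, ← map_mul, ← map_sub, hv, map_one]
        rw [hV, map_neg]
        linear_combination (-X 1 : A2 F) * h1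
      show (X 1 - C (-l 0) * V : A2 F) ∈ I
      rw [e]
      exact I.mul_mem_left _ hlam
  have h2 : Ideal.Quotient.mk I P = aeval (fun i => Ideal.Quotient.mk I (X i)) P := by
    have h3 : (Ideal.Quotient.mkₐ F I) = aeval (fun i => Ideal.Quotient.mk I (X i)) := by
      apply MvPolynomial.algHom_ext
      intro i
      rw [aeval_X]
      rfl
    rw [← h3]
    rfl
  have h4 : (fun i => Ideal.Quotient.mk I (X i)) =
      fun i => algebraMap F (A2 F ⧸ I) ((![l 1, -l 0] : Fin 2 → F) i) * Ideal.Quotient.mk I V :=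
    funext hX
  rw [h2, h4, j13834_exists_ribbon_aeval P d hP, map_mul, map_pow]
  rfl

lemma j13834_exists_ribbon_lin {F : Type} [Field F] (l : Fin 2 → F) :
    (C (l 0) * X 0 + C (l 1) * X 1 : A2 F).IsHomogeneous 1 :=
  (isHomogeneous_C_mul_X (l 0) 0).add (isHomogeneous_C_mul_X (l 1) 1)

lemma j13834_exists_ribbon_dual {F : Type} [Field F] (l : Fin 2 → F) (hl : l ≠ 0) :
    ∃ v : Fin 2 → F, v 0 * l 1 - v 1 * l 0 = 1 := by
  by_cases h1 : l 1 = 0
  · have h0 : l 0 ≠ 0 := by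
      intro h0
      apply hl
      funext i
      fin_cases i
      · exact h0
      · exact h1
    refine ⟨![0, -(l 0)⁻¹], ?_⟩
    simp [h0]
  · refine ⟨![(l 1)⁻¹, 0], ?_⟩
    simp [h1]

lemma j13834_exists_ribbon_interp {F ι : Type} [Field F] [Fintype ι] [DecidableEq ι] (l : ι → Fin 2 → F)
    (hl0 : ∀ i, l i ≠ 0) (hl : ∀ i j, i ≠ j → l i 0 * l j 1 - l i 1 * l j 0 ≠ 0) (d : ℕ)
    (hd : Fintype.card ι ≤ d + 1) (c : ι → F) :
    ∃ H : A2 F, H.IsHomogeneous d ∧ ∀ i, eval ![l i 1, -l i 0] H = c i := by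
  choose v hv using fun i => j13834_exists_ribbon_dual (l i) (hl0 i)
  have hev : ∀ i k, eval ![l i 1, -l i 0] (C (l k 0) * X 0 + C (l k 1) * X 1 : A2 F) =
      l k 0 * l i 1 - l k 1 * l i 0 := by
    intro i k
    simp
    ring
  obtain ⟨Lg, hLg⟩ : ∃ Lg : ι → A2 F, ∀ i, Lg i = ∏ k ∈ Finset.univ.erase i,
    (C (l k 0) * X 0 + C (l k 1) * X 1) := ⟨_, fun _ => rfl⟩
  have hLi : ∀ i, eval ![l i 1, -l i 0] (Lg i) ≠ 0 := by
    intro i
    rw [hLg, map_prod, Finset.prod_ne_zero_iff]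
    intro k hk
    rw [hev]
    exact hl k i (Finset.ne_of_mem_erase hk)
  have hLj : ∀ i k, k ≠ i → eval ![l i 1, -l i 0] (Lg k) = 0 := by
    intro i k hki
    rw [hLg, map_prod]
    apply Finset.prod_eq_zero (Finset.mem_erase.mpr ⟨hki.symm, Finset.mem_univ i⟩)
    rw [hev]
    ring
  refine ⟨∑ i, C (c i / eval ![l i 1, -l i 0] (Lg i)) * Lg i *
    (C (v i 0) * X 0 + C (v i 1) * X 1) ^ (d + 1 - Fintype.card ι), ?_, ?_⟩
  · apply IsHomogeneous.sum
    intro i _
    have h1 : (Lg i).IsHomogeneous (Fintype.card ι - 1) := by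
      rw [hLg]
      have h2 := IsHomogeneous.prod (Finset.univ.erase i)
        (fun k => (C (l k 0) * X 0 + C (l k 1) * X 1 : A2 F)) (fun _ => 1)
        (fun k _ => j13834_exists_ribbon_lin (l k))
      rw [Finset.sum_const, Finset.card_erase_of_mem (Finset.mem_univ i), Finset.card_univ] at h2
      simpa using h2
    have h3 := (j13834_exists_ribbon_lin (v i)).pow (d + 1 - Fintype.card ι)
    have h4 := ((isHomogeneous_C (Fin 2) (c i / eval ![l i 1, -l i 0] (Lg i))).mul h1).mul h3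
    have hc : 1 ≤ Fintype.card ι := Fintype.card_pos_iff.mpr ⟨i⟩
    have h5 : 0 + (Fintype.card ι - 1) + 1 * (d + 1 - Fintype.card ι) = d := by omega
    rw [h5] at h4
    exact h4
  · intro i
    rw [map_sum, Finset.sum_eq_single i]
    · have h6 : eval ![l i 1, -l i 0] (C (v i 0) * X 0 + C (v i 1) * X 1 : A2 F) = 1 := by
        rw [← hv i]
        simp
        ring
      rw [map_mul, map_mul, map_pow, h6, one_pow, mul_one, eval_C, div_mul_cancel₀ _ (hLi i)]
    · intro k _ hk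
      rw [map_mul, map_mul, hLj i k hk]
      ring
    · intro h
      exact absurd (Finset.mem_univ i) h

lemma j13834_exists_ribbon_big {F : Type} [Field F] (I : Ideal (A2 F)) (h0 : (X 0 : A2 F) ∈ I.radical)
    (h1 : (X 1 : A2 F) ∈ I.radical) : ∃ M, ∀ m ≥ M, ∀ p : A2 F, p.IsHomogeneous m → p ∈ I := by
  obtain ⟨N0, hN0⟩ := h0
  obtain ⟨N1, hN1⟩ := h1
  refine ⟨N0 + N1, ?_⟩
  intro m hm p hp
  rw [p.as_sum]
  apply Ideal.sum_mem
  intro s hs
  have hdeg := j13834_exists_ribbon_deg p m hp s hs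
  have e : (monomial s (coeff s p) : A2 F) = C (coeff s p) * (X 0 ^ s 0 * X 1 ^ s 1) := by
    rw [monomial_eq, Finsupp.prod_fintype _ _ (by simp), Fin.prod_univ_two]
  rw [e]
  apply I.mul_mem_left
  by_cases h2 : N0 ≤ s 0
  · apply I.mul_mem_right
    exact Ideal.pow_mem_of_pow_mem _ hN0 h2
  · apply I.mul_mem_left
    exact Ideal.pow_mem_of_pow_mem _ hN1 (by omega)

/-- Existence of double structures with given tangent directions. -/
lemma exists_ribbon {F : Type} [Field F] [Infinite F] {n : ℕ} (δ l : Fin n → Fin 2 → F)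
    (hδ : ∀ j, δ j ≠ 0) (hl0 : ∀ j, l j ≠ 0)
    (hl : ∀ i j, i ≠ j → l i 0 * l j 1 - l i 1 * l j 0 ≠ 0) (a : ℕ) (ha : n ≤ a) :
    ∃ g f : A2 F, g.IsHomogeneous (a + 1) ∧ f.IsHomogeneous (a + 1) ∧
      (∃ M, ∀ m ≥ M, ∀ p : A2 F, p.IsHomogeneous m → p ∈ Ideal.span {g, f}) ∧
      ∀ j, C (l j 0) * X 0 + C (l j 1) * X 1 ∣ C (δ j 0) * f - C (δ j 1) * g := by
  classical
  obtain ⟨t, ht⟩ := Infinite.exists_notMem_finset (Finset.univ.image (fun j => l j 1 / l j 0))
  obtain ⟨c, hc⟩ := Infinite.exists_notMem_finset (Finset.univ.image (fun j => -(δ j 0) / δ j 1))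
  have hμ : ∀ j, δ j 0 + c * δ j 1 ≠ 0 := by
    intro j h
    by_cases h1 : δ j 1 = 0
    · apply hδ j
      rw [h1] at h
      funext i
      fin_cases i
      · simpa using h
      · exact h1
    · apply hc
      rw [Finset.mem_image]
      refine ⟨j, Finset.mem_univ j, ?_⟩
      rw [div_eq_iff h1]
      linear_combination -h
  have hu : ∀ j, 1 * l j 1 - t * l j 0 ≠ 0 := by
    intro j h
    by_cases h1 : l j 0 = 0
    · apply hl0 j
      rw [h1] at h
      funext i
      fin_cases i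
      · exact h1
      · simpa using h
    · apply ht
      rw [Finset.mem_image]
      refine ⟨j, Finset.mem_univ j, ?_⟩
      rw [div_eq_iff h1]
      linear_combination h
  obtain ⟨ll, hll⟩ : ∃ ll : Option (Fin n) → Fin 2 → F, ll none = ![1, t] ∧ ∀ j, ll (some j) = l j :=
    ⟨fun o => o.elim ![1, t] l, rfl, fun _ => rfl⟩
  obtain ⟨hlln, hlls⟩ := hll
  have hll0 : ∀ i, ll i ≠ 0 := by
    intro i
    rcases i with _ | j
    · rw [hlln]
      intro h
      have := congrFun h 0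
      simp at this
    · rw [hlls]
      exact hl0 j
  have hllc : ∀ i j, i ≠ j → ll i 0 * ll j 1 - ll i 1 * ll j 0 ≠ 0 := by
    intro i j hij
    rcases i with _ | i
    · rcases j with _ | j
      · exact absurd rfl hij
      · rw [hlln, hlls]
        simpa using hu j
    · rcases j with _ | j
      · rw [hlln, hlls]
        intro h
        apply hu i
        simp at h
        linear_combination -h
      · rw [hlls, hlls]
        exact hl i j (fun h => hij (by rw [h]))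
  obtain ⟨G, hG⟩ : ∃ G : A2 F, G = (C 1 * X 0 + C t * X 1) ^ (a + 1) := ⟨_, rfl⟩
  obtain ⟨H, hH1, hH2⟩ := j13834_exists_ribbon_interp ll hll0 hllc (a + 1)
    (by rw [Fintype.card_option, Fintype.card_fin]; omega)
    (fun o => o.elim 1 (fun j => δ j 1 * eval ![l j 1, -l j 0] G / (δ j 0 + c * δ j 1)))
  have hHj : ∀ j, (δ j 0 + c * δ j 1) * eval ![l j 1, -l j 0] H = δ j 1 * eval ![l j 1, -l j 0] G := by
    intro j
    have h := hH2 (some j)
    rw [hlls] at h
    rw [h]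
    show (δ j 0 + c * δ j 1) * (δ j 1 * eval ![l j 1, -l j 0] G / (δ j 0 + c * δ j 1)) = _
    rw [mul_div_cancel₀ _ (hμ j)]
  have hHq : eval ![t, -1] H = 1 := by
    have h := hH2 none
    rw [hlln] at h
    simpa using h
  have hGh : G.IsHomogeneous (a + 1) := by
    have h := (j13834_exists_ribbon_lin (![1, t] : Fin 2 → F)).pow (a + 1)
    rw [hG]
    simpa using h
  have hgh : (G - C c * H).IsHomogeneous (a + 1) := by
    apply hGh.sub
    have h := (isHomogeneous_C (Fin 2) c).mul hH1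
    rwa [zero_add] at h
  refine ⟨G - C c * H, H, hgh, hH1, ?_, ?_⟩
  · obtain ⟨I, hI⟩ : ∃ I : Ideal (A2 F), I = Ideal.span {G - C c * H, H} := ⟨_, rfl⟩
    rw [← hI]
    have hHI : H ∈ I := by
      rw [hI]
      exact Ideal.subset_span (by simp)
    have hgI : G - C c * H ∈ I := by
      rw [hI]
      exact Ideal.subset_span (by simp)
    have hGI : G ∈ I := by
      have e : G = (G - C c * H) + C c * H := by ring
      rw [e]
      exact I.add_mem hgI (I.mul_mem_left _ hHI)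
    obtain ⟨v, hv⟩ := j13834_exists_ribbon_dual (![1, t] : Fin 2 → F) (by rw [← hlln]; exact hll0 none)
    have hv' : v 0 * t - v 1 * 1 = 1 := by simpa using hv
    have hurad : (C 1 * X 0 + C t * X 1 : A2 F) ∈ I.radical := by
      refine ⟨a + 1, ?_⟩
      rw [← hG]
      exact hGI
    have hmod := j13834_exists_ribbon_mod (![1, t] : Fin 2 → F) v hv H (a + 1) hH1
    have hmod' : (C 1 * X 0 + C t * X 1 : A2 F) ∣
        H - C (eval ![t, -1] H) * (C (v 0) * X 0 + C (v 1) * X 1) ^ (a + 1) := by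
      simpa using hmod
    rw [hHq] at hmod'
    obtain ⟨R, hR⟩ := hmod'
    have hvrad : (C (v 0) * X 0 + C (v 1) * X 1 : A2 F) ∈ I.radical := by
      have h1 : (C (v 0) * X 0 + C (v 1) * X 1 : A2 F) ^ (a + 1) ∈ I.radical := by
        have e : (C (v 0) * X 0 + C (v 1) * X 1 : A2 F) ^ (a + 1) =
          H - (C 1 * X 0 + C t * X 1) * R := by rw [← hR, map_one]; ring
        rw [e]
        exact I.radical.sub_mem (Ideal.le_radical hHI) (I.radical.mul_mem_right _ hurad)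
      exact (Ideal.radical_isRadical I) ⟨a + 1, h1⟩
    have hcc : (C (v 0) * C t - C (v 1) * C 1 : A2 F) = 1 := by
      rw [← map_mul, ← map_mul, ← map_sub, hv', map_one]
    apply j13834_exists_ribbon_big
    · have e : (X 0 : A2 F) = C t * (C (v 0) * X 0 + C (v 1) * X 1) - C (v 1) * (C 1 * X 0 + C t * X 1) := by
        linear_combination (-X 0 : A2 F) * hcc
      rw [e]
      exact I.radical.sub_mem (I.radical.mul_mem_left _ hvrad) (I.radical.mul_mem_left _ hurad)
    · have e : (X 1 : A2 F) = C (v 0) * (C 1 * X 0 + C t * X 1) - C 1 * (C (v 0) * X 0 + C (v 1) * X 1) := by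
        linear_combination (-X 1 : A2 F) * hcc
      rw [e]
      exact I.radical.sub_mem (I.radical.mul_mem_left _ hurad) (I.radical.mul_mem_left _ hvrad)
  · intro j
    obtain ⟨v, hv⟩ := j13834_exists_ribbon_dual (l j) (hl0 j)
    have hhom : (C (δ j 0) * H - C (δ j 1) * (G - C c * H) : A2 F).IsHomogeneous (a + 1) := by
      have h1 := (isHomogeneous_C (Fin 2) (δ j 0)).mul hH1
      have h2 := (isHomogeneous_C (Fin 2) (δ j 1)).mul hgh
      rw [zero_add] at h1 h2
      exact h1.sub h2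
    have hmod := j13834_exists_ribbon_mod (l j) v hv _ (a + 1) hhom
    have hz : eval ![l j 1, -l j 0] (C (δ j 0) * H - C (δ j 1) * (G - C c * H) : A2 F) = 0 := by
      rw [map_sub, map_mul, map_mul, map_sub, map_mul, eval_C, eval_C, eval_C]
      linear_combination hHj j
    rw [hz, map_zero, zero_mul, sub_zero] at hmod
    exact hmod

end rib

section data

/-- The curves used: the lines are `AA w`, `NN w`, the ribbons have parameters `101 + i`. -/
structure IsConf {F : Type} [Field F] (w : F) (c : Cfg F 9 10) : Prop where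
  hA : c.A = AA w
  hN : c.N = NN w
  ha : ∀ i, c.a i = 101 + (i : ℕ)
  good : c.Good

lemma j13874_exists_conf_aux {F : Type} [Field F] [CharZero F] {w : F} (hw : w ^ 2 + w + 1 = 0)
    (i : Fin 9) :
    ∃ g f : A2 F, g.IsHomogeneous ((101 + (i : ℕ)) + 1) ∧ f.IsHomogeneous ((101 + (i : ℕ)) + 1) ∧
      (∃ M, ∀ m ≥ M, ∀ p : A2 F, p.IsHomogeneous m → p ∈ Ideal.span {g, f}) ∧
      ∀ j, (AA w i - NN w j).det = 0 → ∃ δ l : Fin 2 → F,
        NN w j - AA w i = Matrix.vecMulVec δ l ∧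
        C (l 0) * X 0 + C (l 1) * X 1 ∣ C (δ 0) * f - C (δ 1) * g := by
  classical
  have h1 : ∀ j, (AA w i - NN w j).det = 0 → ∃ δ l : Fin 2 → F, δ ≠ 0 ∧ l ≠ 0 ∧
      NN w j - AA w i = Matrix.vecMulVec δ l := by
    intro j hj
    obtain ⟨l, hl, -, δ, hδ, h⟩ := rho_map_lineI_of_det_eq_zero hj (conf_ne hw i j)
    exact ⟨δ, l, hδ, hl, h⟩
  choose! δ l hδ hl hD using h1
  let J : Finset (Fin 10) := Finset.univ.filter (fun j => (AA w i - NN w j).det = 0)
  have hJ : ∀ j : J, (AA w i - NN w (j : Fin 10)).det = 0 := fun j =>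
    (Finset.mem_filter.1 j.2).2
  let e : Fin J.card ≃ J := J.equivFin.symm
  have hcard : J.card ≤ 101 + (i : ℕ) := by
    have := Finset.card_le_univ J
    rw [Fintype.card_fin] at this
    omega
  haveI : Infinite F := inferInstance
  obtain ⟨g, f, hg, hf, hc, ht⟩ := exists_ribbon (fun t : Fin J.card => δ (e t))
    (fun t => l (e t)) (fun t => hδ _ (hJ _)) (fun t => hl _ (hJ _)) (by
      intro s t hst hzero
      have hne : ((e s : J) : Fin 10) ≠ (e t : J) := by
        intro h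
        exact hst (e.injective (Subtype.ext h))
      apply conf_N hw _ _ hne
      have hs := hD _ (hJ (e s))
      have ht := hD _ (hJ (e t))
      have h2 : NN w (e s : J) - NN w (e t : J) =
          Matrix.vecMulVec (δ (e s : J)) (l (e s : J)) -
          Matrix.vecMulVec (δ (e t : J)) (l (e t : J)) := by
        rw [← hs, ← ht]; abel
      rw [h2, Matrix.det_fin_two]
      simp only [Matrix.sub_apply, Matrix.vecMulVec_apply]
      linear_combination (δ (e s : J) 1 * δ (e t : J) 0 - δ (e s : J) 0 * δ (e t : J) 1) * hzero)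
    (101 + (i : ℕ)) hcard
  refine ⟨g, f, hg, hf, hc, ?_⟩
  intro j hj
  refine ⟨δ j, l j, hD j hj, ?_⟩
  have hjJ : j ∈ J := Finset.mem_filter.2 ⟨Finset.mem_univ _, hj⟩
  have := ht (e.symm ⟨j, hjJ⟩)
  simpa using this

lemma exists_conf {F : Type} [Field F] [CharZero F] {w : F} (hw : w ^ 2 + w + 1 = 0) :
    ∃ c : Cfg F 9 10, IsConf w c := by
  choose g f hg hf hc ht using j13874_exists_conf_aux hw
  refine ⟨⟨AA w, NN w, fun i => 101 + (i : ℕ), g, f⟩, rfl, rfl, fun _ => rfl, ?_⟩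
  refine ⟨fun i j h => conf_A hw i j h, fun i j h => conf_N hw i j h,
    fun i j => conf_ne hw i j, hg, hf, hc, fun i j h => ht i j h, ?_⟩
  intro i
  show 2 * incN (AA w) (NN w) < 101 + (i : ℕ)
  rw [conf_inc hw]
  omega

/-- base change of a configuration -/
noncomputable def Cfg.map {F F' : Type} [Field F] [Field F'] (φ : F →+* F') {r s : ℕ}
    (c : Cfg F r s) : Cfg F' r s where
  A i := (c.A i).map φ
  N i := (c.N i).map φ
  a := c.a
  g i := MvPolynomial.map φ (c.g i)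
  f i := MvPolynomial.map φ (c.f i)

lemma j13895_det_map_sub_eq_zero_iff {F F' : Type} [Field F] [Field F'] (φ : F →+* F') (A B : M2 F) :
    (A.map φ - B.map φ).det = 0 ↔ (A - B).det = 0 := by
  have h : A.map φ - B.map φ = (φ.mapMatrix (A - B)) := by
    ext i j; simp
  rw [h, ← RingHom.map_det]
  exact map_eq_zero_iff φ φ.injective

lemma j13895_incN_map {F F' : Type} [Field F] [Field F'] (φ : F →+* F') {r s : ℕ}
    (L : Fin r → M2 F) (M : Fin s → M2 F) :
    incN (fun i => (L i).map φ) (fun j => (M j).map φ) = incN L M := by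
  unfold incN
  simp only [j13895_det_map_sub_eq_zero_iff]

lemma j13895_cop_map {F F' : Type} [Field F] [Field F'] (φ : F →+* F') (g f : A2 F)
    (h : ∃ M, ∀ m ≥ M, ∀ p : A2 F, p.IsHomogeneous m → p ∈ Ideal.span {g, f}) :
    ∃ M, ∀ m ≥ M, ∀ p : A2 F', p.IsHomogeneous m →
      p ∈ Ideal.span {MvPolynomial.map φ g, MvPolynomial.map φ f} := by
  obtain ⟨M, hM⟩ := h
  refine ⟨M, fun m hm p hp => ?_⟩
  rw [p.as_sum]
  refine Ideal.sum_mem _ fun d hd => ?_
  have hdeg : d.degree = m := by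
    have := hp (mem_support_iff.1 hd)
    rw [← this, Finsupp.degree_eq_weight_one]
    rfl
  have h1 : (monomial d (1 : F)).IsHomogeneous m := isHomogeneous_monomial _ hdeg
  have h2 := hM m hm _ h1
  have h3 := Ideal.mem_map_of_mem (MvPolynomial.map φ) h2
  rw [Ideal.map_span, Set.image_pair, map_monomial, map_one] at h3
  have e : monomial d (coeff d p) = C (coeff d p) * monomial d (1 : F') := by
    rw [C_mul_monomial, mul_one]
  rw [e]
  exact Ideal.mul_mem_left _ _ h3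

lemma Cfg.map_good {F F' : Type} [Field F] [Field F'] (φ : F →+* F') {r s : ℕ}
    (c : Cfg F r s) (hc : c.Good) : (c.map φ).Good where
  hA i j hij := by
    have := hc.hA i j hij
    simp only [Cfg.map]
    rw [Ne, j13895_det_map_sub_eq_zero_iff]
    exact this
  hN i j hij := by
    have := hc.hN i j hij
    simp only [Cfg.map]
    rw [Ne, j13895_det_map_sub_eq_zero_iff]
    exact this
  hAN i j h := hc.hAN i j (Matrix.map_injective φ.injective h)
  hg i := (hc.hg i).map φ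
  hf i := (hc.hf i).map φ
  cop i := j13895_cop_map φ _ _ (hc.cop i)
  tan i j h := by
    simp only [Cfg.map] at h ⊢
    rw [j13895_det_map_sub_eq_zero_iff] at h
    obtain ⟨δ, l, h1, h2⟩ := hc.tan i j h
    refine ⟨fun x => φ (δ x), fun x => φ (l x), ?_, ?_⟩
    · ext x y
      have := congrArg φ (congrFun (congrFun h1 x) y)
      simpa [Matrix.vecMulVec_apply] using this
    · have := map_dvd (MvPolynomial.map φ) h2
      simpa using this
  big i := by
    have := hc.big i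
    simp only [Cfg.map]
    rw [j13895_incN_map]
    exact this

set_option maxHeartbeats 4000000 in
lemma j13895_AA_map {F F' : Type} [Field F] [Field F'] (φ : F →+* F') (w : F) (i : Fin 9) :
    (AA w i).map φ = AA (φ w) i := by
  have e2 : φ 2 = 2 := map_ofNat φ 2
  have e3 : φ 3 = 3 := map_ofNat φ 3
  have e4 : φ 4 = 4 := map_ofNat φ 4
  have e5 : φ 5 = 5 := map_ofNat φ 5
  have e6 : φ 6 = 6 := map_ofNat φ 6
  have e7 : φ 7 = 7 := map_ofNat φ 7
  have e8 : φ 8 = 8 := map_ofNat φ 8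
  have e9 : φ 9 = 9 := map_ofNat φ 9
  have e11 : φ 11 = 11 := map_ofNat φ 11
  have e12 : φ 12 = 12 := map_ofNat φ 12
  have e13 : φ 13 = 13 := map_ofNat φ 13
  have e14 : φ 14 = 14 := map_ofNat φ 14
  have e15 : φ 15 = 15 := map_ofNat φ 15
  have e19 : φ 19 = 19 := map_ofNat φ 19
  ext x y
  fin_cases i <;> fin_cases x <;> fin_cases y <;> simp [AA, e2, e3, e4, e5, e6, e7, e8, e9, e11, e12, e13, e14, e15, e19]

set_option maxHeartbeats 4000000 in
lemma j13895_NN_map {F F' : Type} [Field F] [Field F'] (φ : F →+* F') (w : F) (i : Fin 10) :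
    (NN w i).map φ = NN (φ w) i := by
  have e2 : φ 2 = 2 := map_ofNat φ 2
  have e3 : φ 3 = 3 := map_ofNat φ 3
  have e4 : φ 4 = 4 := map_ofNat φ 4
  have e5 : φ 5 = 5 := map_ofNat φ 5
  have e6 : φ 6 = 6 := map_ofNat φ 6
  have e7 : φ 7 = 7 := map_ofNat φ 7
  have e8 : φ 8 = 8 := map_ofNat φ 8
  have e9 : φ 9 = 9 := map_ofNat φ 9
  have e11 : φ 11 = 11 := map_ofNat φ 11
  have e12 : φ 12 = 12 := map_ofNat φ 12
  have e13 : φ 13 = 13 := map_ofNat φ 13
  have e14 : φ 14 = 14 := map_ofNat φ 14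
  have e15 : φ 15 = 15 := map_ofNat φ 15
  have e19 : φ 19 = 19 := map_ofNat φ 19
  ext x y
  fin_cases i <;> fin_cases x <;> fin_cases y <;> simp [NN, e2, e3, e4, e5, e6, e7, e8, e9, e11, e12, e13, e14, e15, e19]

lemma IsConf.map {F F' : Type} [Field F] [Field F'] (φ : F →+* F') {w : F} {c : Cfg F 9 10}
    (hc : IsConf w c) : IsConf (φ w) (c.map φ) where
  hA := by
    funext i
    simp only [Cfg.map, hc.hA]
    exact j13895_AA_map φ w i
  hN := by
    funext i
    simp only [Cfg.map, hc.hN]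
    exact j13895_NN_map φ w i
  ha := hc.ha
  good := Cfg.map_good φ c hc.good

end data


end Pool.Agent.Helper924.HS
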