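import Mathlib
import Pool.Agent.Helper924.HS.Defs

set_option autoImplicit false

open MvPolynomial

namespace Pool.Agent.Helper924.HS

/-- agreement of two ideals in large degrees -/
def EqHigh {k : Type} [Field k] (I J : Ideal (S k)) : Prop :=
  ∃ m0, ∀ m ≥ m0, ∀ F : S k, F.IsHomogeneous m → (F ∈ I ↔ F ∈ J)

end Pool.Agent.Helper924.HS
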