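import Mathlib
import Pool.Agent.Helper924.HS.Line

set_option autoImplicit false

open MvPolynomial

namespace Pool.Agent.Helper924.HS

section sp
variable {V K k : Type} [CommRing V] [IsDomain V] [ValuationRing V] [Field K] [Field k]
  [Algebra V K] [IsFractionRing V K] [Algebra V k]

lemma mem_sp (hk : Function.Surjective (algebraMap V k)) {I : Ideal (S K)} {f : S k} :
    f ∈ sp V k I ↔ ∃ F : S V, MvPolynomial.map (algebraMap V K) F ∈ I ∧
      MvPolynomial.map (algebraMap V k) F = f := by
  unfold sp
  rw [Ideal.mem_map_iff_of_surjective _ (MvPolynomial.map_surjective (σ := Fin 4) _ hk)]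
  rfl

lemma sp_mono (hk : Function.Surjective (algebraMap V k)) {I J : Ideal (S K)} (h : I ≤ J) :
    sp V k I ≤ sp V k J := by
  intro f hf
  rw [mem_sp hk] at hf ⊢
  obtain ⟨F, h1, h2⟩ := hf
  exact ⟨F, h h1, h2⟩

lemma j12707_spAux_hc_map {A B : Type} [CommRing A] [CommRing B] (φ : A →+* B) (n : ℕ) (F : S A) :
    homogeneousComponent n (MvPolynomial.map φ F) = MvPolynomial.map φ (homogeneousComponent n F) := by
  ext d
  rw [coeff_homogeneousComponent, coeff_map, coeff_map, coeff_homogeneousComponent]
  split_ifs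
  · rfl
  · rw [map_zero]

/-- homogeneous elements of the specialisation lift to homogeneous elements -/
lemma mem_sp_hom (hk : Function.Surjective (algebraMap V k)) {I : Ideal (S K)} (hI : IsHom I)
    {f : S k} {n : ℕ} (hf : f.IsHomogeneous n) :
    f ∈ sp V k I ↔ ∃ F : S V, F.IsHomogeneous n ∧ MvPolynomial.map (algebraMap V K) F ∈ I ∧
      MvPolynomial.map (algebraMap V k) F = f := by
  rw [mem_sp hk]
  constructor
  · rintro ⟨F, h1, h2⟩
    refine ⟨homogeneousComponent n F, homogeneousComponent_isHomogeneous n F, ?_, ?_⟩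
    · rw [← j12707_spAux_hc_map]
      exact hI _ h1 n
    · rw [← j12707_spAux_hc_map, h2, homogeneousComponent_of_mem hf, if_pos rfl]
  · rintro ⟨F, -, h1, h2⟩
    exact ⟨F, h1, h2⟩

lemma sp_isHom (hk : Function.Surjective (algebraMap V k)) {I : Ideal (S K)} (hI : IsHom I) :
    IsHom (sp V k I) := by
  intro f hf n
  rw [mem_sp hk] at hf ⊢
  obtain ⟨F, h1, h2⟩ := hf
  refine ⟨homogeneousComponent n F, ?_, ?_⟩
  · rw [← j12707_spAux_hc_map]
    exact hI _ h1 n
  · rw [← j12707_spAux_hc_map, h2]


/-- exponents of the monomials of degree `m` -/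
abbrev j12709_hfsp_E (m : ℕ) : Type := {d : Fin 4 →₀ ℕ // d ∈ Finset.finsuppAntidiag Finset.univ m}

lemma j12709_hfsp_memE {m : ℕ} (d : Fin 4 →₀ ℕ) :
    d ∈ Finset.finsuppAntidiag (Finset.univ : Finset (Fin 4)) m ↔ Finsupp.degree d = m := by
  rw [Finset.mem_finsuppAntidiag, Finsupp.degree_eq_sum]
  simp

/-- the form with given coefficients -/
noncomputable def j12709_hfsp_toP (R : Type) [CommRing R] (m : ℕ) : (j12709_hfsp_E m → R) →ₗ[R] S R :=
  Fintype.linearCombination R (fun d : j12709_hfsp_E m => MvPolynomial.monomial d.1 (1 : R))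

lemma j12709_hfsp_toP_apply (R : Type) [CommRing R] (m : ℕ) (c : j12709_hfsp_E m → R) :
    j12709_hfsp_toP R m c = ∑ d : j12709_hfsp_E m, MvPolynomial.monomial d.1 (c d) := by
  unfold j12709_hfsp_toP
  rw [Fintype.linearCombination_apply]
  refine Finset.sum_congr rfl fun d _ => ?_
  rw [MvPolynomial.smul_monomial, smul_eq_mul, mul_one]

lemma j12709_hfsp_coeff (R : Type) [CommRing R] (m : ℕ) (c : j12709_hfsp_E m → R) (d : j12709_hfsp_E m) :
    MvPolynomial.coeff d.1 (j12709_hfsp_toP R m c) = c d := by
  classical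
  rw [j12709_hfsp_toP_apply, MvPolynomial.coeff_sum, Finset.sum_eq_single d]
  · rw [MvPolynomial.coeff_monomial, if_pos rfl]
  · intro e _ hne
    rw [MvPolynomial.coeff_monomial, if_neg]
    intro h
    exact hne (Subtype.ext h)
  · intro h
    exact absurd (Finset.mem_univ d) h

lemma j12709_hfsp_inj (R : Type) [CommRing R] (m : ℕ) : Function.Injective (j12709_hfsp_toP R m) := by
  intro a b h
  funext d
  rw [← j12709_hfsp_coeff R m a d, h, j12709_hfsp_coeff]

lemma j12709_hfsp_hom (R : Type) [CommRing R] (m : ℕ) (c : j12709_hfsp_E m → R) :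
    (j12709_hfsp_toP R m c).IsHomogeneous m := by
  rw [j12709_hfsp_toP_apply]
  refine MvPolynomial.IsHomogeneous.sum _ _ _ fun d _ => ?_
  exact MvPolynomial.isHomogeneous_monomial _ ((j12709_hfsp_memE d.1).1 d.2)

lemma j12709_hfsp_surj (R : Type) [CommRing R] (m : ℕ) {F : S R} (hF : F.IsHomogeneous m) :
    j12709_hfsp_toP R m (fun d => MvPolynomial.coeff d.1 F) = F := by
  classical
  ext d
  by_cases hd : d ∈ Finset.finsuppAntidiag (Finset.univ : Finset (Fin 4)) m
  · exact j12709_hfsp_coeff R m _ ⟨d, hd⟩
  · have h1 : MvPolynomial.coeff d F = 0 := by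
      by_contra hne
      exact hd ((j12709_hfsp_memE d).2 (by
        have := hF hne
        exact (DFunLike.congr_fun Finsupp.degree_eq_weight_one d).trans this))
    have h2 : MvPolynomial.coeff d (j12709_hfsp_toP R m fun d => MvPolynomial.coeff d.1 F) = 0 := by
      by_contra hne
      exact hd ((j12709_hfsp_memE d).2 (by
        have := j12709_hfsp_hom R m _ hne
        exact (DFunLike.congr_fun Finsupp.degree_eq_weight_one d).trans this))
    rw [h1, h2]

lemma j12709_hfsp_map {R R' : Type} [CommRing R] [CommRing R'] (f : R →+* R') (m : ℕ)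
    (c : j12709_hfsp_E m → R) :
    MvPolynomial.map f (j12709_hfsp_toP R m c) = j12709_hfsp_toP R' m (fun d => f (c d)) := by
  rw [j12709_hfsp_toP_apply, j12709_hfsp_toP_apply, map_sum]
  refine Finset.sum_congr rfl fun d _ => ?_
  rw [MvPolynomial.map_monomial]

lemma j12709_hfsp_range (K : Type) [Field K] (m : ℕ) :
    LinearMap.range (j12709_hfsp_toP K m) = homogeneousSubmodule (Fin 4) K m := by
  ext F
  rw [LinearMap.mem_range, MvPolynomial.mem_homogeneousSubmodule]
  constructor
  · rintro ⟨c, rfl⟩
    exact j12709_hfsp_hom K m c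
  · intro h
    exact ⟨_, j12709_hfsp_surj K m h⟩

lemma j12709_hfsp_finrank_hom (K : Type) [Field K] (m : ℕ) :
    Module.finrank K (homogeneousSubmodule (Fin 4) K m) = Fintype.card (j12709_hfsp_E m) := by
  rw [← j12709_hfsp_range, LinearMap.finrank_range_of_inj (j12709_hfsp_inj K m)]
  exact Module.finrank_fintype_fun_eq_card K

lemma j12709_hfsp_finrank_dg {K : Type} [Field K] (I : Ideal (S K)) (m : ℕ) :
    Module.finrank K (dg I m) =
      Module.finrank K ((I.restrictScalars K).comap (j12709_hfsp_toP K m)) := by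
  have h : dg I m = ((I.restrictScalars K).comap (j12709_hfsp_toP K m)).map (j12709_hfsp_toP K m) := by
    rw [Submodule.map_comap_eq, j12709_hfsp_range, inf_comm]
    rfl
  rw [h]
  exact (Submodule.equivMapOfInjective (j12709_hfsp_toP K m) (j12709_hfsp_inj K m) _).finrank_eq.symm

/-- scaling a nonzero vector to an integral vector with a coordinate `1` -/
lemma j12709_hfsp_scale {E : Type} [Fintype E] (G : E → K) (hG : G ≠ 0) :
    ∃ (c : K) (F : E → V) (e0 : E), (∀ e, algebraMap V K (F e) = c * G e) ∧ F e0 = 1 := by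
  classical
  have hne : ∃ e, G e ≠ 0 := by
    by_contra h
    push Not at h
    exact hG (funext h)
  -- a coordinate dividing all others
  have key : ∀ s : Finset E, (∃ e ∈ s, G e ≠ 0) → ∃ e0 ∈ s, G e0 ≠ 0 ∧ ∀ e ∈ s, ∃ a : V,
      G e = algebraMap V K a * G e0 := by
    intro s
    induction s using Finset.induction_on with
    | empty => rintro ⟨e, he, _⟩; simp at he
    | insert x s hx ih =>
      intro hex
      by_cases hs : ∃ e ∈ s, G e ≠ 0
      · obtain ⟨e0, he0, h0, hall⟩ := ih hs
        rcases ValuationRing.isInteger_or_isInteger V (G x / G e0) with h | h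
        · obtain ⟨a, ha⟩ := h
          refine ⟨e0, Finset.mem_insert_of_mem he0, h0, ?_⟩
          intro e he
          rcases Finset.mem_insert.1 he with rfl | he
          · refine ⟨a, ?_⟩
            rw [ha]; field_simp
          · exact hall e he
        · obtain ⟨a, ha⟩ := h
          by_cases hx0 : G x = 0
          · refine ⟨e0, Finset.mem_insert_of_mem he0, h0, ?_⟩
            intro e he
            rcases Finset.mem_insert.1 he with rfl | he
            · exact ⟨0, by rw [hx0]; simp⟩
            · exact hall e he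
          · refine ⟨x, Finset.mem_insert_self _ _, hx0, ?_⟩
            have hex0 : G e0 = algebraMap V K a * G x := by
              rw [ha]; field_simp
            intro e he
            rcases Finset.mem_insert.1 he with rfl | he
            · exact ⟨1, by simp⟩
            · obtain ⟨b, hb⟩ := hall e he
              refine ⟨b * a, ?_⟩
              rw [hb, hex0, map_mul, mul_assoc]
      · push Not at hs
        obtain ⟨e, he, hne⟩ := hex
        have hex' : e = x := by
          rcases Finset.mem_insert.1 he with rfl | he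
          · rfl
          · exact absurd (hs e he) hne
        subst hex'
        refine ⟨e, Finset.mem_insert_self _ _, hne, ?_⟩
        intro e' he'
        rcases Finset.mem_insert.1 he' with rfl | he'
        · exact ⟨1, by simp⟩
        · exact ⟨0, by rw [hs e' he']; simp⟩
  obtain ⟨e, he⟩ := hne
  obtain ⟨e0, _, h0, hall⟩ := key Finset.univ ⟨e, Finset.mem_univ e, he⟩
  choose a ha using fun e => hall e (Finset.mem_univ e)
  refine ⟨(G e0)⁻¹, a, e0, ?_, ?_⟩
  · intro e
    rw [ha e]; field_simp
  · have h1 := ha e0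
    have h2 : algebraMap V K (a e0) = 1 := by
      have : (algebraMap V K (a e0) - 1) * G e0 = 0 := by
        rw [sub_mul, ← h1]; ring
      rcases mul_eq_zero.1 this with h | h
      · exact sub_eq_zero.1 h
      · exact absurd h h0
    exact IsFractionRing.injective V K (by rw [h2, map_one])

/-- an integral echelon basis -/
lemma j12709_hfsp_echelon {E : Type} [Fintype E] [DecidableEq E] (W : Submodule K (E → K)) :
    ∃ (P : Finset E) (F : E → E → V), (∀ p ∈ P, (fun e => algebraMap V K (F p e)) ∈ W) ∧
      (∀ p ∈ P, ∀ q ∈ P, F p q = if p = q then 1 else 0) ∧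
      (∀ G ∈ W, (∀ p ∈ P, G p = 0) → G = 0) := by
  classical
  induction W using WellFoundedLT.induction with
  | ind W ih =>
    by_cases hW : W = ⊥
    · refine ⟨∅, fun _ _ => 0, by simp, by simp, ?_⟩
      intro G hG _
      rw [hW] at hG
      exact (Submodule.mem_bot K).1 hG
    · obtain ⟨G, hG, hG0⟩ := (Submodule.ne_bot_iff W).1 hW
      obtain ⟨c, g, e0, hg, hg1⟩ := j12709_hfsp_scale (V := V) G hG0
      have hgW : (fun e => algebraMap V K (g e)) ∈ W := by
        have : (fun e => algebraMap V K (g e)) = c • G := by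
          funext e; rw [hg e]; rfl
        rw [this]; exact W.smul_mem c hG
      let W' : Submodule K (E → K) := W ⊓ LinearMap.ker (LinearMap.proj (R := K) (φ := fun _ => K) e0)
      have hlt : W' < W := by
        refine lt_of_le_of_ne inf_le_left ?_
        intro h
        have h1 : (fun e => algebraMap V K (g e)) ∈ W' := by rw [h]; exact hgW
        have h2 : algebraMap V K (g e0) = 0 := h1.2
        rw [hg1, map_one] at h2
        exact one_ne_zero h2
      obtain ⟨P', F', h1, h2, h3⟩ := ih W' hlt
      have he0 : ∀ p ∈ P', F' p e0 = 0 := by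
        intro p hp
        have : algebraMap V K (F' p e0) = 0 := (h1 p hp).2
        exact IsFractionRing.injective V K (by rw [this, map_zero])
      have he0P : e0 ∉ P' := by
        intro h
        have ha := he0 e0 h
        rw [h2 e0 h e0 h, if_pos rfl] at ha
        exact one_ne_zero ha
      let F : E → E → V := fun p =>
        if p = e0 then (fun e => g e - ∑ q ∈ P', g q * F' q e) else F' p
      have hFe0 : F e0 = fun e => g e - ∑ q ∈ P', g q * F' q e := by simp [F]
      have hFp : ∀ p ∈ P', F p = F' p := by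
        intro p hp
        have : p ≠ e0 := fun h => he0P (h ▸ hp)
        simp [F, this]
      refine ⟨insert e0 P', F, ?_, ?_, ?_⟩
      · intro p hp
        rcases Finset.mem_insert.1 hp with rfl | hp
        · rw [hFe0]
          have : (fun e => algebraMap V K (g e - ∑ q ∈ P', g q * F' q e)) =
              (fun e => algebraMap V K (g e)) -
                ∑ q ∈ P', (algebraMap V K (g q)) • (fun e => algebraMap V K (F' q e)) := by
            funext e
            rw [map_sub, map_sum]
            simp only [map_mul, Pi.sub_apply, Finset.sum_apply, Pi.smul_apply, smul_eq_mul]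
          rw [this]
          refine W.sub_mem hgW (W.sum_mem fun q hq => W.smul_mem _ (h1 q hq).1)
        · rw [hFp p hp]
          exact (h1 p hp).1
      · intro p hp q hq
        rcases Finset.mem_insert.1 hp with rfl | hp1
        · rw [hFe0]
          rcases Finset.mem_insert.1 hq with rfl | hq
          · rw [if_pos rfl]
            have : ∑ r ∈ P', g r * F' r q = 0 :=
              Finset.sum_eq_zero fun r hr => by rw [he0 r hr, mul_zero]
            show g q - ∑ r ∈ P', g r * F' r q = 1
            rw [this, sub_zero, hg1]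
          · have hne : p ≠ q := fun h => he0P (h ▸ hq)
            rw [if_neg hne]
            show g q - ∑ r ∈ P', g r * F' r q = 0
            rw [Finset.sum_eq_single q]
            · rw [h2 q hq q hq, if_pos rfl, mul_one, sub_self]
            · intro r hr hrq
              rw [h2 r hr q hq, if_neg hrq, mul_zero]
            · intro h; exact absurd hq h
        · rw [hFp p hp1]
          rcases Finset.mem_insert.1 hq with rfl | hq
          · have hne : p ≠ q := fun h => he0P (h ▸ hp1)
            rw [if_neg hne, he0 p hp1]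
          · exact h2 p hp1 q hq
      · intro H hH hz
        refine h3 H ⟨hH, ?_⟩ fun p hp => hz p (Finset.mem_insert_of_mem hp)
        exact hz e0 (Finset.mem_insert_self _ _)

/-- reduction preserves the dimension -/
lemma j12709_hfsp_dim (hk : Function.Surjective (algebraMap V k)) {E : Type} [Fintype E]
    (W : Submodule K (E → K)) (Wb : Submodule k (E → k))
    (h : ∀ f, f ∈ Wb ↔ ∃ F : E → V, (fun e => algebraMap V K (F e)) ∈ W ∧
      (fun e => algebraMap V k (F e)) = f) :
    Module.finrank k Wb = Module.finrank K W := by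
  classical
  obtain ⟨P, F, h1, h2, h3⟩ := j12709_hfsp_echelon (V := V) W
  have hexp : ∀ G : E → V, (fun e => algebraMap V K (G e)) ∈ W →
      ∀ e, G e = ∑ p ∈ P, G p * F p e := by
    intro G hG e
    have h4 := h3 ((fun e => algebraMap V K (G e)) -
      ∑ p ∈ P, (algebraMap V K (G p)) • (fun e => algebraMap V K (F p e)))
      (W.sub_mem hG (W.sum_mem fun p hp => W.smul_mem _ (h1 p hp))) (by
        intro q hq
        simp only [Pi.sub_apply, Finset.sum_apply, Pi.smul_apply, smul_eq_mul]
        rw [Finset.sum_eq_single q]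
        · rw [h2 q hq q hq, if_pos rfl]; simp
        · intro r hr hrq
          rw [h2 r hr q hq, if_neg hrq]; simp
        · intro h; exact absurd hq h)
    have h5 := congrFun h4 e
    simp only [Pi.sub_apply, Finset.sum_apply, Pi.smul_apply, smul_eq_mul, Pi.zero_apply] at h5
    apply IsFractionRing.injective V K
    rw [map_sum]
    simp only [map_mul]
    exact sub_eq_zero.1 h5
  have hK : Module.finrank K W = P.card := by
    let φ : W →ₗ[K] (P → K) :=
      (LinearMap.funLeft K K (fun p : P => (p : E))).comp W.subtype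
    have hφ : ∀ (w : W) (p : P), φ w p = w.1 p.1 := fun w p => rfl
    have hinj : Function.Injective φ := by
      rw [injective_iff_map_eq_zero]
      intro w hw
      apply Subtype.ext
      apply h3 w.1 w.2
      intro p hp
      have := congrFun hw ⟨p, hp⟩
      rwa [hφ] at this
    have hsurj : Function.Surjective φ := by
      intro c
      refine ⟨⟨∑ p : P, c p • (fun e => algebraMap V K (F p.1 e)),
        W.sum_mem fun p _ => W.smul_mem _ (h1 p.1 p.2)⟩, ?_⟩
      funext q
      rw [hφ]
      simp only [Finset.sum_apply, Pi.smul_apply, smul_eq_mul]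
      rw [Finset.sum_eq_single q]
      · rw [h2 q.1 q.2 q.1 q.2, if_pos rfl]; simp
      · intro r _ hrq
        rw [h2 r.1 r.2 q.1 q.2, if_neg (fun h => hrq (Subtype.ext h))]; simp
      · intro h; exact absurd (Finset.mem_univ q) h
    rw [(LinearEquiv.ofBijective φ ⟨hinj, hsurj⟩).finrank_eq, Module.finrank_fintype_fun_eq_card,
      Fintype.card_coe]
  have hkk : Module.finrank k Wb = P.card := by
    let φ : Wb →ₗ[k] (P → k) :=
      (LinearMap.funLeft k k (fun p : P => (p : E))).comp Wb.subtype
    have hφ : ∀ (w : Wb) (p : P), φ w p = w.1 p.1 := fun w p => rfl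
    have hinj : Function.Injective φ := by
      rw [injective_iff_map_eq_zero]
      intro w hw
      apply Subtype.ext
      obtain ⟨G, hG1, hG2⟩ := (h w.1).1 w.2
      funext e
      have h4 := congrArg (algebraMap V k) (hexp G hG1 e)
      rw [map_sum] at h4
      have h5 : algebraMap V k (G e) = w.1 e := congrFun hG2 e
      rw [← h5, h4]
      refine Finset.sum_eq_zero fun p hp => ?_
      have h6 : algebraMap V k (G p) = w.1 p := congrFun hG2 p
      have h7 := congrFun hw ⟨p, hp⟩
      rw [hφ] at h7
      rw [map_mul, h6, h7]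
      simp
    have hsurj : Function.Surjective φ := by
      intro c
      choose c' hc' using fun p => hk (c p)
      refine ⟨⟨fun e => algebraMap V k (∑ p : P, c' p * F p.1 e), (h _).2
        ⟨fun e => ∑ p : P, c' p * F p.1 e, ?_, rfl⟩⟩, ?_⟩
      · have : (fun e => algebraMap V K (∑ p : P, c' p * F p.1 e)) =
            ∑ p : P, (algebraMap V K (c' p)) • (fun e => algebraMap V K (F p.1 e)) := by
          funext e
          rw [map_sum]
          simp only [map_mul, Finset.sum_apply, Pi.smul_apply, smul_eq_mul]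
        rw [this]
        exact W.sum_mem fun p _ => W.smul_mem _ (h1 p.1 p.2)
      · funext q
        rw [hφ]
        show algebraMap V k (∑ p : P, c' p * F p.1 q.1) = c q
        rw [Finset.sum_eq_single q]
        · rw [h2 q.1 q.2 q.1 q.2, if_pos rfl, mul_one, hc']
        · intro r _ hrq
          rw [h2 r.1 r.2 q.1 q.2, if_neg (fun h => hrq (Subtype.ext h)), mul_zero]
        · intro h; exact absurd (Finset.mem_univ q) h
    rw [(LinearEquiv.ofBijective φ ⟨hinj, hsurj⟩).finrank_eq, Module.finrank_fintype_fun_eq_card,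
      Fintype.card_coe]
  rw [hK, hkk]

/-- specialisation preserves the Hilbert function -/
lemma hf_sp (hk : Function.Surjective (algebraMap V k)) {I : Ideal (S K)} (hI : IsHom I) (m : ℕ) :
    hf (sp V k I) m = hf I m := by
  have h := j12709_hfsp_dim (V := V) (K := K) (k := k) hk
    ((I.restrictScalars K).comap (j12709_hfsp_toP K m))
    (((sp V k I).restrictScalars k).comap (j12709_hfsp_toP k m)) (by
      intro f
      rw [Submodule.mem_comap, Submodule.restrictScalars_mem, mem_sp_hom hk hI (j12709_hfsp_hom k m f)]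
      constructor
      · rintro ⟨F, hF, h1, h2⟩
        refine ⟨fun d => MvPolynomial.coeff d.1 F, ?_, ?_⟩
        · rw [Submodule.mem_comap, Submodule.restrictScalars_mem, ← j12709_hfsp_map,
            j12709_hfsp_surj V m hF]
          exact h1
        · apply j12709_hfsp_inj k m
          rw [← j12709_hfsp_map, j12709_hfsp_surj V m hF, h2]
      · rintro ⟨c, h1, h2⟩
        rw [Submodule.mem_comap, Submodule.restrictScalars_mem, ← j12709_hfsp_map] at h1
        refine ⟨j12709_hfsp_toP V m c, j12709_hfsp_hom V m c, h1, ?_⟩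
        rw [j12709_hfsp_map, h2])
  unfold hf
  rw [j12709_hfsp_finrank_dg, j12709_hfsp_finrank_dg, h, j12709_hfsp_finrank_hom, j12709_hfsp_finrank_hom]

lemma j12712_sp3_form1 {R : Type} [CommRing R] {F : S R} (hF : F.IsHomogeneous 1) :
    ∃ c : Fin 4 → R, F = C (c 0) * X 0 + C (c 1) * X 1 + C (c 2) * X 2 + C (c 3) * X 3 := by
  have h1 : F ∈ homogeneousSubmodule (Fin 4) R 1 := hF
  rw [homogeneousSubmodule_one_eq_span_X] at h1
  obtain ⟨c, hc⟩ := (Submodule.mem_span_range_iff_exists_fun R).mp h1
  refine ⟨c, ?_⟩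
  rw [← hc, Fin.sum_univ_four]
  simp [MvPolynomial.smul_eq_C_mul]

lemma j12712_sp3_lin2_hom {k : Type} [Field k] (A : M2 k) : (lin2 A).IsHomogeneous 1 := by
  unfold lin2
  exact (isHomogeneous_X _ _).sub ((isHomogeneous_C_mul_X _ _).add (isHomogeneous_C_mul_X _ _))

lemma j12712_sp3_lin3_hom {k : Type} [Field k] (A : M2 k) : (lin3 A).IsHomogeneous 1 := by
  unfold lin3
  exact (isHomogeneous_X _ _).sub ((isHomogeneous_C_mul_X _ _).add (isHomogeneous_C_mul_X _ _))

lemma j12712_sp3_lin2_mem {k : Type} [Field k] (A : M2 k) : lin2 A ∈ lineI A := by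
  rw [lineI_eq_span]
  exact Ideal.subset_span (by simp)

lemma j12712_sp3_lin3_mem {k : Type} [Field k] (A : M2 k) : lin3 A ∈ lineI A := by
  rw [lineI_eq_span]
  exact Ideal.subset_span (by simp)

lemma j12712_sp3_deg1 (hk : Function.Surjective (algebraMap V k)) {L : M2 K} {A : M2 k}
    (h : ∀ F : S V, F.IsHomogeneous 1 → MvPolynomial.map (algebraMap V K) F ∈ lineI L →
      MvPolynomial.map (algebraMap V k) F ∈ lineI A) :
    lin2 A ∈ sp V k (lineI L) ∧ lin3 A ∈ sp V k (lineI L) := by
  have hle : dg (sp V k (lineI L)) 1 ≤ dg (lineI A) 1 := by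
    rintro f ⟨hf1, hf2⟩
    refine ⟨?_, hf2⟩
    obtain ⟨F, hF1, hF2, hF3⟩ := (mem_sp_hom hk (lineI_isHom L) hf2).mp hf1
    have := h F hF1 hF2
    rw [hF3] at this
    exact this
  have heq : dg (sp V k (lineI L)) 1 = dg (lineI A) 1 := by
    apply Submodule.eq_of_le_of_finrank_eq hle
    have e1 := hf_add (sp V k (lineI L)) 1
    have e2 := hf_add (lineI A) 1
    rw [hf_sp hk (lineI_isHom L), hf_lineI] at e1
    rw [hf_lineI] at e2
    omega
  have m2 : lin2 A ∈ dg (lineI A) 1 := ⟨j12712_sp3_lin2_mem A, j12712_sp3_lin2_hom A⟩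
  have m3 : lin3 A ∈ dg (lineI A) 1 := ⟨j12712_sp3_lin3_mem A, j12712_sp3_lin3_hom A⟩
  rw [← heq] at m2 m3
  exact ⟨m2.1, m3.1⟩

/-- an element not in the ideal of a line is, up to a scalar, a polynomial over `V` -/
lemma exists_lift_not_mem (hk : Function.Surjective (algebraMap V k)) {L : M2 K} {A : M2 k}
    (h : ¬ sp V k (lineI L) ≤ lineI A) :
    ∃ F : S V, F.IsHomogeneous 1 ∧ MvPolynomial.map (algebraMap V K) F ∈ lineI L ∧
      MvPolynomial.map (algebraMap V k) F ∉ lineI A := by
  by_contra hne
  push Not at hne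
  obtain ⟨m2, m3⟩ := j12712_sp3_deg1 hk hne
  have hle : lineI A ≤ sp V k (lineI L) := by
    rw [lineI_eq_span, Ideal.span_le]
    rintro x (rfl | rfl)
    · exact m2
    · exact m3
  apply h
  apply le_of_hom (sp_isHom hk (lineI_isHom L))
  intro n F hF hF1
  by_contra hF2
  have := hf_lt_of_mem (I := lineI A) (J := sp V k (lineI L)) hle hF hF1 hF2
  rw [hf_sp hk (lineI_isHom L), hf_lineI, hf_lineI] at this
  omega

lemma j12712_sp3_unit {D : V} (hD : algebraMap V k D = 1) : IsUnit D := by
  rcases IsLocalRing.isUnit_or_isUnit_one_sub_self D with h | h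
  · exact h
  · exfalso
    have := h.map (algebraMap V k)
    rw [map_sub, hD, map_one, sub_self] at this
    exact not_isUnit_zero this

lemma j12712_sp3_rho_zero (L : M2 K) (c : Fin 4 → K)
    (h : C (c 0) * X 0 + C (c 1) * X 1 + C (c 2) * X 2 + C (c 3) * X 3 ∈ lineI L) :
    c 0 + c 2 * L 0 0 + c 3 * L 1 0 = 0 ∧ c 1 + c 2 * L 0 1 + c 3 * L 1 1 = 0 := by
  have h1 : rho L (C (c 0) * X 0 + C (c 1) * X 1 + C (c 2) * X 2 + C (c 3) * X 3) = 0 := h
  unfold rho at h1
  simp only [map_add, map_mul, aeval_X, algHom_C, Matrix.cons_val_zero, Matrix.cons_val_one,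
    Matrix.cons_val, algebraMap_eq] at h1
  have e1 := congrArg (eval ![1, 0]) h1
  have e2 := congrArg (eval ![0, 1]) h1
  simp at e1 e2
  exact ⟨by linear_combination e1, by linear_combination e2⟩

/-- lines specialising to a line in graph position are defined over `V` -/
lemma line_lift (hk : Function.Surjective (algebraMap V k)) {L : M2 K} {A : M2 k}
    (h : sp V k (lineI L) ≤ lineI A) :
    ∃ L' : M2 V, L'.map (algebraMap V K) = L ∧ L'.map (algebraMap V k) = A := by
  obtain ⟨m2, m3⟩ := j12712_sp3_deg1 (V := V) (L := L) (A := A) hk (fun F _ hF2 =>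
    h ((mem_sp hk).mpr ⟨F, hF2, rfl⟩))
  obtain ⟨F, hF1, hF2, hF3⟩ := (mem_sp_hom hk (lineI_isHom L) (j12712_sp3_lin2_hom A)).mp m2
  obtain ⟨G, hG1, hG2, hG3⟩ := (mem_sp_hom hk (lineI_isHom L) (j12712_sp3_lin3_hom A)).mp m3
  obtain ⟨u, rfl⟩ := j12712_sp3_form1 hF1
  obtain ⟨w, rfl⟩ := j12712_sp3_form1 hG1
  simp only [map_add, map_mul, map_X, map_C] at hF2 hF3 hG2 hG3
  obtain ⟨a1, a2⟩ := j12712_sp3_rho_zero L (fun i => algebraMap V K (u i)) hF2
  obtain ⟨b1, b2⟩ := j12712_sp3_rho_zero L (fun i => algebraMap V K (w i)) hG2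
  have u0 := congrArg (eval ![1, 0, 0, 0]) hF3
  have u1 := congrArg (eval ![0, 1, 0, 0]) hF3
  have u2 := congrArg (eval ![0, 0, 1, 0]) hF3
  have u3 := congrArg (eval ![0, 0, 0, 1]) hF3
  have w0 := congrArg (eval ![1, 0, 0, 0]) hG3
  have w1 := congrArg (eval ![0, 1, 0, 0]) hG3
  have w2 := congrArg (eval ![0, 0, 1, 0]) hG3
  have w3 := congrArg (eval ![0, 0, 0, 1]) hG3
  simp [lin2, lin3] at u0 u1 u2 u3 w0 w1 w2 w3
  have hD : algebraMap V k (u 2 * w 3 - u 3 * w 2) = 1 := by
    rw [map_sub, map_mul, map_mul, u2, u3, w2, w3]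
    ring
  obtain ⟨D, hDu⟩ := j12712_sp3_unit hD
  have hDinv : (D : V) * ((D⁻¹ : Vˣ) : V) = 1 := Units.mul_inv D
  set E : V := ((D⁻¹ : Vˣ) : V) with hE
  have hDK : (algebraMap V K (u 2) * algebraMap V K (w 3) -
      algebraMap V K (u 3) * algebraMap V K (w 2)) * algebraMap V K E = 1 := by
    rw [← map_mul, ← map_mul, ← map_sub, ← map_mul, ← hDu, hDinv, map_one]
  have hEk : algebraMap V k E = 1 := by
    have := congrArg (algebraMap V k) hDinv
    rw [map_mul, hDu, hD, one_mul, map_one] at this
    exact this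
  refine ⟨!![(u 3 * w 0 - u 0 * w 3) * E, (u 3 * w 1 - u 1 * w 3) * E;
    (u 0 * w 2 - u 2 * w 0) * E, (u 1 * w 2 - u 2 * w 1) * E], ?_, ?_⟩
  · ext i j
    fin_cases i <;> fin_cases j <;> simp only [Matrix.map_apply, Matrix.of_apply,
      Matrix.cons_val_zero, Matrix.cons_val_one, Fin.zero_eta, Fin.mk_one, map_mul, map_sub,
      Fin.isValue, Matrix.cons_val]
    · linear_combination (L 0 0) * hDK - algebraMap V K (w 3) * algebraMap V K E * a1 +
        algebraMap V K (u 3) * algebraMap V K E * b1
    · linear_combination (L 0 1) * hDK - algebraMap V K (w 3) * algebraMap V K E * a2 +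
        algebraMap V K (u 3) * algebraMap V K E * b2
    · linear_combination (L 1 0) * hDK + algebraMap V K (w 2) * algebraMap V K E * a1 -
        algebraMap V K (u 2) * algebraMap V K E * b1
    · linear_combination (L 1 1) * hDK + algebraMap V K (w 2) * algebraMap V K E * a2 -
        algebraMap V K (u 2) * algebraMap V K E * b2
  · ext i j
    fin_cases i <;> fin_cases j <;> simp only [Matrix.map_apply, Matrix.of_apply,
      Matrix.cons_val_zero, Matrix.cons_val_one, Fin.zero_eta, Fin.mk_one, map_mul, map_sub,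
      Fin.isValue, Matrix.cons_val, u0, u1, u2, u3, w0, w1, w2, w3, hEk] <;> ring

/-- restriction over a ring -/
noncomputable def j12712_sp3_rho {R : Type} [CommRing R] (L : M2 R) : S R →ₐ[R] A2 R :=
  aeval ![X 0, X 1, C (L 0 0) * X 0 + C (L 0 1) * X 1, C (L 1 0) * X 0 + C (L 1 1) * X 1]

lemma j12712_sp3_rho_map {R : Type} [CommRing R] {K' : Type} [Field K'] (φ : R →+* K') (L : M2 R)
    (F : S R) : rho (L.map φ) (MvPolynomial.map φ F) = MvPolynomial.map φ (j12712_sp3_rho L F) := by
  have key : ((rho (L.map φ) : S K' →+* A2 K').comp (MvPolynomial.map φ)) =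
      (MvPolynomial.map φ).comp (j12712_sp3_rho L : S R →+* A2 R) := by
    apply MvPolynomial.ringHom_ext
    · intro r
      simp [rho, j12712_sp3_rho]
    · intro i
      fin_cases i <;> simp [rho, j12712_sp3_rho]
  exact congrArg (fun ψ => ψ F) key

/-- a line over `V` specialises to its reduction -/
lemma sp_line (hk : Function.Surjective (algebraMap V k)) (L : M2 V) :
    sp V k (lineI (L.map (algebraMap V K))) ≤ lineI (L.map (algebraMap V k)) := by
  intro f hf
  obtain ⟨F, hF1, rfl⟩ := (mem_sp hk).mp hf
  have h1 : rho (L.map (algebraMap V K)) (MvPolynomial.map (algebraMap V K) F) = 0 := hF1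
  rw [j12712_sp3_rho_map] at h1
  have h2 : j12712_sp3_rho L F = 0 := by
    apply MvPolynomial.map_injective (algebraMap V K) (IsFractionRing.injective V K)
    rw [h1, map_zero]
  change rho (L.map (algebraMap V k)) (MvPolynomial.map (algebraMap V k) F) = 0
  rw [j12712_sp3_rho_map, h2, map_zero]

end sp


end Pool.Agent.Helper924.HS
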