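import Mathlib
import Pool.Agent.Helper924.HS.SchDefs
import Pool.Agent.Helper924.HS.Basic
import Pool.Agent.Helper924.HS.Sp
import Pool.Agent.Helper924.HS.EqHigh

set_option autoImplicit false

open CategoryTheory CategoryTheory.Limits AlgebraicGeometry MvPolynomial

namespace Pool.Agent.Helper924.HS

section geom


/-- Specialisations to a rational point are dominated by valuation rings. -/
lemma exists_valuation {X : Scheme.{0}} {F0 : Type} [Field F0]
    (s : X ⟶ Spec (CommRingCat.of F0)) (x : Spec (CommRingCat.of F0) ⟶ X) (hx : x ≫ s = 𝟙 _)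
    {K : Type} [Field K] (y : Spec (CommRingCat.of K) ⟶ X)
    (h : y (⟨⊥, Ideal.isPrime_bot⟩ : PrimeSpectrum K) ⤳
      x (⟨⊥, Ideal.isPrime_bot⟩ : PrimeSpectrum F0)) :
    ∃ (V : ValuationSubring K) (φ : Spec (CommRingCat.of V) ⟶ X) (i : F0 →+* V),
      Spec.map (CommRingCat.ofHom (algebraMap V K)) ≫ φ = y ∧
      φ ≫ s = Spec.map (CommRingCat.ofHom i) ∧
      Spec.map (CommRingCat.ofHom (IsLocalRing.residue V)) ≫ φ =
        Spec.map (CommRingCat.ofHom ((IsLocalRing.residue V).comp i)) ≫ x := by
  classical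
  have hK : (⟨⊥, Ideal.isPrime_bot⟩ : PrimeSpectrum K) = IsLocalRing.closedPoint K :=
    Subsingleton.elim _ _
  have hF : (⟨⊥, Ideal.isPrime_bot⟩ : PrimeSpectrum F0) = IsLocalRing.closedPoint F0 :=
    Subsingleton.elim _ _
  rw [hK, hF] at h
  obtain ⟨V, hV, hloc⟩ := IsLocalRing.exists_factor_valuationRing
    (X.presheaf.stalkSpecializes h ≫ Scheme.stalkClosedPointTo y).hom
  set ψ' : X.presheaf.stalk (x (IsLocalRing.closedPoint F0)) →+* V :=
    (X.presheaf.stalkSpecializes h ≫ Scheme.stalkClosedPointTo y).hom.codRestrict V.toSubring hV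
    with hψ'
  let φ : Spec (CommRingCat.of V) ⟶ X :=
    Spec.map (CommRingCat.ofHom ψ') ≫ X.fromSpecStalk (x (IsLocalRing.closedPoint F0))
  let i : F0 →+* V := (Spec.preimage (φ ≫ s)).hom
  have hi : φ ≫ s = Spec.map (CommRingCat.ofHom i) := by
    simp [i]
  let j : CommRingCat.of F0 ⟶ X.presheaf.stalk (x (IsLocalRing.closedPoint F0)) :=
    Spec.preimage (X.fromSpecStalk (x (IsLocalRing.closedPoint F0)) ≫ s)
  have hj : Spec.map j = X.fromSpecStalk (x (IsLocalRing.closedPoint F0)) ≫ s := by
    simp [j]
  have hja : j ≫ Scheme.stalkClosedPointTo x = 𝟙 _ := by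
    apply Spec.map_injective
    rw [Spec.map_comp, hj, Scheme.Spec_stalkClosedPointTo_fromSpecStalk_assoc, hx, Spec.map_id]
  have hij : CommRingCat.ofHom i = j ≫ CommRingCat.ofHom ψ' := by
    apply Spec.map_injective
    rw [← hi, Spec.map_comp, hj]
    exact Category.assoc _ _ _
  refine ⟨V, φ, i, ?_, hi, ?_⟩
  · have h1 : CommRingCat.ofHom ψ' ≫ CommRingCat.ofHom (algebraMap V K) =
        X.presheaf.stalkSpecializes h ≫ Scheme.stalkClosedPointTo y := by
      ext o
      rfl
    simp only [φ]
    rw [← Category.assoc, ← Spec.map_comp, h1, Spec.map_comp, Category.assoc,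
      Scheme.SpecMap_stalkSpecializes_fromSpecStalk, Scheme.Spec_stalkClosedPointTo_fromSpecStalk]
  · have h2 : CommRingCat.ofHom ψ' ≫ CommRingCat.ofHom (IsLocalRing.residue V) =
        Scheme.stalkClosedPointTo x ≫ CommRingCat.ofHom ((IsLocalRing.residue V).comp i) := by
      ext o
      have ha : (Scheme.stalkClosedPointTo x).hom (o - j.hom ((Scheme.stalkClosedPointTo x).hom o))
          = 0 := by
        rw [map_sub]
        have := congrArg (fun f => f.hom ((Scheme.stalkClosedPointTo x).hom o)) hja
        simp only [CommRingCat.hom_comp, RingHom.comp_apply, CommRingCat.hom_id, RingHom.id_apply]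
          at this
        rw [this, sub_self]
      have hnu : ¬ IsUnit (o - j.hom ((Scheme.stalkClosedPointTo x).hom o)) := by
        intro hu
        have := hu.map (Scheme.stalkClosedPointTo x).hom
        rw [ha] at this
        exact not_isUnit_zero this
      have hnv : ¬ IsUnit (ψ' (o - j.hom ((Scheme.stalkClosedPointTo x).hom o))) := by
        intro hu
        exact hnu (hloc.map_nonunit _ hu)
      have hr : IsLocalRing.residue V (ψ' (o - j.hom ((Scheme.stalkClosedPointTo x).hom o))) = 0 := by
        rw [IsLocalRing.residue_eq_zero_iff]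
        exact hnv
      rw [map_sub, map_sub, sub_eq_zero] at hr
      have h3 := congrArg (fun f => f.hom ((Scheme.stalkClosedPointTo x).hom o)) hij
      simp only [CommRingCat.hom_comp, CommRingCat.hom_ofHom, RingHom.comp_apply] at h3 ⊢
      exact hr.trans (congrArg (IsLocalRing.residue V) h3.symm)
    simp only [φ]
    rw [← Category.assoc, ← Spec.map_comp, h2, Spec.map_comp, Category.assoc,
      Scheme.Spec_stalkClosedPointTo_fromSpecStalk]

/-- The Galois action on points. -/
lemma galAct_ptOf {d : ℕ} {g : ℤ} (𝓗 : HilbP3 d g) {K : Type} [Field K] [Algebra ℚ K]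
    (σ : K ≃ₐ[ℚ] K) (f f' : PointsOver 𝓗.H 𝓗.s K)
    (h : f'.1 = Spec.map (CommRingCat.ofHom (σ : K →+* K)) ≫ f.1) :
    galAct 𝓗 σ (ptOf 𝓗 f) = ptOf 𝓗 f' := by
  have h1 : secOf 𝓗 f ≫ galAct 𝓗 σ =
      Spec.map (CommRingCat.ofHom (σ.symm : K →+* K)) ≫ secOf 𝓗 f' := by
    unfold secOf galAct
    apply pullback.hom_ext
    · rw [Category.assoc, pullback.map, pullback.lift_fst, ← Category.assoc, pullback.lift_fst,
        Category.comp_id, Category.assoc, pullback.lift_fst, h, ← Category.assoc,
        ← Spec.map_comp, ← CommRingCat.ofHom_comp]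
      have h2 : ((σ.symm : K →+* K).comp (σ : K →+* K)) = RingHom.id K := by
        ext x
        simp
      rw [h2]
      have h3 : Spec.map (CommRingCat.ofHom (RingHom.id K)) = 𝟙 _ := Spec.map_id _
      rw [h3, Category.id_comp]
    · rw [Category.assoc, pullback.map, pullback.lift_snd, ← Category.assoc, pullback.lift_snd,
        Category.id_comp, Category.assoc, pullback.lift_snd, Category.comp_id]
  unfold ptOf
  have h2 : galAct 𝓗 σ (secOf 𝓗 f (⟨⊥, Ideal.isPrime_bot⟩ : PrimeSpectrum K)) =
      (secOf 𝓗 f ≫ galAct 𝓗 σ) (⟨⊥, Ideal.isPrime_bot⟩ : PrimeSpectrum K) := by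
    rw [Scheme.Hom.comp_apply]
  rw [h2, h1, Scheme.Hom.comp_apply]
  congr 1
  apply PrimeSpectrum.ext
  have h3 : ∀ y : PrimeSpectrum K, y.asIdeal = ⊥ := fun y =>
    (Ideal.eq_bot_or_top y.asIdeal).resolve_right y.isPrime.ne_top
  rw [h3]

end geom

section alg

lemma mem_satur {R : Type} [CommRing R] {I : Ideal (S R)} {F : S R} :
    F ∈ satur R I ↔ ∃ N : ℕ, ∀ G ∈ irr R ^ N, G * F ∈ I := by
  have hdir : Directed (· ≤ ·) (fun N : ℕ => I.colon ((irr R ^ N : Ideal (S R)) : Set (S R))) := by
    apply Monotone.directed_le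
    intro N M hNM
    apply Submodule.colon_mono le_rfl
    exact Ideal.pow_le_pow_right hNM
  unfold satur
  rw [Submodule.mem_iSup_of_directed _ hdir]
  constructor
  · rintro ⟨N, hN⟩
    refine ⟨N, fun G hG => ?_⟩
    have h1 := Submodule.mem_colon.1 hN G hG
    rwa [smul_eq_mul, mul_comm] at h1
  · rintro ⟨N, hN⟩
    refine ⟨N, Submodule.mem_colon.2 fun G hG => ?_⟩
    rw [smul_eq_mul, mul_comm]
    exact hN G hG

lemma satur_eq_self {R : Type} [CommRing R] {I : Ideal (S R)}
    (h : ∀ F : S R, (∀ i, X i * F ∈ I) → F ∈ I) : satur R I = I := by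
  have key : ∀ N : ℕ, ∀ F : S R, (∀ G ∈ irr R ^ N, G * F ∈ I) → F ∈ I := by
    intro N
    induction N with
    | zero =>
      intro F hF
      have h1 := hF 1 (by rw [pow_zero, Ideal.one_eq_top]; exact Submodule.mem_top)
      rwa [one_mul] at h1
    | succ N ih =>
      intro F hF
      apply h
      intro i
      apply ih
      intro G hG
      have h1 : G * X i ∈ irr R ^ (N + 1) := by
        rw [pow_succ]
        exact Ideal.mul_mem_mul hG (Ideal.subset_span ⟨i, rfl⟩)
      have h2 := hF _ h1
      rwa [mul_assoc] at h2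
  apply le_antisymm
  · intro F hF
    obtain ⟨N, hN⟩ := mem_satur.1 hF
    exact key N F hN
  · intro F hF
    exact mem_satur.2 ⟨0, fun G _ => I.mul_mem_left G hF⟩

lemma j13475_satur_isHom_X {R : Type} [CommRing R] (i : Fin 4) (n : ℕ) (F : S R) :
    homogeneousComponent (n + 1) (X i * F) = X i * homogeneousComponent n F := by
  induction F using MvPolynomial.induction_on' with
  | monomial d c =>
    have h1 : (monomial d c : S R).IsHomogeneous d.degree := isHomogeneous_monomial c rfl
    have h2 : (X i * monomial d c : S R).IsHomogeneous (1 + d.degree) := (isHomogeneous_X R i).mul h1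
    rw [homogeneousComponent_of_mem h2, homogeneousComponent_of_mem h1]
    by_cases hn : n = d.degree
    · rw [if_pos hn, if_pos (by omega)]
    · rw [if_neg hn, if_neg (by omega), mul_zero]
  | add p q hp hq => rw [mul_add, map_add, map_add, mul_add, hp, hq]

lemma satur_isHom {R : Type} [CommRing R] {I : Ideal (S R)} (hI : IsHom I) :
    IsHom (satur R I) := by
  have key : ∀ N : ℕ, ∀ F : S R, (∀ G ∈ irr R ^ N, G * F ∈ I) →
      ∀ n, ∀ G ∈ irr R ^ N, G * homogeneousComponent n F ∈ I := by
    intro N
    induction N with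
    | zero =>
      intro F hF n G _
      have h1 := hF 1 (by rw [pow_zero, Ideal.one_eq_top]; exact Submodule.mem_top)
      rw [one_mul] at h1
      exact I.mul_mem_left G (hI F h1 n)
    | succ N ih =>
      intro F hF n G hG
      rw [pow_succ] at hG
      have hX : ∀ a ∈ irr R ^ N, ∀ i, a * (X i * homogeneousComponent n F) ∈ I := by
        intro a ha i
        rw [← j13475_satur_isHom_X]
        apply ih (X i * F) _ (n + 1) a ha
        intro G' hG'
        have h1 : G' * X i ∈ irr R ^ (N + 1) := by
          rw [pow_succ]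
          exact Ideal.mul_mem_mul hG' (Ideal.subset_span ⟨i, rfl⟩)
        have h2 := hF _ h1
        rwa [mul_assoc] at h2
      have hb : ∀ b ∈ irr R, ∀ a ∈ irr R ^ N, a * (b * homogeneousComponent n F) ∈ I := by
        intro b hb
        unfold irr at hb
        induction hb using Submodule.span_induction with
        | mem x hx =>
          obtain ⟨i, rfl⟩ := hx
          intro a ha
          exact hX a ha i
        | zero =>
          intro a _
          rw [zero_mul, mul_zero]
          exact I.zero_mem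
        | add x y _ _ hx hy =>
          intro a ha
          rw [add_mul, mul_add]
          exact I.add_mem (hx a ha) (hy a ha)
        | smul r x _ hx =>
          intro a ha
          have e : a * (r • x * homogeneousComponent n F) =
              r * (a * (x * homogeneousComponent n F)) := by
            rw [smul_eq_mul]; ring
          rw [e]
          exact I.mul_mem_left r (hx a ha)
      refine Submodule.mul_induction_on hG (fun a ha b hb' => ?_) (fun x y hx hy => ?_)
      · rw [mul_assoc]
        exact hb b hb' a ha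
      · rw [add_mul]
        exact I.add_mem hx hy
  intro F hF n
  obtain ⟨N, hN⟩ := mem_satur.1 hF
  exact mem_satur.2 ⟨N, key N F hN n⟩

lemma j13475_map_isHom_comp {R R' : Type} [CommRing R] [CommRing R'] (φ : R →+* R') (F : S R) (n : ℕ) :
    homogeneousComponent n (MvPolynomial.map (σ := Fin 4) φ F) =
      MvPolynomial.map (σ := Fin 4) φ (homogeneousComponent n F) := by
  ext d
  rw [coeff_homogeneousComponent, coeff_map, coeff_map, coeff_homogeneousComponent]
  split_ifs
  · rfl
  · rw [map_zero]

lemma j13475_map_isHom_mul {R : Type} [CommRing R] (J : Ideal (S R)) (x : S R)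
    (hx : ∀ n, homogeneousComponent n x ∈ J) (a : S R) (n : ℕ) :
    homogeneousComponent n (a * x) ∈ J := by
  have e : a * x = ∑ i ∈ Finset.range (a.totalDegree + 1), ∑ j ∈ Finset.range (x.totalDegree + 1),
      homogeneousComponent i a * homogeneousComponent j x := by
    rw [← Finset.sum_mul_sum, sum_homogeneousComponent, sum_homogeneousComponent]
  rw [e, map_sum]
  apply Ideal.sum_mem
  intro i _
  rw [map_sum]
  apply Ideal.sum_mem
  intro j _
  have h1 : (homogeneousComponent i a * homogeneousComponent j x).IsHomogeneous (i + j) :=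
    (homogeneousComponent_isHomogeneous i a).mul (homogeneousComponent_isHomogeneous j x)
  rw [homogeneousComponent_of_mem h1]
  split_ifs
  · exact J.mul_mem_left _ (hx j)
  · exact J.zero_mem

lemma map_isHom {R R' : Type} [CommRing R] [CommRing R'] (φ : R →+* R') {I : Ideal (S R)}
    (hI : IsHom I) : IsHom (I.map (MvPolynomial.map (σ := Fin 4) φ)) := by
  intro F hF
  unfold Ideal.map at hF
  induction hF using Submodule.span_induction with
  | mem x hx =>
    obtain ⟨f, hf, rfl⟩ := hx
    intro n
    rw [j13475_map_isHom_comp]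
    exact Ideal.mem_map_of_mem _ (hI f hf n)
  | zero =>
    intro n
    rw [map_zero]
    exact Ideal.zero_mem _
  | add x y _ _ hx hy =>
    intro n
    rw [map_add]
    exact Ideal.add_mem _ (hx n) (hy n)
  | smul r x _ hx =>
    intro n
    rw [smul_eq_mul]
    exact j13475_map_isHom_mul _ x hx r n

open TensorProduct in
lemma j13489_isBaseChange_quot {R S M₂ M₃ N₂ N₃ : Type} [CommRing R] [CommRing S] [Algebra R S]
    [AddCommGroup M₂] [AddCommGroup M₃] [AddCommGroup N₂] [AddCommGroup N₃]
    [Module R M₂] [Module R M₃] [Module R N₂] [Module R N₃] [Module S N₂] [Module S N₃]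
    [IsScalarTower R S N₂] [IsScalarTower R S N₃]
    (h₂ : M₂ →ₗ[R] N₂) (h₃ : M₃ →ₗ[R] N₃) (g : M₂ →ₗ[R] M₃) (g' : N₂ →ₗ[S] N₃)
    (comm : h₃.comp g = (g'.restrictScalars R).comp h₂) (isb₂ : IsBaseChange S h₂)
    (hg : Function.Surjective g) (hg' : Function.Surjective g')
    (hker : ∀ x, g' x = 0 → x ∈ Submodule.span S (h₂ '' {y | g y = 0})) :
    IsBaseChange S h₃ := by
  let N := LinearMap.ker g
  let f' : S ⊗[R] N →ₗ[S] N₂ := (TensorProduct.isBaseChange R N S).lift (h₂ ∘ₗ N.subtype)
  have hf' : ∀ (c : S) (y : N), f' (c ⊗ₜ[R] y) = c • h₂ y := by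
    intro c y
    have h2 := (TensorProduct.isBaseChange R N S).lift_eq (h₂ ∘ₗ N.subtype) y
    have h3 : (c ⊗ₜ[R] y : S ⊗[R] N) = c • ((1 : S) ⊗ₜ[R] y) := by
      rw [TensorProduct.smul_tmul', smul_eq_mul, mul_one]
    rw [h3, map_smul]
    exact congrArg (fun w => c • w) h2
  have hcomm : ∀ y, h₃ (g y) = g' (h₂ y) := fun y => congrArg (fun F => F y) comm
  refine IsBaseChange.of_right_exact (f := N.subtype) (g := g) (f' := f') (g' := g') S
    (TensorProduct.mk R S N 1) h₂ h₃ ?_ comm (TensorProduct.isBaseChange R N S) isb₂ ?_ hg ?_ hg'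
  · exact ((TensorProduct.isBaseChange R N S).lift_comp (h₂ ∘ₗ N.subtype)).symm
  · intro x
    simp [N]
  · intro x
    constructor
    · intro h
      have key : ∀ y ∈ Submodule.span S (h₂ '' {y | g y = 0}), ∃ z, f' z = y := by
        intro y hy
        induction hy using Submodule.span_induction with
        | mem y hy =>
          obtain ⟨F, h1, rfl⟩ := hy
          refine ⟨1 ⊗ₜ ⟨F, h1⟩, ?_⟩
          rw [hf', one_smul]
        | zero => exact ⟨0, by simp⟩
        | add a b _ _ ha hb =>
          obtain ⟨z, hz⟩ := ha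
          obtain ⟨w, hw⟩ := hb
          exact ⟨z + w, by rw [map_add, hz, hw]⟩
        | smul c a _ ha =>
          obtain ⟨z, hz⟩ := ha
          exact ⟨c • z, by rw [map_smul, hz]⟩
      exact key x (hker x h)
    · rintro ⟨z, rfl⟩
      induction z using TensorProduct.induction_on with
      | zero => simp
      | add a b ha hb => rw [map_add, map_add, ha, hb, add_zero]
      | tmul c y =>
        rw [hf', map_smul, ← hcomm]
        have : g y = 0 := y.2
        rw [this, map_zero, smul_zero]

section bc
variable {R : Type} [CommRing R] {k : Type} [Field k]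

lemma j13489_hcomp_map (φ : R →+* k) (m : ℕ) (F : S R) :
    homogeneousComponent m (MvPolynomial.map φ F) = MvPolynomial.map φ (homogeneousComponent m F) := by
  ext d
  rw [coeff_homogeneousComponent, coeff_map, coeff_map, coeff_homogeneousComponent]
  split_ifs <;> simp

/-- the span of the images of the forms of degree m in the ideal -/
noncomputable def j13489_imSpan (φ : R →+* k) (I : Ideal (S R)) (m : ℕ) : Submodule k (S k) :=
  Submodule.span k ((MvPolynomial.map φ : S R → S k) '' {F | F ∈ I ∧ F.IsHomogeneous m})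

lemma j13489_imSpan_hom (φ : R →+* k) (I : Ideal (S R)) (m : ℕ) {x : S k} (hx : x ∈ j13489_imSpan φ I m) :
    x.IsHomogeneous m := by
  have : j13489_imSpan φ I m ≤ homogeneousSubmodule (Fin 4) k m := by
    refine Submodule.span_le.2 ?_
    rintro _ ⟨F, ⟨_, h⟩, rfl⟩
    exact h.map φ
  exact this hx

lemma j13489_X_mul_imSpan (φ : R →+* k) (I : Ideal (S R)) (m : ℕ) (i : Fin 4) {x : S k}
    (hx : x ∈ j13489_imSpan φ I m) : X i * x ∈ j13489_imSpan φ I (m + 1) := by
  induction hx using Submodule.span_induction with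
  | mem x hx =>
    obtain ⟨F, ⟨h1, h2⟩, rfl⟩ := hx
    refine Submodule.subset_span ⟨X i * F, ⟨I.mul_mem_left _ h1, ?_⟩, by simp⟩
    rw [add_comm]
    exact (isHomogeneous_X R i).mul h2
  | zero => simp
  | add x y _ _ hx hy => rw [mul_add]; exact Submodule.add_mem _ hx hy
  | smul a x _ hx => rw [mul_smul_comm]; exact Submodule.smul_mem _ _ hx

lemma j13489_hcomp_mem_imSpan (φ : R →+* k) {I : Ideal (S R)} (hI : IsHom I) {x : S k}
    (hx : x ∈ I.map (MvPolynomial.map (σ := Fin 4) φ)) :
    ∀ m, homogeneousComponent m x ∈ j13489_imSpan φ I m := by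
  refine Submodule.span_induction (p := fun x _ => ∀ m, homogeneousComponent m x ∈ j13489_imSpan φ I m)
    ?_ ?_ ?_ ?_ hx
  · rintro _ ⟨F, hF, rfl⟩ m
    rw [j13489_hcomp_map]
    exact Submodule.subset_span ⟨_, ⟨hI F hF m, homogeneousComponent_isHomogeneous m F⟩, rfl⟩
  · intro m; simp
  · intro x y _ _ hx hy m
    rw [map_add]; exact Submodule.add_mem _ (hx m) (hy m)
  · intro g x _ hx
    rw [smul_eq_mul]
    induction g using MvPolynomial.induction_on with
    | C a =>
      intro m
      rw [homogeneousComponent_C_mul, ← smul_eq_C_mul]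
      exact Submodule.smul_mem _ _ (hx m)
    | add p q hp hq =>
      intro m
      rw [add_mul, map_add]; exact Submodule.add_mem _ (hp m) (hq m)
    | mul_X p i hp =>
      intro m
      have e : p * X i * x = X i * (p * x) := by ring
      rw [e]
      generalize p * x = y at hp
      rw [← sum_homogeneousComponent y, Finset.mul_sum, map_sum]
      refine Submodule.sum_mem _ fun n _ => ?_
      have h1 : X i * homogeneousComponent n y ∈ j13489_imSpan φ I (n + 1) := j13489_X_mul_imSpan φ I n i (hp n)
      have h2 := j13489_imSpan_hom φ I (n + 1) h1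
      rw [homogeneousComponent_of_mem h2]
      split_ifs with h
      · rw [h]; exact h1
      · exact Submodule.zero_mem _

lemma j13489_mem_imSpan_iff (φ : R →+* k) {I : Ideal (S R)} (hI : IsHom I) {m : ℕ} {x : S k}
    (hxm : x.IsHomogeneous m) :
    x ∈ I.map (MvPolynomial.map (σ := Fin 4) φ) ↔ x ∈ j13489_imSpan φ I m := by
  constructor
  · intro hx
    have := j13489_hcomp_mem_imSpan φ hI hx m
    rwa [homogeneousComponent_eq_self hxm] at this
  · intro hx
    have : j13489_imSpan φ I m ≤ (I.map (MvPolynomial.map (σ := Fin 4) φ)).restrictScalars k := by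
      refine Submodule.span_le.2 ?_
      rintro _ ⟨F, ⟨h, _⟩, rfl⟩
      exact Ideal.mem_map_of_mem _ h
    exact this hx

lemma j13489_mono_hom {R : Type} [CommRing R] {m : ℕ} (d : {d : Fin 4 →₀ ℕ // d.degree = m}) :
    (monomial d.1 (1 : R)) ∈ homogeneousSubmodule (Fin 4) R m :=
  isHomogeneous_monomial _ d.2

/-- the monomial basis of the forms of degree m -/
noncomputable def j13489_hbasis (R : Type) [CommRing R] (m : ℕ) :
    Module.Basis {d : Fin 4 →₀ ℕ // d.degree = m} R (homogeneousSubmodule (Fin 4) R m) := by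
  refine Module.Basis.mk (v := fun d => (⟨monomial d.1 (1 : R), j13489_mono_hom d⟩ :
    homogeneousSubmodule (Fin 4) R m)) ?_ ?_
  · refine LinearIndependent.of_comp (Submodule.subtype _) ?_
    have h := (MvPolynomial.basisMonomials (Fin 4) R).linearIndependent.comp
      (fun d : {d : Fin 4 →₀ ℕ // d.degree = m} => d.1) Subtype.val_injective
    convert! h using 1
  · intro F _
    have h : F = ∑ d ∈ F.1.support.attach, (coeff d.1 F.1) • (⟨monomial d.1 (1 : R),
        isHomogeneous_monomial _ (F.2.degree_eq_sum_deg_support d.2).symm⟩ :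
        homogeneousSubmodule (Fin 4) R m) := by
      apply Subtype.ext
      rw [Submodule.coe_sum]
      simp only [Submodule.coe_smul, smul_monomial, smul_eq_mul, mul_one]
      rw [Finset.sum_attach F.1.support (fun d => monomial d (coeff d F.1))]
      exact (support_sum_monomial_coeff F.1).symm
    rw [h]
    refine Submodule.sum_mem _ fun d _ => Submodule.smul_mem _ _ (Submodule.subset_span ?_)
    exact ⟨⟨d.1, (F.2.degree_eq_sum_deg_support d.2).symm⟩, rfl⟩

lemma j13489_hbasis_apply (R : Type) [CommRing R] (m : ℕ) (d : {d : Fin 4 →₀ ℕ // d.degree = m}) :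
    j13489_hbasis R m d = ⟨monomial d.1 (1 : R), j13489_mono_hom d⟩ := by
  rw [j13489_hbasis, Module.Basis.mk_apply]

section alg2
variable [Algebra R k]

/-- the base change map on forms of degree m -/
noncomputable def j13489_bcHom (R k : Type) [CommRing R] [Field k] [Algebra R k] (m : ℕ) :
    homogeneousSubmodule (Fin 4) R m →ₗ[R] homogeneousSubmodule (Fin 4) k m where
  toFun F := ⟨MvPolynomial.map (algebraMap R k) F.1, F.2.map _⟩
  map_add' F G := by apply Subtype.ext; simp
  map_smul' r F := by
    apply Subtype.ext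
    ext d
    simp [Algebra.smul_def]

open TensorProduct in
lemma j13489_bcHom_isBaseChange (m : ℕ) : IsBaseChange k (j13489_bcHom R k m) := by
  let e : k ⊗[R] homogeneousSubmodule (Fin 4) R m ≃ₗ[k] homogeneousSubmodule (Fin 4) k m :=
    ((j13489_hbasis R m).baseChange k).equiv (j13489_hbasis k m) (Equiv.refl _)
  refine IsBaseChange.of_equiv e ?_
  have h : (e.restrictScalars R).toLinearMap ∘ₗ (TensorProduct.mk R k _ 1) = j13489_bcHom R k m := by
    refine (j13489_hbasis R m).ext fun d => ?_
    have h1 : e (((j13489_hbasis R m).baseChange k) d) = j13489_hbasis k m d := by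
      simp only [e, Module.Basis.equiv_apply, Equiv.refl_apply]
    rw [Module.Basis.baseChange_apply] at h1
    change e (1 ⊗ₜ[R] (j13489_hbasis R m d)) = _
    rw [h1, j13489_hbasis_apply, j13489_hbasis_apply]
    apply Subtype.ext
    simp [j13489_bcHom]
  intro x
  exact congrArg (fun f => f x) h

/-- the base change map on the graded pieces of the quotients -/
noncomputable def j13489_bcQuot (R k : Type) [CommRing R] [Field k] [Algebra R k] (I : Ideal (S R)) (m : ℕ) :
    grPart R I m →ₗ[R] grPart k (I.map (MvPolynomial.map (σ := Fin 4) (algebraMap R k))) m where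
  toFun x := ⟨Ideal.quotientMap (I.map (MvPolynomial.map (σ := Fin 4) (algebraMap R k)))
    (MvPolynomial.map (σ := Fin 4) (algebraMap R k)) Ideal.le_comap_map x.1, by
      obtain ⟨_, F, hF, rfl⟩ := x
      exact ⟨MvPolynomial.map (algebraMap R k) F, IsHomogeneous.map hF _, rfl⟩⟩
  map_add' F G := by apply Subtype.ext; simp
  map_smul' r x := by
    apply Subtype.ext
    obtain ⟨_, F, hF, rfl⟩ := x
    have h : MvPolynomial.map (algebraMap R k) (r • F) =
      r • MvPolynomial.map (algebraMap R k) F := by
      ext d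
      simp [Algebra.smul_def]
    change Ideal.Quotient.mk _ (MvPolynomial.map (algebraMap R k) (r • F)) =
      r • Ideal.Quotient.mk _ (MvPolynomial.map (algebraMap R k) F)
    rw [h]
    rfl

lemma j13489_bcQuot_isBaseChange {I : Ideal (S R)} (hI : IsHom I) (m : ℕ) :
    IsBaseChange k (j13489_bcQuot R k I m) := by
  refine j13489_isBaseChange_quot (j13489_bcHom R k m) (j13489_bcQuot R k I m)
    ((Ideal.Quotient.mkₐ R I).toLinearMap.submoduleMap (homogeneousSubmodule (Fin 4) R m))
    ((Ideal.Quotient.mkₐ k (I.map (MvPolynomial.map (σ := Fin 4)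
      (algebraMap R k)))).toLinearMap.submoduleMap (homogeneousSubmodule (Fin 4) k m))
    ?_ (j13489_bcHom_isBaseChange m) (LinearMap.submoduleMap_surjective _ _)
    (LinearMap.submoduleMap_surjective _ _) ?_
  · ext x : 1
    rfl
  · intro x hx
    have hx1 : x.1 ∈ I.map (MvPolynomial.map (σ := Fin 4) (algebraMap R k)) :=
      Ideal.Quotient.eq_zero_iff_mem.1 (congrArg Subtype.val hx)
    have hx2 := (j13489_mem_imSpan_iff (algebraMap R k) hI x.2).1 hx1
    have hle : j13489_imSpan (algebraMap R k) I m ≤
        (Submodule.span k ((j13489_bcHom R k m) '' {y | ((Ideal.Quotient.mkₐ R I).toLinearMap.submoduleMap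
          (homogeneousSubmodule (Fin 4) R m)) y = 0})).map (Submodule.subtype _) := by
      refine Submodule.span_le.2 ?_
      rintro _ ⟨F, ⟨h1, h2⟩, rfl⟩
      refine ⟨j13489_bcHom R k m ⟨F, h2⟩, Submodule.subset_span ⟨⟨F, h2⟩, ?_, rfl⟩, rfl⟩
      apply Subtype.ext
      exact Ideal.Quotient.eq_zero_iff_mem.2 h1
    obtain ⟨y, hy, hyx⟩ := hle hx2
    have : y = x := Subtype.ext hyx
    rw [← this]
    exact hy

end alg2

end bc

lemma j13489_grPart_finite (R : Type) [CommRing R] (I : Ideal (S R)) (m : ℕ) :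
    Module.Finite R (grPart R I m) :=
  Module.Finite.iff_fg.2 ((homogeneousSubmodule_fg (Fin 4) R m).map _)

lemma j13489_hf_eq_finrank {K : Type} [Field K] (I : Ideal (S K)) (m : ℕ) :
    hf I m = Module.finrank K (grPart K I m) := by
  have h := hf_ker (Ideal.Quotient.mkₐ K I) m
  have h2 : RingHom.ker (Ideal.Quotient.mkₐ K I) = I := Ideal.Quotient.mkₐ_ker K I
  rw [h2] at h
  exact h

/-- Base change of the Hilbert function to a field. -/
lemma hf_map_of_projective {R : Type} [CommRing R] {k : Type} [Field k] (φ : R →+* k)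
    {I : Ideal (S R)} (hI : IsHom I) {m : ℕ} (hproj : Module.Projective R (grPart R I m)) {P : ℤ}
    (hP : ∀ p : PrimeSpectrum R, (Module.rankAtStalk (R := R) (grPart R I m) p : ℤ) = P) :
    (hf (I.map (MvPolynomial.map (σ := Fin 4) φ)) m : ℤ) = P := by
  let _ : Algebra R k := φ.toAlgebra
  have hfin : Module.Finite R (grPart R I m) := j13489_grPart_finite R I m
  have hb := j13489_bcQuot_isBaseChange (k := k) hI m
  let p : PrimeSpectrum k := ⟨⊥, Ideal.isPrime_bot⟩
  have h1 := Module.rankAtStalk_isBaseChange hb p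
  rw [← hP (p.comap (algebraMap R k)), ← h1, j13489_hf_eq_finrank]
  have h2 := congrFun (Module.rankAtStalk_eq_finrank_of_free (R := k)
    (M := grPart k (I.map (MvPolynomial.map (σ := Fin 4) (algebraMap R k))) m)) p
  rw [h2]
  rfl

/-- the families over a field -/
lemma mem_HilbFam_field {k : Type} [Field k] {d : ℕ} {g : ℤ} {I : Ideal (S k)} :
    I ∈ HilbFam d g k ↔ IsHom I ∧ (∀ F : S k, (∀ i, X i * F ∈ I) → F ∈ I) ∧
      ∃ m0 : ℕ, ∀ m ≥ m0, (hf I m : ℤ) = d * m + 1 - g := by
  have key : ∀ m, ((Module.Projective k (grPart k I m) ∧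
      ∀ p : PrimeSpectrum k, (Module.rankAtStalk (R := k) (grPart k I m) p : ℤ) = d * m + 1 - g) ↔
      (hf I m : ℤ) = d * m + 1 - g) := by
    intro m
    have h2 := Module.rankAtStalk_eq_finrank_of_free (R := k) (M := grPart k I m)
    rw [h2]
    constructor
    · rintro ⟨_, h⟩
      rw [j13489_hf_eq_finrank, ← h ⟨⊥, Ideal.isPrime_bot⟩]
      rfl
    · intro h
      refine ⟨inferInstance, fun p => ?_⟩
      rw [← h, j13489_hf_eq_finrank]
      rfl
  constructor
  · rintro ⟨h1, h2, m0, h3⟩
    exact ⟨h1, h2, m0, fun m hm => (key m).1 (h3 m hm)⟩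
  · rintro ⟨h1, h2, m0, h3⟩
    exact ⟨h1, h2, m0, fun m hm => (key m).2 (h3 m hm)⟩

end alg


end Pool.Agent.Helper924.HS
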