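import Mathlib
import Pool.Agent.Helper924.HS.Sch
import Pool.Agent.Helper924.HS.Conf

set_option autoImplicit false

open MvPolynomial

namespace Pool.Agent.Helper924.HS

section eq
variable {k : Type} [Field k]

lemma eqHigh_of_le {I J : Ideal (S k)} (h : I ≤ J) (h2 : ∃ m0, ∀ m ≥ m0, hf I m = hf J m) :
    EqHigh I J := by
  obtain ⟨m0, hm0⟩ := h2
  refine ⟨m0, fun m hm F hF => ⟨fun h3 => h h3, fun h3 => ?_⟩⟩
  by_contra h4
  have := hf_lt_of_mem h hF h3 h4
  rw [hm0 m hm] at this
  exact lt_irrefl _ this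

lemma EqHigh.symm {I J : Ideal (S k)} (h : EqHigh I J) : EqHigh J I := by
  obtain ⟨m0, hm0⟩ := h
  exact ⟨m0, fun m hm F hF => (hm0 m hm F hF).symm⟩

lemma EqHigh.trans {I J L : Ideal (S k)} (h : EqHigh I J) (h' : EqHigh J L) : EqHigh I L := by
  obtain ⟨m0, hm0⟩ := h
  obtain ⟨m1, hm1⟩ := h'
  exact ⟨max m0 m1, fun m hm F hF => (hm0 m (le_trans (le_max_left _ _) hm) F hF).trans
    (hm1 m (le_trans (le_max_right _ _) hm) F hF)⟩

lemma le_satur {R : Type} [CommRing R] (I : Ideal (S R)) : I ≤ satur R I := by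
  intro F hF
  rw [mem_satur]
  exact ⟨0, fun G _ => I.mul_mem_left _ hF⟩

/-- a family over a field has the prescribed Hilbert function -/
lemma hf_of_mem {d : ℕ} {g : ℤ} {I : Ideal (S k)} (h : I ∈ HilbFam d g k) :
    ∃ m0 : ℕ, ∀ m ≥ m0, (hf I m : ℤ) = d * m + 1 - g := (mem_HilbFam_field.1 h).2.2

/-- base change of a family to a field, before saturation -/
lemma hf_map_of_mem {R : Type} [CommRing R] (φ : R →+* k) {d : ℕ} {g : ℤ} {I : Ideal (S R)}
    (h : I ∈ HilbFam d g R) :
    ∃ m0 : ℕ, ∀ m ≥ m0, (hf (I.map (MvPolynomial.map (σ := Fin 4) φ)) m : ℤ) =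
      d * m + 1 - g := by
  obtain ⟨h1, h2, m0, h3⟩ := h
  exact ⟨m0, fun m hm => hf_map_of_projective φ h1 (h3 m hm).1 (h3 m hm).2⟩

/-- base change of a family to a field: saturation changes nothing in large degrees -/
lemma eqHigh_satur {R : Type} [CommRing R] (φ : R →+* k) {d : ℕ} {g : ℤ} {I : Ideal (S R)}
    (h : I ∈ HilbFam d g R)
    (h' : satur k (I.map (MvPolynomial.map (σ := Fin 4) φ)) ∈ HilbFam d g k) :
    EqHigh (I.map (MvPolynomial.map (σ := Fin 4) φ))
      (satur k (I.map (MvPolynomial.map (σ := Fin 4) φ))) := by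
  obtain ⟨m0, hm0⟩ := hf_map_of_mem φ h
  obtain ⟨m1, hm1⟩ := hf_of_mem h'
  refine eqHigh_of_le (le_satur _) ⟨max m0 m1, fun m hm => ?_⟩
  have h1 := hm0 m (le_trans (le_max_left _ _) hm)
  have h2 := hm1 m (le_trans (le_max_right _ _) hm)
  exact_mod_cast h1.trans h2.symm

end eq

section sp
variable {V K k : Type} [CommRing V] [IsDomain V] [ValuationRing V] [Field K] [Field k]
  [Algebra V K] [IsFractionRing V K] [Algebra V k]

/-- A family over a valuation ring: the special fibre is the specialisation of the generic one. -/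
theorem sp_of_family (hk : Function.Surjective (algebraMap V k)) {d : ℕ} {g : ℤ}
    {I : Ideal (S V)} (hV : I ∈ HilbFam d g V) {IK : Ideal (S K)} {Ik : Ideal (S k)}
    (hIK : IK = satur K (I.map (MvPolynomial.map (σ := Fin 4) (algebraMap V K))))
    (hIk : Ik = satur k (I.map (MvPolynomial.map (σ := Fin 4) (algebraMap V k))))
    (hK : IK ∈ HilbFam d g K) (hkk : Ik ∈ HilbFam d g k) :
    EqHigh (sp V k IK) Ik := by
  have h1 : EqHigh (I.map (MvPolynomial.map (σ := Fin 4) (algebraMap V k))) Ik := by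
    rw [hIk]
    exact eqHigh_satur _ hV (hIk ▸ hkk)
  have hle : I.map (MvPolynomial.map (σ := Fin 4) (algebraMap V k)) ≤ sp V k IK := by
    rw [Ideal.map_le_iff_le_comap]
    intro F hF
    rw [Ideal.mem_comap, mem_sp hk]
    refine ⟨F, ?_, rfl⟩
    rw [hIK]
    exact le_satur _ (Ideal.mem_map_of_mem _ hF)
  have h2 : EqHigh (I.map (MvPolynomial.map (σ := Fin 4) (algebraMap V k))) (sp V k IK) := by
    obtain ⟨m0, hm0⟩ := hf_map_of_mem (algebraMap V k) hV
    obtain ⟨m1, hm1⟩ := hf_of_mem hK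
    refine eqHigh_of_le hle ⟨max m0 m1, fun m hm => ?_⟩
    rw [hf_sp hk (mem_HilbFam_field.1 hK).1 m]
    have h1 := hm0 m (le_trans (le_max_left _ _) hm)
    have h2 := hm1 m (le_trans (le_max_right _ _) hm)
    exact_mod_cast h1.trans h2.symm
  exact h2.symm.trans h1

end sp

section conf
variable {F F' : Type} [Field F] [Field F'] (φ : F →+* F')

lemma rho_map (L : M2 F) (G : S F) :
    rho (L.map φ) (MvPolynomial.map φ G) = MvPolynomial.map φ (rho L G) := by
  induction G using MvPolynomial.induction_on with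
  | C a =>
    rw [map_C, show (C a : S F) = algebraMap F _ a from rfl,
      show (C (φ a) : S F') = algebraMap F' _ (φ a) from rfl, AlgHom.commutes, AlgHom.commutes]
    exact (map_C _ _).symm
  | add p q hp hq => rw [map_add, map_add, hp, hq, map_add, map_add]
  | mul_X p i hp =>
    rw [map_mul, map_mul, hp, map_mul, map_mul, map_X]
    congr 1
    fin_cases i <;> simp [rho]

lemma eps_X (L : M2 F) (g f : A2 F) (i : Fin 4) : eps L g f (X i) = ![0, 0, g, f] i := by
  fin_cases i <;> simp [eps, theta]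

lemma eps_C (L : M2 F) (g f : A2 F) (a : F) : eps L g f (C a) = 0 := by
  unfold eps
  rw [show (C a : S F) = algebraMap F _ a from rfl, AlgHom.commutes]
  rfl

lemma eps_map (L : M2 F) (g f : A2 F) (G : S F) :
    eps (L.map φ) (MvPolynomial.map φ g) (MvPolynomial.map φ f) (MvPolynomial.map φ G) =
      MvPolynomial.map φ (eps L g f G) := by
  induction G using MvPolynomial.induction_on with
  | C a => rw [map_C, eps_C, eps_C, map_zero]
  | add p q hp hq => rw [map_add, eps_add, eps_add, hp, hq, map_add]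
  | mul_X p i hp =>
    rw [map_mul, eps_mul, eps_mul, hp, map_add, map_mul, map_mul, map_X, eps_X, eps_X, rho_map,
      ← rho_map φ L (X i), map_X]
    congr 2
    fin_cases i <;> simp

lemma Cfg.map_J_le {r s : ℕ} (c : Cfg F r s) :
    c.J.map (MvPolynomial.map (σ := Fin 4) φ) ≤ (c.map φ).J := by
  rw [Ideal.map_le_iff_le_comap]
  intro G hG
  unfold Cfg.J at hG ⊢
  rw [Ideal.mem_comap]
  rw [Ideal.mem_inf, Ideal.mem_iInf, Ideal.mem_iInf] at hG ⊢
  refine ⟨fun i => ?_, fun j => ?_⟩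
  · have h := mem_ribI.1 (hG.1 i)
    refine mem_ribI.2 ⟨?_, ?_⟩
    · change rho ((c.A i).map φ) _ = 0
      rw [rho_map, show rho (c.A i) G = 0 from h.1, map_zero]
    · change eps ((c.A i).map φ) (MvPolynomial.map φ (c.g i)) (MvPolynomial.map φ (c.f i)) _ = 0
      rw [eps_map, h.2, map_zero]
  · change rho ((c.N j).map φ) _ = 0
    rw [rho_map, show rho (c.N j) G = 0 from hG.2 j, map_zero]

/-- the ideals of the curves are points of the Hilbert scheme -/
lemma conf_mem [CharZero F] {w : F} (hw : w ^ 2 + w + 1 = 0) {c : Cfg F 9 10} (hc : IsConf w c) :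
    c.J ∈ HilbFam 28 (-872) F := by
  rw [mem_HilbFam_field]
  refine ⟨c.J_isHom hc.good, fun G hG => ?_, ?_⟩
  · refine c.TF_J (X 0) (X_ne_zero _) G ?_
    have : inc2 (X 0 : A2 F) = X 0 := by simp [inc2]
    rw [this]
    exact hG 0
  · obtain ⟨m0, hm0⟩ := c.hf_J hc.good
    refine ⟨m0, fun m hm => ?_⟩
    have h1 := hm0 m hm
    rw [hc.hA, hc.hN, conf_inc hw] at h1
    have h2 : ∑ i : Fin 9, (2 * m + c.a i + 2) = 18 * m + 963 := by
      rw [Finset.sum_congr rfl fun i _ => by rw [hc.ha i]]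
      simp [Fin.sum_univ_succ]
      ring
    rw [h2] at h1
    push_cast
    omega

theorem eqHigh_map_conf [CharZero F] {w : F} (hw : w ^ 2 + w + 1 = 0) {c : Cfg F 9 10}
    (hc : IsConf w c) :
    EqHigh (c.J.map (MvPolynomial.map (σ := Fin 4) φ)) (c.map φ).J := by
  have hcz : CharZero F' := charZero_of_injective_ringHom φ.injective
  have hw' : (φ w) ^ 2 + φ w + 1 = 0 := by
    rw [← map_pow, ← map_add, ← map_one φ, ← map_add, hw, map_zero]
  obtain ⟨m0, hm0⟩ := hf_map_of_mem φ (conf_mem hw hc)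
  obtain ⟨m1, hm1⟩ := hf_of_mem (conf_mem hw' (hc.map φ))
  refine eqHigh_of_le (c.map_J_le φ) ⟨max m0 m1, fun m hm => ?_⟩
  have h1 := hm0 m (le_trans (le_max_left _ _) hm)
  have h2 := hm1 m (le_trans (le_max_right _ _) hm)
  exact_mod_cast h1.trans h2.symm

end conf

end Pool.Agent.Helper924.HS
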