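import Mathlib
import Pool.Agent.Helper924.HS.Line

set_option autoImplicit false

open MvPolynomial

namespace Pool.Agent.Helper924.HS

lemma lineI_eq_span0 {K : Type} [Field K] (L : M2 K) : lineI L =
    Ideal.span {X 2 - (C (L 0 0) * X 0 + C (L 0 1) * X 1),
      X 3 - (C (L 1 0) * X 0 + C (L 1 1) * X 1)} := lineI_eq_span L

lemma hf_lineI0 {K : Type} [Field K] (L : M2 K) (m : ℕ) : hf (lineI L) m = m + 1 := hf_lineI L m

section field
variable {K Λ : Type} [Field K] [Field Λ] [Algebra K Λ]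

open scoped IntermediateField.algebraAdjoinAdjoin in
lemma j12613_int_zero_coeff {t b : Λ} (ht : Transcendental K t)
    (h : IsIntegral (Algebra.adjoin K {t}) b) :
    IsIntegral (IntermediateField.adjoin K {t}) b ∧
    ∀ i : ℕ, ∃ f : Polynomial K, algebraMap (IntermediateField.adjoin K {t}) Λ
      ((minpoly (IntermediateField.adjoin K {t}) b).coeff i) = Polynomial.aeval t f := by
  have hic : IsIntegrallyClosed (Algebra.adjoin K {t}) :=
    IsIntegrallyClosed.of_equiv (Polynomial.algEquivOfTranscendental K t ht).toRingEquiv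
  have h2 := minpoly.isIntegrallyClosed_eq_field_fractions' (IntermediateField.adjoin K {t}) h
  refine ⟨h.tower_top, fun i => ?_⟩
  rw [h2, Polynomial.coeff_map, ← IsScalarTower.algebraMap_apply]
  obtain ⟨x, hx⟩ := (minpoly (Algebra.adjoin K {t}) b).coeff i
  rw [Algebra.adjoin_singleton_eq_range_aeval] at hx
  obtain ⟨f, hf⟩ := hx
  exact ⟨f, hf.symm⟩

lemma j12613_int_zero_poly {t : Λ} (ht : Transcendental K t) (f g : Polynomial K) (k : ℕ) (hk : 1 ≤ k)
    (h : Polynomial.aeval t⁻¹ g = Polynomial.aeval t f * t ^ k) : f = 0 := by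
  have ht0 : t ≠ 0 := by
    rintro rfl
    exact ht isAlgebraic_zero
  letI : Invertible t⁻¹ := invertibleOfNonzero (inv_ne_zero ht0)
  have h1 := Polynomial.eval₂_reverse_mul_pow (algebraMap K Λ) t⁻¹ g
  rw [invOf_eq_inv, inv_inv] at h1
  have h2 : Polynomial.aeval t g.reverse =
      Polynomial.aeval t (Polynomial.X ^ (g.natDegree + k) * f) := by
    rw [map_mul, map_pow, Polynomial.aeval_X]
    rw [Polynomial.aeval_def] at h ⊢
    rw [← h1] at h
    have h3 : t⁻¹ ^ g.natDegree * t ^ g.natDegree = 1 := by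
      rw [← mul_pow, inv_mul_cancel₀ ht0, one_pow]
    calc Polynomial.eval₂ (algebraMap K Λ) t g.reverse
        = Polynomial.eval₂ (algebraMap K Λ) t g.reverse *
          (t⁻¹ ^ g.natDegree * t ^ g.natDegree) := by rw [h3, mul_one]
      _ = (Polynomial.eval₂ (algebraMap K Λ) t g.reverse * t⁻¹ ^ g.natDegree) *
          t ^ g.natDegree := by ring
      _ = _ := by
        rw [h]
        ring
  have h3 := (transcendental_iff_injective.1 ht) h2
  by_contra hf
  have h4 : (Polynomial.X ^ (g.natDegree + k) * f).natDegree = g.natDegree + k + f.natDegree := by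
    rw [Polynomial.natDegree_mul (pow_ne_zero _ Polynomial.X_ne_zero) hf,
      Polynomial.natDegree_X_pow]
  have h5 := Polynomial.reverse_natDegree_le g
  rw [h3, h4] at h5
  omega

/-- `b` integral over `K[t]` and `t b` integral over `K[1/t]` imply `b = 0`. -/
lemma int_zero {t b : Λ} (ht : Transcendental K t)
    (h1 : IsIntegral (Algebra.adjoin K {t}) b) (h2 : IsIntegral (Algebra.adjoin K {t⁻¹}) (t * b)) :
    b = 0 := by
  have ht' : Transcendental K t⁻¹ := fun h => ht (IsAlgebraic.inv_iff.1 h)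
  have ht0 : t ≠ 0 := by
    rintro rfl
    exact ht isAlgebraic_zero
  have hF : IntermediateField.adjoin K {t⁻¹} = IntermediateField.adjoin K {t} := by
    apply le_antisymm
    · rw [IntermediateField.adjoin_simple_le_iff]
      exact inv_mem (IntermediateField.mem_adjoin_simple_self K t)
    · rw [IntermediateField.adjoin_simple_le_iff]
      have := inv_mem (IntermediateField.mem_adjoin_simple_self K t⁻¹)
      rwa [inv_inv] at this
  obtain ⟨hb, c1⟩ := j12613_int_zero_coeff ht h1
  have c2 := (j12613_int_zero_coeff ht' h2).2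
  rw [hF] at c2
  set F := IntermediateField.adjoin K {t} with hFdef
  obtain ⟨tF, htF⟩ : ∃ tF : F, algebraMap F Λ tF = t :=
    ⟨⟨t, IntermediateField.mem_adjoin_simple_self K t⟩, rfl⟩
  have htF0 : tF ≠ 0 := by
    rintro rfl
    exact ht0 (by rw [← htF, map_zero])
  have hb2 : IsIntegral F (t * b) := by
    rw [← htF]
    exact isIntegral_algebraMap.mul hb
  have hp := minpoly.monic hb
  have hq := minpoly.monic hb2
  have hp1 : minpoly F (t * b) ∣ (minpoly F b).scaleRoots tF := by
    apply minpoly.dvd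
    have := Polynomial.scaleRoots_aeval_eq_zero (r := tF) (minpoly.aeval F b)
    rwa [htF] at this
  have hp2 : minpoly F b ∣ (minpoly F (t * b)).scaleRoots tF⁻¹ := by
    apply minpoly.dvd
    have := Polynomial.scaleRoots_aeval_eq_zero (r := tF⁻¹) (minpoly.aeval F (t * b))
    rwa [map_inv₀, htF, inv_mul_cancel_left₀ ht0] at this
  have hd1 : (minpoly F b).natDegree ≤ (minpoly F (t * b)).natDegree := by
    have := Polynomial.natDegree_le_of_dvd hp2 (Polynomial.scaleRoots_ne_zero hq.ne_zero _)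
    rwa [Polynomial.natDegree_scaleRoots] at this
  have heq : minpoly F (t * b) = (minpoly F b).scaleRoots tF :=
    Polynomial.eq_of_dvd_of_natDegree_le_of_leadingCoeff hp1
      (by rw [Polynomial.natDegree_scaleRoots]; exact hd1)
      (by rw [Polynomial.leadingCoeff_scaleRoots, hp.leadingCoeff, hq.leadingCoeff])
  have hcoef : ∀ i, i < (minpoly F b).natDegree → (minpoly F b).coeff i = 0 := by
    intro i hi
    obtain ⟨f, hf⟩ := c1 i
    obtain ⟨g, hg⟩ := c2 i
    rw [heq, Polynomial.coeff_scaleRoots, map_mul, map_pow, htF, hf] at hg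
    have hf0 := j12613_int_zero_poly ht f g _ (by omega) hg.symm
    rw [hf0, map_zero] at hf
    exact (map_eq_zero (algebraMap F Λ)).1 hf
  have hX : minpoly F b = Polynomial.X ^ (minpoly F b).natDegree := by
    apply Polynomial.ext
    intro i
    rw [Polynomial.coeff_X_pow]
    split_ifs with h
    · rw [h]
      exact hp.coeff_natDegree
    · rcases lt_or_gt_of_ne h with h | h
      · exact hcoef i h
      · exact Polynomial.coeff_eq_zero_of_natDegree_lt h
  have h3 := minpoly.aeval F b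
  rw [hX, map_pow, Polynomial.aeval_X] at h3
  exact eq_zero_of_pow_eq_zero h3

open IntermediateField algebraAdjoinAdjoin in
lemma j12614_int_const_coeff {x b : Λ} (hx : Transcendental K x)
    (h : IsIntegral (Algebra.adjoin K {x}) b) (n : ℕ) :
    ((minpoly (IntermediateField.adjoin K {x}) b).coeff n : Λ) ∈ Algebra.adjoin K {x} := by
  haveI : IsIntegrallyClosed (Algebra.adjoin K {x}) :=
    IsIntegrallyClosed.of_equiv (Polynomial.algEquivOfTranscendental K x hx).toRingEquiv
  rw [minpoly.isIntegrallyClosed_eq_field_fractions' (IntermediateField.adjoin K {x}) h,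
    Polynomial.coeff_map, coe_algebraMap]
  exact ((minpoly (Algebra.adjoin K {x}) b).coeff n).2

open IntermediateField algebraAdjoinAdjoin in
lemma j12614_int_const_int {x b : Λ} (h : IsIntegral (Algebra.adjoin K {x}) b) :
    IsIntegral (IntermediateField.adjoin K {x}) b :=
  IsIntegral.tower_top h

lemma j12614_int_const_eq {F F' : IntermediateField K Λ} (h : F = F') (b : Λ) (n : ℕ) :
    ((minpoly F b).coeff n : Λ) = ((minpoly F' b).coeff n : Λ) := by
  subst h
  rfl

lemma j12614_int_const_inter {t c : Λ} (ht : Transcendental K t)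
    (h1 : c ∈ Algebra.adjoin K {t}) (h2 : c ∈ Algebra.adjoin K {t⁻¹}) :
    ∃ k : K, algebraMap K Λ k = c := by
  obtain ⟨p, hp⟩ := Algebra.adjoin_mem_exists_aeval _ _ h1
  obtain ⟨q, hq⟩ := Algebra.adjoin_mem_exists_aeval _ _ h2
  have ht0 : t ≠ 0 := fun h0 => by
    rw [h0] at ht
    exact ht isAlgebraic_zero
  obtain ⟨r, hr⟩ : ∃ r : Polynomial K, r = ∑ i ∈ Finset.range (q.natDegree + 1),
      Polynomial.C (q.coeff i) * Polynomial.X ^ (q.natDegree - i) := ⟨_, rfl⟩
  have hrdeg : r.natDegree ≤ q.natDegree := by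
    rw [hr]
    apply Polynomial.natDegree_sum_le_of_forall_le
    intro i _
    exact (Polynomial.natDegree_C_mul_X_pow_le _ _).trans (Nat.sub_le _ _)
  have h3 : Polynomial.aeval t r = t ^ q.natDegree * c := by
    rw [← hq, Polynomial.aeval_eq_sum_range (x := t⁻¹), hr, map_sum, Finset.mul_sum]
    apply Finset.sum_congr rfl
    intro i hi
    rw [Finset.mem_range] at hi
    rw [map_mul, Polynomial.aeval_C, map_pow, Polynomial.aeval_X, Algebra.smul_def, inv_pow]
    have h4 : t ^ q.natDegree = t ^ (q.natDegree - i) * t ^ i := by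
      rw [← pow_add]
      congr 1
      omega
    rw [h4]
    have h5 : t ^ i ≠ 0 := pow_ne_zero _ ht0
    field_simp
  have h6 : Polynomial.X ^ q.natDegree * p = r := by
    apply transcendental_iff_injective.1 ht
    rw [h3, map_mul, map_pow, Polynomial.aeval_X, hp]
  by_cases hp0 : p = 0
  · refine ⟨0, ?_⟩
    rw [← hp, hp0, map_zero, map_zero]
  · have h7 : (Polynomial.X ^ q.natDegree * p).natDegree = q.natDegree + p.natDegree := by
      rw [Polynomial.natDegree_mul (pow_ne_zero _ Polynomial.X_ne_zero) hp0,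
        Polynomial.natDegree_X_pow]
    rw [h6] at h7
    have h8 : p.natDegree = 0 := by omega
    refine ⟨p.coeff 0, ?_⟩
    rw [← hp]
    conv_rhs => rw [Polynomial.eq_C_of_natDegree_eq_zero h8]
    rw [Polynomial.aeval_C]

/-- `b` integral over `K[t]` and over `K[1/t]` imply that `b` is algebraic over `K`. -/
lemma int_const {t b : Λ} (ht : Transcendental K t)
    (h1 : IsIntegral (Algebra.adjoin K {t}) b) (h2 : IsIntegral (Algebra.adjoin K {t⁻¹}) b) :
    IsAlgebraic K b := by
  have hF : IntermediateField.adjoin K {t} = IntermediateField.adjoin K {t⁻¹} := by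
    apply le_antisymm
    · rw [IntermediateField.adjoin_simple_le_iff]
      have h3 := inv_mem (IntermediateField.mem_adjoin_simple_self K t⁻¹)
      rwa [inv_inv] at h3
    · rw [IntermediateField.adjoin_simple_le_iff]
      exact inv_mem (IntermediateField.mem_adjoin_simple_self K t)
  have ht' : Transcendental K t⁻¹ := fun h => ht (by
    have h3 := h.inv
    rwa [inv_inv] at h3)
  have hc : ∀ n, ∃ k : K, algebraMap K Λ k =
      ((minpoly (IntermediateField.adjoin K {t}) b).coeff n : Λ) := by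
    intro n
    apply j12614_int_const_inter ht (j12614_int_const_coeff ht h1 n)
    rw [j12614_int_const_eq hF b n]
    exact j12614_int_const_coeff ht' h2 n
  choose k hk using hc
  have hint := j12614_int_const_int h1
  have hmon := minpoly.monic hint
  obtain ⟨q, hq⟩ : ∃ q : Polynomial K, q = ∑ n ∈ Finset.range
      ((minpoly (IntermediateField.adjoin K {t}) b).natDegree + 1),
      Polynomial.C (k n) * Polynomial.X ^ n := ⟨_, rfl⟩
  refine ⟨q, ?_, ?_⟩
  · intro h0
    have h3 : q.coeff (minpoly (IntermediateField.adjoin K {t}) b).natDegree =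
        k (minpoly (IntermediateField.adjoin K {t}) b).natDegree := by
      rw [hq, Polynomial.finset_sum_coeff, Finset.sum_eq_single
        (minpoly (IntermediateField.adjoin K {t}) b).natDegree]
      · rw [Polynomial.coeff_C_mul, Polynomial.coeff_X_pow, if_pos rfl, mul_one]
      · intro i _ hi
        rw [Polynomial.coeff_C_mul, Polynomial.coeff_X_pow, if_neg (Ne.symm hi), mul_zero]
      · intro h4
        exact absurd (Finset.mem_range.2 (Nat.lt_succ_self _)) h4
    have h5 := hk (minpoly (IntermediateField.adjoin K {t}) b).natDegree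
    rw [← h3, h0, Polynomial.coeff_zero, map_zero, hmon.coeff_natDegree] at h5
    exact zero_ne_one h5
  · have h6 := minpoly.aeval (IntermediateField.adjoin K {t}) b
    rw [Polynomial.aeval_eq_sum_range] at h6
    rw [hq, map_sum]
    rw [← h6]
    apply Finset.sum_congr rfl
    intro n _
    rw [map_mul, Polynomial.aeval_C, map_pow, Polynomial.aeval_X, hk n]
    rfl

lemma j12615_int_linear_aux {t y : Λ} (ht : Transcendental K t)
    (hy : y ∈ IntermediateField.adjoin K {t})
    (h1 : IsIntegral (Algebra.adjoin K {t}) y) :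
    ∃ p : Polynomial K, y = Polynomial.aeval t p := by
  obtain ⟨r, s, hrs⟩ := (IntermediateField.mem_adjoin_simple_iff K y).mp hy
  have hinj : Function.Injective (Polynomial.aeval t : Polynomial K →ₐ[K] Λ) :=
    transcendental_iff_injective.mp ht
  have hinj' : Function.Injective ((Polynomial.aeval t : Polynomial K →ₐ[K] Λ) :
      Polynomial K →+* Λ) := hinj
  let φ : RatFunc K →+* Λ := IsFractionRing.lift (A := Polynomial K) (K := RatFunc K) hinj'
  have hφ : ∀ p : Polynomial K, φ (algebraMap (Polynomial K) (RatFunc K) p) =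
      Polynomial.aeval t p := fun p => IsFractionRing.lift_algebraMap hinj' p
  have hρ : φ (algebraMap (Polynomial K) (RatFunc K) r / algebraMap (Polynomial K) (RatFunc K) s) =
      y := by
    rw [map_div₀, hφ, hφ, ← hrs]
  generalize algebraMap (Polynomial K) (RatFunc K) r / algebraMap (Polynomial K) (RatFunc K) s = ρ
    at hρ
  obtain ⟨P, hPm, hP0⟩ := h1
  let t' : Algebra.adjoin K {t} := ⟨t, Algebra.subset_adjoin (Set.mem_singleton t)⟩
  let ψ : Polynomial K →+* Algebra.adjoin K {t} :=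
    ((Polynomial.aeval t' : Polynomial K →ₐ[K] Algebra.adjoin K {t}) : _ →+* _)
  have hψ : ∀ p : Polynomial K, ((ψ p : Algebra.adjoin K {t}) : Λ) = Polynomial.aeval t p :=
    fun p => Polynomial.aeval_subalgebra_coe p (Algebra.adjoin K {t}) t'
  have hlift : P ∈ Polynomial.lifts ψ := by
    rw [Polynomial.lifts_iff_coeff_lifts]
    intro n
    have h0 : ∀ z : Λ, z ∈ Algebra.adjoin K {t} → ∃ p : Polynomial K, Polynomial.aeval t p = z := by
      intro z hz
      rw [Algebra.adjoin_singleton_eq_range_aeval, AlgHom.mem_range] at hz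
      exact hz
    obtain ⟨p, hp⟩ := h0 _ (P.coeff n).2
    exact ⟨p, Subtype.ext ((hψ p).trans hp)⟩
  obtain ⟨Q, hQ1, _, hQm⟩ := Polynomial.lifts_and_degree_eq_and_monic hlift hPm
  have h3 : Polynomial.eval₂ (φ.comp (algebraMap (Polynomial K) (RatFunc K))) (φ ρ) Q = 0 := by
    rw [← hQ1, Polynomial.eval₂_map] at hP0
    rw [hρ]
    have h4 : (algebraMap (Algebra.adjoin K {t}) Λ).comp ψ =
        φ.comp (algebraMap (Polynomial K) (RatFunc K)) := by
      refine RingHom.ext (fun p => ?_)
      exact (hψ p).trans (hφ p).symm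
    rw [← h4]
    exact hP0
  rw [← Polynomial.hom_eval₂] at h3
  have h5 : Polynomial.eval₂ (algebraMap (Polynomial K) (RatFunc K)) ρ Q = 0 := by
    apply φ.injective
    rw [h3, map_zero]
  have h6 : IsIntegral (Polynomial K) ρ := ⟨Q, hQm, h5⟩
  obtain ⟨p, hp⟩ := IsIntegrallyClosed.isIntegral_iff.mp h6
  exact ⟨p, by rw [← hρ, ← hp, hφ]⟩

/-- degree at most one -/
lemma int_linear {t y : Λ} (ht : Transcendental K t)
    (hy : y ∈ IntermediateField.adjoin K {t})
    (h1 : IsIntegral (Algebra.adjoin K {t}) y)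
    (h2 : IsIntegral (Algebra.adjoin K {t⁻¹}) (t⁻¹ * y)) :
    ∃ a b : K, y = algebraMap K Λ a + algebraMap K Λ b * t := by
  have ht0 : t ≠ 0 := by
    rintro rfl
    exact ht isAlgebraic_zero
  have ht' : Transcendental K t⁻¹ := fun h => ht (IsAlgebraic.inv_iff.mp h)
  have hy' : t⁻¹ * y ∈ IntermediateField.adjoin K {t⁻¹} := by
    have h3 : t⁻¹ ∈ IntermediateField.adjoin K {t⁻¹} :=
      IntermediateField.mem_adjoin_simple_self K t⁻¹
    have h4 : t ∈ IntermediateField.adjoin K {t⁻¹} := by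
      have := (IntermediateField.adjoin K {t⁻¹}).inv_mem h3
      rwa [inv_inv] at this
    have h5 : IntermediateField.adjoin K {t} ≤ IntermediateField.adjoin K {t⁻¹} := by
      rw [IntermediateField.adjoin_simple_le_iff]
      exact h4
    exact mul_mem h3 (h5 hy)
  obtain ⟨p, hp⟩ := j12615_int_linear_aux ht hy h1
  obtain ⟨q, hq⟩ := j12615_int_linear_aux ht' hy' h2
  have hinj : Function.Injective (Polynomial.aeval t : Polynomial K →ₐ[K] Λ) :=
    transcendental_iff_injective.mp ht
  letI : Invertible t⁻¹ := ⟨t, mul_inv_cancel₀ ht0, inv_mul_cancel₀ ht0⟩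
  have h6 : Polynomial.aeval t q.reverse * (t⁻¹) ^ q.natDegree = Polynomial.aeval t⁻¹ q :=
    Polynomial.eval₂_reverse_mul_pow (algebraMap K Λ) t⁻¹ q
  have h7 : Polynomial.X * q.reverse = Polynomial.X ^ q.natDegree * p := by
    apply hinj
    rw [map_mul, map_mul, map_pow, Polynomial.aeval_X, ← hp]
    rw [← hq] at h6
    have h8 : Polynomial.aeval t q.reverse = t ^ q.natDegree * (t⁻¹ * y) := by
      rw [← h6, mul_comm _ (t⁻¹ ^ q.natDegree), ← mul_assoc, ← mul_pow, mul_inv_cancel₀ ht0,
        one_pow, one_mul]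
    rw [h8]
    field_simp
  have hdeg : p.natDegree ≤ 1 := by
    by_cases hp0 : p = 0
    · rw [hp0]; simp
    · have h9 : (Polynomial.X ^ q.natDegree * p).natDegree = q.natDegree + p.natDegree := by
        rw [Polynomial.natDegree_mul (pow_ne_zero _ Polynomial.X_ne_zero) hp0,
          Polynomial.natDegree_X_pow]
      have h10 : (Polynomial.X * q.reverse).natDegree ≤ 1 + q.natDegree := by
        refine Polynomial.natDegree_mul_le.trans ?_
        have := Polynomial.reverse_natDegree_le q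
        have h11 : (Polynomial.X : Polynomial K).natDegree ≤ 1 := Polynomial.natDegree_X_le
        omega
      rw [h7, h9] at h10
      omega
  obtain ⟨b, a, hab⟩ := Polynomial.exists_eq_X_add_C_of_natDegree_le_one hdeg
  refine ⟨a, b, ?_⟩
  rw [hp, hab]
  simp only [map_add, map_mul, Polynomial.aeval_C, Polynomial.aeval_X]
  ring

end field

section count
variable {K Λ : Type} [Field K] [IsAlgClosed K] [Field Λ] [Algebra K Λ]

/-- the space of values `F(1, t, y, z)`, `F` a form of degree `m` -/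
noncomputable def Bm (t y z : Λ) (m : ℕ) : Submodule K Λ :=
  (homogeneousSubmodule (Fin 4) K m).map (aeval ![1, t, y, z] : S K →ₐ[K] Λ).toLinearMap

lemma j12616_Bm_mem_iff {t y z : Λ} {m : ℕ} {x : Λ} :
    x ∈ Bm (K := K) t y z m ↔ ∃ F : S K, F.IsHomogeneous m ∧ aeval ![1, t, y, z] F = x := by
  unfold Bm
  rw [Submodule.mem_map]
  constructor
  · rintro ⟨F, hF, h⟩; exact ⟨F, (mem_homogeneousSubmodule _ _).1 hF, h⟩
  · rintro ⟨F, hF, h⟩; exact ⟨F, (mem_homogeneousSubmodule _ _).2 hF, h⟩

lemma j12616_Bm_mul {t y z : Λ} {m n : ℕ} {x x' : Λ} (h : x ∈ Bm (K := K) t y z m)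
    (h' : x' ∈ Bm (K := K) t y z n) : x * x' ∈ Bm (K := K) t y z (m + n) := by
  rw [j12616_Bm_mem_iff] at *
  obtain ⟨F, hF, rfl⟩ := h
  obtain ⟨F', hF', rfl⟩ := h'
  exact ⟨F * F', hF.mul hF', map_mul _ _ _⟩

lemma j12616_Bm_algebraMap {t y z : Λ} (a : K) : algebraMap K Λ a ∈ Bm (K := K) t y z 0 := by
  rw [j12616_Bm_mem_iff]
  exact ⟨C a, isHomogeneous_C _ _, by simp⟩

lemma j12616_Bm_X {t y z : Λ} (i : Fin 4) : (![1, t, y, z] : Fin 4 → Λ) i ∈ Bm (K := K) t y z 1 := by
  rw [j12616_Bm_mem_iff]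
  exact ⟨X i, isHomogeneous_X _ _, by simp⟩

lemma j12616_Bm_one {t y z : Λ} : (1 : Λ) ∈ Bm (K := K) t y z 1 := j12616_Bm_X 0
lemma j12616_Bm_t {t y z : Λ} : t ∈ Bm (K := K) t y z 1 := j12616_Bm_X 1
lemma j12616_Bm_y {t y z : Λ} : y ∈ Bm (K := K) t y z 1 := j12616_Bm_X 2
lemma j12616_Bm_z {t y z : Λ} : z ∈ Bm (K := K) t y z 1 := j12616_Bm_X 3

lemma j12616_Bm_mono {t y z : Λ} {m n : ℕ} (h : m ≤ n) : Bm (K := K) t y z m ≤ Bm (K := K) t y z n := by
  induction n, h using Nat.le_induction with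
  | base => exact le_rfl
  | succ n _ ih =>
    intro x hx
    have := j12616_Bm_mul (ih hx) (j12616_Bm_one (K := K) (t := t) (y := y) (z := z))
    rwa [mul_one] at this

lemma j12616_Bm_t_pow {t y z : Λ} (j : ℕ) : t ^ j ∈ Bm (K := K) t y z j := by
  induction j with
  | zero =>
    have := j12616_Bm_algebraMap (K := K) (t := t) (y := y) (z := z) 1
    rwa [map_one, ← pow_zero t] at this
  | succ j ih => rw [pow_succ]; exact j12616_Bm_mul ih j12616_Bm_t

/-- the ring `K[t][y,z]` -/
noncomputable def j12616_Bsub (K : Type) [Field K] [Algebra K Λ] (t y z : Λ) :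
    Subalgebra (Algebra.adjoin K {t}) Λ :=
  Algebra.adjoin (Algebra.adjoin K {t}) {y, z}

lemma j12616_mem_adj {t : Λ} (r : Algebra.adjoin K {t}) :
    ∃ p : Polynomial K, (r : Λ) = Polynomial.aeval t p := by
  obtain ⟨r, h⟩ := r
  rw [Algebra.adjoin_singleton_eq_range_aeval] at h
  obtain ⟨p, hp⟩ := h
  exact ⟨p, hp.symm⟩

lemma j12616_aeval_mem_adj {t : Λ} (p : Polynomial K) :
    Polynomial.aeval t p ∈ Algebra.adjoin K {t} := by
  rw [Algebra.adjoin_singleton_eq_range_aeval]
  exact ⟨p, rfl⟩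

lemma j12616_Bsub_fg {t y z : Λ} (hy : IsIntegral (Algebra.adjoin K {t}) y)
    (hz : IsIntegral (Algebra.adjoin K {t}) z) :
    (Subalgebra.toSubmodule (j12616_Bsub K t y z)).FG := by
  unfold j12616_Bsub
  apply fg_adjoin_of_finite (Set.toFinite _)
  rintro x (rfl | rfl)
  · exact hy
  · exact hz

lemma j12616_Bsub_int {t y z : Λ} (hy : IsIntegral (Algebra.adjoin K {t}) y)
    (hz : IsIntegral (Algebra.adjoin K {t}) z) {x : Λ} (hx : x ∈ j12616_Bsub K t y z) :
    IsIntegral (Algebra.adjoin K {t}) x :=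
  IsIntegral.of_mem_of_fg _ (j12616_Bsub_fg hy hz) x hx

lemma j12616_aeval_mem_Bsub {t y z : Λ} (p : Polynomial K) :
    Polynomial.aeval t p ∈ j12616_Bsub K t y z :=
  (j12616_Bsub K t y z).algebraMap_mem (⟨Polynomial.aeval t p, j12616_aeval_mem_adj p⟩ : Algebra.adjoin K {t})

lemma j12616_Bm_le_Bsub {t y z : Λ} {m : ℕ} {x : Λ} (hx : x ∈ Bm (K := K) t y z m) :
    x ∈ j12616_Bsub K t y z := by
  rw [j12616_Bm_mem_iff] at hx
  obtain ⟨F, -, rfl⟩ := hx
  rw [aeval_def, eval₂_eq']
  refine sum_mem fun d _ => mul_mem ?_ (prod_mem fun i _ => pow_mem ?_ _)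
  · have := j12616_aeval_mem_Bsub (K := K) (t := t) (y := y) (z := z) (Polynomial.C (coeff d F))
    rwa [Polynomial.aeval_C] at this
  · fin_cases i
    · exact one_mem _
    · have := j12616_aeval_mem_Bsub (K := K) (t := t) (y := y) (z := z) Polynomial.X
      rwa [Polynomial.aeval_X] at this
    · exact Algebra.subset_adjoin (by simp)
    · exact Algebra.subset_adjoin (by simp)

lemma j12616_Bsub_exhaust {t y z : Λ} {x : Λ} (hx : x ∈ j12616_Bsub K t y z) :
    ∃ m, x ∈ Bm (K := K) t y z m := by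
  unfold j12616_Bsub at hx
  induction hx using Algebra.adjoin_induction with
  | mem x hx =>
    rcases hx with rfl | rfl
    · exact ⟨1, j12616_Bm_y⟩
    · exact ⟨1, j12616_Bm_z⟩
  | algebraMap r =>
    obtain ⟨p, hp⟩ := j12616_mem_adj r
    have h1 : algebraMap (Algebra.adjoin K {t}) Λ r = Polynomial.aeval t p := hp
    rw [h1]
    refine ⟨p.natDegree, ?_⟩
    rw [Polynomial.aeval_eq_sum_range]
    refine Submodule.sum_mem _ fun j hj => Submodule.smul_mem _ _ ?_
    exact j12616_Bm_mono (Nat.lt_succ_iff.1 (Finset.mem_range.1 hj)) (j12616_Bm_t_pow j)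
  | add x x' _ _ h h' =>
    obtain ⟨m, hm⟩ := h
    obtain ⟨n, hn⟩ := h'
    exact ⟨m + n, add_mem (j12616_Bm_mono (Nat.le_add_right _ _) hm) (j12616_Bm_mono (Nat.le_add_left _ _) hn)⟩
  | mul x x' _ _ h h' =>
    obtain ⟨m, hm⟩ := h
    obtain ⟨n, hn⟩ := h'
    exact ⟨m + n, j12616_Bm_mul hm hn⟩

lemma j12616_Bm_int {t y z : Λ} (ht0 : t ≠ 0)
    (hy' : IsIntegral (Algebra.adjoin K {t⁻¹}) (t⁻¹ * y))
    (hz' : IsIntegral (Algebra.adjoin K {t⁻¹}) (t⁻¹ * z)) {m : ℕ} {x : Λ}
    (hx : x ∈ Bm (K := K) t y z m) : IsIntegral (Algebra.adjoin K {t⁻¹}) (t⁻¹ ^ m * x) := by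
  rw [j12616_Bm_mem_iff] at hx
  obtain ⟨F, hF, rfl⟩ := hx
  rw [aeval_def, eval₂_eq', Finset.mul_sum]
  refine IsIntegral.sum _ fun d hd => ?_
  have hdeg : ∑ i, d i = m := by
    have h1 := hF (mem_support_iff.1 hd)
    rw [← h1, Finsupp.weight_apply, Finsupp.sum_fintype]
    · simp
    · simp
  have h1 : t⁻¹ ^ m * (algebraMap K Λ (coeff d F) * ∏ i, (![1, t, y, z] : Fin 4 → Λ) i ^ d i) =
      algebraMap K Λ (coeff d F) * ∏ i, (t⁻¹ * (![1, t, y, z] : Fin 4 → Λ) i) ^ d i := by
    simp_rw [mul_pow]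
    rw [Finset.prod_mul_distrib, Finset.prod_pow_eq_pow_sum, hdeg]
    ring
  rw [h1]
  have hK : ∀ a : K, IsIntegral (Algebra.adjoin K {t⁻¹}) (algebraMap K Λ a) := by
    intro a
    have : algebraMap K Λ a = algebraMap (Algebra.adjoin K {t⁻¹}) Λ
      (algebraMap K (Algebra.adjoin K {t⁻¹}) a) := rfl
    rw [this]
    exact isIntegral_algebraMap
  refine (hK _).mul (IsIntegral.prod _ fun i _ => IsIntegral.pow ?_ _)
  fin_cases i
  · have h2 : t⁻¹ * (![1, t, y, z] : Fin 4 → Λ) ((fun i => i) ⟨0, by norm_num⟩) =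
      algebraMap (Algebra.adjoin K {t⁻¹}) Λ ⟨t⁻¹, Algebra.subset_adjoin rfl⟩ := by
      simp
    rw [h2]
    exact isIntegral_algebraMap
  · have h2 : t⁻¹ * (![1, t, y, z] : Fin 4 → Λ) ((fun i => i) ⟨1, by norm_num⟩) = 1 := by
      simp [ht0]
    rw [h2]
    exact isIntegral_one
  · exact hy'
  · exact hz'

lemma j12616_basis_exists {t y z : Λ} (ht : Transcendental K t)
    (hy : IsIntegral (Algebra.adjoin K {t}) y) (hz : IsIntegral (Algebra.adjoin K {t}) z) :
    ∃ (e : ℕ) (b : Fin e → Λ), (∀ i, b i ∈ j12616_Bsub K t y z) ∧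
      (∀ x ∈ j12616_Bsub K t y z, ∃ p : Fin e → Polynomial K, ∑ i, Polynomial.aeval t (p i) * b i = x) ∧
      (∀ p : Fin e → Polynomial K, ∑ i, Polynomial.aeval t (p i) * b i = 0 → ∀ i, p i = 0) := by
  have : IsPrincipalIdealRing (Algebra.adjoin K {t}) := by
    let f : Polynomial K →+* Algebra.adjoin K {t} :=
      ((Polynomial.aeval t : Polynomial K →ₐ[K] Λ).codRestrict (Algebra.adjoin K {t})
        (fun p => j12616_aeval_mem_adj p)).toRingHom
    have hf : Function.Surjective f := by
      intro r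
      obtain ⟨p, hp⟩ := j12616_mem_adj r
      exact ⟨p, Subtype.ext hp.symm⟩
    exact IsPrincipalIdealRing.of_surjective f hf
  have : Module.Finite (Algebra.adjoin K {t}) (j12616_Bsub K t y z) :=
    Module.Finite.iff_fg.mpr (j12616_Bsub_fg hy hz)
  have : Module.IsTorsionFree (Algebra.adjoin K {t}) (j12616_Bsub K t y z) := inferInstance
  have : Module.Free (Algebra.adjoin K {t}) (j12616_Bsub K t y z) :=
    Module.free_of_finite_type_torsion_free'
  let β := Module.finBasis (Algebra.adjoin K {t}) (j12616_Bsub K t y z)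
  refine ⟨_, fun i => (β i : Λ), fun i => (β i).2, ?_, ?_⟩
  · intro x hx
    have h1 := β.sum_repr ⟨x, hx⟩
    choose p hp using fun i => j12616_mem_adj (β.repr ⟨x, hx⟩ i)
    refine ⟨p, ?_⟩
    have h2 := congrArg (fun w : j12616_Bsub K t y z => (w : Λ)) h1
    simp only at h2
    rw [← h2]
    rw [AddSubmonoidClass.coe_finsetSum]
    apply Finset.sum_congr rfl
    intro i _
    rw [← hp i]
    rfl
  · intro p hp i
    have h1 : ∑ i, (⟨Polynomial.aeval t (p i), j12616_aeval_mem_adj (p i)⟩ : Algebra.adjoin K {t}) • β i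
        = 0 := by
      apply Subtype.ext
      rw [AddSubmonoidClass.coe_finsetSum]
      exact hp
    have h2 := Fintype.linearIndependent_iff.1 β.linearIndependent _ h1 i
    have h3 : Polynomial.aeval t (p i) = 0 := congrArg Subtype.val h2
    exact transcendental_iff.1 ht _ h3

/-- the linear map attached to a family of elements -/
noncomputable def j12616_Psi {e : ℕ} (t : Λ) (b : Fin e → Λ) : (Fin e → Polynomial K) →ₗ[K] Λ :=
  ∑ i, (LinearMap.mulRight K (b i)) ∘ₗ (Polynomial.aeval t).toLinearMap ∘ₗ LinearMap.proj i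

lemma j12616_Psi_apply {e : ℕ} (t : Λ) (b : Fin e → Λ) (p : Fin e → Polynomial K) :
    j12616_Psi t b p = ∑ i, Polynomial.aeval t (p i) * b i := by
  simp [j12616_Psi]

lemma j12616_Psi_X_pow_mul {e : ℕ} (t : Λ) (b : Fin e → Λ) (k : ℕ) (q : Fin e → Polynomial K) :
    j12616_Psi t b (fun i => Polynomial.X ^ k * q i) = t ^ k * j12616_Psi t b q := by
  rw [j12616_Psi_apply, j12616_Psi_apply, Finset.mul_sum]
  apply Finset.sum_congr rfl
  intro i _
  rw [map_mul, map_pow, Polynomial.aeval_X, mul_assoc]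

/-- truncated coefficients -/
noncomputable def j12616_tau (K : Type) [Field K] (e m : ℕ) :
    (Fin e → Polynomial K) →ₗ[K] (Fin e → Fin (m + 1) → K) :=
  LinearMap.pi fun i => LinearMap.pi fun j => (Polynomial.lcoeff K j) ∘ₗ LinearMap.proj i

lemma j12616_tau_apply (e m : ℕ) (p : Fin e → Polynomial K) (i : Fin e) (j : Fin (m + 1)) :
    j12616_tau K e m p i j = (p i).coeff j := rfl

/-- The counting lemma. -/
lemma count {t y z : Λ} (ht : Transcendental K t)
    (hy : IsIntegral (Algebra.adjoin K {t}) y) (hz : IsIntegral (Algebra.adjoin K {t}) z)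
    (hy' : IsIntegral (Algebra.adjoin K {t⁻¹}) (t⁻¹ * y))
    (hz' : IsIntegral (Algebra.adjoin K {t⁻¹}) (t⁻¹ * z)) :
    ∃ e : ℕ, 0 < e ∧ (∀ m, Module.finrank K (Bm (K := K) t y z m) ≤ e * (m + 1)) ∧
      (∃ C, ∀ m, e * m ≤ Module.finrank K (Bm (K := K) t y z m) + C) ∧
      (∀ m, Module.finrank K (Bm (K := K) t y z m) = e * (m + 1) →
        (∃ a b : K, y = algebraMap K Λ a + algebraMap K Λ b * t) ∧
        ∃ a b : K, z = algebraMap K Λ a + algebraMap K Λ b * t) := by
  have ht0 : t ≠ 0 := by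
    rintro rfl
    exact ht (isAlgebraic_zero)
  obtain ⟨e, b, hb1, hb2, hb3⟩ := j12616_basis_exists ht hy hz
  have hinj : Function.Injective (j12616_Psi (K := K) t b) := by
    rw [← LinearMap.ker_eq_bot, LinearMap.ker_eq_bot']
    intro p hp
    rw [j12616_Psi_apply] at hp
    exact funext (hb3 p hp)
  have hmemB : ∀ p, j12616_Psi (K := K) t b p ∈ j12616_Bsub K t y z := by
    intro p
    rw [j12616_Psi_apply]
    exact sum_mem fun i _ => mul_mem (j12616_aeval_mem_Bsub _) (hb1 i)
  have hrange : ∀ m, Bm (K := K) t y z m ≤ LinearMap.range (j12616_Psi (K := K) t b) := by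
    intro m x hx
    obtain ⟨p, hp⟩ := hb2 x (j12616_Bm_le_Bsub hx)
    exact ⟨p, by rw [j12616_Psi_apply]; exact hp⟩
  -- elements of `Bm` divisible by `t ^ (m + 1)` vanish
  have hdiv : ∀ m x', x' ∈ j12616_Bsub K t y z → t ^ (m + 1) * x' ∈ Bm (K := K) t y z m → x' = 0 := by
    intro m x' hx' h
    apply int_zero ht (j12616_Bsub_int hy hz hx')
    have h1 := j12616_Bm_int ht0 hy' hz' h
    have h2 : t⁻¹ ^ m * (t ^ (m + 1) * x') = t * x' := by
      rw [inv_pow, pow_succ]
      field_simp
    rwa [h2] at h1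
  set W : ℕ → Submodule K (Fin e → Polynomial K) := fun m => (Bm (K := K) t y z m).comap (j12616_Psi t b)
    with hW
  have hWmap : ∀ m, (W m).map (j12616_Psi t b) = Bm (K := K) t y z m := fun m =>
    Submodule.map_comap_eq_of_le (hrange m)
  have hWfin : ∀ m, Module.finrank K (W m) = Module.finrank K (Bm (K := K) t y z m) := by
    intro m
    rw [← hWmap m]
    exact (Submodule.equivMapOfInjective (j12616_Psi t b) hinj (W m)).finrank_eq
  have hginj : ∀ m, Function.Injective ((j12616_tau K e m).domRestrict (W m)) := by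
    intro m
    rw [← LinearMap.ker_eq_bot, LinearMap.ker_eq_bot']
    rintro ⟨p, hp⟩ h
    have h1 : ∀ i, ∃ q : Polynomial K, p i = Polynomial.X ^ (m + 1) * q := by
      intro i
      have h2 : Polynomial.X ^ (m + 1) ∣ p i := by
        rw [Polynomial.X_pow_dvd_iff]
        intro d hd
        have h3 := congrFun (congrFun h i) ⟨d, hd⟩
        exact h3
      exact h2
    choose q hq using h1
    have h2 : p = fun i => Polynomial.X ^ (m + 1) * q i := funext hq
    have h3 : j12616_Psi t b p ∈ Bm (K := K) t y z m := hp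
    rw [h2, j12616_Psi_X_pow_mul] at h3
    have h4 := hdiv m _ (hmemB q) h3
    have h5 : j12616_Psi t b p = 0 := by rw [h2, j12616_Psi_X_pow_mul, h4, mul_zero]
    have h6 : p = 0 := hinj (by rw [h5, map_zero])
    exact Subtype.ext h6
  have htarget : ∀ m, Module.finrank K (Fin e → Fin (m + 1) → K) = e * (m + 1) := by
    intro m
    simp [Module.finrank_pi_fintype]
  have hfd : ∀ m, FiniteDimensional K (W m) := fun m =>
    Module.Finite.of_injective _ (hginj m)
  have he : 0 < e := by
    rcases Nat.eq_zero_or_pos e with h | h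
    · subst h
      obtain ⟨p, hp⟩ := hb2 1 (one_mem _)
      simp at hp
    · exact h
  refine ⟨e, he, ?_, ?_, ?_⟩
  · intro m
    rw [← hWfin m, ← htarget m]
    exact LinearMap.finrank_le_finrank_of_injective (hginj m)
  · choose M hM using fun i => j12616_Bsub_exhaust (hb1 i)
    set N := ∑ i, M i with hN
    have hMN : ∀ i, b i ∈ Bm (K := K) t y z N := fun i =>
      j12616_Bm_mono (Finset.single_le_sum (fun _ _ => Nat.zero_le _) (Finset.mem_univ i)) (hM i)
    refine ⟨e * N, fun m => ?_⟩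
    rcases lt_or_ge m N with h | h
    · exact le_trans (Nat.mul_le_mul_left e h.le) (Nat.le_add_left _ _)
    · obtain ⟨k, rfl⟩ := Nat.exists_eq_add_of_le h
      -- tuples of polynomials of degree at most `k`
      let D : Submodule K (Fin e → Polynomial K) :=
        Submodule.pi Set.univ fun _ => Polynomial.degreeLT K (k + 1)
      have hD : D ≤ W (N + k) := by
        intro p hp
        show j12616_Psi t b p ∈ Bm (K := K) t y z (N + k)
        rw [j12616_Psi_apply]
        refine Submodule.sum_mem _ fun i _ => ?_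
        have h1 : p i ∈ Polynomial.degreeLT K (k + 1) := hp i (Set.mem_univ i)
        rw [Polynomial.mem_degreeLT] at h1
        have h2 : (p i).natDegree ≤ k := by
          rw [Polynomial.natDegree_le_iff_coeff_eq_zero]
          intro l hl
          apply Polynomial.coeff_eq_zero_of_degree_lt
          exact lt_of_lt_of_le h1 (by exact_mod_cast hl)
        rw [Polynomial.aeval_eq_sum_range, Finset.sum_mul]
        refine Submodule.sum_mem _ fun j hj => ?_
        rw [smul_mul_assoc]
        refine Submodule.smul_mem _ _ ?_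
        have h3 : j ≤ k := (Nat.lt_succ_iff.1 (Finset.mem_range.1 hj)).trans h2
        rw [mul_comm]
        exact j12616_Bm_mono (Nat.add_le_add_left h3 N) (j12616_Bm_mul (hMN i) (j12616_Bm_t_pow j))
      have hDeq : D ≃ₗ[K] (Fin e → Polynomial.degreeLT K (k + 1)) :=
        { toFun := fun p i => ⟨p.1 i, p.2 i (Set.mem_univ i)⟩
          map_add' := fun _ _ => rfl
          map_smul' := fun _ _ => rfl
          invFun := fun p => ⟨fun i => (p i).1, fun i _ => (p i).2⟩
          left_inv := fun _ => rfl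
          right_inv := fun _ => rfl }
      have hdimD : Module.finrank K D = e * (k + 1) := by
        rw [hDeq.finrank_eq, Module.finrank_pi_fintype]
        have h1 : Module.finrank K (Polynomial.degreeLT K (k + 1)) = k + 1 := by
          rw [(Polynomial.degreeLTEquiv K (k + 1)).finrank_eq, Module.finrank_fintype_fun_eq_card,
            Fintype.card_fin]
        simp [h1]
      have h1 : Module.finrank K D ≤ Module.finrank K (W (N + k)) :=
        Submodule.finrank_mono hD
      rw [hdimD, hWfin] at h1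
      calc e * (N + k) ≤ e * (k + 1) + e * N := by nlinarith
        _ ≤ _ := Nat.add_le_add_right h1 _
  · intro m hm
    have hsurj : Function.Surjective ((j12616_tau K e m).domRestrict (W m)) := by
      have h1 : Module.finrank K (W m) = Module.finrank K (Fin e → Fin (m + 1) → K) := by
        rw [hWfin, hm, htarget]
      exact (LinearMap.injective_iff_surjective_of_finrank_eq_finrank h1).1 (hginj m)
    -- for each `i` a constant with prescribed coordinates
    have hc : ∀ i : Fin e, ∃ (q : Fin e → Polynomial K) (a : K),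
        (∀ j, (q j).coeff 0 = if j = i then 1 else 0) ∧ j12616_Psi t b q = algebraMap K Λ a := by
      intro i
      obtain ⟨⟨p, hp⟩, hp2⟩ := hsurj (fun j l => if j = i ∧ (l : ℕ) = m then 1 else 0)
      have h0 : ∀ j (l : Fin (m + 1)), (p j).coeff l = if j = i ∧ (l : ℕ) = m then 1 else 0 :=
        fun j l => congrFun (congrFun hp2 j) l
      have h1 : ∀ j, ∃ q : Polynomial K, p j = Polynomial.X ^ m * q := by
        intro j
        have h2 : Polynomial.X ^ m ∣ p j := by
          rw [Polynomial.X_pow_dvd_iff]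
          intro d hd
          have h3 := h0 j ⟨d, by omega⟩
          rw [h3, if_neg]
          rintro ⟨-, h4⟩
          exact absurd h4 (by simpa using hd.ne)
        exact h2
      choose q hq using h1
      have h2 : p = fun j => Polynomial.X ^ m * q j := funext hq
      have h3 : j12616_Psi t b p ∈ Bm (K := K) t y z m := hp
      have h4 := j12616_Bm_int ht0 hy' hz' h3
      rw [h2, j12616_Psi_X_pow_mul] at h4
      have h5 : t⁻¹ ^ m * (t ^ m * j12616_Psi t b q) = j12616_Psi t b q := by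
        rw [inv_pow]
        field_simp
      rw [h5] at h4
      have h6 := int_const ht (j12616_Bsub_int hy hz (hmemB q)) h4
      obtain ⟨a, ha⟩ := minpoly.mem_range_of_degree_eq_one K (j12616_Psi t b q)
        (IsAlgClosed.degree_eq_one_of_irreducible K (minpoly.irreducible h6.isIntegral))
      refine ⟨q, a, fun j => ?_, ha.symm⟩
      have h7 := h0 j ⟨m, by omega⟩
      rw [hq j] at h7
      simpa [Polynomial.coeff_X_pow_mul'] using h7
    have he1 : e = 1 := by
      by_contra hne
      have he2 : 1 < e := by omega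
      obtain ⟨q0, a0, h0, h0'⟩ := hc ⟨0, by omega⟩
      obtain ⟨q1, a1, h1, h1'⟩ := hc ⟨1, by omega⟩
      have h2 : j12616_Psi t b (a1 • q0 - a0 • q1) = 0 := by
        rw [map_sub, map_smul, map_smul, h0', h1', Algebra.smul_def, Algebra.smul_def, mul_comm,
          sub_self]
      have h3 : a1 • q0 - a0 • q1 = 0 := hinj (by rw [h2, map_zero])
      have h4 := congrArg (fun p => (p ⟨0, by omega⟩ : Polynomial K).coeff 0) h3
      have h5 := congrArg (fun p => (p ⟨1, by omega⟩ : Polynomial K).coeff 0) h3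
      simp only [Pi.sub_apply, Pi.smul_apply, Polynomial.coeff_sub, Polynomial.coeff_smul, h0, h1,
        Pi.zero_apply, Polynomial.coeff_zero] at h4 h5
      simp at h4 h5
      rw [h5, map_zero] at h0'
      have h6 : q0 = 0 := hinj (by rw [h0', map_zero])
      have h7 := h0 ⟨0, by omega⟩
      rw [h6] at h7
      simp at h7
    subst he1
    have hF : ∀ x ∈ j12616_Bsub K t y z, x ∈ IntermediateField.adjoin K {t} := by
      have htF : t ∈ IntermediateField.adjoin K {t} :=
        IntermediateField.subset_adjoin K _ rfl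
      have hpoly : ∀ p : Polynomial K, Polynomial.aeval t p ∈ IntermediateField.adjoin K {t} := by
        intro p
        rw [Polynomial.aeval_eq_sum_range]
        refine sum_mem fun j _ => ?_
        rw [Algebra.smul_def]
        exact mul_mem (IntermediateField.algebraMap_mem _ _) (pow_mem htF j)
      have hb0 : b 0 ∈ IntermediateField.adjoin K {t} := by
        obtain ⟨p, hp⟩ := hb2 1 (one_mem _)
        rw [Fin.sum_univ_one] at hp
        have h1 : b 0 = (Polynomial.aeval t (p 0))⁻¹ := eq_inv_of_mul_eq_one_right hp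
        rw [h1]
        exact inv_mem (hpoly _)
      intro x hx
      obtain ⟨p, hp⟩ := hb2 x hx
      rw [Fin.sum_univ_one] at hp
      rw [← hp]
      exact mul_mem (hpoly _) hb0
    exact ⟨int_linear ht (hF y (Algebra.subset_adjoin (by simp))) hy hy',
      int_linear ht (hF z (Algebra.subset_adjoin (by simp))) hz hz'⟩

end count

section primes
variable {K : Type} [Field K]

lemma j12617_pr_hc_mul_X (a : S K) (i : Fin 4) (m : ℕ) :
    homogeneousComponent (m + 1) (a * X i) = homogeneousComponent m a * X i := by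
  induction a using MvPolynomial.induction_on' with
  | monomial d r =>
    have e2 : (monomial d r * X i : S K) = monomial (d + Finsupp.single i 1) r := by
      rw [X, monomial_mul, mul_one]
    have e3 : (d + Finsupp.single i 1).degree = d.degree + 1 := by
      rw [map_add, Finsupp.degree_single]
    rw [e2, homogeneousComponent_of_mem (n := d.degree + 1)
      ((mem_homogeneousSubmodule _ _).2 (isHomogeneous_monomial r e3)),
      homogeneousComponent_of_mem (n := d.degree)
      ((mem_homogeneousSubmodule _ _).2 (isHomogeneous_monomial r rfl))]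
    by_cases hm : m = d.degree
    · rw [if_pos (by omega), if_pos hm, ← e2]
    · rw [if_neg (by omega), if_neg hm, zero_mul]
  | add p q hp hq => rw [add_mul, map_add, hp, hq, map_add, add_mul]

lemma j12617_pr_monomial_mem (m : ℕ) : ∀ d : Fin 4 →₀ ℕ, d.degree = m →
    (monomial d 1 : S K) ∈ irr K ^ m := by
  induction m with
  | zero =>
    intro d _
    rw [pow_zero, Ideal.one_eq_top]
    exact Submodule.mem_top
  | succ m ih =>
    intro d hd
    have hne : d ≠ 0 := by
      rintro rfl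
      simp at hd
    obtain ⟨i, hi⟩ := Finsupp.ne_iff.1 hne
    have hi' : d i ≠ 0 := hi
    have hle : Finsupp.single i 1 ≤ d := by
      rw [Finsupp.single_le_iff]
      omega
    have hdd : (d - Finsupp.single i 1) + Finsupp.single i 1 = d := tsub_add_cancel_of_le hle
    have hdeg : (d - Finsupp.single i 1).degree = m := by
      have h1 : ((d - Finsupp.single i 1) + Finsupp.single i 1).degree = m + 1 := by rw [hdd, hd]
      rw [map_add, Finsupp.degree_single] at h1
      omega
    have h2 : (monomial d 1 : S K) = monomial (d - Finsupp.single i 1) 1 * X i := by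
      rw [X, monomial_mul, hdd, mul_one]
    rw [h2, pow_succ]
    exact Ideal.mul_mem_mul (ih _ hdeg) (Ideal.subset_span ⟨i, rfl⟩)

/-- decomposition of monomials of large degree -/
lemma j12617_pr_decomp {p : Ideal (S K)} (hh : IsHom p) {N : ℕ}
    (hN : irr K ^ N ≤ p ⊔ Ideal.span {X 0, X 1}) (d : Fin 4 →₀ ℕ) {m : ℕ} (hd : d.degree = m + 1)
    (hm : N ≤ m + 1) : ∃ P a b : S K, P ∈ p ∧ a.IsHomogeneous m ∧ b.IsHomogeneous m ∧
      (monomial d 1 : S K) = P + (a * X 0 + b * X 1) := by
  have h1 : (monomial d 1 : S K) ∈ p ⊔ Ideal.span {X 0, X 1} :=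
    hN (Ideal.pow_le_pow_right hm (j12617_pr_monomial_mem (m + 1) d hd))
  obtain ⟨P, hP, Q, hQ, hPQ⟩ := Submodule.mem_sup.1 h1
  obtain ⟨a, b, hab⟩ := Ideal.mem_span_pair.1 hQ
  refine ⟨homogeneousComponent (m + 1) P, homogeneousComponent m a, homogeneousComponent m b,
    hh P hP (m + 1), homogeneousComponent_isHomogeneous _ _, homogeneousComponent_isHomogeneous _ _,
    ?_⟩
  have h2 : homogeneousComponent (m + 1) (monomial d 1 : S K) = monomial d 1 := by
    rw [homogeneousComponent_of_mem (n := m + 1)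
      ((mem_homogeneousSubmodule _ _).2 (isHomogeneous_monomial 1 hd)), if_pos rfl]
  rw [← j12617_pr_hc_mul_X, ← j12617_pr_hc_mul_X, ← map_add, ← map_add, hab, hPQ, h2]

/-- the finitely generated module -/
lemma j12617_pr_mem {Λ : Type} [Field Λ] [Algebra K Λ] {p : Ideal (S K)} (hh : IsHom p) {N : ℕ}
    (hN : irr K ^ N ≤ p ⊔ Ideal.span {X 0, X 1}) (φ : S K →ₐ[K] Λ) (hφ : ∀ F ∈ p, φ F = 0)
    (B : Subalgebra K Λ) (h0 : φ (X 0) ∈ B) (h1 : φ (X 1) ∈ B) (m : ℕ) :
    ∀ G : S K, G.IsHomogeneous m →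
      φ G ∈ Submodule.span B ((fun d : Fin 4 →₀ ℕ => φ (monomial d 1)) '' {d | d.degree ≤ N}) := by
  induction m with
  | zero =>
    intro G hG
    rw [G.as_sum, map_sum]
    apply Submodule.sum_mem
    intro d hd
    have hd0 : d.degree = 0 := by
      rw [Finsupp.degree_eq_weight_one]
      exact hG (mem_support_iff.1 hd)
    have e1 : (monomial d (coeff d G) : S K) = coeff d G • monomial d 1 := by
      rw [smul_monomial, smul_eq_mul, mul_one]
    rw [e1, map_smul]
    apply Submodule.smul_of_tower_mem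
    exact Submodule.subset_span ⟨d, by show d.degree ≤ N; omega, rfl⟩
  | succ m ih =>
    intro G hG
    rw [G.as_sum, map_sum]
    apply Submodule.sum_mem
    intro d hd
    have hd0 : d.degree = m + 1 := by
      rw [Finsupp.degree_eq_weight_one]
      exact hG (mem_support_iff.1 hd)
    have e1 : (monomial d (coeff d G) : S K) = coeff d G • monomial d 1 := by
      rw [smul_monomial, smul_eq_mul, mul_one]
    rw [e1, map_smul]
    apply Submodule.smul_of_tower_mem
    by_cases hm : m + 1 ≤ N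
    · exact Submodule.subset_span ⟨d, by show d.degree ≤ N; omega, rfl⟩
    · obtain ⟨P, a, b, hP, ha, hb, hdec⟩ := j12617_pr_decomp hh hN d hd0 (by omega)
      rw [hdec, map_add, hφ P hP, zero_add, map_add, map_mul, map_mul, mul_comm (φ a),
        mul_comm (φ b)]
      apply Submodule.add_mem
      · exact Submodule.smul_mem _ (⟨φ (X 0), h0⟩ : B) (ih a ha)
      · exact Submodule.smul_mem _ (⟨φ (X 1), h1⟩ : B) (ih b hb)

lemma j12617_pr_integral {Λ : Type} [Field Λ] [Algebra K Λ] {p : Ideal (S K)} (hh : IsHom p)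
    (fin : FIN p) (φ : S K →ₐ[K] Λ) (hφ : ∀ F ∈ p, φ F = 0)
    (B : Subalgebra K Λ) (h0 : φ (X 0) ∈ B) (h1 : φ (X 1) ∈ B) (i : Fin 4) :
    IsIntegral B (φ (X i)) := by
  obtain ⟨N, hN⟩ := fin
  have hmem := fun m G hG => j12617_pr_mem hh hN φ hφ B h0 h1 m G hG
  obtain ⟨M, hM⟩ : ∃ M : Submodule B Λ, M = Submodule.span B
    ((fun d : Fin 4 →₀ ℕ => φ (monomial d 1)) '' {d | d.degree ≤ N}) := ⟨_, rfl⟩
  rw [← hM] at hmem
  have hfg : M.FG := by
    rw [hM]
    exact Submodule.fg_span ((Finsupp.finite_of_degree_le N).image _)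
  have hone : (1 : Λ) ∈ M := by
    have h2 := hmem 0 1 (isHomogeneous_one _ _)
    rwa [map_one] at h2
  apply isIntegral_of_smul_mem_submodule M ?_ hfg
  · intro x hx
    rw [hM] at hx
    induction hx using Submodule.span_induction with
    | mem y hy =>
      obtain ⟨d, hd, rfl⟩ := hy
      have h3 : (X i * monomial d 1 : S K).IsHomogeneous (1 + d.degree) :=
        (isHomogeneous_X _ _).mul (isHomogeneous_monomial 1 rfl)
      have h4 := hmem _ _ h3
      rw [map_mul] at h4
      exact h4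
    | zero =>
      rw [smul_zero]
      exact M.zero_mem
    | add y z _ _ hy hz =>
      rw [smul_add]
      exact M.add_mem hy hz
    | smul b y _ hy =>
      have h5 : φ (X i) • b • y = b • φ (X i) • y := smul_comm _ _ _
      rw [h5]
      exact M.smul_mem b hy
  · intro hbot
    rw [hbot, Submodule.mem_bot] at hone
    exact one_ne_zero hone

/-- homogeneous polynomials and scaling -/
lemma j12617_pr_scale {Λ : Type} [Field Λ] [Algebra K Λ] {F : S K} {m : ℕ} (hF : F.IsHomogeneous m)
    (c : Λ) (v : Fin 4 → Λ) : aeval (fun i => c * v i) F = c ^ m * aeval v F := by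
  conv_lhs => rw [F.as_sum]
  conv_rhs => rw [F.as_sum]
  rw [map_sum, map_sum, Finset.mul_sum]
  apply Finset.sum_congr rfl
  intro d hd
  have hd0 : d.degree = m := by
    rw [Finsupp.degree_eq_weight_one]
    exact hF (mem_support_iff.1 hd)
  rw [aeval_monomial, aeval_monomial]
  have h1 : (d.prod fun i k => (c * v i) ^ k) = c ^ m * d.prod fun i k => v i ^ k := by
    simp only [mul_pow]
    rw [Finsupp.prod_mul]
    congr 1
    rw [Finsupp.prod, Finset.prod_pow_eq_pow_sum, ← hd0]
    rfl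
  rw [h1]
  ring

/-- a homogeneous ideal killed in each degree is killed -/
lemma j12617_pr_kill {Λ : Type} [Field Λ] [Algebra K Λ] {p : Ideal (S K)} (hh : IsHom p)
    (φ : S K →ₐ[K] Λ) (h : ∀ m, ∀ F : S K, F.IsHomogeneous m → F ∈ p → φ F = 0) :
    ∀ F ∈ p, φ F = 0 := by
  intro F hF
  rw [← sum_homogeneousComponent F, map_sum]
  apply Finset.sum_eq_zero
  intro m _
  exact h m _ (homogeneousComponent_isHomogeneous _ _) (hh F hF m)

/-- homogeneous primes of dimension one: field realisation -/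
lemma prime_real (p : Ideal (S K)) (hp : p.IsPrime) (hh : IsHom p) (tf : TF p) (fin : FIN p) :
    ∃ (Λ : Type) (_ : Field Λ) (_ : Algebra K Λ) (t y z : Λ), Transcendental K t ∧
      IsIntegral (Algebra.adjoin K {t}) y ∧ IsIntegral (Algebra.adjoin K {t}) z ∧
      IsIntegral (Algebra.adjoin K {t⁻¹}) (t⁻¹ * y) ∧
      IsIntegral (Algebra.adjoin K {t⁻¹}) (t⁻¹ * z) ∧
      ∀ m, ∀ F : S K, F.IsHomogeneous m → (F ∈ p ↔ aeval ![1, t, y, z] F = 0) := by
  have hdom : IsDomain (S K ⧸ p) := Ideal.Quotient.isDomain p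
  have h1p : (1 : S K) ∉ p := fun h => hp.ne_top ((Ideal.eq_top_iff_one p).2 h)
  let π : S K →ₐ[K] FractionRing (S K ⧸ p) :=
    (IsScalarTower.toAlgHom K (S K ⧸ p) (FractionRing (S K ⧸ p))).comp (Ideal.Quotient.mkₐ K p)
  have hπ : ∀ F, π F = 0 ↔ F ∈ p := by
    intro F
    show algebraMap (S K ⧸ p) (FractionRing (S K ⧸ p)) (Ideal.Quotient.mk p F) = 0 ↔ F ∈ p
    rw [FaithfulSMul.algebraMap_eq_zero_iff, Ideal.Quotient.eq_zero_iff_mem]
  have hX0 : (X 0 : S K) ∉ p := by
    intro h
    apply h1p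
    apply tf (X 0) (X_ne_zero 0)
    rw [mul_one]
    simpa [inc2] using h
  have hX1 : (X 1 : S K) ∉ p := by
    intro h
    apply h1p
    apply tf (X 1) (X_ne_zero 1)
    rw [mul_one]
    simpa [inc2] using h
  have hx0 : π (X 0) ≠ 0 := fun h => hX0 ((hπ _).1 h)
  have hx1 : π (X 1) ≠ 0 := fun h => hX1 ((hπ _).1 h)
  obtain ⟨x0, hx0d⟩ : ∃ x0, x0 = π (X 0) := ⟨_, rfl⟩
  obtain ⟨t, ht⟩ : ∃ t, t = π (X 1) / x0 := ⟨_, rfl⟩
  obtain ⟨y, hy⟩ : ∃ y, y = π (X 2) / x0 := ⟨_, rfl⟩
  obtain ⟨z, hz⟩ : ∃ z, z = π (X 3) / x0 := ⟨_, rfl⟩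
  have hx00 : x0 ≠ 0 := by rw [hx0d]; exact hx0
  have ht0 : t ≠ 0 := by rw [ht]; exact div_ne_zero hx1 hx00
  have hπe : π = aeval (fun i => x0 * ![1, t, y, z] i) := by
    apply MvPolynomial.algHom_ext
    intro i
    rw [aeval_X]
    fin_cases i
    · show π (X 0) = x0 * 1
      rw [mul_one, hx0d]
    · show π (X 1) = x0 * t
      rw [ht]; field_simp
    · show π (X 2) = x0 * y
      rw [hy]; field_simp
    · show π (X 3) = x0 * z
      rw [hz]; field_simp
  have hiff : ∀ m, ∀ F : S K, F.IsHomogeneous m → (F ∈ p ↔ aeval ![1, t, y, z] F = 0) := by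
    intro m F hF
    rw [← hπ, hπe, j12617_pr_scale hF]
    constructor
    · intro h
      rcases mul_eq_zero.1 h with h | h
      · exact absurd h (pow_ne_zero _ hx00)
      · exact h
    · intro h
      rw [h, mul_zero]
  have hkill := j12617_pr_kill hh (aeval ![1, t, y, z]) (fun m F hF h => (hiff m F hF).1 h)
  have hkill' := j12617_pr_kill hh (aeval (fun i => t⁻¹ * ![1, t, y, z] i)) (fun m F hF h => by
    rw [j12617_pr_scale hF, (hiff m F hF).1 h, mul_zero])
  have hint : ∀ i, IsIntegral (Algebra.adjoin K {t}) (aeval ![1, t, y, z] (X i : S K)) := by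
    intro i
    apply j12617_pr_integral hh fin _ hkill
    · rw [aeval_X]
      exact one_mem _
    · rw [aeval_X]
      exact Algebra.subset_adjoin rfl
  have hint' : ∀ i, IsIntegral (Algebra.adjoin K {t⁻¹})
      (aeval (fun i => t⁻¹ * ![1, t, y, z] i) (X i : S K)) := by
    intro i
    apply j12617_pr_integral hh fin _ hkill'
    · rw [aeval_X]
      show t⁻¹ * 1 ∈ _
      rw [mul_one]
      exact Algebra.subset_adjoin rfl
    · rw [aeval_X]
      show t⁻¹ * t ∈ _
      rw [inv_mul_cancel₀ ht0]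
      exact one_mem _
  refine ⟨FractionRing (S K ⧸ p), inferInstance, inferInstance, t, y, z, ?_, ?_, ?_, ?_, ?_, hiff⟩
  · -- transcendence
    rintro ⟨g, hg, hgt⟩
    apply h1p
    obtain ⟨h, hh2⟩ : ∃ h : A2 K, h = ∑ i ∈ Finset.range (g.natDegree + 1),
      C (g.coeff i) * (X 0 ^ (g.natDegree - i) * X 1 ^ i) := ⟨_, rfl⟩
    have hne : h ≠ 0 := by
      intro h0
      apply hg
      have e1 : aeval ![(1 : Polynomial K), Polynomial.X] h = g := by
        rw [hh2, map_sum]
        conv_rhs => rw [g.as_sum_range_C_mul_X_pow]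
        apply Finset.sum_congr rfl
        intro i _
        rw [map_mul, map_mul, map_pow, map_pow, aeval_X, aeval_X, aeval_C]
        show algebraMap K (Polynomial K) (g.coeff i) * (1 ^ (g.natDegree - i) * Polynomial.X ^ i) = _
        rw [one_pow, one_mul]
        rfl
      rw [h0, map_zero] at e1
      exact e1.symm
    have hhom : (inc2 h : S K).IsHomogeneous g.natDegree := by
      rw [hh2, map_sum]
      apply IsHomogeneous.sum
      intro i hi
      have hi' : i ≤ g.natDegree := by
        have := Finset.mem_range.1 hi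
        omega
      rw [map_mul, map_mul, map_pow, map_pow]
      have e2 : (inc2 (X 0) : S K) = X 0 := by simp [inc2]
      have e3 : (inc2 (X 1) : S K) = X 1 := by simp [inc2]
      have e4 : (inc2 (C (g.coeff i)) : S K) = C (g.coeff i) := by
        rw [inc2, aeval_C]; rfl
      rw [e2, e3, e4]
      have e5 := (isHomogeneous_C (Fin 4) (g.coeff i)).mul
        ((isHomogeneous_X_pow (R := K) (0 : Fin 4) (g.natDegree - i)).mul
          (isHomogeneous_X_pow (R := K) (1 : Fin 4) i))
      have e6 : 0 + (g.natDegree - i + i) = g.natDegree := by omega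
      rw [e6] at e5
      exact e5
    have hev : aeval ![1, t, y, z] (inc2 h : S K) = 0 := by
      rw [hh2, map_sum, map_sum, ← hgt, Polynomial.aeval_eq_sum_range]
      apply Finset.sum_congr rfl
      intro i _
      have e2 : (inc2 (X 0) : S K) = X 0 := by simp [inc2]
      have e3 : (inc2 (X 1) : S K) = X 1 := by simp [inc2]
      have e4 : (inc2 (C (g.coeff i)) : S K) = C (g.coeff i) := by
        rw [inc2, aeval_C]; rfl
      simp only [map_mul, map_pow, e2, e3, e4]
      rw [aeval_X, aeval_X, aeval_C]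
      show algebraMap K _ (g.coeff i) * (1 ^ (g.natDegree - i) * t ^ i) = g.coeff i • t ^ i
      rw [one_pow, one_mul, Algebra.smul_def]
    apply tf h hne
    rw [mul_one]
    exact (hiff _ _ hhom).2 hev
  · have := hint 2
    rw [aeval_X] at this
    exact this
  · have := hint 3
    rw [aeval_X] at this
    exact this
  · have := hint' 2
    rw [aeval_X] at this
    exact this
  · have := hint' 3
    rw [aeval_X] at this
    exact this

/-- Hilbert function of a prime: upper bound, growth, and the case of equality. -/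
theorem prime_bound [IsAlgClosed K] (p : Ideal (S K)) (hp : p.IsPrime) (hh : IsHom p) (tf : TF p)
    (fin : FIN p) :
    ∃ e : ℕ, 0 < e ∧ (∀ m, hf p m ≤ e * (m + 1)) ∧ (∃ C, ∀ m, e * m ≤ hf p m + C) ∧
      (∀ m, hf p m = e * (m + 1) → ∃ L, p = lineI L) := by
  obtain ⟨Λ, _, _, t, y, z, ht, hy, hz, hy', hz', hF⟩ := prime_real p hp hh tf fin
  have hhf : ∀ m, hf p m = Module.finrank K (Bm (K := K) t y z m) := by
    intro m
    have h1 : hf p m = hf (RingHom.ker (aeval ![1, t, y, z] : S K →ₐ[K] Λ)) m := by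
      apply hf_congr_high
      intro F hFm
      rw [hF m F hFm]
      rfl
    rw [h1, hf_ker]
    rfl
  obtain ⟨e, he, h1, ⟨C0, h2⟩, h3⟩ := count ht hy hz hy' hz'
  refine ⟨e, he, fun m => ?_, ⟨C0, fun m => ?_⟩, fun m hm => ?_⟩
  · rw [hhf]; exact h1 m
  · rw [hhf]; exact h2 m
  · rw [hhf] at hm
    obtain ⟨⟨a, b, hab⟩, c, d, hcd⟩ := h3 m hm
    have hle : lineI (!![a, b; c, d] : M2 K) ≤ p := by
      rw [lineI_eq_span0, Ideal.span_le]
      have hX : ∀ (i : Fin 4) (u v : K),
          (X i - (C u * X 0 + C v * X 1) : S K).IsHomogeneous 1 := by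
        intro i u v
        refine (isHomogeneous_X K i).sub (IsHomogeneous.add ?_ ?_)
        · simpa using (isHomogeneous_C (Fin 4) u).mul (isHomogeneous_X K 0)
        · simpa using (isHomogeneous_C (Fin 4) v).mul (isHomogeneous_X K 1)
      intro F hFm
      simp only [Set.mem_insert_iff, Set.mem_singleton_iff] at hFm
      rcases hFm with rfl | rfl
      · refine (hF 1 _ (hX _ _ _)).mpr ?_
        simp [hab, Matrix.cons_val_zero, Matrix.cons_val_one]
      · refine (hF 1 _ (hX _ _ _)).mpr ?_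
        simp [hcd, Matrix.cons_val_zero, Matrix.cons_val_one]
    refine ⟨!![a, b; c, d], le_antisymm ?_ hle⟩
    intro F hFp
    have hr : ∀ h : A2 K, rho (!![a, b; c, d] : M2 K) (inc2 h) = h := by
      intro h
      have : (rho (!![a, b; c, d] : M2 K)).comp (inc2 (K := K)) = AlgHom.id K (A2 K) := by
        apply MvPolynomial.algHom_ext
        intro i
        fin_cases i <;> simp [rho, inc2]
      exact DFunLike.congr_fun this h
    have h4 : F - inc2 (rho (!![a, b; c, d] : M2 K) F) ∈ lineI (!![a, b; c, d] : M2 K) := by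
      rw [lineI, RingHom.mem_ker, map_sub, hr, sub_self]
    have h5 : inc2 (rho (!![a, b; c, d] : M2 K) F) ∈ p := by
      have := p.sub_mem hFp (hle h4)
      simpa using this
    by_contra hcon
    have h6 : rho (!![a, b; c, d] : M2 K) F ≠ 0 := hcon
    have h7 : (1 : S K) ∈ p := tf _ h6 1 (by rw [mul_one]; exact h5)
    exact hp.ne_top ((Ideal.eq_top_iff_one p).mpr h7)

lemma j12619_hc_mul_X (m : ℕ) (a : S K) (i : Fin 4) :
    homogeneousComponent (m + 1) (a * X i) = homogeneousComponent m a * X i := by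
  classical
  ext d
  rw [coeff_homogeneousComponent, coeff_mul_X', coeff_mul_X']
  by_cases hi : i ∈ d.support
  · rw [if_pos hi, if_pos hi, coeff_homogeneousComponent]
    have hle : Finsupp.single i 1 ≤ d := by
      rw [Finsupp.single_le_iff]
      exact Nat.one_le_iff_ne_zero.2 (Finsupp.mem_support_iff.1 hi)
    have h1 : d - Finsupp.single i 1 + Finsupp.single i 1 = d := tsub_add_cancel_of_le hle
    have h2 := congrArg Finsupp.degree h1
    rw [map_add, Finsupp.degree_single] at h2
    by_cases hd : d.degree = m + 1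
    · rw [if_pos hd, if_pos (by omega)]
    · rw [if_neg hd, if_neg (by omega)]
  · rw [if_neg hi, if_neg hi, ite_self]

lemma j12619_hc_zero_mul_X (a : S K) (i : Fin 4) : homogeneousComponent 0 (a * X i) = 0 := by
  classical
  ext d
  rw [coeff_homogeneousComponent, coeff_mul_X']
  by_cases hi : i ∈ d.support
  · have hle : Finsupp.single i 1 ≤ d := by
      rw [Finsupp.single_le_iff]
      exact Nat.one_le_iff_ne_zero.2 (Finsupp.mem_support_iff.1 hi)
    have h1 : d - Finsupp.single i 1 + Finsupp.single i 1 = d := tsub_add_cancel_of_le hle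
    have h2 := congrArg Finsupp.degree h1
    rw [map_add, Finsupp.degree_single] at h2
    rw [if_neg (by omega)]
    simp
  · rw [if_neg hi, ite_self]
    simp

/-- the span of the small monomials -/
lemma j12619_fin_all {p : Ideal (S K)} (hh : IsHom p) {N : ℕ}
    (hN : irr K ^ N ≤ p ⊔ Ideal.span {X 0, X 1})
    (M : S K → Prop) (hadd : ∀ a, M a → ∀ b, M b → M (a + b)) (hp : ∀ a ∈ p, M a)
    (hX0 : ∀ a, M a → M (a * X 0)) (hX1 : ∀ a, M a → M (a * X 1))
    (hmon : ∀ d : Fin 4 →₀ ℕ, d.degree < N → ∀ c : K, M (monomial d c)) :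
    ∀ F : S K, M F := by
  have h0 : M (0 : S K) := hp 0 p.zero_mem
  have hsum : ∀ (ι : Type) (s : Finset ι) (f : ι → S K), (∀ i ∈ s, M (f i)) → M (∑ i ∈ s, f i) := by
    intro ι s f
    classical
    induction s using Finset.induction_on with
    | empty => intro _; simpa using h0
    | insert a s ha ih =>
      intro hf
      rw [Finset.sum_insert ha]
      exact hadd _ (hf a (Finset.mem_insert_self _ _)) _
        (ih fun i hi => hf i (Finset.mem_insert_of_mem hi))
  have key : ∀ m, ∀ F ∈ homogeneousSubmodule (Fin 4) K m, M F := by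
    intro m
    induction m using Nat.strong_induction_on with
    | _ m ih =>
      intro F hF
      have hdeg : ∀ d ∈ F.support, d.degree = m := by
        intro d hd
        have h2 := hF (mem_support_iff.1 hd)
        have h3 := DFunLike.congr_fun (Finsupp.degree_eq_weight_one (R := ℕ) (σ := Fin 4)) d
        rw [h3]
        exact h2
      rcases Nat.lt_or_ge m N with hm | hm
      · rw [F.as_sum]
        exact hsum _ _ _ fun d hd => hmon d (by rw [hdeg d hd]; exact hm) _
      · have h1 : F ∈ irr K ^ N := by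
          have h2 : F ∈ idealOfVars (Fin 4) K ^ N :=
            (mem_pow_idealOfVars_iff N F).2 fun d hd => by rw [hdeg d hd]; exact hm
          exact h2
        obtain ⟨P, hP, Q, hQ, hPQ⟩ := Submodule.mem_sup.1 (hN h1)
        obtain ⟨a, b, hab⟩ := Ideal.mem_span_pair.1 hQ
        have hFm : homogeneousComponent m F = F := by
          rw [homogeneousComponent_of_mem hF, if_pos rfl]
        rcases Nat.eq_zero_or_pos m with hm0 | hm0
        · subst hm0
          rw [← hPQ, ← hab, map_add, map_add, j12619_hc_zero_mul_X, j12619_hc_zero_mul_X, add_zero, add_zero,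
            hab, hPQ] at hFm
          rw [← hFm]
          exact hp _ (hh P hP 0)
        · obtain ⟨k, rfl⟩ : ∃ k, m = k + 1 := ⟨m - 1, by omega⟩
          rw [← hPQ, ← hab, map_add, map_add, j12619_hc_mul_X, j12619_hc_mul_X] at hFm
          rw [hab, hPQ] at hFm
          rw [← hFm]
          exact hadd _ (hp _ (hh P hP _)) _ (hadd _
            (hX0 _ (ih k (by omega) _ (homogeneousComponent_mem _ _))) _
            (hX1 _ (ih k (by omega) _ (homogeneousComponent_mem _ _))))
  intro F
  rw [← sum_homogeneousComponent F]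
  exact hsum _ _ _ fun i _ => key i _ (homogeneousComponent_mem _ _)

/-- no inclusions between such primes -/
lemma prime_incomp {p q : Ideal (S K)} (hp : p.IsPrime) (hq : q.IsPrime) (fin : FIN p)
    (hh : IsHom p) (tf : TF q) (h : p ≤ q) : p = q := by
  classical
  obtain ⟨N, hN⟩ := fin
  let _ : Algebra (A2 K) (S K ⧸ p) :=
    ((Ideal.Quotient.mk p).comp (inc2 (K := K)).toRingHom).toAlgebra
  have halg : ∀ (a : A2 K) (F : S K), a • Ideal.Quotient.mk p F = Ideal.Quotient.mk p (inc2 a * F) := by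
    intro a F
    rw [Algebra.smul_def, map_mul]
    rfl
  set T : Set (S K ⧸ p) := Set.range fun ij : Fin N × Fin N =>
    Ideal.Quotient.mk p (X 2 ^ (ij.1 : ℕ) * X 3 ^ (ij.2 : ℕ)) with hT
  have hall : ∀ F : S K, Ideal.Quotient.mk p F ∈ Submodule.span (A2 K) T := by
    refine j12619_fin_all hh hN (fun F => Ideal.Quotient.mk p F ∈ Submodule.span (A2 K) T) ?_ ?_ ?_ ?_ ?_
    · intro a ha b hb
      show Ideal.Quotient.mk p (a + b) ∈ Submodule.span (A2 K) T
      rw [map_add]
      exact Submodule.add_mem _ ha hb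
    · intro a ha
      show Ideal.Quotient.mk p a ∈ Submodule.span (A2 K) T
      rw [Ideal.Quotient.eq_zero_iff_mem.2 ha]
      exact Submodule.zero_mem _
    · intro a ha
      show Ideal.Quotient.mk p (a * X 0) ∈ Submodule.span (A2 K) T
      have h1 := Submodule.smul_mem (Submodule.span (A2 K) T) (X 0 : A2 K) ha
      rw [halg] at h1
      have h2 : inc2 (X 0 : A2 K) = (X 0 : S K) := by
        unfold inc2
        rw [aeval_X]
        rfl
      rwa [h2, mul_comm] at h1
    · intro a ha
      show Ideal.Quotient.mk p (a * X 1) ∈ Submodule.span (A2 K) T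
      have h1 := Submodule.smul_mem (Submodule.span (A2 K) T) (X 1 : A2 K) ha
      rw [halg] at h1
      have h2 : inc2 (X 1 : A2 K) = (X 1 : S K) := by
        unfold inc2
        rw [aeval_X]
        rfl
      rwa [h2, mul_comm] at h1
    · intro d hd c
      show Ideal.Quotient.mk p (monomial d c) ∈ Submodule.span (A2 K) T
      have hdeg : d.degree = d 0 + d 1 + d 2 + d 3 := by
        rw [Finsupp.degree_eq_sum, Fin.sum_univ_four]
      have h1 : (monomial d c : S K) =
          inc2 (C c * X 0 ^ d 0 * X 1 ^ d 1) * (X 2 ^ d 2 * X 3 ^ d 3) := by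
        have h2 : inc2 (C c * X 0 ^ d 0 * X 1 ^ d 1 : A2 K) = C c * X 0 ^ d 0 * X 1 ^ d 1 := by
          unfold inc2
          rw [map_mul, map_mul, map_pow, map_pow, aeval_X, aeval_X, algHom_C]
          rfl
        rw [h2, monomial_eq, Finsupp.prod_fintype _ _ (fun i => pow_zero _), Fin.prod_univ_four]
        ring
      rw [h1, ← halg]
      refine Submodule.smul_mem _ _ (Submodule.subset_span ?_)
      exact ⟨(⟨d 2, by omega⟩, ⟨d 3, by omega⟩), rfl⟩
  have hfin : Module.Finite (A2 K) (S K ⧸ p) := by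
    refine ⟨Submodule.fg_def.2 ⟨T, Set.finite_range _, ?_⟩⟩
    rw [eq_top_iff]
    intro x _
    obtain ⟨F, rfl⟩ := Ideal.Quotient.mk_surjective x
    exact hall F
  by_contra hne
  obtain ⟨u, huq, hup⟩ : ∃ u, u ∈ q ∧ u ∉ p := by
    by_contra hcon
    push Not at hcon
    exact hne (le_antisymm h hcon)
  have hint : IsIntegral (A2 K) (Ideal.Quotient.mk p u) := IsIntegral.of_finite _ _
  have hdom : IsDomain (S K ⧸ p) := Ideal.Quotient.isDomain p
  have hbot : (⊥ : Ideal (S K ⧸ p)).IsPrime := Ideal.isPrime_bot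
  have hlt := Ideal.comap_lt_comap_of_integral_mem_sdiff (R := A2 K) (I := (⊥ : Ideal (S K ⧸ p)))
    (J := q.map (Ideal.Quotient.mk p)) bot_le (x := Ideal.Quotient.mk p u)
    ⟨Ideal.mem_map_of_mem _ huq, fun h0 => hup (Ideal.Quotient.eq_zero_iff_mem.1 h0)⟩ hint
  obtain ⟨-, a, haJ, haI⟩ := SetLike.lt_iff_le_and_exists.1 hlt
  have ha0 : a ≠ 0 := by
    intro h0
    apply haI
    rw [h0]
    exact Ideal.zero_mem _
  have haq : inc2 a ∈ q := by
    have h1 : Ideal.Quotient.mk p (inc2 a) ∈ q.map (Ideal.Quotient.mk p) := haJ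
    obtain ⟨w, hw, hwa⟩ := (Ideal.mem_map_iff_of_surjective _ Ideal.Quotient.mk_surjective).1 h1
    have h2 : w - inc2 a ∈ p := Ideal.Quotient.eq.1 hwa
    have h3 : inc2 a = w - (w - inc2 a) := by ring
    rw [h3]
    exact q.sub_mem hw (h h2)
  have h1 := tf a ha0 1 (by rw [mul_one]; exact haq)
  exact hq.ne_top ((Ideal.eq_top_iff_one q).2 h1)

lemma TF_colon {I J : Ideal (S K)} (hI : TF I) : TF (I.colon (J : Set (S K))) := by
  intro h hh0 F hF
  rw [Submodule.mem_colon] at hF ⊢
  intro s hs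
  have h1 := hF s hs
  rw [smul_eq_mul] at h1 ⊢
  rw [mul_assoc] at h1
  exact hI h hh0 _ h1

lemma TF_radical {I : Ideal (S K)} (hI : TF I) : TF I.radical := by
  intro h hh0 F hF
  obtain ⟨n, hn⟩ := hF
  refine ⟨n, ?_⟩
  rw [mul_pow, ← map_pow] at hn
  exact hI (h ^ n) (pow_ne_zero n hh0) _ hn

lemma FIN_mono {I J : Ideal (S K)} (h : I ≤ J) (hI : FIN I) : FIN J := by
  obtain ⟨N, hN⟩ := hI
  exact ⟨N, hN.trans (sup_le_sup_right h _)⟩

attribute [local instance] MvPolynomial.gradedAlgebra in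
theorem j12650_minPrime_isHom (I : Ideal (S K)) (hI : IsHom I) (p : Ideal (S K))
    (hp : p ∈ I.minimalPrimes) : IsHom p := by
  have hpp : p.IsPrime := hp.1.1
  have hdec : ∀ (F : S K) (n : ℕ),
      ((DirectSum.decompose (homogeneousSubmodule (Fin 4) K) F n : S K)) =
        homogeneousComponent n F := fun F n => decomposition.decompose'_apply F n
  have hIh : I.IsHomogeneous (homogeneousSubmodule (Fin 4) K) := by
    intro n F hF
    rw [hdec]
    exact hI F hF n
  have h1 : (p.homogeneousCore (homogeneousSubmodule (Fin 4) K)).toIdeal.IsPrime :=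
    Ideal.IsPrime.homogeneousCore hpp
  have h2 : I ≤ (p.homogeneousCore (homogeneousSubmodule (Fin 4) K)).toIdeal := by
    have h3 := Ideal.homogeneousCore_mono (homogeneousSubmodule (Fin 4) K) hp.1.2
    have h4 : (I.homogeneousCore (homogeneousSubmodule (Fin 4) K)).toIdeal ≤
        (p.homogeneousCore (homogeneousSubmodule (Fin 4) K)).toIdeal := h3
    rwa [hIh.toIdeal_homogeneousCore_eq_self] at h4
  have h5 : p ≤ (p.homogeneousCore (homogeneousSubmodule (Fin 4) K)).toIdeal :=
    hp.2 ⟨h1, h2⟩ (p.toIdeal_homogeneousCore_le _)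
  intro F hF n
  have h6 := (p.homogeneousCore (homogeneousSubmodule (Fin 4) K)).isHomogeneous n (h5 hF)
  rw [hdec] at h6
  exact (p.toIdeal_homogeneousCore_le (homogeneousSubmodule (Fin 4) K)) h6

/-- minimal primes of a homogeneous, torsion free, finite ideal -/
theorem exists_primes (I : Ideal (S K)) (hI : IsHom I) (tf : TF I) (fin : FIN I) :
    ∃ (n : ℕ) (p : Fin n → Ideal (S K)), (∀ c, (p c).IsPrime ∧ IsHom (p c) ∧ TF (p c) ∧ FIN (p c)) ∧
      (∀ c c', p c ≤ p c' → c = c') ∧ I.radical = ⨅ c, p c ∧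
      (∀ q : Ideal (S K), q.IsPrime → I ≤ q → ∃ c, p c ≤ q) := by
  classical
  have hfin : I.minimalPrimes.Finite := I.finite_minimalPrimes_of_isNoetherianRing (S K)
  let e := hfin.toFinset.equivFin
  refine ⟨hfin.toFinset.card, fun c => (e.symm c).1, ?_, ?_, ?_, ?_⟩
  · intro c
    have hp : (e.symm c).1 ∈ I.minimalPrimes := hfin.mem_toFinset.1 (e.symm c).2
    have hpp : (e.symm c).1.IsPrime := hp.1.1
    refine ⟨hpp, j12650_minPrime_isHom I hI _ hp, ?_, FIN_mono hp.1.2 fin⟩
    intro h hh F hF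
    rcases hpp.mem_or_mem hF with h1 | h1
    · exfalso
      obtain ⟨y, hy, hxy⟩ := Ideal.exists_mul_mem_of_mem_minimalPrimes hp h1
      exact hy (tf h hh y hxy)
    · exact h1
  · intro c c' hcc
    have hp : (e.symm c).1 ∈ I.minimalPrimes := hfin.mem_toFinset.1 (e.symm c).2
    have hp' : (e.symm c').1 ∈ I.minimalPrimes := hfin.mem_toFinset.1 (e.symm c').2
    have h1 : (e.symm c).1 = (e.symm c').1 := le_antisymm hcc (hp'.2 hp.1 hcc)
    exact e.symm.injective (Subtype.ext h1)
  · rw [← Ideal.sInf_minimalPrimes, sInf_eq_iInf']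
    apply le_antisymm
    · apply le_iInf
      intro c
      exact iInf_le (fun a : I.minimalPrimes => (a : Ideal (S K)))
        ⟨(e.symm c).1, hfin.mem_toFinset.1 (e.symm c).2⟩
    · apply le_iInf
      intro a
      have h1 : (⨅ c, ((e.symm c).1 : Ideal (S K))) ≤
          (e.symm (e ⟨a.1, hfin.mem_toFinset.2 a.2⟩)).1 := iInf_le _ _
      rw [Equiv.symm_apply_apply] at h1
      exact h1
  · intro q hq hIq
    obtain ⟨p, hp, hpq⟩ := Ideal.exists_minimalPrimes_le hIq
    refine ⟨e ⟨p, hfin.mem_toFinset.2 hp⟩, ?_⟩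
    simpa using hpq

/-- the radical of `(I : √I)` -/
theorem radical_colon (I : Ideal (S K)) (hI : IsHom I) (tf : TF I) (fin : FIN I)
    {n : ℕ} (p : Fin n → Ideal (S K))
    (hp : ∀ c, (p c).IsPrime ∧ IsHom (p c) ∧ TF (p c) ∧ FIN (p c))
    (hq : ∀ q : Ideal (S K), q.IsPrime → I ≤ q → ∃ c, p c ≤ q) :
    (I.colon (I.radical : Set (S K))).radical =
      ⨅ c : {c : Fin n // I.colon (I.radical : Set (S K)) ≤ p c}, p c.1 := by
  have hIJ : I ≤ I.colon (I.radical : Set (S K)) := by
    intro x hx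
    rw [Submodule.mem_colon]
    intro y _
    rw [smul_eq_mul]
    exact I.mul_mem_right y hx
  obtain ⟨m, q, hqp, _, hrad, _⟩ := exists_primes (I.colon (I.radical : Set (S K)))
    (isHom_colon hI (isHom_radical hI)) (TF_colon tf) (FIN_mono hIJ fin)
  apply le_antisymm
  · refine le_iInf fun c => ?_
    exact (hp c.1).1.radical_le_iff.2 c.2
  · rw [hrad]
    refine le_iInf fun j => ?_
    have hJq : I.colon (I.radical : Set (S K)) ≤ q j := by
      refine le_trans Ideal.le_radical ?_
      rw [hrad]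
      exact iInf_le _ j
    obtain ⟨c, hc⟩ := hq (q j) (hqp j).1 (hIJ.trans hJq)
    have heq : p c = q j := prime_incomp (hp c).1 (hqp j).1 (hp c).2.2.2 (hp c).2.1 (hqp j).2.2.1 hc
    rw [← heq] at hJq ⊢
    exact iInf_le (fun c : {c : Fin n // I.colon (I.radical : Set (S K)) ≤ p c} => p c.1) ⟨c, hJq⟩

lemma j12698_hf_eq_quot_aux (I : Ideal (S K)) (m : ℕ) :
    hf I m = Module.finrank K (homogeneousSubmodule (Fin 4) K m ⧸
      (dg I m).comap (homogeneousSubmodule (Fin 4) K m).subtype) := by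
  have h1 := Submodule.finrank_quotient_add_finrank
    ((dg I m).comap (homogeneousSubmodule (Fin 4) K m).subtype)
  have h2 : Module.finrank K ((dg I m).comap (homogeneousSubmodule (Fin 4) K m).subtype) =
      Module.finrank K (dg I m) :=
    (Submodule.comapSubtypeEquivOfLe (inf_le_right : dg I m ≤ _)).finrank_eq
  unfold hf
  omega

lemma j12698_exists_hom_notMem_aux {I J : Ideal (S K)} (hI : IsHom I) (h : ¬ I ≤ J) :
    ∃ (k : ℕ) (F : S K), F.IsHomogeneous k ∧ F ∈ I ∧ F ∉ J := by
  by_contra hcon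
  push Not at hcon
  exact h (le_of_hom hI fun k F hF hFI => hcon k F hF hFI)

lemma j12698_exists_sep_aux {n : ℕ} (p : Fin n → Ideal (S K))
    (hp : ∀ c, (p c).IsPrime ∧ IsHom (p c))
    (hinc : ∀ c c', p c ≤ p c' → c = c') (c : Fin n) :
    ∃ (D : ℕ) (u : S K), u.IsHomogeneous D ∧ (∀ c', c' ≠ c → u ∈ p c') ∧ u ∉ p c := by
  have h1 : ∀ c' : Fin n, ∃ (k : ℕ) (F : S K), F.IsHomogeneous k ∧ (c' ≠ c → F ∈ p c') ∧ F ∉ p c := by
    intro c'
    by_cases hc : c' = c
    · refine ⟨0, 1, isHomogeneous_one _ _, fun h => absurd hc h, ?_⟩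
      intro h
      exact (hp c).1.ne_top ((Ideal.eq_top_iff_one _).2 h)
    · obtain ⟨k, F, h1, h2, h3⟩ := j12698_exists_hom_notMem_aux (hp c').2
        (fun h => hc (hinc c' c h) : ¬ p c' ≤ p c)
      exact ⟨k, F, h1, fun _ => h2, h3⟩
  choose k F hF1 hF2 hF3 using h1
  refine ⟨∑ c', k c', ∏ c', F c', IsHomogeneous.prod _ _ _ fun c' _ => hF1 c', ?_, ?_⟩
  · intro c' hc'
    exact Ideal.mem_of_dvd _ (Finset.dvd_prod_of_mem F (Finset.mem_univ c')) (hF2 c' hc')
  · intro h
    have := (hp c).1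
    rw [Ideal.IsPrime.prod_mem_iff] at h
    obtain ⟨c', _, hc'⟩ := h
    exact hF3 c' hc'

lemma j12698_hf_sum_le_aux {n : ℕ} (p : Fin n → Ideal (S K))
    (hp : ∀ c, (p c).IsPrime ∧ IsHom (p c)) (D : Fin n → ℕ) (u : Fin n → S K)
    (hu1 : ∀ c, (u c).IsHomogeneous (D c)) (hu2 : ∀ c c', c' ≠ c → u c ∈ p c')
    (hu3 : ∀ c, u c ∉ p c) (m : ℕ) (hm : ∀ c, D c ≤ m) :
    ∑ c, hf (p c) (m - D c) ≤ hf (⨅ c, p c) m := by
  -- the linear map
  let Φ0 : (∀ c : Fin n, homogeneousSubmodule (Fin 4) K (m - D c)) →ₗ[K] S K :=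
    ∑ c : Fin n, (LinearMap.mulLeft K (u c)) ∘ₗ
      (homogeneousSubmodule (Fin 4) K (m - D c)).subtype ∘ₗ LinearMap.proj c
  have hΦ0 : ∀ s, Φ0 s = ∑ c, u c * (s c : S K) := by
    intro s
    simp [Φ0, LinearMap.sum_apply]
  have hΦhom : ∀ s, Φ0 s ∈ homogeneousSubmodule (Fin 4) K m := by
    intro s
    rw [hΦ0]
    refine Submodule.sum_mem _ fun c _ => ?_
    rw [mem_homogeneousSubmodule]
    have := (hu1 c).mul ((mem_homogeneousSubmodule _ _).1 (s c).2)
    rwa [Nat.add_sub_cancel' (hm c)] at this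
  let Φ : (∀ c : Fin n, homogeneousSubmodule (Fin 4) K (m - D c)) →ₗ[K]
      homogeneousSubmodule (Fin 4) K m := Φ0.codRestrict _ hΦhom
  let Q := (dg (⨅ c, p c) m).comap (homogeneousSubmodule (Fin 4) K m).subtype
  let A : ∀ c : Fin n, Submodule K (homogeneousSubmodule (Fin 4) K (m - D c)) := fun c =>
    (dg (p c) (m - D c)).comap (homogeneousSubmodule (Fin 4) K (m - D c)).subtype
  let f := Q.mkQ ∘ₗ Φ
  have hker : LinearMap.ker f = Submodule.pi Set.univ A := by
    ext s
    rw [LinearMap.mem_ker]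
    simp only [f, LinearMap.comp_apply, Submodule.mkQ_apply, Submodule.Quotient.mk_eq_zero]
    rw [Submodule.mem_pi]
    constructor
    · intro h c _
      have h1 : Φ0 s ∈ (⨅ c, p c : Ideal (S K)) := h.1
      rw [Ideal.mem_iInf] at h1
      have h2 := h1 c
      rw [hΦ0, ← Finset.add_sum_erase _ _ (Finset.mem_univ c)] at h2
      have h3 : ∑ c' ∈ Finset.univ.erase c, u c' * (s c' : S K) ∈ p c := by
        refine Ideal.sum_mem _ fun c' hc' => ?_
        exact Ideal.mul_mem_right _ _ (hu2 c' c (Finset.ne_of_mem_erase hc').symm)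
      have h4 : u c * (s c : S K) ∈ p c := by
        have := (p c).sub_mem h2 h3
        simpa using this
      rcases (hp c).1.mem_or_mem h4 with h5 | h5
      · exact absurd h5 (hu3 c)
      · exact ⟨h5, (s c).2⟩
    · intro h
      refine ⟨?_, hΦhom s⟩
      show Φ0 s ∈ (⨅ c, p c : Ideal (S K))
      rw [Ideal.mem_iInf]
      intro c
      rw [hΦ0]
      refine Ideal.sum_mem _ fun c' _ => ?_
      by_cases hc : c' = c
      · subst hc
        exact Ideal.mul_mem_left _ _ (h c' (Set.mem_univ _)).1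
      · exact Ideal.mul_mem_right _ _ (hu2 c' c (fun h => hc h.symm))
  have h1 : Module.finrank K ((∀ c : Fin n, homogeneousSubmodule (Fin 4) K (m - D c)) ⧸
      Submodule.pi Set.univ A) = ∑ c, hf (p c) (m - D c) := by
    have i1 : ∀ i, Module.Free K ((homogeneousSubmodule (Fin 4) K (m - D i)) ⧸ A i) := fun i =>
      Module.Free.of_divisionRing K _
    have i2 : ∀ i, Module.Finite K ((homogeneousSubmodule (Fin 4) K (m - D i)) ⧸ A i) := fun i =>
      inferInstance
    rw [(Submodule.quotientPi A).finrank_eq, Module.finrank_pi_fintype]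
    exact Finset.sum_congr rfl fun c _ => (j12698_hf_eq_quot_aux (p c) (m - D c)).symm
  rw [← h1, ← hker, j12698_hf_eq_quot_aux, f.quotKerEquivRange.finrank_eq]
  exact Submodule.finrank_le _

/-- growth of an intersection of incomparable primes -/
theorem growth_iInf {n : ℕ} (p : Fin n → Ideal (S K)) (e : Fin n → ℕ)
    (hp : ∀ c, (p c).IsPrime ∧ IsHom (p c))
    (hinc : ∀ c c', p c ≤ p c' → c = c')
    (he : ∀ c, ∃ C, ∀ m, e c * m ≤ hf (p c) m + C) :
    ∃ C, ∀ m, (∑ c, e c) * m ≤ hf (⨅ c, p c) m + C := by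
  choose D u hu1 hu2 hu3 using j12698_exists_sep_aux p hp hinc
  choose C hC using he
  refine ⟨∑ c, C c + (∑ c, e c) * ∑ c, D c, fun m => ?_⟩
  by_cases hm : ∀ c, D c ≤ m
  · have h1 := j12698_hf_sum_le_aux p hp D u hu1 hu2 hu3 m hm
    have h2 : ∀ c, e c * m ≤ hf (p c) (m - D c) + C c + e c * D c := by
      intro c
      have h3 := hC c (m - D c)
      have h4 : e c * m = e c * (m - D c) + e c * D c := by
        rw [← Nat.mul_add, Nat.sub_add_cancel (hm c)]
      omega
    calc (∑ c, e c) * m = ∑ c, e c * m := by rw [Finset.sum_mul]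
      _ ≤ ∑ c, (hf (p c) (m - D c) + C c + e c * D c) := Finset.sum_le_sum fun c _ => h2 c
      _ = ∑ c, hf (p c) (m - D c) + ∑ c, C c + ∑ c, e c * D c := by
          rw [Finset.sum_add_distrib, Finset.sum_add_distrib]
      _ ≤ hf (⨅ c, p c) m + ∑ c, C c + (∑ c, e c) * ∑ c, D c := by
          gcongr
          rw [Finset.sum_mul_sum]
          exact Finset.sum_le_sum fun c _ =>
            Finset.single_le_sum (f := fun j => e c * D j) (fun _ _ => Nat.zero_le _) (Finset.mem_univ c)
      _ = _ := by ring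
  · push Not at hm
    obtain ⟨c, hc⟩ := hm
    have h1 : m ≤ ∑ c, D c := hc.le.trans
      (Finset.single_le_sum (f := D) (fun _ _ => Nat.zero_le _) (Finset.mem_univ c))
    have h2 : (∑ c, e c) * m ≤ (∑ c, e c) * ∑ c, D c := Nat.mul_le_mul_left _ h1
    omega

lemma j12704_gn_ch {A : Type} [CommRing A] [IsNoetherianRing A] (I R P : Ideal A) (hP : P.IsPrime)
    (hIR : I ≤ R) (hD : ∀ a : A, (∀ r ∈ R, a * r ∈ I) → a ∈ P) (s : A)
    (hs : ∀ r ∈ R, s * r ∈ P * R ⊔ I) : s ∈ P := by
  classical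
  let N : Submodule A R := Submodule.comap (Submodule.subtype R) I
  let f : Module.End A (R ⧸ N) := algebraMap A (Module.End A (R ⧸ N)) s
  have hmem : ∀ a ∈ P * R, ∃ haR : a ∈ R, N.mkQ ⟨a, haR⟩ ∈ P • (⊤ : Submodule A (R ⧸ N)) := by
    intro a ha
    refine Submodule.mul_induction_on ha ?_ ?_
    · intro x hx y hy
      refine ⟨Ideal.mul_mem_left _ _ hy, ?_⟩
      have h1 : N.mkQ ⟨x * y, Ideal.mul_mem_left _ _ hy⟩ = x • N.mkQ ⟨y, hy⟩ := by
        rw [← map_smul]; rfl
      rw [h1]
      exact Submodule.smul_mem_smul hx Submodule.mem_top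
    · rintro x y ⟨hx, hx'⟩ ⟨hy, hy'⟩
      refine ⟨R.add_mem hx hy, ?_⟩
      have h1 : N.mkQ ⟨x + y, R.add_mem hx hy⟩ = N.mkQ ⟨x, hx⟩ + N.mkQ ⟨y, hy⟩ := by
        rw [← map_add]; rfl
      rw [h1]
      exact Submodule.add_mem _ hx' hy'
  have hrange : LinearMap.range f ≤ P • (⊤ : Submodule A (R ⧸ N)) := by
    rintro _ ⟨x, rfl⟩
    obtain ⟨w, rfl⟩ := N.mkQ_surjective x
    rw [Module.algebraMap_end_apply]
    obtain ⟨a, ha, b, hb, hab⟩ := Submodule.mem_sup.mp (hs w w.2)
    obtain ⟨haR, ha'⟩ := hmem a ha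
    have h1 : s • N.mkQ w = N.mkQ ⟨a, haR⟩ := by
      rw [← map_smul, Submodule.mkQ_apply, Submodule.mkQ_apply, Submodule.Quotient.eq]
      show (s • (w : A) - a) ∈ I
      rw [smul_eq_mul, ← hab, add_sub_cancel_left]
      exact hb
    rw [h1]
    exact ha'
  obtain ⟨p, hmonic, -, hcoeff, haev⟩ :=
    LinearMap.exists_monic_and_natDegree_eq_and_coeff_mem_pow_and_aeval_eq_zero A f P hrange
  have hev : p.eval s ∈ P := by
    apply hD
    intro r hr
    have h1 : (Polynomial.aeval f p) (N.mkQ ⟨r, hr⟩) = 0 := by rw [haev]; rfl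
    have h2 : Polynomial.aeval f p = algebraMap A (Module.End A (R ⧸ N)) (Polynomial.aeval s p) :=
      Polynomial.aeval_algebraMap_apply _ _ _
    rw [h2, Module.algebraMap_end_apply, ← map_smul, Submodule.mkQ_apply,
      Submodule.Quotient.mk_eq_zero] at h1
    have h3 : (Polynomial.aeval s p) * r ∈ I := h1
    rwa [Polynomial.coe_aeval_eq_eval] at h3
  rw [Polynomial.eval_eq_sum_range, Finset.sum_range_succ, hmonic.coeff_natDegree, one_mul] at hev
  have hsum : ∑ k ∈ Finset.range p.natDegree, p.coeff k * s ^ k ∈ P := by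
    refine Ideal.sum_mem _ fun k hk => ?_
    refine Ideal.mul_mem_right _ _ ?_
    exact Ideal.pow_le_self (Nat.sub_ne_zero_of_lt (Finset.mem_range.mp hk)) (hcoeff k)
  exact hP.mem_of_pow_mem _ ((Ideal.add_mem_iff_right _ hsum).mp hev)

lemma j12704_gn_prod {A ι : Type} [CommRing A] (P J : Ideal A) (hP : P.IsPrime) (f : ι → A) (T : Finset ι)
    (h : ∀ i ∈ T, ∃ s, s ∉ P ∧ s * f i ∈ J) : ∃ s, s ∉ P ∧ ∀ i ∈ T, s * f i ∈ J := by
  classical
  induction T using Finset.induction_on with
  | empty => exact ⟨1, (Ideal.ne_top_iff_one P).mp hP.ne_top, by simp⟩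
  | insert i T hi ih =>
    obtain ⟨s, hs, hs'⟩ := ih fun j hj => h j (Finset.mem_insert_of_mem hj)
    obtain ⟨t, ht, ht'⟩ := h i (Finset.mem_insert_self _ _)
    refine ⟨s * t, fun hst => ?_, ?_⟩
    · rcases hP.mem_or_mem hst with h1 | h1
      · exact hs h1
      · exact ht h1
    · intro j hj
      rcases Finset.mem_insert.mp hj with rfl | hj
      · have : s * t * f j = s * (t * f j) := by ring
        rw [this]; exact Ideal.mul_mem_left _ _ ht'
      · have : s * t * f j = t * (s * f j) := by ring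
        rw [this]; exact Ideal.mul_mem_left _ _ (hs' j hj)

lemma j12704_gn_v (I : Ideal (S K)) (hI : IsHom I) (P : Ideal (S K)) (hP : P.IsPrime)
    (hD : I.colon (I.radical : Set (S K)) ≤ P) :
    ∃ (d : ℕ) (w : S K), w.IsHomogeneous d ∧ w ∈ I.radical ∧
      ∀ s, s * w ∈ P * I.radical ⊔ I → s ∈ P := by
  classical
  by_contra hcon
  push Not at hcon
  set J : Ideal (S K) := P * I.radical ⊔ I with hJ
  have hR := isHom_radical hI
  have h1 : ∀ w ∈ I.radical, ∃ s, s ∉ P ∧ s * w ∈ J := by
    intro w hw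
    obtain ⟨s, hs, hs'⟩ := j12704_gn_prod P J hP (fun n => homogeneousComponent n w)
      (Finset.range (w.totalDegree + 1)) (fun n _ => by
        obtain ⟨s, hs1, hs2⟩ := hcon n _ (homogeneousComponent_isHomogeneous n w) (hR w hw n)
        exact ⟨s, hs2, hs1⟩)
    refine ⟨s, hs, ?_⟩
    rw [← sum_homogeneousComponent w, Finset.mul_sum]
    exact Ideal.sum_mem _ hs'
  obtain ⟨T, hT⟩ := (isNoetherianRing_iff_ideal_fg (S K)).mp inferInstance I.radical
  have hTR : ∀ w ∈ T, w ∈ I.radical := fun w hw => by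
    rw [← hT]; exact Submodule.subset_span hw
  obtain ⟨s, hs, hs'⟩ := j12704_gn_prod P J hP (fun w => w) T (fun w hw => h1 w (hTR w hw))
  have hall : ∀ r ∈ I.radical, s * r ∈ J := by
    intro r hr
    have hle : I.radical ≤ Submodule.comap (LinearMap.mulLeft (S K) s) J := by
      conv_lhs => rw [← hT]
      refine Submodule.span_le.mpr ?_
      intro w hw
      exact hs' w hw
    exact hle hr
  refine hs (j12704_gn_ch I I.radical P hP Ideal.le_radical ?_ s hall)
  intro a ha
  apply hD
  rw [Submodule.mem_colon]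
  intro r hr
  exact ha r hr

lemma j12704_gn_u {n : ℕ} (p : Fin n → Ideal (S K)) (hp : ∀ c, (p c).IsPrime ∧ IsHom (p c))
    (hinc : ∀ c c', p c ≤ p c' → c = c') (c : Fin n) :
    ∃ (d : ℕ) (u : S K), u.IsHomogeneous d ∧ u ∉ p c ∧ ∀ c', c' ≠ c → u ∈ p c' := by
  classical
  have h1 : ∀ c', c' ≠ c → ∃ (d : ℕ) (F : S K), F.IsHomogeneous d ∧ F ∈ p c' ∧ F ∉ p c := by
    intro c' hc'
    by_contra hcon
    push Not at hcon
    exact hc' (hinc c' c (le_of_hom (hp c').2 hcon))
  choose! d F hF1 hF2 hF3 using h1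
  refine ⟨∑ c' ∈ Finset.univ.erase c, d c', ∏ c' ∈ Finset.univ.erase c, F c',
    IsHomogeneous.prod _ _ _ fun c' hc' => hF1 c' (Finset.ne_of_mem_erase hc'), ?_, ?_⟩
  · rw [(hp c).1.prod_mem_iff]
    rintro ⟨c', hc', hm⟩
    exact hF3 c' (Finset.ne_of_mem_erase hc') hm
  · intro c' hc'
    exact Ideal.mem_of_dvd _ (Finset.dvd_prod_of_mem F (Finset.mem_erase.mpr ⟨hc', Finset.mem_univ _⟩))
      (hF2 c' hc')

/-- the dimension count -/
lemma j12704_gn_dim (I R : Ideal (S K)) (hIR : I ≤ R) {n : ℕ} (p : Fin n → Ideal (S K))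
    (g : Fin n → S K) (t : Fin n → ℕ) (hg : ∀ c, (g c).IsHomogeneous (t c)) (hgR : ∀ c, g c ∈ R)
    (hker : ∀ s : Fin n → S K, ∑ c, s c * g c ∈ I → ∀ c, s c ∈ p c) (m : ℕ) (hm : ∀ c, t c ≤ m) :
    ∑ c, hf (p c) (m - t c) + hf R m ≤ hf I m := by
  classical
  let Ψ : (∀ c : Fin n, homogeneousSubmodule (Fin 4) K (m - t c)) →ₗ[K] S K :=
    ∑ c, (LinearMap.mulRight K (g c)).comp
      ((homogeneousSubmodule (Fin 4) K (m - t c)).subtype.comp (LinearMap.proj c))
  have hΨ : ∀ s, Ψ s = ∑ c, (s c : S K) * g c := by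
    intro s
    simp [Ψ, LinearMap.sum_apply]
  let Θ : ((∀ c : Fin n, homogeneousSubmodule (Fin 4) K (m - t c)) × dg I m) →ₗ[K] S K :=
    Ψ.coprod (dg I m).subtype
  have hΘ : ∀ x, Θ x = Ψ x.1 + (x.2 : S K) := fun x => LinearMap.coprod_apply _ _ _
  have hrange : LinearMap.range Θ ≤ dg R m := by
    rintro _ ⟨x, rfl⟩
    rw [hΘ, hΨ]
    refine Submodule.add_mem _ (Submodule.sum_mem _ fun c _ => ?_) ?_
    · refine ⟨Ideal.mul_mem_left _ _ (hgR c), ?_⟩
      have h1 : (x.1 c : S K).IsHomogeneous (m - t c) := (mem_homogeneousSubmodule _ _).mp (x.1 c).2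
      have h2 := h1.mul (hg c)
      rw [Nat.sub_add_cancel (hm c)] at h2
      exact (mem_homogeneousSubmodule _ _).mpr h2
    · exact ⟨hIR x.2.2.1, x.2.2.2⟩
  have hkm : ∀ x : LinearMap.ker Θ, ∀ c, ((x.1.1 c : S K)) ∈ dg (p c) (m - t c) := by
    intro x c
    refine ⟨?_, (x.1.1 c).2⟩
    have h1 : Θ x.1 = 0 := x.2
    rw [hΘ, hΨ] at h1
    refine hker (fun c => (x.1.1 c : S K)) ?_ c
    have h2 : ∑ c, (x.1.1 c : S K) * g c = -(x.1.2 : S K) := eq_neg_of_add_eq_zero_left h1
    rw [h2]
    exact I.neg_mem x.1.2.2.1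
  let j : LinearMap.ker Θ →ₗ[K] (∀ c : Fin n, dg (p c) (m - t c)) :=
    LinearMap.pi fun c => LinearMap.codRestrict (dg (p c) (m - t c))
      ((homogeneousSubmodule (Fin 4) K (m - t c)).subtype.comp ((LinearMap.proj c).comp
        ((LinearMap.fst K _ _).comp (LinearMap.ker Θ).subtype))) (fun x => hkm x c)
  have hj : Function.Injective j := by
    intro x y hxy
    have h1 : ∀ c, (x.1.1 c : S K) = (y.1.1 c : S K) := fun c =>
      congrArg (fun z : (∀ c : Fin n, dg (p c) (m - t c)) => (z c : S K)) hxy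
    have h2 : x.1.1 = y.1.1 := by
      funext c
      exact Subtype.ext (h1 c)
    have hx : Θ x.1 = 0 := x.2
    have hy : Θ y.1 = 0 := y.2
    rw [hΘ] at hx hy
    have h3 : x.1.2 = y.1.2 := by
      apply Subtype.ext
      rw [h2] at hx
      have := hx.trans hy.symm
      exact add_left_cancel this
    exact Subtype.ext (Prod.ext h2 h3)
  have hk1 : Module.finrank K (LinearMap.ker Θ) ≤ ∑ c, Module.finrank K (dg (p c) (m - t c)) := by
    have := LinearMap.finrank_le_finrank_of_injective hj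
    rwa [Module.finrank_pi_fintype] at this
  have hr1 : Module.finrank K (LinearMap.range Θ) ≤ Module.finrank K (dg R m) :=
    Submodule.finrank_mono hrange
  have hrn := LinearMap.finrank_range_add_finrank_ker Θ
  rw [Module.finrank_prod, Module.finrank_pi_fintype] at hrn
  have hs : ∑ c, Module.finrank K (dg (p c) (m - t c)) + ∑ c, hf (p c) (m - t c) =
      ∑ c, Module.finrank K (homogeneousSubmodule (Fin 4) K (m - t c)) := by
    rw [← Finset.sum_add_distrib]
    exact Finset.sum_congr rfl fun c _ => hf_add _ _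
  have hR := hf_add R m
  have hII := hf_add I m
  omega

/-- growth of `√I / I` -/
theorem growth_nil (I : Ideal (S K)) (hI : IsHom I) {n : ℕ} (p : Fin n → Ideal (S K))
    (e : Fin n → ℕ) (hp : ∀ c, (p c).IsPrime ∧ IsHom (p c))
    (hinc : ∀ c c', p c ≤ p c' → c = c')
    (hD : ∀ c, I.colon (I.radical : Set (S K)) ≤ p c)
    (he : ∀ c, ∃ C, ∀ m, e c * m ≤ hf (p c) m + C) :
    ∃ C, ∀ m, (∑ c, e c) * m + hf I.radical m ≤ hf I m + C := by
  classical
  have hv := fun c => j12704_gn_v I hI (p c) (hp c).1 (hD c)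
  choose a v hv1 hv2 hv3 using hv
  have hu := j12704_gn_u p hp hinc
  choose b u hu1 hu2 hu3 using hu
  choose C hC using he
  have hIR : I ≤ I.radical := Ideal.le_radical
  have hker : ∀ s : Fin n → S K, ∑ c, s c * (u c * v c) ∈ I → ∀ c, s c ∈ p c := by
    intro s hs c
    have h1 : s c * u c * v c ∈ p c * I.radical ⊔ I := by
      have h2 : s c * u c * v c = (-∑ c' ∈ Finset.univ.erase c, s c' * (u c' * v c')) +
          ∑ c', s c' * (u c' * v c') := by
        rw [← Finset.add_sum_erase Finset.univ _ (Finset.mem_univ c)]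
        ring
      rw [h2]
      refine Submodule.add_mem_sup ?_ hs
      refine Submodule.neg_mem _ (Ideal.sum_mem _ fun c' hc' => ?_)
      have h3 : s c' * (u c' * v c') = (s c' * u c') * v c' := by ring
      rw [h3]
      exact Ideal.mul_mem_mul (Ideal.mul_mem_left _ _ (hu3 c' c (Finset.ne_of_mem_erase hc').symm)) (hv2 c')
    rcases (hp c).1.mem_or_mem (hv3 c _ h1) with h4 | h4
    · exact h4
    · exact absurd h4 (hu2 c)
  set t : Fin n → ℕ := fun c => b c + a c with ht
  have hdim := j12704_gn_dim I I.radical hIR p (fun c => u c * v c) t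
    (fun c => (hu1 c).mul (hv1 c)) (fun c => Ideal.mul_mem_left _ _ (hv2 c)) hker
  refine ⟨∑ c, C c + (∑ c, e c) * (∑ c, t c), ?_⟩
  intro m
  have htT : ∀ c, t c ≤ ∑ c, t c := fun c => Finset.single_le_sum (fun _ _ => Nat.zero_le _) (Finset.mem_univ c)
  by_cases hm : ∀ c, t c ≤ m
  · have h1 := hdim m hm
    have h2 : (∑ c, e c) * m ≤ ∑ c, hf (p c) (m - t c) + ∑ c, C c + (∑ c, e c) * (∑ c, t c) := by
      rw [Finset.sum_mul, Finset.sum_mul, ← Finset.sum_add_distrib, ← Finset.sum_add_distrib]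
      refine Finset.sum_le_sum fun c _ => ?_
      have h3 := hC c (m - t c)
      have h4 : e c * m = e c * (m - t c) + e c * t c := by
        rw [← Nat.mul_add, Nat.sub_add_cancel (hm c)]
      have h5 : e c * t c ≤ e c * (∑ c, t c) := Nat.mul_le_mul_left _ (htT c)
      omega
    omega
  · push Not at hm
    obtain ⟨c, hc⟩ := hm
    have h1 : m ≤ ∑ c, t c := hc.le.trans (htT c)
    have h2 : (∑ c, e c) * m ≤ (∑ c, e c) * (∑ c, t c) := Nat.mul_le_mul_left _ h1
    have h3 := hf_anti hIR m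
    omega

lemma j12706_growth_nil_eq_ch {R : Type} [CommRing R] [IsNoetherianRing R] (I J D P : Ideal R)
    (hP : P.IsPrime) (hIJ : I ≤ J) (hDP : D ≤ P) (hcol : I.colon (J : Set R) ≤ P) :
    (D * J ⊔ I).colon (J : Set R) ≤ P := by
  intro s hs
  rw [Submodule.mem_colon] at hs
  obtain ⟨N, hN⟩ : ∃ N : Submodule R (R ⧸ I), N = Submodule.map I.mkQ J := ⟨_, rfl⟩
  have hfin : Module.Finite R N := inferInstance
  obtain ⟨f, hf⟩ : ∃ f : Module.End R N, f = algebraMap R (Module.End R N) s := ⟨_, rfl⟩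
  have hfapp : ∀ x : N, f x = s • x := by
    intro x; rw [hf]; rfl
  have hrange : LinearMap.range f ≤ D • (⊤ : Submodule R N) := by
    rintro _ ⟨x, rfl⟩
    rw [hfapp]
    have hx : (x : R ⧸ I) ∈ Submodule.map I.mkQ J := by rw [← hN]; exact x.2
    obtain ⟨j, hj, hjx⟩ := hx
    have h1 := hs j hj
    rw [Submodule.mem_sup] at h1
    obtain ⟨a, ha, i, hi, hai⟩ := h1
    have h2 : ((s • x : N) : R ⧸ I) = I.mkQ a := by
      rw [Submodule.coe_smul, ← hjx, ← map_smul, ← hai, map_add]
      have h3 : I.mkQ i = 0 := by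
        rw [Submodule.mkQ_apply, Submodule.Quotient.mk_eq_zero]; exact hi
      rw [h3, add_zero]
    have h4 : I.mkQ a ∈ D • N := by
      rw [hN, ← Submodule.map_smul'']
      exact Submodule.mem_map_of_mem ha
    have h5 : D • N = Submodule.map N.subtype (D • (⊤ : Submodule R N)) := by
      rw [Submodule.map_smul'', Submodule.map_subtype_top]
    rw [h5, ← h2] at h4
    obtain ⟨y, hy, hyx⟩ := h4
    have h6 : y = s • x := Subtype.ext hyx
    rw [← h6]; exact hy
  obtain ⟨q, hq, -, hcoef, haev⟩ :=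
    LinearMap.exists_monic_and_natDegree_eq_and_coeff_mem_pow_and_aeval_eq_zero R f D hrange
  have h7 : q.eval s ∈ I.colon (J : Set R) := by
    rw [Submodule.mem_colon]
    intro j hj
    have h8 : Polynomial.aeval f q = algebraMap R (Module.End R N) (q.eval s) := by
      rw [hf, Polynomial.aeval_algebraMap_apply]
      simp
    rw [haev] at h8
    have hjN : I.mkQ j ∈ N := by rw [hN]; exact Submodule.mem_map_of_mem hj
    have h9 := congrArg (fun g : Module.End R N => ((g ⟨I.mkQ j, hjN⟩ : N) : R ⧸ I)) h8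
    have h10 : I.mkQ (q.eval s • j) = 0 := by
      rw [map_smul]
      exact h9.symm
    rw [Submodule.mkQ_apply, Submodule.Quotient.mk_eq_zero] at h10
    exact h10
  have h11 := hcol h7
  rw [Polynomial.eval_eq_sum_range, Finset.sum_range_succ, hq.coeff_natDegree, one_mul] at h11
  have h12 : ∑ k ∈ Finset.range q.natDegree, q.coeff k * s ^ k ∈ P := by
    refine P.sum_mem fun k hk => ?_
    have hk' : k < q.natDegree := Finset.mem_range.1 hk
    have h13 : q.coeff k ∈ D := Ideal.pow_le_self (by omega) (hcoef k)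
    exact P.mul_mem_right _ (hDP h13)
  have h14 : s ^ q.natDegree ∈ P := (P.add_mem_iff_right h12).1 h11
  exact hP.mem_of_pow_mem _ h14

lemma j12706_growth_nil_eq_inj {K : Type} [Field K] (B : ℕ) (c : Fin (B + 1) → K)
    (h : ∑ i, C (c i) * X 0 ^ (i : ℕ) * X 1 ^ (B - (i : ℕ)) = (0 : A2 K)) : c = 0 := by
  funext j
  have h1 := congrArg (coeff (Finsupp.single 0 (j : ℕ) + Finsupp.single 1 (B - (j : ℕ)))) h
  rw [coeff_sum, coeff_zero, Finset.sum_eq_single j] at h1
  · have h2 : (C (c j) * X 0 ^ (j : ℕ) * X 1 ^ (B - (j : ℕ)) : A2 K) =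
        monomial (Finsupp.single 0 (j : ℕ) + Finsupp.single 1 (B - (j : ℕ))) (c j) := by
      rw [mul_assoc, X_pow_eq_monomial, X_pow_eq_monomial, monomial_mul, C_mul_monomial]
      simp
    rw [h2, coeff_monomial, if_pos rfl] at h1
    exact h1
  · intro i _ hij
    have h2 : (C (c i) * X 0 ^ (i : ℕ) * X 1 ^ (B - (i : ℕ)) : A2 K) =
        monomial (Finsupp.single 0 (i : ℕ) + Finsupp.single 1 (B - (i : ℕ))) (c i) := by
      rw [mul_assoc, X_pow_eq_monomial, X_pow_eq_monomial, monomial_mul, C_mul_monomial]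
      simp
    rw [h2, coeff_monomial, if_neg]
    intro h3
    have h4 := congrArg (fun f => f 0) h3
    simp at h4
    exact hij (Fin.ext h4)
  · intro h3; exact absurd (Finset.mem_univ j) h3

lemma j12706_growth_nil_eq_dim (I M : Ideal (S K)) (tf : TF I) (hIM : I ≤ M) {d : ℕ} {v : S K}
    (hv : v.IsHomogeneous d) (hvM : v ∈ M) (hvI : v ∉ I) (B : ℕ) :
    hf M (d + B) + (B + 1) ≤ hf I (d + B) := by
  classical
  obtain ⟨φ, hφ⟩ : ∃ φ : (Fin (B + 1) → K) →ₗ[K] S K,
      φ = Fintype.linearCombination K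
        (fun i : Fin (B + 1) => X 0 ^ (i : ℕ) * X 1 ^ (B - (i : ℕ)) * v) := ⟨_, rfl⟩
  have hφa : ∀ c, φ c = inc2 (∑ i, C (c i) * X 0 ^ (i : ℕ) * X 1 ^ (B - (i : ℕ)) : A2 K) * v := by
    intro c
    rw [hφ, Fintype.linearCombination_apply, map_sum, Finset.sum_mul]
    refine Finset.sum_congr rfl fun i _ => ?_
    simp only [inc2, map_mul, map_pow, aeval_X, aeval_C, algebraMap_eq, smul_eq_C_mul]
    simp [mul_assoc]
  have hφI : ∀ c, φ c ∈ I → c = 0 := by
    intro c hc
    rw [hφa] at hc
    by_contra hne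
    have h1 : (∑ i, C (c i) * X 0 ^ (i : ℕ) * X 1 ^ (B - (i : ℕ)) : A2 K) ≠ 0 := fun h =>
      hne (j12706_growth_nil_eq_inj B c h)
    exact hvI (tf _ h1 v hc)
  have hinj : Function.Injective φ := by
    rw [← LinearMap.ker_eq_bot, LinearMap.ker_eq_bot']
    intro c hc
    apply hφI
    rw [hc]; exact I.zero_mem
  have hrk : Module.finrank K (LinearMap.range φ) = B + 1 := by
    rw [LinearMap.finrank_range_of_inj hinj]; simp
  have hdisj : dg I (d + B) ⊓ LinearMap.range φ = ⊥ := by
    rw [eq_bot_iff]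
    rintro x ⟨⟨hx1, -⟩, ⟨c, rfl⟩⟩
    have h1 : φ c ∈ I := hx1
    rw [hφI c h1]
    simp
  have hle : dg I (d + B) ⊔ LinearMap.range φ ≤ dg M (d + B) := by
    apply sup_le
    · rintro x ⟨hx1, hx2⟩
      exact ⟨hIM hx1, hx2⟩
    · rintro _ ⟨c, rfl⟩
      refine ⟨?_, ?_⟩
      · have : φ c ∈ M := by rw [hφa]; exact M.mul_mem_left _ hvM
        exact this
      · rw [hφ, Fintype.linearCombination_apply]
        refine Submodule.sum_mem _ fun i _ => Submodule.smul_mem _ _ ?_
        have h1 : (X 0 ^ (i : ℕ) * X 1 ^ (B - (i : ℕ)) * v : S K).IsHomogeneous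
            ((i : ℕ) + (B - (i : ℕ)) + d) :=
          ((isHomogeneous_X_pow _ _).mul (isHomogeneous_X_pow _ _)).mul hv
        have h2 : (i : ℕ) + (B - (i : ℕ)) + d = d + B := by have := i.2; omega
        rw [h2] at h1
        exact h1
  have h1 := Submodule.finrank_sup_add_finrank_inf_eq (dg I (d + B)) (LinearMap.range φ)
  rw [hdisj, finrank_bot, hrk, add_zero] at h1
  have h2 := Submodule.finrank_mono hle
  have h3 := hf_add I (d + B)
  have h4 := hf_add M (d + B)
  omega

/-- the case of equality -/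
theorem growth_nil_eq (I : Ideal (S K)) (hI : IsHom I) (tf : TF I) {n : ℕ}
    (p : Fin n → Ideal (S K))
    (e : Fin n → ℕ) (hp : ∀ c, (p c).IsPrime ∧ IsHom (p c))
    (hinc : ∀ c c', p c ≤ p c' → c = c')
    (hD : ∀ c, I.colon (I.radical : Set (S K)) ≤ p c)
    (he : ∀ c, ∃ C, ∀ m, e c * m ≤ hf (p c) m + C)
    (heq : ∃ C, ∀ m, hf I m ≤ (∑ c, e c) * m + hf I.radical m + C) :
    (⨅ c, p c) * I.radical ≤ I := by
  have hhom : IsHom ((⨅ c, p c) * I.radical) :=
    isHom_mul (isHom_iInf fun c => (hp c).2) (isHom_radical hI)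
  refine le_of_hom hhom fun d v hv hvm => ?_
  by_contra hvI
  obtain ⟨M, hM⟩ : ∃ M : Ideal (S K), M = (⨅ c, p c) * I.radical ⊔ I := ⟨_, rfl⟩
  have hMhom : IsHom M := by rw [hM]; exact isHom_sup hhom hI
  have hIM : I ≤ M := by rw [hM]; exact le_sup_right
  have hMJ : M ≤ I.radical := by
    rw [hM]; exact sup_le Ideal.mul_le_right Ideal.le_radical
  have hMrad : M.radical = I.radical := by
    apply le_antisymm
    · have := Ideal.radical_mono hMJ
      rwa [Ideal.radical_idem] at this
    · exact Ideal.radical_mono hIM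
  have hvM : v ∈ M := by
    rw [hM]; exact (le_sup_left : _ ≤ (⨅ c, p c) * I.radical ⊔ I) hvm
  have hDM : ∀ c, M.colon (M.radical : Set (S K)) ≤ p c := by
    intro c
    rw [hMrad, hM]
    exact j12706_growth_nil_eq_ch I I.radical (⨅ c, p c) (p c) (hp c).1 Ideal.le_radical
      (iInf_le _ c) (hD c)
  obtain ⟨C1, hC1⟩ := growth_nil M hMhom p e hp hinc hDM he
  obtain ⟨C2, hC2⟩ := heq
  have h1 := j12706_growth_nil_eq_dim I M tf hIM hv hvM hvI (C1 + C2)
  have h2 := hC1 (d + (C1 + C2))
  have h3 := hC2 (d + (C1 + C2))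
  rw [hMrad] at h2
  omega

end primes


end Pool.Agent.Helper924.HS
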