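import Mathlib
import Pool.Agent.Helper924.HS.Cfg
import Pool.Agent.Helper924.HS.Sp
import Pool.Agent.Helper924.HS.KS
import Pool.Agent.Helper924.HS.EqHigh

set_option autoImplicit false

open MvPolynomial

namespace Pool.Agent.Helper924.HS

section Q
variable {K : Type} [Field K]

/-- The local ideal of `I` along the line of `L`. -/
def Qloc (I : Ideal (S K)) (L : M2 K) : Ideal (S K) where
  carrier := {q | ∃ h, h ∉ lineI L ∧ h * q ∈ I}
  add_mem' := by
    rintro a b ⟨h, h1, h2⟩ ⟨h', h1', h2'⟩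
    have := lineI_isPrime L
    refine ⟨h * h', fun h3 => (this.mem_or_mem h3).elim h1 h1', ?_⟩
    have h4 : h * h' * (a + b) = h' * (h * a) + h * (h' * b) := by ring
    rw [h4]
    exact I.add_mem (I.mul_mem_left _ h2) (I.mul_mem_left _ h2')
  zero_mem' := ⟨1, fun h => (lineI_isPrime L).ne_top ((Ideal.eq_top_iff_one _).2 h), by simp⟩
  smul_mem' := by
    rintro c a ⟨h, h1, h2⟩
    refine ⟨h, h1, ?_⟩
    have : h * (c • a) = c * (h * a) := by rw [smul_eq_mul]; ring
    rw [this]
    exact I.mul_mem_left _ h2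

/-- Local ideals, primary decomposition: let `√I` be an intersection of lines, `I_D √I ≤ I`. -/
lemma Qloc_props {r s : ℕ} (I : Ideal (S K)) (hI : IsHom I) (tf : TF I)
    (L : Fin r → M2 K) (M : Fin s → M2 K) (hL : Function.Injective L)
    (hLM : ∀ i j, L i ≠ M j)
    (hrad : I.radical = (⨅ i, lineI (L i)) ⊓ ⨅ j, lineI (M j))
    (hD : (⨅ i, lineI (L i)) * I.radical ≤ I) (i : Fin r)
    (lam : Fin r → S K) (kap : Fin s → S K)
    (hlam : ∀ j, j ≠ i → (lam j).IsHomogeneous 1 ∧ lam j ∈ lineI (L j) ∧ lam j ∉ lineI (L i))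
    (hkap : ∀ j, (kap j).IsHomogeneous 1 ∧ kap j ∈ lineI (M j) ∧ kap j ∉ lineI (L i)) :
    lineI (L i) ^ 2 ≤ Qloc I (L i) ∧
    (∀ q, q ∈ Qloc I (L i) ↔
      ((∏ j ∈ Finset.univ.erase i, lam j ^ 2) * ∏ j, kap j) * q ∈ I) ∧
    IsHom (Qloc I (L i)) := by
  classical
  have hp := lineI_isPrime (L i)
  obtain ⟨A, hAdef⟩ : ∃ A : S K, A = ∏ j ∈ Finset.univ.erase i, lam j := ⟨_, rfl⟩
  obtain ⟨P, hPdef⟩ : ∃ P : S K, P = ∏ j, kap j := ⟨_, rfl⟩
  have hsdef : (∏ j ∈ Finset.univ.erase i, lam j ^ 2) * ∏ j, kap j = A ^ 2 * P := by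
    rw [hAdef, hPdef, Finset.prod_pow]
  have hA : ∀ f ∈ lineI (L i), A * f ∈ ⨅ j, lineI (L j) := by
    intro f hf
    rw [Submodule.mem_iInf]
    intro j
    by_cases hji : j = i
    · rw [hji]
      exact (lineI (L i)).mul_mem_left _ hf
    · apply (lineI (L j)).mul_mem_right
      have hmem : j ∈ Finset.univ.erase i := Finset.mem_erase.2 ⟨hji, Finset.mem_univ _⟩
      rw [hAdef, ← Finset.mul_prod_erase _ _ hmem]
      exact (lineI (L j)).mul_mem_right _ (hlam j hji).2.1
  have hB : ∀ f ∈ lineI (L i), P * (A * f) ∈ I.radical := by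
    intro f hf
    rw [hrad]
    refine Submodule.mem_inf.2 ⟨Ideal.mul_mem_left _ _ (hA f hf), ?_⟩
    rw [Submodule.mem_iInf]
    intro j
    apply (lineI (M j)).mul_mem_right
    rw [hPdef, ← Finset.mul_prod_erase _ _ (Finset.mem_univ j)]
    exact (lineI (M j)).mul_mem_right _ (hkap j).2.1
  have hAn : A ∉ lineI (L i) := by
    rw [hAdef]
    intro h
    obtain ⟨j, hj, h⟩ := hp.prod_mem_iff.1 h
    exact (hlam j (Finset.mem_erase.1 hj).1).2.2 h
  have hPn : P ∉ lineI (L i) := by
    rw [hPdef]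
    intro h
    obtain ⟨j, hj, h⟩ := hp.prod_mem_iff.1 h
    exact (hkap j).2.2 h
  have hsn : A ^ 2 * P ∉ lineI (L i) := by
    intro h
    rcases hp.mem_or_mem h with h | h
    · exact hAn (hp.mem_of_pow_mem 2 h)
    · exact hPn h
  have hfg : ∀ f ∈ lineI (L i), ∀ g ∈ lineI (L i), (A ^ 2 * P) * (f * g) ∈ I := by
    intro f hf g hg
    have h1 : (A * f) * (P * (A * g)) ∈ I := hD (Ideal.mul_mem_mul (hA f hf) (hB g hg))
    have h2 : (A ^ 2 * P) * (f * g) = (A * f) * (P * (A * g)) := by ring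
    rw [h2]
    exact h1
  rw [hsdef]
  have hiff : ∀ q, q ∈ Qloc I (L i) ↔ (A ^ 2 * P) * q ∈ I := by
    intro q
    constructor
    · rintro ⟨h, hh, hq⟩
      obtain ⟨w, hw⟩ : ∃ w : S K, w = inc2 (rho (L i) h) - h := ⟨_, rfl⟩
      have hwm : w ∈ lineI (L i) := by
        rw [hw]
        show inc2 (rho (L i) h) - h ∈ RingHom.ker (rho (L i))
        rw [RingHom.mem_ker, map_sub, rho_inc2, sub_self]
      have hrho : rho (L i) h ≠ 0 := by
        intro h0
        exact hh (RingHom.mem_ker.2 h0)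
      apply tf ((rho (L i) h) ^ 2) (pow_ne_zero 2 hrho)
      have h1 : inc2 ((rho (L i) h) ^ 2) * ((A ^ 2 * P) * q) =
          (h + 2 * w) * (A ^ 2 * P) * (h * q) + q * ((A ^ 2 * P) * (w * w)) := by
        have h2 : inc2 (rho (L i) h) = h + w := by rw [hw]; ring
        rw [map_pow, h2]
        ring
      rw [h1]
      exact I.add_mem (I.mul_mem_left _ hq) (I.mul_mem_left _ (hfg w hwm w hwm))
    · intro hq
      exact ⟨A ^ 2 * P, hsn, hq⟩
  refine ⟨?_, hiff, ?_⟩
  · rw [pow_two, Ideal.mul_le]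
    intro f hf g hg
    rw [hiff]
    exact hfg f hf g hg
  · have hAhom : ∃ n, A.IsHomogeneous n := by
      rw [hAdef]
      exact ⟨_, MvPolynomial.IsHomogeneous.prod _ _ (fun _ => 1)
        (fun j hj => (hlam j (Finset.mem_erase.1 hj).1).1)⟩
    have hPhom : ∃ n, P.IsHomogeneous n := by
      rw [hPdef]
      exact ⟨_, MvPolynomial.IsHomogeneous.prod _ _ (fun _ => 1) (fun j _ => (hkap j).1)⟩
    obtain ⟨n1, hn1⟩ := hAhom
    obtain ⟨n2, hn2⟩ := hPhom
    have hsh : (A ^ 2 * P).IsHomogeneous (n1 * 2 + n2) := (hn1.pow 2).mul hn2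
    have hQ : Qloc I (L i) = I.colon {A ^ 2 * P} := by
      ext q
      rw [hiff, Submodule.mem_colon_singleton, smul_eq_mul, mul_comm]
    rw [hQ]
    exact isHom_colon_singleton hI hsh

end Q

section MT
variable {V K k : Type} [CommRing V] [IsDomain V] [ValuationRing V] [Field K] [Field k]
  [Algebra V K] [IsFractionRing V K] [Algebra V k]

lemma j13074_mt_inc_map {W L : Type} [CommRing W] [Field L] [Algebra W L] (h : A2 W) :
    MvPolynomial.map (algebraMap W L) (aeval ![(X 0 : S W), X 1] h) =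
      inc2 (MvPolynomial.map (algebraMap W L) h) := by
  induction h using MvPolynomial.induction_on with
  | C a =>
    rw [MvPolynomial.map_C]
    unfold inc2
    rw [MvPolynomial.aeval_C, MvPolynomial.aeval_C, MvPolynomial.algebraMap_eq,
      MvPolynomial.algebraMap_eq, MvPolynomial.map_C]
  | add f g hf hg => simp only [map_add, hf, hg]
  | mul_X f n hf =>
    simp only [map_mul, hf]
    congr 1
    unfold inc2
    rw [MvPolynomial.map_X, aeval_X, aeval_X]
    fin_cases n <;> simp

lemma j13074_mt_scale (h : A2 K) (hne : h ≠ 0) : ∃ (c : K) (hV : A2 V), c ≠ 0 ∧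
    MvPolynomial.map (algebraMap V K) hV = C c * h ∧
    MvPolynomial.map (algebraMap V k) hV ≠ 0 := by
  classical
  let v := ValuationRing.valuation V K
  have hsup : h.support.Nonempty := by
    rw [Finset.nonempty_iff_ne_empty]
    intro h0
    exact hne (MvPolynomial.support_eq_empty.1 h0)
  obtain ⟨ms, hms, hmax⟩ := h.support.exists_max_image (fun m => v (h.coeff m)) hsup
  have hcs : h.coeff ms ≠ 0 := MvPolynomial.mem_support_iff.1 hms
  have hvs : v (h.coeff ms) ≠ 0 := (Valuation.ne_zero_iff v).2 hcs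
  have ha : ∀ m, ∃ a : V, algebraMap V K a = (h.coeff ms)⁻¹ * h.coeff m := by
    intro m
    rw [← ValuationRing.mem_integer_iff, Valuation.mem_integer_iff]
    show v ((h.coeff ms)⁻¹ * h.coeff m) ≤ 1
    by_cases hm : m ∈ h.support
    · have h1 := hmax m hm
      rw [map_mul, map_inv₀]
      calc (v (h.coeff ms))⁻¹ * v (h.coeff m) ≤ (v (h.coeff ms))⁻¹ * v (h.coeff ms) :=
            mul_le_mul_right h1 _
        _ = 1 := inv_mul_cancel₀ hvs
    · rw [MvPolynomial.notMem_support_iff.1 hm, mul_zero, map_zero]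
      exact zero_le_one
  choose a ha using ha
  have hmap : MvPolynomial.map (algebraMap V K) (∑ m ∈ h.support, monomial m (a m)) =
      C (h.coeff ms)⁻¹ * h := by
    have hgen : ∀ c : K, C c * h = ∑ m ∈ h.support, monomial m (c * h.coeff m) := by
      intro c
      conv_lhs => rw [h.as_sum, Finset.mul_sum]
      exact Finset.sum_congr rfl fun m _ => by rw [C_mul_monomial]
    rw [map_sum, hgen]
    refine Finset.sum_congr rfl fun m _ => ?_
    rw [MvPolynomial.map_monomial, ha]
  refine ⟨(h.coeff ms)⁻¹, ∑ m ∈ h.support, monomial m (a m), inv_ne_zero hcs, hmap, ?_⟩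
  intro h0
  have h1 : coeff ms (MvPolynomial.map (algebraMap V k) (∑ m ∈ h.support, monomial m (a m))) =
      1 := by
    rw [coeff_map]
    have h2 : coeff ms (∑ m ∈ h.support, monomial m (a m) : A2 V) = a ms := by
      rw [coeff_sum, Finset.sum_eq_single ms]
      · rw [coeff_monomial, if_pos rfl]
      · intro b _ hb
        rw [coeff_monomial, if_neg hb]
      · intro h3
        exact absurd hms h3
    have h3 : a ms = 1 := by
      apply IsFractionRing.injective V K
      rw [ha, map_one, inv_mul_cancel₀ hcs]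
    rw [h2, h3, map_one]
  rw [h0, coeff_zero] at h1
  exact zero_ne_one h1

lemma j13074_mt_comp_mul {G : S K} {e : ℕ} (hG : G.IsHomogeneous e) (F : S K) (n : ℕ) :
    homogeneousComponent n (G * F) =
      if e ≤ n then G * homogeneousComponent (n - e) F else 0 := by
  have h1 : G * F = ∑ i ∈ Finset.range (F.totalDegree + 1), G * homogeneousComponent i F := by
    rw [← Finset.mul_sum, sum_homogeneousComponent]
  rw [h1, map_sum]
  have h2 : ∀ i, homogeneousComponent n (G * homogeneousComponent i F) =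
      if n = e + i then G * homogeneousComponent i F else 0 := by
    intro i
    exact homogeneousComponent_of_mem (hG.mul (homogeneousComponent_isHomogeneous i F))
  rw [Finset.sum_congr rfl fun i _ => h2 i]
  split_ifs with hen
  · by_cases hd : n - e ∈ Finset.range (F.totalDegree + 1)
    · rw [Finset.sum_eq_single_of_mem (n - e) hd]
      · rw [if_pos (by omega)]
      · intro b _ hb
        rw [if_neg (by omega)]
    · have h3 : homogeneousComponent (n - e) F = 0 := by
        apply homogeneousComponent_eq_zero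
        rw [Finset.mem_range] at hd
        omega
      rw [h3, mul_zero]
      refine Finset.sum_eq_zero fun b hb => ?_
      rw [Finset.mem_range] at hb hd
      rw [if_neg (by omega)]
  · refine Finset.sum_eq_zero fun b _ => ?_
    rw [if_neg (by omega)]

lemma j13074_MT_hom (hk : Function.Surjective (algebraMap V k)) {I : Ideal (S K)}
    (hI : IsHom I) (sat : ∀ F, (∀ i, X i * F ∈ I) → F ∈ I) {J : Ideal (S k)} (hJ : TF J)
    (h : EqHigh (sp V k I) J) (g : A2 K) (e : ℕ) (hg : g.IsHomogeneous e) (hne : g ≠ 0)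
    (F : S K) (hF : inc2 g * F ∈ I) : F ∈ I := by
  obtain ⟨c, gV, hc, hmap, hred⟩ := j13074_mt_scale (V := V) (k := k) g hne
  have hgV : gV.IsHomogeneous e := by
    apply IsHomogeneous.of_map (f := algebraMap V K) (IsFractionRing.injective V K)
    rw [hmap]
    exact hg.C_mul c
  set I1 : Ideal (S K) := I.colon {inc2 g} with hI1
  have hmem : ∀ G, G ∈ I1 ↔ inc2 g * G ∈ I := by
    intro G
    rw [hI1, Submodule.mem_colon_singleton, smul_eq_mul, mul_comm]
  have hI1h : IsHom I1 := isHom_colon_singleton hI (inc2_isHomogeneous hg)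
  have hle : I ≤ I1 := fun G hG => (hmem G).2 (I.mul_mem_left _ hG)
  obtain ⟨m0, hm0⟩ := h
  have key : ∀ n ≥ m0, ∀ u : S k, u.IsHomogeneous n → (u ∈ sp V k I1 ↔ u ∈ sp V k I) := by
    intro n hn u hu
    constructor
    · intro hu1
      obtain ⟨U, -, hU1, hU2⟩ := (mem_sp_hom hk hI1h hu).1 hu1
      have h1 : inc2 (MvPolynomial.map (algebraMap V k) gV) * u ∈ sp V k I := by
        rw [mem_sp hk]
        refine ⟨aeval ![(X 0 : S V), X 1] gV * U, ?_, ?_⟩
        · rw [map_mul, j13074_mt_inc_map, hmap]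
          have h2 : inc2 (C c * g) * MvPolynomial.map (algebraMap V K) U =
              inc2 (C c) * (inc2 g * MvPolynomial.map (algebraMap V K) U) := by
            rw [map_mul, mul_assoc]
          rw [h2]
          exact I.mul_mem_left _ ((hmem _).1 hU1)
        · rw [map_mul, j13074_mt_inc_map, hU2]
      have h2 : (inc2 (MvPolynomial.map (algebraMap V k) gV) * u).IsHomogeneous (e + n) :=
        (inc2_isHomogeneous (hgV.map _)).mul hu
      have h3 := (hm0 (e + n) (by omega) _ h2).1 h1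
      have h4 : u ∈ J := hJ _ hred u h3
      exact (hm0 n hn u hu).2 h4
    · intro h1
      exact sp_mono hk hle h1
  have hfeq : ∀ n ≥ m0, hf I1 n = hf I n := by
    intro n hn
    rw [← hf_sp (V := V) (k := k) hk hI1h n, ← hf_sp (V := V) (k := k) hk hI n]
    exact hf_congr_high (key n hn)
  have high : ∀ n ≥ m0, ∀ G : S K, G.IsHomogeneous n → G ∈ I1 → G ∈ I := by
    intro n hn G hG hG1
    by_contra hG2
    have h1 := hf_lt_of_mem hle hG hG1 hG2
    rw [hfeq n hn] at h1
    exact lt_irrefl _ h1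
  have low : ∀ j n, m0 ≤ n + j → ∀ G : S K, G.IsHomogeneous n → G ∈ I1 → G ∈ I := by
    intro j
    induction j with
    | zero =>
      intro n hn G hG hG1
      exact high n (by omega) G hG hG1
    | succ j ih =>
      intro n hn G hG hG1
      apply sat
      intro i
      have h1 : (X i * G : S K).IsHomogeneous (1 + n) := (isHomogeneous_X K i).mul hG
      exact ih (1 + n) (by omega) _ h1 (I1.mul_mem_left _ hG1)
  have hle2 : I1 ≤ I := le_of_hom hI1h fun n G hG hG1 => low m0 n (by omega) G hG hG1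
  exact hle2 ((hmem F).2 hF)

lemma MT_TF [IsAlgClosed K] (hk : Function.Surjective (algebraMap V k)) {I : Ideal (S K)}
    (hI : IsHom I) (sat : ∀ F, (∀ i, X i * F ∈ I) → F ∈ I) {J : Ideal (S k)} (hJ : TF J)
    (hJh : IsHom J) (h : EqHigh (sp V k I) J) : TF I := by
  classical
  intro g hg F hF
  by_contra hFI
  -- lowest component of g
  have hex : ∃ e, homogeneousComponent e g ≠ 0 := by
    by_contra hcon
    push Not at hcon
    apply hg
    rw [← sum_homogeneousComponent g]
    exact Finset.sum_eq_zero fun i _ => hcon i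
  have hexF : ∃ n, homogeneousComponent n F ∉ I := by
    by_contra hcon
    push Not at hcon
    apply hFI
    rw [← sum_homogeneousComponent F]
    exact I.sum_mem fun i _ => hcon i
  set e := Nat.find hex with he
  have hge : homogeneousComponent e g ≠ 0 := Nat.find_spec hex
  have hglow : ∀ i < e, homogeneousComponent i g = 0 := fun i hi => by
    have := Nat.find_min hex hi
    push Not at this
    exact this
  set n := Nat.find hexF with hn
  have hFn : homogeneousComponent n F ∉ I := Nat.find_spec hexF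
  have hFlow : ∀ i < n, homogeneousComponent i F ∈ I := fun i hi => by
    have := Nat.find_min hexF hi
    push Not at this
    exact this
  apply hFn
  apply j13074_MT_hom hk hI sat hJ h (homogeneousComponent e g) e (homogeneousComponent_isHomogeneous e g)
    hge
  have h1 : homogeneousComponent (e + n) (inc2 g * F) ∈ I := hI _ hF _
  have h2 : inc2 g * F = ∑ i ∈ Finset.range (g.totalDegree + 1),
      inc2 (homogeneousComponent i g) * F := by
    rw [← Finset.sum_mul, ← map_sum, sum_homogeneousComponent]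
  rw [h2, map_sum] at h1
  have hed : e ∈ Finset.range (g.totalDegree + 1) := by
    rw [Finset.mem_range]
    by_contra hcon
    exact hge (homogeneousComponent_eq_zero e g (by omega))
  rw [← Finset.add_sum_erase _ _ hed] at h1
  have h3 : ∑ i ∈ (Finset.range (g.totalDegree + 1)).erase e,
      homogeneousComponent (e + n) (inc2 (homogeneousComponent i g) * F) ∈ I := by
    refine I.sum_mem fun i hi => ?_
    rw [j13074_mt_comp_mul (inc2_isHomogeneous (homogeneousComponent_isHomogeneous i g))]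
    rcases lt_trichotomy i e with hlt | heq | hgt
    · rw [hglow i hlt, map_zero]
      simp
    · exact absurd heq (Finset.ne_of_mem_erase hi)
    · split_ifs with hle
      · exact I.mul_mem_left _ (hFlow _ (by omega))
      · exact I.zero_mem
  have h4 := (I.add_mem_iff_left h3).1 h1
  rw [j13074_mt_comp_mul (inc2_isHomogeneous (homogeneousComponent_isHomogeneous e g)),
    if_pos (by omega)] at h4
  have h5 : e + n - e = n := by omega
  rw [h5] at h4
  exact h4

lemma j13075_mem_of_hf_zero_aux {K : Type} [Field K] {I : Ideal (S K)} {m : ℕ} (h : hf I m = 0)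
    {F : S K} (hF : F.IsHomogeneous m) : F ∈ I := by
  by_contra hc
  have := hf_lt_of_mem (I := I) (J := ⊤) le_top hF trivial hc
  omega

lemma j13075_hf_zero_of_mem_aux {K : Type} [Field K] {I : Ideal (S K)} {m : ℕ}
    (h : ∀ F : S K, F.IsHomogeneous m → F ∈ I) : hf I m = 0 := by
  rw [hf_congr_high (I := I) (J := ⊤) (m := m) (fun F hF => ⟨fun _ => trivial, fun _ => h F hF⟩)]
  exact hf_eq_zero (N := 0) le_top (Nat.zero_le _)

lemma j13075_isHom_pow_irr_aux {K : Type} [Field K] (n : ℕ) : IsHom (irr K ^ n) := by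
  induction n with
  | zero =>
    intro F _ n
    rw [pow_zero, Ideal.one_eq_top]
    trivial
  | succ n ih => rw [pow_succ]; exact isHom_mul ih isHom_irr

lemma j13075_low_zero_aux {K : Type} [Field K] (N : ℕ) {F : S K} (hF : F ∈ irr K ^ N) {n : ℕ}
    (hn : n < N) (hh : F.IsHomogeneous n) : F = 0 := by
  ext d
  rw [coeff_zero]
  by_contra hc
  have h1 : d.degree = n := by
    rw [← hh hc, Finsupp.degree_eq_weight_one]
    rfl
  exact hc ((mem_pow_idealOfVars_iff' N F).1 hF d (by omega))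

lemma MT_FIN (hk : Function.Surjective (algebraMap V k)) {I : Ideal (S K)}
    (hI : IsHom I) {J : Ideal (S k)} (hJ : FIN J)
    (hJh : IsHom J) (h : EqHigh (sp V k I) J) : FIN I := by
  obtain ⟨N, hN⟩ := hJ
  obtain ⟨m0, hm0⟩ := h
  have hL : ∀ (K : Type) [Field K], IsHom (Ideal.span {(X 0 : S K), X 1}) := by
    intro K _
    refine isHom_span ?_
    rintro F (rfl | rfl)
    · exact ⟨1, isHomogeneous_X _ _⟩
    · exact ⟨1, isHomogeneous_X _ _⟩
  have hIL : IsHom (I ⊔ Ideal.span {(X 0 : S K), X 1}) := isHom_sup hI (hL K)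
  have hX0 : (X 0 : S k) ∈ sp V k (I ⊔ Ideal.span {(X 0 : S K), X 1}) := by
    rw [mem_sp hk]
    refine ⟨X 0, ?_, by simp⟩
    rw [map_X]
    exact Ideal.mem_sup_right (Ideal.subset_span (by simp))
  have hX1 : (X 1 : S k) ∈ sp V k (I ⊔ Ideal.span {(X 0 : S K), X 1}) := by
    rw [mem_sp hk]
    refine ⟨X 1, ?_, by simp⟩
    rw [map_X]
    exact Ideal.mem_sup_right (Ideal.subset_span (by simp))
  have hLk : Ideal.span {(X 0 : S k), X 1} ≤ sp V k (I ⊔ Ideal.span {(X 0 : S K), X 1}) := by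
    rw [Ideal.span_le]
    rintro F (rfl | rfl)
    · exact hX0
    · exact hX1
  set M := max N m0 with hM
  have hz : ∀ m, M ≤ m → hf (I ⊔ Ideal.span {(X 0 : S K), X 1}) m = 0 := by
    intro m hm
    rw [← hf_sp hk hIL m]
    refine j13075_hf_zero_of_mem_aux fun F hF => ?_
    have h1 : F ∈ J ⊔ Ideal.span {(X 0 : S k), X 1} :=
      j13075_mem_of_hf_zero_aux (hf_eq_zero hN (le_trans (le_max_left _ _) hm)) hF
    obtain ⟨a, ha, b, hb, hab⟩ := Submodule.mem_sup.1 h1
    have h2 : homogeneousComponent m a + homogeneousComponent m b = F := by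
      rw [← map_add, hab, homogeneousComponent_of_mem hF]
      simp
    rw [← h2]
    refine add_mem ?_ ?_
    · have h3 := hJh a ha m
      have h4 := (hm0 m (le_trans (le_max_right _ _) hm) _
        (homogeneousComponent_isHomogeneous m a)).2 h3
      exact sp_mono hk le_sup_left h4
    · exact hLk (hL k b hb m)
  refine ⟨M, le_of_hom (j13075_isHom_pow_irr_aux M) ?_⟩
  intro n F hF hmem
  rcases Nat.lt_or_ge n M with h1 | h1
  · rw [j13075_low_zero_aux M hmem h1 hF]
    exact zero_mem _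
  · exact j13075_mem_of_hf_zero_aux (hz n h1) hF

lemma MT_rad (hk : Function.Surjective (algebraMap V k)) {I : Ideal (S K)}
    (hI : IsHom I) {J P : Ideal (S k)} (hP : P.IsRadical) (hPT : TF P) (hJP : J ≤ P)
    (h : EqHigh (sp V k I) J) : sp V k I.radical ≤ P := by
  intro f0 hf0
  obtain ⟨F, hF, rfl⟩ := (mem_sp hk).1 hf0
  obtain ⟨n, hn⟩ := hF
  obtain ⟨m0, hm0⟩ := h
  have h1 : (MvPolynomial.map (algebraMap V k) F) ^ n ∈ sp V k I := by
    rw [mem_sp hk]
    exact ⟨F ^ n, by rw [map_pow]; exact hn, by rw [map_pow]⟩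
  set g := (MvPolynomial.map (algebraMap V k) F) ^ n with hg
  have h2 : X 0 ^ m0 * g ∈ J := by
    rw [← sum_homogeneousComponent g, Finset.mul_sum]
    refine sum_mem fun d _ => ?_
    have h3 : homogeneousComponent d g ∈ sp V k I := sp_isHom hk hI g h1 d
    have h4 : (X 0 ^ m0 * homogeneousComponent d g : S k).IsHomogeneous (m0 + d) :=
      (isHomogeneous_X_pow _ _).mul (homogeneousComponent_isHomogeneous d g)
    exact (hm0 (m0 + d) (by omega) _ h4).1 (Ideal.mul_mem_left _ _ h3)
  have h5 : g ∈ P := by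
    refine hPT (X 0 ^ m0) (pow_ne_zero _ (X_ne_zero _)) g ?_
    have : inc2 (X 0 ^ m0 : A2 k) = X 0 ^ m0 := by
      simp [inc2]
    rw [this]
    exact hJP h2
  exact hP ⟨n, h5⟩


lemma j13080_MT_spD_X0 {k : Type} [Field k] (L : M2 k) : (X 0 : S k) ∉ lineI L := by
  intro h
  have h1 : rho L (X 0) = 0 := h
  unfold rho at h1
  rw [aeval_X] at h1
  simp at h1

lemma MT_spD (hk : Function.Surjective (algebraMap V k)) {r s : ℕ} (c : Cfg k r s) (hc : c.Good)
    {I : Ideal (S K)} (hI : IsHom I) (h : EqHigh (sp V k I) c.J)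
    (hw : ∀ i, ∃ F ∈ sp V k I.radical, eps (c.A i) (c.g i) (c.f i) F ≠ 0) :
    sp V k (I.colon (I.radical : Set (S K))).radical ≤ ⨅ i, lineI (c.A i) := by
  intro f0 hf0
  rw [Submodule.mem_iInf]
  intro i
  by_contra hni
  obtain ⟨F, hF1, hF2⟩ := (mem_sp hk).1 hf0
  obtain ⟨n, hn⟩ := hF1
  obtain ⟨w, hw1, hw2⟩ := hw i
  obtain ⟨W1, hW1, hW2⟩ := (mem_sp hk).1 hw1
  have h1 : MvPolynomial.map (algebraMap V K) (F ^ n * W1) ∈ I := by
    rw [map_mul, map_pow]
    exact Submodule.mem_colon.1 hn _ hW1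
  have h2 : f0 ^ n * w ∈ sp V k I :=
    (mem_sp hk).2 ⟨F ^ n * W1, h1, by rw [map_mul, map_pow, hF2, hW2]⟩
  obtain ⟨m0, hm0⟩ := h
  have h3 : X 0 ^ m0 * (f0 ^ n * w) ∈ c.J := by
    obtain ⟨u, hu⟩ : ∃ u, u = f0 ^ n * w := ⟨_, rfl⟩
    rw [← hu] at h2 ⊢
    rw [← sum_homogeneousComponent u, Finset.mul_sum]
    apply Ideal.sum_mem
    intro d _
    have hcomp : homogeneousComponent d u ∈ sp V k I := sp_isHom hk hI _ h2 d
    have hhom : (X 0 ^ m0 * homogeneousComponent d u).IsHomogeneous (m0 + d) := by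
      have e1 : ((X 0 : S k) ^ m0).IsHomogeneous m0 := by
        have := (isHomogeneous_X k (0 : Fin 4)).pow m0
        simpa using this
      exact e1.mul (homogeneousComponent_isHomogeneous d u)
    exact (hm0 (m0 + d) (by omega) _ hhom).1 (Ideal.mul_mem_left _ _ hcomp)
  have h4 : (X 0 ^ m0 * f0 ^ n) * w ∈ ribI (c.A i) (c.g i) (c.f i) := by
    rw [mul_assoc]
    have h5 : c.J ≤ ribI (c.A i) (c.g i) (c.f i) := le_trans inf_le_left (iInf_le _ i)
    exact h5 h3
  have hprime := lineI_isPrime (c.A i)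
  have h6 : X 0 ^ m0 * f0 ^ n ∉ lineI (c.A i) := by
    intro h7
    rcases hprime.mem_or_mem h7 with h8 | h8
    · exact j13080_MT_spD_X0 _ (hprime.mem_of_pow_mem _ h8)
    · exact hni (hprime.mem_of_pow_mem _ h8)
  exact hw2 (mem_ribI.1 (ribI_primary h4 h6)).2

/-- labelling of the specialised lines -/
lemma MT_label (hk : Function.Surjective (algebraMap V k)) {r : ℕ} (A : Fin r → M2 k)
    (hA : Function.Injective A) (p : Fin r → Ideal (S K)) (hp : ∀ c, ∃ L, p c = lineI L)
    (h : sp V k (⨅ c, p c) ≤ ⨅ i, lineI (A i)) :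
    ∃ L : Fin r → M2 V, (∀ i, (L i).map (algebraMap V k) = A i) ∧
      (⨅ c, p c) = ⨅ i, lineI ((L i).map (algebraMap V K)) := by
  classical
  have hinj : Function.Injective (algebraMap V K) := IsFractionRing.injective V K
  have hmain : ∀ i, ∃ c, sp V k (p c) ≤ lineI (A i) := by
    intro i
    by_contra hcon
    push Not at hcon
    have h1 : ∀ c, ∃ F : S V, MvPolynomial.map (algebraMap V K) F ∈ p c ∧
        MvPolynomial.map (algebraMap V k) F ∉ lineI (A i) := by
      intro c
      obtain ⟨f, hf, hf'⟩ := SetLike.not_le_iff_exists.mp (hcon c)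
      obtain ⟨F, hF, hF'⟩ := (mem_sp hk).mp hf
      exact ⟨F, hF, by rw [hF']; exact hf'⟩
    choose F hF hF' using h1
    have h2 : MvPolynomial.map (algebraMap V k) (∏ c, F c) ∈ lineI (A i) := by
      have h3 : MvPolynomial.map (algebraMap V k) (∏ c, F c) ∈ sp V k (⨅ c, p c) := by
        rw [mem_sp hk]
        refine ⟨∏ c, F c, ?_, rfl⟩
        rw [Ideal.mem_iInf]
        intro c
        rw [map_prod, ← Finset.mul_prod_erase Finset.univ _ (Finset.mem_univ c)]
        exact Ideal.mul_mem_right _ _ (hF c)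
      have h4 := h h3
      rw [Ideal.mem_iInf] at h4
      exact h4 i
    rw [map_prod] at h2
    have := lineI_isPrime (A i)
    obtain ⟨c, -, hc⟩ := (Ideal.IsPrime.prod_mem_iff).mp h2
    exact hF' c hc
  choose c hc using hmain
  choose Lk hLk using hp
  have h5 : ∀ i, ∃ L' : M2 V, L'.map (algebraMap V K) = Lk (c i) ∧
      L'.map (algebraMap V k) = A i := by
    intro i
    apply line_lift hk
    rw [← hLk (c i)]
    exact hc i
  choose L hL1 hL2 using h5
  refine ⟨L, hL2, ?_⟩
  have hcinj : Function.Injective c := by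
    intro i j hij
    apply hA
    rw [← hL2 i, ← hL2 j]
    congr 1
    have h6 : (L i).map (algebraMap V K) = (L j).map (algebraMap V K) := by
      rw [hL1 i, hL1 j, hij]
    exact Matrix.map_injective hinj h6
  have hcbij : Function.Bijective c := Finite.injective_iff_bijective.mp hcinj
  have h7 : (⨅ c, p c) = ⨅ i, p (c i) := (hcbij.2.iInf_comp (fun c => p c)).symm
  rw [h7]
  congr 1
  funext i
  rw [hL1 i, hLk (c i)]

lemma MT_spN (hk : Function.Surjective (algebraMap V k)) {r s : ℕ} (A : Fin r → M2 k)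
    (N : Fin s → M2 k) (hAN : ∀ i j, A i ≠ N j) (L : Fin r → M2 V)
    (hL : ∀ i, (L i).map (algebraMap V k) = A i) {IN R : Ideal (S K)}
    (hR : (⨅ i, lineI ((L i).map (algebraMap V K))) * IN ≤ R)
    (hsR : sp V k R ≤ ⨅ j, lineI (N j)) :
    sp V k IN ≤ ⨅ j, lineI (N j) := by
  classical
  have hinj : Function.Injective (algebraMap V K) := IsFractionRing.injective V K
  refine le_iInf fun j => ?_
  have h1 : ∀ i, ∃ F : S V, F.IsHomogeneous 1 ∧
      MvPolynomial.map (algebraMap V K) F ∈ lineI ((L i).map (algebraMap V K)) ∧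
      MvPolynomial.map (algebraMap V k) F ∉ lineI (N j) := by
    intro i
    apply exists_lift_not_mem hk
    intro hle
    obtain ⟨L', hL', hL''⟩ := line_lift hk hle
    have h2 : L' = L i := Matrix.map_injective hinj hL'
    apply hAN i j
    rw [← hL i, ← h2, hL'']
  choose F hF1 hF2 hF3 using h1
  intro g hg
  obtain ⟨G, hG, rfl⟩ := (mem_sp hk).mp hg
  have h3 : MvPolynomial.map (algebraMap V K) ((∏ i, F i) * G) ∈ R := by
    apply hR
    rw [map_mul]
    apply Ideal.mul_mem_mul _ hG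
    rw [Ideal.mem_iInf]
    intro i
    rw [map_prod, ← Finset.mul_prod_erase Finset.univ _ (Finset.mem_univ i)]
    exact Ideal.mul_mem_right _ _ (hF2 i)
  have h4 : MvPolynomial.map (algebraMap V k) ((∏ i, F i) * G) ∈ sp V k R :=
    (mem_sp hk).mpr ⟨_, h3, rfl⟩
  have h5 := hsR h4
  rw [Ideal.mem_iInf] at h5
  have h6 := h5 j
  rw [map_mul] at h6
  have := lineI_isPrime (N j)
  rcases (Ideal.IsPrime.mem_or_mem this h6) with h7 | h7
  · exfalso
    rw [map_prod] at h7
    obtain ⟨i, -, hi⟩ := (Ideal.IsPrime.prod_mem_iff).mp h7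
    exact hF3 i hi
  · exact h7

/-- determinant of a difference after mapping -/
lemma j13161_MT_inc_det {R R' : Type} [CommRing R] [CommRing R'] (φ : R →+* R') (P Q : M2 R) :
    (P.map φ - Q.map φ).det = φ ((P - Q).det) := by
  rw [Matrix.det_fin_two, Matrix.det_fin_two]
  simp only [Matrix.sub_apply, Matrix.map_apply, map_sub, map_mul]

lemma j13161_MT_inc_map_inj (P Q : M2 V)
    (h : P.map (algebraMap V K) = Q.map (algebraMap V K)) : P = Q := by
  ext a b
  have h1 := congrFun (congrFun h a) b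
  simp only [Matrix.map_apply] at h1
  exact IsFractionRing.injective V K h1

/-- the local ideal specialises into the ribbon -/
lemma j13161_MT_inc_loc (hk : Function.Surjective (algebraMap V k)) {r s : ℕ} (c : Cfg k r s)
    (hc : c.Good)
    {I : Ideal (S K)} (hI : IsHom I) (tf : TF I) (h : EqHigh (sp V k I) c.J)
    (L : Fin r → M2 V) (hL : ∀ i, (L i).map (algebraMap V k) = c.A i)
    (M : Fin s → M2 V) (hM : ∀ j, (M j).map (algebraMap V k) = c.N j)
    (hrad : I.radical = (⨅ i, lineI ((L i).map (algebraMap V K))) ⊓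
      ⨅ j, lineI ((M j).map (algebraMap V K)))
    (hD : (⨅ i, lineI ((L i).map (algebraMap V K))) * I.radical ≤ I)
    (hinjL : Function.Injective (fun i => (L i).map (algebraMap V K)))
    (hLM : ∀ i j, (L i).map (algebraMap V K) ≠ (M j).map (algebraMap V K)) (i : Fin r) :
    lineI ((L i).map (algebraMap V K)) ^ 2 ≤ Qloc I ((L i).map (algebraMap V K)) ∧
    IsHom (Qloc I ((L i).map (algebraMap V K))) ∧
    sp V k (Qloc I ((L i).map (algebraMap V K))) ≤ ribI (c.A i) (c.g i) (c.f i) := by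
  classical
  have hex1 : ∀ j, ∃ F : S V, j ≠ i → (F.IsHomogeneous 1 ∧
      MvPolynomial.map (algebraMap V K) F ∈ lineI ((L j).map (algebraMap V K)) ∧
      MvPolynomial.map (algebraMap V k) F ∉ lineI (c.A i)) := by
    intro j
    by_cases hj : j = i
    · exact ⟨0, fun h => absurd hj h⟩
    · obtain ⟨F, hF⟩ := exists_lift_not_mem hk (L := (L j).map (algebraMap V K))
        (A := c.A i) (by
          intro hle
          obtain ⟨L', h1, h2⟩ := line_lift hk hle
          have h3 : L' = L j := j13161_MT_inc_map_inj (K := K) _ _ h1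
          have h4 : c.A j = c.A i := by rw [← hL j, ← h3, h2]
          apply hc.hA j i hj
          rw [h4, sub_self, Matrix.det_zero])
      exact ⟨F, fun _ => hF⟩
  have hex2 : ∀ j, ∃ G : S V, G.IsHomogeneous 1 ∧
      MvPolynomial.map (algebraMap V K) G ∈ lineI ((M j).map (algebraMap V K)) ∧
      MvPolynomial.map (algebraMap V k) G ∉ lineI (c.A i) := by
    intro j
    apply exists_lift_not_mem hk
    intro hle
    obtain ⟨L', h1, h2⟩ := line_lift hk hle
    have h3 : L' = M j := j13161_MT_inc_map_inj (K := K) _ _ h1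
    have h4 : c.N j = c.A i := by rw [← hM j, ← h3, h2]
    exact hc.hAN i j h4.symm
  choose F hF using hex1
  choose G hG using hex2
  have hred : ∀ P : S V, MvPolynomial.map (algebraMap V k) P ∉ lineI (c.A i) →
      MvPolynomial.map (algebraMap V K) P ∉ lineI ((L i).map (algebraMap V K)) := by
    intro P hP hmem
    apply hP
    have h1 := sp_line (K := K) hk (L i)
    rw [hL i] at h1
    exact h1 ((mem_sp hk).2 ⟨P, hmem, rfl⟩)
  have hp := Qloc_props I hI tf (fun i => (L i).map (algebraMap V K))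
    (fun j => (M j).map (algebraMap V K)) hinjL hLM hrad hD i
    (fun j => MvPolynomial.map (algebraMap V K) (F j))
    (fun j => MvPolynomial.map (algebraMap V K) (G j))
    (fun j hj => ⟨(hF j hj).1.map _, (hF j hj).2.1, hred _ (hF j hj).2.2⟩)
    (fun j => ⟨(hG j).1.map _, (hG j).2.1, hred _ (hG j).2.2⟩)
  refine ⟨hp.1, hp.2.2, ?_⟩
  apply le_of_hom (sp_isHom hk hp.2.2)
  intro n q0 hq0 hq
  obtain ⟨q, _, hqK, hqk⟩ := (mem_sp_hom hk hp.2.2 hq0).1 hq
  have h1 := (hp.2.1 _).1 hqK
  set hV : S V := (∏ j ∈ Finset.univ.erase i, F j ^ 2) * ∏ j, G j with hVdef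
  have h2 : MvPolynomial.map (algebraMap V K) (hV * q) ∈ I := by
    have e : MvPolynomial.map (algebraMap V K) (hV * q) =
        ((∏ j ∈ Finset.univ.erase i, MvPolynomial.map (algebraMap V K) (F j) ^ 2) *
        ∏ j, MvPolynomial.map (algebraMap V K) (G j)) * MvPolynomial.map (algebraMap V K) q := by
      rw [hVdef, map_mul, map_mul, map_prod, map_prod]
      simp only [map_pow]
    rw [e]
    exact h1
  have h3 : MvPolynomial.map (algebraMap V k) hV * q0 ∈ sp V k I := by
    rw [← hqk, ← map_mul]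
    exact (mem_sp hk).2 ⟨hV * q, h2, rfl⟩
  have ek : MvPolynomial.map (algebraMap V k) hV =
      (∏ j ∈ Finset.univ.erase i, MvPolynomial.map (algebraMap V k) (F j) ^ 2) *
        ∏ j, MvPolynomial.map (algebraMap V k) (G j) := by
    rw [hVdef, map_mul, map_prod, map_prod]
    simp only [map_pow]
  obtain ⟨m0, hm0⟩ := h
  have hhom1 : (MvPolynomial.map (algebraMap V k) hV).IsHomogeneous
      ((∑ j ∈ Finset.univ.erase i, 1 * 2) + ∑ j : Fin s, 1) := by
    rw [ek]
    apply MvPolynomial.IsHomogeneous.mul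
    · apply MvPolynomial.IsHomogeneous.prod
      intro j hj
      exact ((hF j (Finset.ne_of_mem_erase hj)).1.map _).pow 2
    · apply MvPolynomial.IsHomogeneous.prod
      intro j _
      exact (hG j).1.map _
  have hhom : (X 0 ^ m0 * (MvPolynomial.map (algebraMap V k) hV * q0)).IsHomogeneous
      (1 * m0 + (((∑ j ∈ Finset.univ.erase i, 1 * 2) + ∑ j : Fin s, 1) + n)) :=
    ((isHomogeneous_X k (0 : Fin 4)).pow m0).mul (hhom1.mul hq0)
  have h4 : X 0 ^ m0 * (MvPolynomial.map (algebraMap V k) hV * q0) ∈ sp V k I :=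
    Ideal.mul_mem_left _ _ h3
  have h5 := (hm0 _ (by omega) _ hhom).1 h4
  have h6 : X 0 ^ m0 * (MvPolynomial.map (algebraMap V k) hV * q0) ∈
      ribI (c.A i) (c.g i) (c.f i) :=
    ((inf_le_left : c.J ≤ _).trans (iInf_le _ i)) h5
  rw [← mul_assoc] at h6
  apply ribI_primary h6
  intro hmem
  have hprime := lineI_isPrime (c.A i)
  rcases hprime.mem_or_mem hmem with h7 | h7
  · have h8 := hprime.mem_of_pow_mem _ h7
    have h9 : rho (c.A i) (X 0) = 0 := h8
    unfold rho at h9
    rw [aeval_X] at h9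
    exact X_ne_zero (R := k) (0 : Fin 2) h9
  · rw [ek] at h7
    rcases hprime.mem_or_mem h7 with h8 | h8
    · rw [hprime.prod_mem_iff] at h8
      obtain ⟨j, hj, h9⟩ := h8
      exact (hF j (Finset.ne_of_mem_erase hj)).2.2 (hprime.mem_of_pow_mem _ h9)
    · rw [hprime.prod_mem_iff] at h8
      obtain ⟨j, _, h9⟩ := h8
      exact (hG j).2.2 h9

/-- incidences are preserved -/
lemma MT_inc (hk : Function.Surjective (algebraMap V k)) {r s : ℕ} (c : Cfg k r s) (hc : c.Good)
    {I : Ideal (S K)} (hI : IsHom I) (tf : TF I) (h : EqHigh (sp V k I) c.J)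
    (L : Fin r → M2 V) (hL : ∀ i, (L i).map (algebraMap V k) = c.A i)
    (M : Fin s → M2 V) (hM : ∀ j, (M j).map (algebraMap V k) = c.N j)
    (hrad : I.radical = (⨅ i, lineI ((L i).map (algebraMap V K))) ⊓
      ⨅ j, lineI ((M j).map (algebraMap V K)))
    (hD : (⨅ i, lineI ((L i).map (algebraMap V K))) * I.radical ≤ I) :
    (∀ i j, (c.A i - c.N j).det = 0 → (L i - M j).det = 0) ∧
    ∀ i, ∃ m0, ∀ m ≥ m0, hf (Qloc I ((L i).map (algebraMap V K))) m = 2 * m + c.a i + 2 := by
  classical
  have hinj : Function.Injective (algebraMap V K) := IsFractionRing.injective V K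
  have hLK : ∀ i j, i ≠ j →
      ((L i).map (algebraMap V K) - (L j).map (algebraMap V K)).det ≠ 0 := by
    intro i j hij h0
    rw [j13161_MT_inc_det, map_eq_zero_iff _ hinj] at h0
    apply hc.hA i j hij
    rw [← hL i, ← hL j, j13161_MT_inc_det, h0, map_zero]
  have hMK : ∀ i j, i ≠ j →
      ((M i).map (algebraMap V K) - (M j).map (algebraMap V K)).det ≠ 0 := by
    intro i j hij h0
    rw [j13161_MT_inc_det, map_eq_zero_iff _ hinj] at h0
    apply hc.hN i j hij
    rw [← hM i, ← hM j, j13161_MT_inc_det, h0, map_zero]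
  have hLM : ∀ i j, (L i).map (algebraMap V K) ≠ (M j).map (algebraMap V K) := by
    intro i j h0
    have h1 : L i = M j := j13161_MT_inc_map_inj (K := K) _ _ h0
    apply hc.hAN i j
    rw [← hL i, ← hM j, h1]
  have hinjL : Function.Injective (fun i => (L i).map (algebraMap V K)) := by
    intro i j hij
    by_contra hne
    apply hLK i j hne
    simp only at hij
    rw [hij, sub_self, Matrix.det_zero]
  have hloc := j13161_MT_inc_loc hk c hc hI tf h L hL M hM hrad hD hinjL hLM
  obtain ⟨m1, hm1⟩ := hf_iInf_eq (I := fun i => Qloc I ((L i).map (algebraMap V K)))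
    (fun i => (hloc i).2.1) (by
      intro i j hij
      refine ⟨2 + 2, ?_⟩
      calc irr K ^ (2 + 2) ≤ (lineI ((L i).map (algebraMap V K)) ⊔
            lineI ((L j).map (algebraMap V K))) ^ (2 + 2) :=
            Ideal.pow_right_mono (irr_le_sup_lineI (hLK i j hij)) _
        _ ≤ lineI ((L i).map (algebraMap V K)) ^ 2 ⊔ lineI ((L j).map (algebraMap V K)) ^ 2 :=
            Ideal.sup_pow_add_le_pow_sup_pow
        _ ≤ _ := sup_le_sup (hloc i).1 (hloc j).1)
  obtain ⟨m2, hm2⟩ := hf_iInf_lineI (fun j => (M j).map (algebraMap V K)) hMK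
  obtain ⟨m3, hm3⟩ := hf_sup_le_inc (fun i => (L i).map (algebraMap V K))
    (fun j => (M j).map (algebraMap V K)) hLK hMK hLM
    (⨅ i, Qloc I ((L i).map (algebraMap V K))) (by
      apply le_iInf
      intro i
      exact (Ideal.le_of_dvd (Finset.dvd_prod_of_mem _ (Finset.mem_univ i))).trans (hloc i).1)
  obtain ⟨m4, hm4⟩ := h
  obtain ⟨m5, hm5⟩ := c.hf_J hc
  have hrib : ∀ i, ∃ m0, ∀ m ≥ m0, hf (ribI (c.A i) (c.g i) (c.f i)) m = 2 * m + c.a i + 2 :=
    fun i => hf_ribI _ (hc.hg i) (hc.hf i) (hc.cop i)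
  choose m6 hm6 using hrib
  have hm6' : ∀ i, m6 i ≤ ∑ i, m6 i := fun i =>
    Finset.single_le_sum (f := m6) (fun _ _ => Nat.zero_le _) (Finset.mem_univ i)
  set m0 := m1 + m2 + m3 + m4 + m5 + ∑ i, m6 i with hm0
  have hlow : ∀ m ≥ m0, ∀ i, 2 * m + c.a i + 2 ≤ hf (Qloc I ((L i).map (algebraMap V K))) m := by
    intro m hm i
    rw [← hm6 i m (by have := hm6' i; omega), ← hf_sp hk (hloc i).2.1 m]
    exact hf_anti (hloc i).2.2 m
  have hIle : I ≤ (⨅ i, Qloc I ((L i).map (algebraMap V K))) ⊓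
      ⨅ j, lineI ((M j).map (algebraMap V K)) := by
    apply le_inf
    · apply le_iInf
      intro i q hq
      refine ⟨1, fun h1 => (lineI_isPrime ((L i).map (algebraMap V K))).ne_top
        ((Ideal.eq_top_iff_one _).2 h1), ?_⟩
      rw [one_mul]
      exact hq
    · exact (Ideal.le_radical.trans hrad.le).trans inf_le_right
  have hup : ∀ m ≥ m0, (∑ i, hf (Qloc I ((L i).map (algebraMap V K))) m) + 2 * incN c.A c.N ≤
      (∑ i, (2 * m + c.a i + 2)) + 2 * incN (fun i => (L i).map (algebraMap V K))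
        (fun j => (M j).map (algebraMap V K)) := by
    intro m hm
    have e1 := hm1 m (by omega)
    have e2 := hm2 m (by omega)
    have e3 := hm3 m (by omega)
    have e5 := hm5 m (by omega)
    have e6 := hf_anti hIle m
    have e7 := hf_inf_sup (isHom_iInf (fun i => (hloc i).2.1))
      (isHom_iInf (fun j => lineI_isHom ((M j).map (algebraMap V K)))) m
    have e8 : hf I m = hf c.J m := by
      rw [← hf_sp hk hI m]
      exact hf_congr_high (hm4 m (by omega))
    rw [e1, e2] at e7
    omega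
  set SK : Set (Fin r × Fin s) := {x | ((L x.1).map (algebraMap V K) -
    (M x.2).map (algebraMap V K)).det = 0} with hSK
  set Sk : Set (Fin r × Fin s) := {x | (c.A x.1 - c.N x.2).det = 0} with hSk
  have hcardK : incN (fun i => (L i).map (algebraMap V K))
      (fun j => (M j).map (algebraMap V K)) = SK.ncard := Nat.card_coe_set_eq SK
  have hcardk : incN c.A c.N = Sk.ncard := Nat.card_coe_set_eq Sk
  have hsub : SK ⊆ Sk := by
    intro x hx
    have hx' : ((L x.1).map (algebraMap V K) - (M x.2).map (algebraMap V K)).det = 0 := hx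
    rw [j13161_MT_inc_det, map_eq_zero_iff _ hinj] at hx'
    show (c.A x.1 - c.N x.2).det = 0
    rw [← hL x.1, ← hM x.2, j13161_MT_inc_det, hx', map_zero]
  have hle1 : SK.ncard ≤ Sk.ncard := Set.ncard_le_ncard hsub (Set.toFinite _)
  have hsumle : ∀ m ≥ m0, ∑ i, (2 * m + c.a i + 2) ≤
      ∑ i, hf (Qloc I ((L i).map (algebraMap V K))) m := fun m hm =>
    Finset.sum_le_sum (fun i _ => hlow m hm i)
  have hle2 : Sk.ncard ≤ SK.ncard := by
    have e1 := hup m0 le_rfl
    have e2 := hsumle m0 le_rfl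
    rw [hcardK, hcardk] at e1
    omega
  have heq : SK = Sk := Set.eq_of_subset_of_ncard_le hsub hle2 (Set.toFinite _)
  refine ⟨fun i j hij => ?_, fun i => ⟨m0, fun m hm => ?_⟩⟩
  · have h1 : (i, j) ∈ Sk := hij
    rw [← heq] at h1
    have h2 : ((L i).map (algebraMap V K) - (M j).map (algebraMap V K)).det = 0 := h1
    rw [j13161_MT_inc_det, map_eq_zero_iff _ hinj] at h2
    exact h2
  · have e1 := hup m hm
    have e2 := hsumle m hm
    rw [hcardK, hcardk] at e1
    have e3 : ∑ i, (2 * m + c.a i + 2) = ∑ i, hf (Qloc I ((L i).map (algebraMap V K))) m := by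
      omega
    exact ((Finset.sum_eq_sum_iff_of_le (fun i _ => hlow m hm i)).1 e3 i
      (Finset.mem_univ i)).symm

/-- The main theorem on specialisations to a union of double lines and lines. -/
theorem MT [IsAlgClosed K] (hk : Function.Surjective (algebraMap V k)) {r s : ℕ} (c : Cfg k r s)
    (hc : c.Good) (I : Ideal (S K)) (hI : IsHom I) (sat : ∀ F, (∀ i, X i * F ∈ I) → F ∈ I)
    (h : EqHigh (sp V k I) c.J) :
    ∃ (L : Fin r → M2 V) (M : Fin s → M2 V),
      (∀ i, (L i).map (algebraMap V k) = c.A i) ∧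
      (∀ j, (M j).map (algebraMap V k) = c.N j) ∧
      (∀ i j, (c.A i - c.N j).det = 0 → (L i - M j).det = 0) ∧
      (I.colon (I.radical : Set (S K))).radical = (⨅ i, lineI ((L i).map (algebraMap V K))) ∧
      I.radical = (⨅ i, lineI ((L i).map (algebraMap V K))) ⊓
        (⨅ j, lineI ((M j).map (algebraMap V K))) ∧
      ∀ i, ∃ m0, ∀ m ≥ m0, hf (Qloc I ((L i).map (algebraMap V K))) m = 2 * m + c.a i + 2 := by
  classical
  have hJh := c.J_isHom hc
  have tf : TF I := MT_TF hk hI sat c.TF_J hJh h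
  have fin : FIN I := MT_FIN hk hI c.FIN_J hJh h
  obtain ⟨n, p, hp, hinc, hrad, hmin⟩ := exists_primes I hI tf fin
  choose e hepos heb hegrow heeq using fun c => prime_bound (p c) (hp c).1 (hp c).2.1 (hp c).2.2.1
    (hp c).2.2.2
  -- specialisation of the radical
  have hJA : c.J ≤ ⨅ i, lineI (c.A i) :=
    inf_le_left.trans (iInf_mono fun i => ribI_le_lineI _ _ _)
  have hJN : c.J ≤ ⨅ j, lineI (c.N j) := inf_le_right
  have hradA : (⨅ i, lineI (c.A i)).IsRadical := by
    refine Ideal.isRadical_iInf _ fun i => (lineI_isPrime _).isRadical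
  have hradN : (⨅ j, lineI (c.N j)).IsRadical := by
    refine Ideal.isRadical_iInf _ fun i => (lineI_isPrime _).isRadical
  have tfA : TF (⨅ i, lineI (c.A i)) := by
    intro u hu F hF
    rw [Ideal.mem_iInf] at hF ⊢
    exact fun i => TF_lineI _ u hu F (hF i)
  have tfN : TF (⨅ j, lineI (c.N j)) := by
    intro u hu F hF
    rw [Ideal.mem_iInf] at hF ⊢
    exact fun i => TF_lineI _ u hu F (hF i)
  have hspA := MT_rad hk hI hradA tfA hJA h
  have hspN := MT_rad hk hI hradN tfN hJN h
  have hIr : IsHom I.radical := isHom_radical hI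
  -- the set T
  obtain ⟨m0, hm0⟩ := h
  have h : EqHigh (sp V k I) c.J := ⟨m0, hm0⟩
  obtain ⟨T, hT1, hT2, hT3⟩ := c.exists_T hc (sp V k I.radical) (sp_isHom hk hIr)
    ⟨m0, fun m hm F hF hFJ => sp_mono hk Ideal.le_radical ((hm0 m hm F hF).2 hFJ)⟩ hspA hspN
  have hIJ : ∀ m ≥ m0, hf I m = hf c.J m := fun m hm => by
    rw [← hf_sp hk hI m]
    exact hf_congr_high (hm0 m hm)
  have hRb : ∀ m, hf I.radical m ≤ (∑ c, e c) * (m + 1) := fun m => by
    rw [hrad, Finset.sum_mul]
    exact (hf_iInf_le (fun c => (hp c).2.1) m).trans (Finset.sum_le_sum fun c _ => heb c m)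
  have hRg : ∃ C, ∀ m, (∑ c, e c) * m ≤ hf I.radical m + C := by
    rw [hrad]
    exact growth_iInf p e (fun c => ⟨(hp c).1, (hp c).2.1⟩) hinc hegrow
  obtain ⟨hTu, hd'⟩ := count_num (inc := incN c.A c.N) (d' := ∑ c, e c) c.a T (hf c.J)
    (hf I.radical) (c.hf_J hc) hRb hRg
    (by
      obtain ⟨m1, hm1⟩ := hT1
      exact ⟨m1, fun m hm => by have := hm1 m hm; rwa [hf_sp hk hIr] at this⟩)
    (by
      obtain ⟨C, hC⟩ := hT2
      exact ⟨C, fun m => by have := hC m; rwa [hf_sp hk hIr] at this⟩) hc.big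
  subst hTu
  -- the double part
  let D := {c : Fin n // I.colon (I.radical : Set (S K)) ≤ p c}
  let N := {c : Fin n // ¬ I.colon (I.radical : Set (S K)) ≤ p c}
  have hradD := radical_colon I hI tf fin p hp hmin
  have hspD := MT_spD hk c hc hI h (fun i => hT3 i (Finset.mem_univ i))
  rw [hradD] at hspD
  let eD := (Fintype.equivFin D)
  let pD : Fin (Fintype.card D) → Ideal (S K) := fun j => p (eD.symm j).1
  let ED : Fin (Fintype.card D) → ℕ := fun j => e (eD.symm j).1
  have hpD : (⨅ c : D, p c.1) = ⨅ j, pD j := (Equiv.iInf_comp (g := fun c : D => p c.1) eD.symm).symm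
  have hincD : ∀ i j, pD i ≤ pD j → i = j := fun i j hij =>
    eD.symm.injective (Subtype.ext (hinc _ _ hij))
  -- growth
  have hgl : ∃ C, ∀ m, (∑ j, ED j) * m + hf I.radical m ≤ hf I m + C :=
    growth_nil I hI pD ED (fun j => ⟨(hp _).1, (hp _).2.1⟩) hincD (fun j => (eD.symm j).2)
      (fun j => hegrow _)
  have hupper : ∃ C, ∀ m, hf I m ≤ r * m + hf I.radical m + C := by
    obtain ⟨m1, hm1⟩ := hT1
    refine ⟨(∑ i, (c.a i + 1)) + ∑ m ∈ Finset.range (max m0 m1), hf I m, fun m => ?_⟩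
    by_cases hm : m < max m0 m1
    · have : hf I m ≤ ∑ m ∈ Finset.range (max m0 m1), hf I m :=
        Finset.single_le_sum (f := fun m => hf I m) (fun _ _ => Nat.zero_le _)
          (Finset.mem_range.2 hm)
      omega
    · push Not at hm
      have h1 := hm1 m (le_trans (le_max_right _ _) hm)
      rw [hf_sp hk hIr, ← hIJ m (le_trans (le_max_left _ _) hm)] at h1
      have h2 : ∑ i : Fin r, (m + c.a i + 1) = r * m + ∑ i, (c.a i + 1) := by
        simp only [add_assoc]
        rw [Finset.sum_add_distrib]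
        simp
      omega
  have hsumD : ∑ j, ED j ≤ r := by
    obtain ⟨C1, hC1⟩ := hgl
    obtain ⟨C2, hC2⟩ := hupper
    by_contra hcon
    push Not at hcon
    have h1 := hC1 (C1 + C2 + 1)
    have h2 := hC2 (C1 + C2 + 1)
    have h3 : (r + 1) * (C1 + C2 + 1) ≤ (∑ j, ED j) * (C1 + C2 + 1) :=
      Nat.mul_le_mul_right _ hcon
    have h4 : (r + 1) * (C1 + C2 + 1) = r * (C1 + C2 + 1) + (C1 + C2 + 1) := by ring
    omega
  have hlowD : ∃ m0, ∀ m ≥ m0, r * (m + 1) ≤ hf (⨅ j, pD j) m := by
    obtain ⟨m2, hm2⟩ := hf_iInf_lineI c.A hc.hA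
    refine ⟨m2, fun m hm => ?_⟩
    rw [← hm2 m hm, ← hf_sp hk (isHom_iInf fun j => (hp _).2.1) m, ← hpD]
    exact hf_anti hspD m
  obtain ⟨hnD, heD, hLD⟩ := all_lines pD ED (fun j => (hp _).2.1) (fun j => heb _)
    (fun j => heeq _) (fun j => hepos _) hsumD hlowD
  have hsumDeq : ∑ j, ED j = r := by
    rw [Finset.sum_congr rfl (fun j _ => heD j)]; simp [hnD]
  have hAinj : Function.Injective c.A := by
    intro i j hij
    by_contra hne
    exact hc.hA i j hne (by rw [hij, sub_self]; simp)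
  -- label the double lines
  obtain ⟨L, hL, hDL⟩ : ∃ L : Fin r → M2 V, (∀ i, (L i).map (algebraMap V k) = c.A i) ∧
      (⨅ j, pD j) = ⨅ i, lineI ((L i).map (algebraMap V K)) := by
    have h1 : (⨅ j, pD j) = ⨅ i : Fin r, pD (Fin.cast hnD.symm i) :=
      (Equiv.iInf_comp (g := pD) (finCongr hnD.symm)).symm
    rw [h1]
    refine MT_label hk c.A hAinj (fun i => pD (Fin.cast hnD.symm i)) (fun i => hLD _) ?_
    rw [← h1, ← hpD]
    exact hspD
  have hDI : (⨅ j, pD j) * I.radical ≤ I := by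
    refine growth_nil_eq I hI tf pD ED (fun j => ⟨(hp _).1, (hp _).2.1⟩) hincD
      (fun j => (eD.symm j).2) (fun j => hegrow _) ?_
    rw [hsumDeq]
    exact hupper
  -- the simple part
  let eN := (Fintype.equivFin N)
  let pN : Fin (Fintype.card N) → Ideal (S K) := fun j => p (eN.symm j).1
  let EN : Fin (Fintype.card N) → ℕ := fun j => e (eN.symm j).1
  have hpN : (⨅ c : N, p c.1) = ⨅ j, pN j := (Equiv.iInf_comp (g := fun c : N => p c.1) eN.symm).symm
  have hsplit : (⨅ c, p c) = (⨅ j, pD j) ⊓ ⨅ j, pN j := by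
    rw [← hpD, ← hpN]
    apply le_antisymm
    · exact le_inf (le_iInf fun c => iInf_le _ _) (le_iInf fun c => iInf_le _ _)
    · refine le_iInf fun x => ?_
      by_cases hx : I.colon (I.radical : Set (S K)) ≤ p x
      · exact inf_le_left.trans (iInf_le (fun c : D => p c.1) ⟨x, hx⟩)
      · exact inf_le_right.trans (iInf_le (fun c : N => p c.1) ⟨x, hx⟩)
  have hsumsplit : ∑ c, e c = ∑ j, ED j + ∑ j, EN j := by
    have h1 : ∑ j, ED j = ∑ c : D, e c.1 := Equiv.sum_comp eD.symm (fun c : D => e c.1)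
    have h2 : ∑ j, EN j = ∑ c : N, e c.1 := Equiv.sum_comp eN.symm (fun c : N => e c.1)
    rw [h1, h2]
    exact (Fintype.sum_subtype_add_sum_subtype _ _).symm
  have hsumN : ∑ j, EN j ≤ s := by omega
  have hspNN : sp V k (⨅ j, pN j) ≤ ⨅ j, lineI (c.N j) := by
    refine MT_spN hk c.A c.N hc.hAN L hL (R := I.radical) ?_ hspN
    rw [← hDL]
    exact Ideal.mul_le_inf.trans (hsplit.ge.trans hrad.ge)
  have hlowN : ∃ m0, ∀ m ≥ m0, s * (m + 1) ≤ hf (⨅ j, pN j) m := by
    obtain ⟨m2, hm2⟩ := hf_iInf_lineI c.N hc.hN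
    refine ⟨m2, fun m hm => ?_⟩
    rw [← hm2 m hm, ← hf_sp hk (isHom_iInf fun j => (hp _).2.1) m]
    exact hf_anti hspNN m
  obtain ⟨hnN, heN, hLN⟩ := all_lines pN EN (fun j => (hp _).2.1) (fun j => heb _)
    (fun j => heeq _) (fun j => hepos _) hsumN hlowN
  have hNinj : Function.Injective c.N := by
    intro i j hij
    by_contra hne
    exact hc.hN i j hne (by rw [hij, sub_self]; simp)
  obtain ⟨M, hM, hNM⟩ : ∃ M : Fin s → M2 V, (∀ i, (M i).map (algebraMap V k) = c.N i) ∧
      (⨅ j, pN j) = ⨅ i, lineI ((M i).map (algebraMap V K)) := by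
    have h1 : (⨅ j, pN j) = ⨅ i : Fin s, pN (Fin.cast hnN.symm i) :=
      (Equiv.iInf_comp (g := pN) (finCongr hnN.symm)).symm
    rw [h1]
    refine MT_label hk c.N hNinj (fun i => pN (Fin.cast hnN.symm i)) (fun i => hLN _) ?_
    rw [← h1]
    exact hspNN
  have hradLM : I.radical = (⨅ i, lineI ((L i).map (algebraMap V K))) ⊓
      ⨅ j, lineI ((M j).map (algebraMap V K)) := by
    rw [hrad, hsplit, hDL, hNM]
  obtain ⟨hinc1, hQ⟩ := MT_inc hk c hc hI tf h L hL M hM hradLM (by rw [← hDL]; exact hDI)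
  refine ⟨L, M, hL, hM, hinc1, ?_, hradLM, hQ⟩
  rw [hradD, hpD, hDL]

end MT


end Pool.Agent.Helper924.HS
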