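import Mathlib
import Pool.Agent.Helper924.HS.MT
import Pool.Agent.Helper924.HS.Conf

set_option autoImplicit false

open MvPolynomial

namespace Pool.Agent.Helper924.HS

section ct
variable {F0 V K k : Type} [Field F0] [CharZero F0] [CommRing V] [IsDomain V]
  [Field K] [Field k] [Algebra V K] [IsFractionRing V K] [Algebra V k] [Algebra F0 V]
  [Algebra F0 K] [Algebra F0 k] [IsScalarTower F0 V K] [IsScalarTower F0 V k]

/-- the invariant of the lines over `V` -/
theorem ct_t {w : F0} (hw : w ^ 2 + w + 1 = 0) (c : Cfg k 9 10)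
    (hc : IsConf (algebraMap F0 k w) c) (L : Fin 9 → M2 V) (M : Fin 10 → M2 V)
    (hL : ∀ i, (L i).map (algebraMap V k) = c.A i) (hM : ∀ j, (M j).map (algebraMap V k) = c.N j)
    (hinc : ∀ i j, (c.A i - c.N j).det = 0 → (L i - M j).det = 0) :
    tnum ((M 8).map (algebraMap V K)) ((M 9).map (algebraMap V K))
        (fun i => (L i).map (algebraMap V K)) =
      algebraMap F0 K w * tden ((M 8).map (algebraMap V K)) ((M 9).map (algebraMap V K))
        (fun i => (L i).map (algebraMap V K)) ∧
    tden ((M 8).map (algebraMap V K)) ((M 9).map (algebraMap V K))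
        (fun i => (L i).map (algebraMap V K)) ≠ 0 := by
  classical
  have : CharZero k := charZero_of_injective_algebraMap (algebraMap F0 k).injective
  have : CharZero K := charZero_of_injective_algebraMap (algebraMap F0 K).injective
  have hwk : (algebraMap F0 k w) ^ 2 + algebraMap F0 k w + 1 = 0 := by
    rw [← map_pow, ← map_add, ← map_one (algebraMap F0 k), ← map_add, hw, map_zero]
  have hinj : Function.Injective (algebraMap V K) := IsFractionRing.injective V K
  have hA : ∀ i, (L i).map (algebraMap V k) = AA (algebraMap F0 k w) i := fun i => by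
    rw [hL, hc.hA]
  have hN : ∀ j, (M j).map (algebraMap V k) = NN (algebraMap F0 k w) j := fun j => by
    rw [hM, hc.hN]
  have hdet : ∀ (R : Type) [CommRing R] (φ : V →+* R) (P Q : M2 V),
      (P.map φ - Q.map φ).det = φ ((P - Q).det) := by
    intro R _ φ P Q
    rw [RingHom.map_det]
    congr 1
    ext a b
    simp
  have hbrk : ∀ i j l, algebraMap V k (br (M 8) (M 9) L i j l) =
      br (NN (algebraMap F0 k w) 8) (NN (algebraMap F0 k w) 9) (AA (algebraMap F0 k w)) i j l := by
    intro i j l
    rw [← br_map, hN, hN]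
    congr 1
    funext i
    exact hA i
  have hinc' : ∀ i j, Einc i j → (L i - M j).det = 0 := fun i j hij => by
    apply hinc
    rw [hc.hA, hc.hN]
    exact (conf_AN hwk i j).2 hij
  have hXY : ((M 8).map (algebraMap V K) - (M 9).map (algebraMap V K)).det ≠ 0 := by
    rw [hdet]
    intro h0
    have h1 : (M 8 - M 9).det = 0 := hinj (by rw [h0, map_zero])
    have h2 := hdet k (algebraMap V k) (M 8) (M 9)
    rw [h1, map_zero, hN, hN] at h2
    exact conf_N hwk 8 9 (by decide) h2
  have hne : ∀ j j' : Fin 10, j ≠ j' →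
      (M j).map (algebraMap V K) ≠ (M j').map (algebraMap V K) := by
    intro j j' hjj h0
    have h1 : M j = M j' := by
      ext a b
      apply hinj
      exact congrFun (congrFun h0 a) b
    have h2 := conf_N hwk j j' hjj
    rw [← hN, ← hN, h1, sub_self] at h2
    simp at h2
  have hline : ∀ i j l : Fin 9, i ≠ 8 → j ≠ 8 → l ≠ 8 → isLine i j l →
      br ((M 8).map (algebraMap V K)) ((M 9).map (algebraMap V K))
        (fun i => (L i).map (algebraMap V K)) i j l = 0 := by
    intro i j l _ _ _ hl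
    obtain ⟨kk, hkk, h1, h2, h3⟩ := hl
    have hk8 : kk ≠ 8 := by rintro rfl; exact absurd hkk (by decide)
    have hk9 : kk ≠ 9 := by rintro rfl; exact absurd hkk (by decide)
    refine coplanar _ _ ((M kk).map (algebraMap V K)) _ hXY (hne _ _ hk8) (hne _ _ hk9) i j l ?_
    intro a ha
    have ha' : Einc a kk := by
      simp only [Finset.mem_insert, Finset.mem_singleton] at ha
      rcases ha with rfl | rfl | rfl | rfl
      · exact h1
      · exact h2
      · exact h3
      · right; left; rfl
    refine ⟨?_, ?_, ?_⟩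
    · rw [hdet, hinc' a 8 (Or.inl (by decide)), map_zero]
    · rw [hdet, hinc' a 9 (Or.inl (by decide)), map_zero]
    · rw [hdet, hinc' a kk ha', map_zero]
  have hnonline : ∀ i j l : Fin 9, i ≠ 8 → j ≠ 8 → l ≠ 8 → i ≠ j → j ≠ l → i ≠ l →
      ¬ isLine i j l → br ((M 8).map (algebraMap V K)) ((M 9).map (algebraMap V K))
        (fun i => (L i).map (algebraMap V K)) i j l ≠ 0 := by
    intro i j l hi hj hl hij hjl hil hnl h0
    rw [br_map] at h0
    have h1 : br (M 8) (M 9) L i j l = 0 := hinj (by rw [h0, map_zero])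
    have h2 := hbrk i j l
    rw [h1, map_zero] at h2
    exact conf_br hwk i j l hi hj hl hij hjl hil hnl h2.symm
  have hmac := maclane _ _ _ hline hnonline
  have htn : ∀ (R : Type) [CommRing R] (φ : V →+* R),
      tnum ((M 8).map φ) ((M 9).map φ) (fun i => (L i).map φ) = φ (tnum (M 8) (M 9) L) := by
    intro R _ φ
    unfold tnum
    rw [br_map, br_map, br_map, map_mul, map_mul]
  have htd : ∀ (R : Type) [CommRing R] (φ : V →+* R),
      tden ((M 8).map φ) ((M 9).map φ) (fun i => (L i).map φ) = φ (tden (M 8) (M 9) L) := by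
    intro R _ φ
    unfold tden
    rw [br_map, br_map, br_map, map_mul, map_mul]
  have htk := conf_t hwk
  have hfun : (fun i => (L i).map (algebraMap V k)) = AA (algebraMap F0 k w) := funext hA
  have h1 : algebraMap V k (tnum (M 8) (M 9) L) =
      algebraMap F0 k w * algebraMap V k (tden (M 8) (M 9) L) := by
    rw [← htn, ← htd, hN, hN, hfun]
    exact htk.1
  have h2 : algebraMap V k (tden (M 8) (M 9) L) ≠ 0 := by
    rw [← htd, hN, hN, hfun]
    exact htk.2
  rw [htn, htd] at hmac ⊢
  have hmacV : tnum (M 8) (M 9) L ^ 2 + tnum (M 8) (M 9) L * tden (M 8) (M 9) L +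
      tden (M 8) (M 9) L ^ 2 = 0 := by
    apply hinj
    rw [map_add, map_add, map_mul, map_pow, map_pow, hmac, map_zero]
  have hwV : (algebraMap F0 V w) ^ 2 + algebraMap F0 V w + 1 = 0 := by
    rw [← map_pow, ← map_add, ← map_one (algebraMap F0 V), ← map_add, hw, map_zero]
  have hfac : (tnum (M 8) (M 9) L - algebraMap F0 V w * tden (M 8) (M 9) L) *
      (tnum (M 8) (M 9) L + (1 + algebraMap F0 V w) * tden (M 8) (M 9) L) = 0 := by
    linear_combination hmacV - (tden (M 8) (M 9) L) ^ 2 * hwV
  refine ⟨?_, ?_⟩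
  · rcases mul_eq_zero.1 hfac with h | h
    · rw [IsScalarTower.algebraMap_apply F0 V K, ← map_mul]
      congr 1
      exact sub_eq_zero.1 h
    · exfalso
      have h3 := congrArg (algebraMap V k) h
      rw [map_add, map_mul, map_add, map_one, map_zero, h1,
        ← IsScalarTower.algebraMap_apply F0 V k] at h3
      have h4 : (2 * algebraMap F0 k w + 1) * algebraMap V k (tden (M 8) (M 9) L) = 0 := by
        linear_combination h3
      rcases mul_eq_zero.1 h4 with h5 | h5
      · have h6 : (3 : k) = 0 := by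
          linear_combination 4 * hwk - (2 * algebraMap F0 k w + 1) * h5
        exact absurd h6 (by norm_num)
      · exact h2 h5
  · intro h
    apply h2
    have : tden (M 8) (M 9) L = 0 := hinj (by rw [h, map_zero])
    rw [this, map_zero]

end ct

/-- A finite intersection of line ideals inside a line ideal. -/
lemma line_of_iInf_le {K : Type} [Field K] {r s : ℕ} (L : Fin r → M2 K) (M : Fin s → M2 K)
    {P : M2 K} (h : (⨅ i, lineI (L i)) ⊓ (⨅ j, lineI (M j)) ≤ lineI P) :
    (∃ i, L i = P) ∨ ∃ j, M j = P := by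
  have hp := lineI_isPrime P
  rcases hp.inf_le.1 h with h | h
  · left
    rw [← Finset.inf_univ_eq_iInf] at h
    obtain ⟨i, -, hi⟩ := (hp.inf_le').1 h
    exact ⟨i, (lineI_le_iff _ _).1 hi⟩
  · right
    rw [← Finset.inf_univ_eq_iInf] at h
    obtain ⟨i, -, hi⟩ := (hp.inf_le').1 h
    exact ⟨i, (lineI_le_iff _ _).1 hi⟩

section CT
variable {F0 K V k V' k' : Type} [Field F0] [CharZero F0] [Field K] [IsAlgClosed K] [Algebra F0 K]
  [CommRing V] [IsDomain V] [ValuationRing V] [Field k] [Algebra V K] [IsFractionRing V K]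
  [Algebra V k] [Algebra F0 V] [Algebra F0 k] [IsScalarTower F0 V K] [IsScalarTower F0 V k]
  [CommRing V'] [IsDomain V'] [ValuationRing V'] [Field k'] [Algebra V' K] [IsFractionRing V' K]
  [Algebra V' k'] [Algebra F0 V'] [Algebra F0 k'] [IsScalarTower F0 V' K]
  [IsScalarTower F0 V' k']

omit [IsAlgClosed K] in
/-- The lines are distinct. -/
lemma ct_lines {R : Type} [CommRing R] {k : Type} [Field k] [Algebra R K] [Algebra R k]
    (hinj : Function.Injective (algebraMap R K)) {c : Cfg k 9 10} (hAN : ∀ i j, c.A i ≠ c.N j)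
    (hA : Function.Injective c.A) (hN : Function.Injective c.N)
    (L : Fin 9 → M2 R) (M : Fin 10 → M2 R)
    (hL : ∀ i, (L i).map (algebraMap R k) = c.A i) (hM : ∀ j, (M j).map (algebraMap R k) = c.N j) :
    (∀ i i', (L i).map (algebraMap R K) = (L i').map (algebraMap R K) → i = i') ∧
    (∀ i i', (M i).map (algebraMap R K) = (M i').map (algebraMap R K) → i = i') ∧
    ∀ i j, (L i).map (algebraMap R K) ≠ (M j).map (algebraMap R K) := by
  have key : ∀ P Q : M2 R, P.map (algebraMap R K) = Q.map (algebraMap R K) → P = Q := by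
    intro P Q h
    ext a b
    exact hinj (congrFun (congrFun h a) b)
  refine ⟨fun i i' h => hA ?_, fun i i' h => hN ?_, fun i j h => hAN i j ?_⟩
  · rw [← hL, ← hL, key _ _ h]
  · rw [← hM, ← hM, key _ _ h]
  · rw [← hL, ← hM, key _ _ h]

/-- An ideal which specialises to both curves: the parameters agree. -/
theorem CT (hk : Function.Surjective (algebraMap V k)) (hk' : Function.Surjective (algebraMap V' k'))
    {w w' : F0} (hw : w ^ 2 + w + 1 = 0) (hw' : w' ^ 2 + w' + 1 = 0)
    (c : Cfg k 9 10) (hc : IsConf (algebraMap F0 k w) c)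
    (c' : Cfg k' 9 10) (hc' : IsConf (algebraMap F0 k' w') c')
    (I : Ideal (S K)) (hI : IsHom I) (sat : ∀ F, (∀ i, X i * F ∈ I) → F ∈ I)
    (h : EqHigh (sp V k I) c.J) (h' : EqHigh (sp V' k' I) c'.J) : w = w' := by
  classical
  have : CharZero k := charZero_of_injective_algebraMap (algebraMap F0 k).injective
  have : CharZero k' := charZero_of_injective_algebraMap (algebraMap F0 k').injective
  have hwk : (algebraMap F0 k w) ^ 2 + algebraMap F0 k w + 1 = 0 := by
    rw [← map_pow, ← map_add, ← map_one (algebraMap F0 k), ← map_add, hw, map_zero]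
  have hwk' : (algebraMap F0 k' w') ^ 2 + algebraMap F0 k' w' + 1 = 0 := by
    rw [← map_pow, ← map_add, ← map_one (algebraMap F0 k'), ← map_add, hw', map_zero]
  obtain ⟨L, M, hL, hM, hinc, hD, hR, hQ⟩ := MT hk c hc.good I hI sat h
  obtain ⟨L', M', hL', hM', hinc', hD', hR', hQ'⟩ := MT hk' c' hc'.good I hI sat h'
  have hAinj : ∀ {k : Type} [Field k] {c : Cfg k 9 10} (hc : c.Good),
      Function.Injective c.A := by
    intro k _ c hc i j hij
    by_contra hne
    exact hc.hA i j hne (by rw [hij, sub_self]; simp)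
  have hNinj : ∀ {k : Type} [Field k] {c : Cfg k 9 10} (hc : c.Good),
      Function.Injective c.N := by
    intro k _ c hc i j hij
    by_contra hne
    exact hc.hN i j hne (by rw [hij, sub_self]; simp)
  obtain ⟨iL, iM, iLM⟩ := ct_lines (K := K) (IsFractionRing.injective V K) hc.good.hAN
    (hAinj hc.good) (hNinj hc.good) L M hL hM
  obtain ⟨iL', iM', iLM'⟩ := ct_lines (K := K) (IsFractionRing.injective V' K) hc'.good.hAN
    (hAinj hc'.good) (hNinj hc'.good) L' M' hL' hM'
  -- the double lines agree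
  have hLL : ∀ i, (L i).map (algebraMap V K) = (L' i).map (algebraMap V' K) := by
    intro i
    have h1 : (⨅ i, lineI ((L' i).map (algebraMap V' K))) ⊓
        (⨅ j : Fin 0, lineI ((fun _ => 0 : Fin 0 → M2 K) j)) ≤
        lineI ((L i).map (algebraMap V K)) := by
      rw [← hD', hD]
      exact inf_le_left.trans (iInf_le _ i)
    rcases line_of_iInf_le _ _ h1 with ⟨i', hi'⟩ | ⟨j, -⟩
    · obtain ⟨m1, hm1⟩ := hQ i
      obtain ⟨m2, hm2⟩ := hQ' i'
      have h3 := hm1 (max m1 m2) (le_max_left _ _)
      have h4 := hm2 (max m1 m2) (le_max_right _ _)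
      rw [hi', h3, hc.ha, hc'.ha] at h4
      have h5 : i = i' := by
        apply Fin.ext
        omega
      rw [h5, hi', ← h5]
    · exact j.elim0
  -- the simple lines agree up to a permutation
  have hMM : ∀ j, ∃ j', (M' j).map (algebraMap V' K) = (M j').map (algebraMap V K) := by
    intro j
    have h1 : (⨅ i, lineI ((L i).map (algebraMap V K))) ⊓
        (⨅ j, lineI ((M j).map (algebraMap V K))) ≤ lineI ((M' j).map (algebraMap V' K)) := by
      rw [← hR, hR']
      exact inf_le_right.trans (iInf_le _ j)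
    rcases line_of_iInf_le _ _ h1 with ⟨i, hi⟩ | ⟨j', hj'⟩
    · rw [hLL] at hi
      exact absurd hi (iLM' i j)
    · exact ⟨j', hj'.symm⟩
  have hdet : ∀ (R : Type) [CommRing R] (T : Type) [CommRing T] (φ : R →+* T) (P Q : M2 R),
      (P.map φ - Q.map φ).det = φ ((P - Q).det) := by
    intro R _ T _ φ P Q
    rw [RingHom.map_det]
    congr 1
    ext a b
    simp
  -- lines meeting all double lines
  have hall : ∀ j : Fin 10, 8 ≤ (j : ℕ) → ∀ j', (M' j).map (algebraMap V' K) =
      (M j').map (algebraMap V K) → 8 ≤ (j' : ℕ) := by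
    intro j hj j' hjj'
    have h1 : ∀ i, Einc i j' := by
      intro i
      rw [← conf_AN hwk, ← hc.hA, ← hc.hN, ← hL, ← hM, hdet]
      have h2 : (L' i - M' j).det = 0 := by
        apply hinc'
        rw [hc'.hA, hc'.hN]
        exact (conf_AN hwk' i j).2 (Or.inl hj)
      have h3 := hdet _ _ (algebraMap V' K) (L' i) (M' j)
      rw [h2, map_zero, ← hLL, hjj', hdet] at h3
      have h4 : (L i - M j').det = 0 := IsFractionRing.injective V K (by rw [h3, map_zero])
      rw [h4, map_zero]
    by_contra hlt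
    push Not at hlt
    have : ¬ ∀ i, Einc i j' := by
      revert j'
      intro j' _ _ hlt
      have : ∀ j' : Fin 10, (j' : ℕ) < 8 → ¬ ∀ i, Einc i j' := by decide
      exact this j' hlt
    exact this h1
  obtain ⟨t1, t2⟩ := ct_t (K := K) hw c hc L M hL hM hinc
  obtain ⟨t1', t2'⟩ := ct_t (K := K) hw' c' hc' L' M' hL' hM' hinc'
  have hLfun : (fun i => (L' i).map (algebraMap V' K)) = fun i => (L i).map (algebraMap V K) :=
    funext fun i => (hLL i).symm
  rw [hLfun] at t1' t2'
  obtain ⟨j8, h8⟩ := hMM 8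
  obtain ⟨j9, h9⟩ := hMM 9
  have e8 := hall 8 (by decide) j8 h8
  have e9 := hall 9 (by decide) j9 h9
  have hne : j8 ≠ j9 := by
    intro he
    rw [he, ← h9] at h8
    exact absurd (iM' _ _ h8) (by decide)
  have hcase : (j8 = 8 ∧ j9 = 9) ∨ (j8 = 9 ∧ j9 = 8) := by
    have h1 : ∀ j8 j9 : Fin 10, 8 ≤ (j8 : ℕ) → 8 ≤ (j9 : ℕ) → j8 ≠ j9 →
        (j8 = 8 ∧ j9 = 9) ∨ (j8 = 9 ∧ j9 = 8) := by decide
    exact h1 j8 j9 e8 e9 hne
  have hfin : ∀ x y : F0, ∀ T N : K, T = algebraMap F0 K x * N → T = algebraMap F0 K y * N →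
      N ≠ 0 → x = y := by
    intro x y T N h1 h2 h3
    have h4 : (algebraMap F0 K x - algebraMap F0 K y) * N = 0 := by
      linear_combination h2 - h1
    rcases mul_eq_zero.1 h4 with h5 | h5
    · exact (algebraMap F0 K).injective (sub_eq_zero.1 h5)
    · exact absurd h5 h3
  rw [h8, h9] at t1' t2'
  rcases hcase with ⟨rfl, rfl⟩ | ⟨rfl, rfl⟩
  · exact hfin _ _ _ _ t1 t1' t2
  · rw [tnum_swap, tden_swap] at t1'
    refine hfin _ _ _ _ t1 ?_ t2
    linear_combination -t1'

end CT

end Pool.Agent.Helper924.HS
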