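import Mathlib
import Pool.Agent.Helper924.HS.Alg
import Pool.Agent.Helper924.HS.CT

set_option autoImplicit false

open CategoryTheory CategoryTheory.Limits AlgebraicGeometry MvPolynomial

namespace Pool.Agent.Helper924.HS

section eqsat
variable {k : Type} [Field k]

lemma le_of_eqHigh {I J : Ideal (S k)} (hI : IsHom I)
    (sJ : ∀ F, (∀ i, X i * F ∈ J) → F ∈ J) (h : EqHigh I J) : I ≤ J := by
  obtain ⟨m0, hm0⟩ := h
  have key : ∀ t n : ℕ, m0 ≤ n + t → ∀ F : S k, F.IsHomogeneous n → F ∈ I → F ∈ J := by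
    intro t
    induction t with
    | zero => exact fun n hn F hF hFI => (hm0 n (by simpa using hn) F hF).1 hFI
    | succ t ih =>
      intro n hn F hF hFI
      refine sJ F fun i => ih (1 + n) (by omega) _ ((isHomogeneous_X k i).mul hF)
        (I.mul_mem_left _ hFI)
  exact le_of_hom hI fun n F hF hFI => key m0 n (by omega) F hF hFI

lemma eq_of_eqHigh {I J : Ideal (S k)} (hI : IsHom I) (hJ : IsHom J)
    (sI : ∀ F, (∀ i, X i * F ∈ I) → F ∈ I)
    (sJ : ∀ F, (∀ i, X i * F ∈ J) → F ∈ J) (h : EqHigh I J) : I = J :=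
  le_antisymm (le_of_eqHigh hI sJ h) (le_of_eqHigh hJ sI h.symm)

end eqsat

section fin
variable {d : ℕ} {g : ℤ} (𝓗 : HilbP3 d g) {Q : Type} [Field Q] [Algebra ℚ Q]

/-- Restriction of a point along a ring homomorphism over the rationals. -/
noncomputable def pull {R R' : Type} [CommRing R] [Algebra ℚ R] [CommRing R'] [Algebra ℚ R']
    (φ : R →ₐ[ℚ] R') (f : PointsOver 𝓗.H 𝓗.s R) : PointsOver 𝓗.H 𝓗.s R' :=
  ⟨Spec.map (CommRingCat.ofHom φ.toRingHom) ≫ f.1, by
    rw [Category.assoc, f.2, ← Spec.map_comp, ← CommRingCat.ofHom_comp]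
    congr 2
    exact φ.comp_algebraMap⟩

lemma Φ_pull {R R' : Type} [CommRing R] [Algebra ℚ R] [CommRing R'] [Algebra ℚ R']
    (φ : R →ₐ[ℚ] R') (f : PointsOver 𝓗.H 𝓗.s R) :
    (𝓗.Φ R' (pull 𝓗 φ f)).1 =
      satur R' ((𝓗.Φ R f).1.map (MvPolynomial.map (σ := Fin 4) φ.toRingHom)) :=
  𝓗.natural R R' φ f _ rfl

/-- One specialisation. -/
theorem special {K : Type} [Field K] (f : PointsOver 𝓗.H 𝓗.s Q)
    (y : Spec (CommRingCat.of K) ⟶ bcH 𝓗 Q)
    (h : y (⟨⊥, Ideal.isPrime_bot⟩ : PrimeSpectrum K) ⤳ ptOf 𝓗 f) [Algebra ℚ K]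
    (yK : PointsOver 𝓗.H 𝓗.s K) (hyK : yK.1 = y ≫ pullback.fst _ _)
    (j : Q →+* K) (hj : y ≫ pullback.snd _ _ = Spec.map (CommRingCat.ofHom j)) :
    ∃ (V : ValuationSubring K) (i : Q →+* V),
      (algebraMap V K).comp i = j ∧
      ∀ (_ : Algebra Q (IsLocalRing.ResidueField V)),
        algebraMap Q (IsLocalRing.ResidueField V) = (IsLocalRing.residue V).comp i →
      EqHigh (sp V (IsLocalRing.ResidueField V) (𝓗.Φ K yK).1)
        ((𝓗.Φ Q f).1.map (MvPolynomial.map (σ := Fin 4)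
          ((IsLocalRing.residue V).comp i))) := by
  obtain ⟨V, φ, i, h1, h2, h3⟩ := exists_valuation (pullback.snd _ _) (secOf 𝓗 f)
    (by unfold secOf; exact pullback.lift_snd _ _ _) y h
  refine ⟨V, i, ?_, fun _ halg => ?_⟩
  · have h4 : Spec.map (CommRingCat.ofHom ((algebraMap V K).comp i)) =
        Spec.map (CommRingCat.ofHom j) := by
      rw [CommRingCat.ofHom_comp, Spec.map_comp, ← h2, ← Category.assoc, h1, hj]
    have h5 := Spec.map_injective h4
    exact congrArg CommRingCat.Hom.hom h5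
  · letI : Algebra ℚ V := (i.comp (algebraMap ℚ Q)).toAlgebra
    let κ := IsLocalRing.ResidueField V
    let _ : Algebra ℚ κ := ((IsLocalRing.residue V).comp (algebraMap ℚ V)).toAlgebra
    have hfV : (φ ≫ pullback.fst 𝓗.s (Spec.map (CommRingCat.ofHom (algebraMap ℚ Q)))) ≫ 𝓗.s =
        Spec.map (CommRingCat.ofHom (algebraMap ℚ V)) := by
      rw [Category.assoc, pullback.condition, ← Category.assoc, h2, ← Spec.map_comp,
        ← CommRingCat.ofHom_comp]
    let fV : PointsOver 𝓗.H 𝓗.s V := ⟨_, hfV⟩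
    -- the generic point
    have hKeq : (𝓗.Φ K yK).1 = satur K ((𝓗.Φ V fV).1.map
        (MvPolynomial.map (σ := Fin 4) (algebraMap V K))) := by
      refine 𝓗.natural V K
        { toRingHom := algebraMap V K, commutes' := fun q => ?_ } fV yK ?_
      · exact RingHom.congr_fun (RingHom.ext_rat ((algebraMap V K).comp (algebraMap ℚ V))
          (algebraMap ℚ K)) q
      · rw [hyK, ← h1, Category.assoc]
    -- the closed point
    let fκ : PointsOver 𝓗.H 𝓗.s κ := pull 𝓗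
      { toRingHom := IsLocalRing.residue V, commutes' := fun q => rfl } fV
    have hκ : (𝓗.Φ κ fκ).1 = satur κ ((𝓗.Φ V fV).1.map
        (MvPolynomial.map (σ := Fin 4) (IsLocalRing.residue V))) := Φ_pull 𝓗 _ fV
    have hκ' : (𝓗.Φ κ fκ).1 = satur κ ((𝓗.Φ Q f).1.map
        (MvPolynomial.map (σ := Fin 4) ((IsLocalRing.residue V).comp i))) := by
      refine 𝓗.natural Q κ
        { toRingHom := (IsLocalRing.residue V).comp i, commutes' := fun q => ?_ } f fκ ?_
      · exact RingHom.congr_fun (RingHom.ext_rat (((IsLocalRing.residue V).comp i).comp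
          (algebraMap ℚ Q)) (algebraMap ℚ κ)) q
      · change Spec.map (CommRingCat.ofHom (IsLocalRing.residue V)) ≫ (φ ≫ pullback.fst _ _) = _
        rw [← Category.assoc, h3, Category.assoc]
        unfold secOf
        rw [pullback.lift_fst]
    have hres : Function.Surjective (algebraMap V κ) := IsLocalRing.residue_surjective
    have e1 : EqHigh (sp V κ (𝓗.Φ K yK).1) (𝓗.Φ κ fκ).1 :=
      sp_of_family hres (𝓗.Φ V fV).2 hKeq hκ (𝓗.Φ K yK).2 (𝓗.Φ κ fκ).2
    have e2 := eqHigh_satur ((IsLocalRing.residue V).comp i) (𝓗.Φ Q f).2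
      (by rw [← hκ']; exact (𝓗.Φ κ fκ).2)
    rw [← hκ'] at e2
    exact e1.trans e2.symm

/-- Two curves of the family which lie on one irreducible closed subset have the same
parameter. -/
theorem no_common (𝓗 : HilbP3 28 (-872)) [CharZero Q] {w w' : Q} (hw : w ^ 2 + w + 1 = 0)
    (hw' : w' ^ 2 + w' + 1 = 0) {c c' : Cfg Q 9 10} (hc : IsConf w c) (hc' : IsConf w' c')
    (f f' : PointsOver 𝓗.H 𝓗.s Q) (hf : (𝓗.Φ Q f).1 = c.J) (hf' : (𝓗.Φ Q f').1 = c'.J)
    {Z : Set (bcH 𝓗 Q)} (hZ : IsIrreducible Z) (hfZ : ptOf 𝓗 f ∈ Z) (hfZ' : ptOf 𝓗 f' ∈ Z) :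
    w = w' := by
  have hη := hZ.isGenericPoint_genericPoint_closure
  set η := hZ.genericPoint with hηdef
  have s1 : η ⤳ ptOf 𝓗 f := hη.specializes (subset_closure hfZ)
  have s2 : η ⤳ ptOf 𝓗 f' := hη.specializes (subset_closure hfZ')
  let κη := (bcH 𝓗 Q).residueField η
  let K := AlgebraicClosure κη
  let y : Spec (CommRingCat.of K) ⟶ bcH 𝓗 Q :=
    Spec.map (CommRingCat.ofHom (algebraMap κη K)) ≫ (bcH 𝓗 Q).fromSpecResidueField η
  have hy : y (⟨⊥, Ideal.isPrime_bot⟩ : PrimeSpectrum K) = η := by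
    change (Spec.map (CommRingCat.ofHom (algebraMap κη K)) ≫
      (bcH 𝓗 Q).fromSpecResidueField η) _ = η
    rw [Scheme.Hom.comp_apply]
    exact Scheme.fromSpecResidueField_apply _ _
  obtain ⟨j, hj⟩ : ∃ j : Q →+* K, y ≫ pullback.snd _ _ = Spec.map (CommRingCat.ofHom j) := by
    refine ⟨(Spec.preimage (y ≫ pullback.snd _ _)).hom, ?_⟩
    exact (Spec.map_preimage _).symm
  let _ : Algebra Q K := j.toAlgebra
  let _ : Algebra ℚ K := (j.comp (algebraMap ℚ Q)).toAlgebra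
  have hyK : (y ≫ pullback.fst _ _) ≫ 𝓗.s = Spec.map (CommRingCat.ofHom (algebraMap ℚ K)) := by
    rw [Category.assoc, pullback.condition, ← Category.assoc, hj, ← Spec.map_comp,
      ← CommRingCat.ofHom_comp]
  let yK : PointsOver 𝓗.H 𝓗.s K := ⟨_, hyK⟩
  obtain ⟨V, i, hi, hV⟩ := special 𝓗 f y (by rw [hy]; exact s1) yK rfl j hj
  obtain ⟨V', i', hi', hV'⟩ := special 𝓗 f' y (by rw [hy]; exact s2) yK rfl j hj
  let _ : Algebra Q V := i.toAlgebra
  let _ : Algebra Q V' := i'.toAlgebra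
  let k := IsLocalRing.ResidueField V
  let k' := IsLocalRing.ResidueField V'
  let _ : Algebra Q k := ((IsLocalRing.residue V).comp i).toAlgebra
  let _ : Algebra Q k' := ((IsLocalRing.residue V').comp i').toAlgebra
  have t1 : IsScalarTower Q V K := IsScalarTower.of_algebraMap_eq' hi.symm
  have t2 : IsScalarTower Q V' K := IsScalarTower.of_algebraMap_eq' hi'.symm
  have t3 : IsScalarTower Q V k := IsScalarTower.of_algebraMap_eq' rfl
  have t4 : IsScalarTower Q V' k' := IsScalarTower.of_algebraMap_eq' rfl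
  have e1 := hV inferInstance rfl
  have e2 := hV' inferInstance rfl
  rw [hf] at e1
  rw [hf'] at e2
  have e3 := e1.trans (eqHigh_map_conf _ hw hc)
  have e4 := e2.trans (eqHigh_map_conf _ hw' hc')
  have hfam := (𝓗.Φ K yK).2
  exact CT (V := V) (V' := V') (k := k) (k' := k') IsLocalRing.residue_surjective
    IsLocalRing.residue_surjective hw hw' _ (hc.map (algebraMap Q k)) _
    (hc'.map (algebraMap Q k')) (𝓗.Φ K yK).1 hfam.1 hfam.2.1 e3 e4

/-- The components through the point of the curve are moved. -/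
theorem moved (𝓗 : HilbP3 28 (-872)) [CharZero Q] {w : Q} (hw : w ^ 2 + w + 1 = 0)
    {c : Cfg Q 9 10} (hc : IsConf w c)
    (f : PointsOver 𝓗.H 𝓗.s Q) (hf : (𝓗.Φ Q f).1 = c.J)
    {Z : Set (bcH 𝓗 Q)} (hZ : IsIrreducible Z) (hfZ : ptOf 𝓗 f ∈ Z) (σ : Q ≃ₐ[ℚ] Q)
    (hσ : galAct 𝓗 σ '' Z = Z) : σ w = w := by
  have hw' : (σ w) ^ 2 + σ w + 1 = 0 := by
    rw [← map_pow, ← map_add, ← map_one σ, ← map_add, hw, map_zero]
  let f' := pull 𝓗 σ.toAlgHom f
  have h1 : galAct 𝓗 σ (ptOf 𝓗 f) = ptOf 𝓗 f' := galAct_ptOf 𝓗 σ f f' rfl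
  have h2 : ptOf 𝓗 f' ∈ Z := by
    rw [← h1, ← hσ]
    exact ⟨_, hfZ, rfl⟩
  have hc' := hc.map (σ : Q →+* Q)
  obtain ⟨f'', hf''⟩ : ∃ f'' : PointsOver 𝓗.H 𝓗.s Q, (𝓗.Φ Q f'').1 = (c.map (σ : Q →+* Q)).J :=
    ⟨(𝓗.Φ Q).symm ⟨_, conf_mem hw' hc'⟩, by rw [Equiv.apply_symm_apply]⟩
  have h3 : f' = f'' := by
    apply (𝓗.Φ Q).injective
    apply Subtype.ext
    have m1 := (𝓗.Φ Q f').2
    have m2 := (𝓗.Φ Q f'').2
    refine eq_of_eqHigh m1.1 m2.1 m1.2.1 m2.2.1 ?_
    have e0 : (𝓗.Φ Q f').1 = satur Q (c.J.map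
        (MvPolynomial.map (σ := Fin 4) (σ : Q →+* Q))) := by
      rw [← hf]
      exact Φ_pull 𝓗 σ.toAlgHom f
    have e1 := eqHigh_satur (σ : Q →+* Q) (conf_mem hw hc) (by rw [← e0]; exact m1)
    rw [← e0] at e1
    rw [hf'']
    exact e1.symm.trans (eqHigh_map_conf _ hw hc)
  rw [h3] at h2
  exact (no_common 𝓗 hw hw' hc hc' f f'' hf hf'' hZ hfZ h2).symm

end fin

end Pool.Agent.Helper924.HS
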