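import Mathlib
import Pool.Agent.Helper924.HS.Fin

set_option autoImplicit false

open CategoryTheory CategoryTheory.Limits AlgebraicGeometry MvPolynomial

namespace Pool.Agent.Helper924.HS

lemma IsCurve.isConf {F : Type} [Field F] [CharZero F] {w : F} (hw : w ^ 2 + w + 1 = 0)
    {c : Cfg F 9 10} (hc : IsCurve w c) : IsConf w c where
  hA := hc.hA
  hN := hc.hN
  ha := hc.ha
  good :=
    { hA := fun i j h => by rw [hc.hA]; exact conf_A hw i j h
      hN := fun i j h => by rw [hc.hN]; exact conf_N hw i j h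
      hAN := fun i j => by rw [hc.hA, hc.hN]; exact conf_ne hw i j
      hg := hc.hg
      hf := hc.hf
      cop := hc.cop
      tan := hc.tan
      big := fun i => by
        rw [hc.hA, hc.hN, conf_inc hw, hc.ha]
        omega }

lemma IsConf.isCurve {F : Type} [Field F] {w : F}
    {c : Cfg F 9 10} (hc : IsConf w c) : IsCurve w c where
  hA := hc.hA
  hN := hc.hN
  ha := hc.ha
  hg := hc.good.hg
  hf := hc.good.hf
  cop := hc.good.cop
  tan := hc.good.tan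

lemma exists_root : ∃ w : AlgebraicClosure ℚ, w ^ 2 + w + 1 = 0 := by
  obtain ⟨x, hx⟩ := IsAlgClosed.exists_eq_mul_self (-3 : AlgebraicClosure ℚ)
  refine ⟨(x - 1) / 2, ?_⟩
  field_simp
  linear_combination -hx

section mv
attribute [-instance] DivisionRing.toRatAlgebra

lemma exists_moving_aux (w : AlgebraicClosure ℚ) (hw : w ^ 2 + w + 1 = 0) :
    ∃ σ : AlgebraicClosure ℚ ≃ₐ[ℚ] AlgebraicClosure ℚ, σ w ≠ w := by
  by_contra hcon
  push Not at hcon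
  have h1 : w ∈ (⊥ : IntermediateField ℚ (AlgebraicClosure ℚ)) := by
    rw [InfiniteGalois.mem_bot_iff_fixed]
    exact hcon
  rw [IntermediateField.mem_bot] at h1
  obtain ⟨q, rfl⟩ := h1
  have h2 : q ^ 2 + q + 1 = 0 := by
    have h3 : algebraMap ℚ (AlgebraicClosure ℚ) (q ^ 2 + q + 1) =
        algebraMap ℚ (AlgebraicClosure ℚ) 0 := by
      rw [map_add, map_add, map_pow, map_one, map_zero]
      exact hw
    exact (algebraMap ℚ (AlgebraicClosure ℚ)).injective h3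
  nlinarith [sq_nonneg (2 * q + 1)]

end mv

lemma exists_moving (inst : Algebra ℚ (AlgebraicClosure ℚ)) (w : AlgebraicClosure ℚ)
    (hw : w ^ 2 + w + 1 = 0) : ∃ σ : AlgebraicClosure ℚ ≃ₐ[ℚ] AlgebraicClosure ℚ, σ w ≠ w := by
  obtain rfl : inst = AlgebraicClosure.instAlgebra ℚ := Subsingleton.elim _ _
  exact exists_moving_aux w hw

theorem main (𝓗 : HilbP3 28 (-872)) (w : AlgebraicClosure ℚ) (hw : w ^ 2 + w + 1 = 0)
    (c : Cfg (AlgebraicClosure ℚ) 9 10) (hc : IsCurve w c) :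
    ∃ f : PointsOver 𝓗.H 𝓗.s (AlgebraicClosure ℚ),
      (𝓗.Φ (AlgebraicClosure ℚ) f).1 = c.J ∧
      (∃ Z ∈ irreducibleComponents (bcH 𝓗 (AlgebraicClosure ℚ)), ptOf 𝓗 f ∈ Z) ∧
      ∀ Z ∈ irreducibleComponents (bcH 𝓗 (AlgebraicClosure ℚ)), ptOf 𝓗 f ∈ Z →
        (∃ σ : AlgebraicClosure ℚ ≃ₐ[ℚ] AlgebraicClosure ℚ, galAct 𝓗 σ '' Z ≠ Z) ∧
        ∀ σ : AlgebraicClosure ℚ ≃ₐ[ℚ] AlgebraicClosure ℚ, galAct 𝓗 σ '' Z = Z → σ w = w := by
  have hcc := hc.isConf hw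
  have hf : (𝓗.Φ _ ((𝓗.Φ _).symm ⟨_, conf_mem hw hcc⟩)).1 = c.J := by
    rw [Equiv.apply_symm_apply]
  refine ⟨(𝓗.Φ _).symm ⟨_, conf_mem hw hcc⟩, hf, ?_, fun Z hZ hfZ => ?_⟩
  · exact ⟨irreducibleComponent _, irreducibleComponent_mem_irreducibleComponents _,
      mem_irreducibleComponent⟩
  · have key : ∀ σ : AlgebraicClosure ℚ ≃ₐ[ℚ] AlgebraicClosure ℚ, galAct 𝓗 σ '' Z = Z → σ w = w :=
      fun σ hσ => moved 𝓗 hw hcc _ hf hZ.1 hfZ σ hσ
    obtain ⟨σ, hσ⟩ := exists_moving _ w hw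
    exact ⟨⟨σ, fun h => hσ (key σ h)⟩, key⟩

end Pool.Agent.Helper924.HS
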